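import Mathlib

open Filter Topology MeasureTheory
open scoped ENNReal

namespace Pool.Agent.P.MP_23b0f8_an

theorem probCircle : IsProbabilityMeasure (volume : Measure UnitAddCircle) :=
  ⟨UnitAddCircle.measure_univ⟩

attribute [local instance] probCircle

theorem avg_fourier {γ : ℝ} (hγ : Irrational γ) {n : ℤ} (hn : n ≠ 0) :
    ∃ C : ℝ, ∀ (y : UnitAddCircle) (M : ℕ),
      ‖∑ m ∈ Finset.range M, fourier n (y + ((m * γ : ℝ) : UnitAddCircle))‖ ≤ C := by
  set ζ : ℂ := fourier n ((γ : ℝ) : UnitAddCircle) with hζ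
  have hζ1 : ζ ≠ 1 := by
    intro h
    rw [hζ, fourier_coe_apply] at h
    obtain ⟨k, hk⟩ := Complex.exp_eq_one_iff.mp h
    have h2 : (2 * Real.pi * Complex.I : ℂ) ≠ 0 := by simp [Real.pi_ne_zero]
    have h3 : ((n : ℂ) * γ) = k := by
      apply mul_left_cancel₀ h2
      rw [mul_comm _ (k : ℂ), ← hk]
      simp
      ring
    have h4 : (n : ℝ) * γ = k := by exact_mod_cast h3
    have := hγ.intCast_mul hn
    rw [h4] at this
    exact Int.not_irrational k this
  have hnorm : ∀ z : UnitAddCircle, ‖fourier n z‖ = 1 := fun z => by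
    rw [fourier_apply]; exact Circle.norm_coe _
  have hpow : ∀ (y : UnitAddCircle) (m : ℕ),
      fourier n (y + ((m * γ : ℝ) : UnitAddCircle)) = fourier n y * ζ ^ m := by
    intro y m
    obtain ⟨x, rfl⟩ := QuotientAddGroup.mk_surjective y
    rw [← AddCircle.coe_add, hζ, fourier_coe_apply, fourier_coe_apply, fourier_coe_apply,
      ← Complex.exp_nat_mul, ← Complex.exp_add]
    congr 1
    push_cast
    ring
  refine ⟨2 / ‖ζ - 1‖, fun y M => ?_⟩
  simp_rw [hpow]
  rw [← Finset.mul_sum, norm_mul, hnorm, one_mul, geom_sum_eq hζ1, norm_div]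
  gcongr
  calc ‖ζ ^ M - 1‖ ≤ ‖ζ ^ M‖ + ‖(1 : ℂ)‖ := norm_sub_le _ _
    _ = 2 := by rw [norm_pow, hζ, hnorm]; norm_num

theorem equi_cont {γ : ℝ} (hγ : Irrational γ) {ι : Type*} {l : Filter ι}
    (y : ι → UnitAddCircle) (M : ι → ℕ) (hM : Tendsto M l atTop) (f : C(UnitAddCircle, ℂ)) :
    Tendsto (fun i => ((M i : ℝ)⁻¹ : ℝ) •
      ∑ m ∈ Finset.range (M i), f (y i + ((m * γ : ℝ) : UnitAddCircle))) l (𝓝 (∫ z, f z)) := by
  have hMR : Tendsto (fun i => (M i : ℝ)) l atTop := tendsto_natCast_atTop_atTop.comp hM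
  have hint : ∀ g : C(UnitAddCircle, ℂ), Integrable g := fun g =>
    g.continuous.integrable_of_hasCompactSupport (HasCompactSupport.of_compactSpace _)
  have hspan : ∀ g ∈ Submodule.span ℂ (Set.range (@fourier 1)),
      Tendsto (fun i => ((M i : ℝ)⁻¹ : ℝ) •
        ∑ m ∈ Finset.range (M i), g (y i + ((m * γ : ℝ) : UnitAddCircle))) l (𝓝 (∫ z, g z)) := by
    intro g hg
    induction hg using Submodule.span_induction with
    | mem x hx =>
      obtain ⟨n, rfl⟩ := hx
      by_cases hn : n = 0
      · subst hn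
        simp only [fourier_zero, Finset.sum_const, Finset.card_range, integral_const, probReal_univ,
          one_smul]
        refine tendsto_const_nhds.congr' ?_
        filter_upwards [hM.eventually_gt_atTop 0] with i hi
        have : (M i : ℂ) ≠ 0 := by exact_mod_cast hi.ne'
        simp [this]
      · have h0 : ∫ z : UnitAddCircle, fourier n z = 0 :=
          integral_eq_zero_of_add_right_eq_neg (fourier_add_half_inv_index hn one_pos)
        rw [h0]
        obtain ⟨C, hC⟩ := avg_fourier hγ hn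
        rw [tendsto_zero_iff_norm_tendsto_zero]
        have h1 : Tendsto (fun i => (M i : ℝ)⁻¹ * C) l (𝓝 0) := by
          simpa using (tendsto_inv_atTop_zero.comp hMR).mul_const C
        refine squeeze_zero (fun _ => norm_nonneg _) (fun i => ?_) h1
        rw [norm_smul, Real.norm_of_nonneg (by positivity)]
        gcongr
        exact hC _ _
    | zero => simpa using tendsto_const_nhds
    | add x y' _ _ hx hy =>
      simp only [ContinuousMap.add_apply, Finset.sum_add_distrib, smul_add]
      rw [integral_add (hint x) (hint y')]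
      exact hx.add hy
    | smul a x _ hx =>
      simp only [ContinuousMap.smul_apply, ← Finset.smul_sum]
      rw [integral_smul]
      simpa only [smul_comm a] using hx.const_smul a
  have hcl : f ∈ closure (Submodule.span ℂ (Set.range (@fourier 1)) : Set C(UnitAddCircle, ℂ)) := by
    rw [← Submodule.topologicalClosure_coe, span_fourier_closure_eq_top]
    trivial
  rw [Metric.tendsto_nhds]
  intro ε hε
  obtain ⟨g, hg, hfg⟩ := Metric.mem_closure_iff.mp hcl (ε / 3) (by positivity)
  have h1 := Metric.tendsto_nhds.mp (hspan g hg) (ε / 3) (by positivity)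
  have hpt : ∀ z, ‖f z - g z‖ ≤ dist f g := fun z => by
    rw [← dist_eq_norm]; exact ContinuousMap.dist_apply_le_dist z
  have h2 : dist (∫ z, g z) (∫ z, f z) ≤ dist f g := by
    rw [dist_comm, dist_eq_norm, ← integral_sub (hint f) (hint g)]
    simpa using norm_integral_le_of_norm_le_const (μ := (volume : Measure UnitAddCircle))
      (f := fun z => f z - g z) (C := dist f g) (.of_forall hpt)
  filter_upwards [h1, hM.eventually_gt_atTop 0] with i hi hi0
  have h3 : dist (((M i : ℝ)⁻¹ : ℝ) •
      ∑ m ∈ Finset.range (M i), f (y i + ((m * γ : ℝ) : UnitAddCircle)))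
      (((M i : ℝ)⁻¹ : ℝ) • ∑ m ∈ Finset.range (M i), g (y i + ((m * γ : ℝ) : UnitAddCircle)))
      ≤ dist f g := by
    rw [dist_eq_norm, ← smul_sub, ← Finset.sum_sub_distrib, norm_smul,
      Real.norm_of_nonneg (by positivity)]
    have hpos : (0 : ℝ) < M i := by exact_mod_cast hi0
    rw [inv_mul_le_iff₀ hpos]
    refine (norm_sum_le _ _).trans ?_
    refine (Finset.sum_le_sum (fun m _ => hpt _)).trans ?_
    simp
  have h4 := dist_triangle4 (((M i : ℝ)⁻¹ : ℝ) •
      ∑ m ∈ Finset.range (M i), f (y i + ((m * γ : ℝ) : UnitAddCircle)))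
      (((M i : ℝ)⁻¹ : ℝ) • ∑ m ∈ Finset.range (M i), g (y i + ((m * γ : ℝ) : UnitAddCircle)))
      (∫ z, g z) (∫ z, f z)
  linarith

theorem ae_continuous_mapping {Ω Ω' ι : Type*} [MeasurableSpace Ω] [TopologicalSpace Ω]
    [OpensMeasurableSpace Ω] [HasOuterApproxClosed Ω] [MeasurableSpace Ω'] [TopologicalSpace Ω']
    [OpensMeasurableSpace Ω'] {l : Filter ι} [l.IsCountablyGenerated]
    {ν : ι → ProbabilityMeasure Ω} {ν₀ : ProbabilityMeasure Ω} (hν : Tendsto ν l (𝓝 ν₀))
    {h : Ω → Ω'} (hm : Measurable h) (hc : ∀ᵐ x ∂(ν₀ : Measure Ω), ContinuousAt h x) :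
    Tendsto (fun i => (ν i).map hm.aemeasurable) l (𝓝 (ν₀.map hm.aemeasurable)) := by
  refine tendsto_of_forall_isClosed_limsup_le' fun F hF => ?_
  simp only [ProbabilityMeasure.toMeasure_map, Measure.map_apply hm hF.measurableSet]
  calc limsup (fun i => (ν i : Measure Ω) (h ⁻¹' F)) l
      ≤ limsup (fun i => (ν i : Measure Ω) (closure (h ⁻¹' F))) l :=
        limsup_le_limsup (.of_forall fun i => measure_mono subset_closure)
    _ ≤ (ν₀ : Measure Ω) (closure (h ⁻¹' F)) :=
        ProbabilityMeasure.limsup_measure_closed_le_of_tendsto hν isClosed_closure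
    _ ≤ (ν₀ : Measure Ω) (h ⁻¹' F) := by
        refine measure_mono_ae ?_
        filter_upwards [hc] with x hx hx'
        have := mem_closure_image hx hx'
        exact hF.closure_subset_iff.mpr (Set.image_preimage_subset h F) this

/-- The empirical measure of `M + 1` steps of the rotation. -/
noncomputable def emp (γ : ℝ) (y : UnitAddCircle) (M : ℕ) : ProbabilityMeasure UnitAddCircle :=
  ⟨((M + 1 : ℕ) : ℝ≥0∞)⁻¹ •
    ∑ m ∈ Finset.range (M + 1), Measure.dirac (y + ((m * γ : ℝ) : UnitAddCircle)), by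
    constructor
    simp only [Measure.smul_apply, Measure.coe_finsetSum, Finset.sum_apply, measure_univ,
      Finset.sum_const, Finset.card_range, nsmul_eq_mul, mul_one, smul_eq_mul]
    exact ENNReal.inv_mul_cancel (by simp) (by simp)⟩

theorem integral_emp {E : Type*} [NormedAddCommGroup E] [NormedSpace ℝ E] [CompleteSpace E]
    (γ : ℝ) (y : UnitAddCircle) (M : ℕ) (f : UnitAddCircle → E) :
    ∫ z, f z ∂(emp γ y M : Measure UnitAddCircle) = (((M + 1 : ℕ) : ℝ)⁻¹ : ℝ) •
      ∑ m ∈ Finset.range (M + 1), f (y + ((m * γ : ℝ) : UnitAddCircle)) := by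
  change ∫ z, f z ∂(((M + 1 : ℕ) : ℝ≥0∞)⁻¹ •
    ∑ m ∈ Finset.range (M + 1), Measure.dirac (y + ((m * γ : ℝ) : UnitAddCircle))) = _
  rw [integral_smul_measure, integral_finsetSum_measure (fun m _ => integrable_dirac (by simp))]
  simp only [integral_dirac]
  congr 1
  rw [ENNReal.toReal_inv]
  norm_cast

theorem equi {γ : ℝ} (hγ : Irrational γ) {ι : Type*} {l : Filter ι} [l.IsCountablyGenerated]
    (y : ι → UnitAddCircle) (M : ι → ℕ) (hM : Tendsto M l atTop) {h : UnitAddCircle → ℝ}
    (hm : Measurable h) {C : ℝ} (hb : ∀ z, |h z| ≤ C) (hc : ∀ᵐ z, ContinuousAt h z) :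
    Tendsto (fun i => (M i : ℝ)⁻¹ *
      ∑ m ∈ Finset.range (M i), h (y i + ((m * γ : ℝ) : UnitAddCircle))) l (𝓝 (∫ z, h z)) := by
  let ν₀ : ProbabilityMeasure UnitAddCircle := ⟨volume, probCircle⟩
  have hM1 : ∀ᶠ i in l, M i - 1 + 1 = M i := by
    filter_upwards [hM.eventually_gt_atTop 0] with i hi
    omega
  have hν : Tendsto (fun i => emp γ (y i) (M i - 1)) l (𝓝 ν₀) := by
    rw [ProbabilityMeasure.tendsto_iff_forall_integral_rclike_tendsto ℂ]
    intro f
    refine (equi_cont hγ y M hM f.toContinuousMap).congr' ?_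
    filter_upwards [hM1] with i hi
    rw [integral_emp, hi]
    rfl
  have h2 := ae_continuous_mapping hν hm hc
  rw [ProbabilityMeasure.tendsto_iff_forall_integral_tendsto] at h2
  let g : BoundedContinuousFunction ℝ ℝ :=
    BoundedContinuousFunction.ofNormedAddCommGroup (fun x => max (-C) (min x C)) (by fun_prop) |C|
      (fun x => by
        rw [Real.norm_eq_abs, abs_le]
        constructor
        · exact le_max_of_le_left (neg_le_neg (le_abs_self C))
        · exact max_le (neg_le_abs C) ((min_le_right _ _).trans (le_abs_self C)))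
  have hg : ∀ z, g (h z) = h z := fun z => by
    have := abs_le.mp (hb z)
    change max (-C) (min (h z) C) = h z
    rw [min_eq_left this.2, max_eq_right this.1]
  have h3 := h2 g
  simp only [ProbabilityMeasure.toMeasure_map] at h3
  simp only [integral_map hm.aemeasurable g.continuous.aestronglyMeasurable, hg] at h3
  refine h3.congr' ?_
  filter_upwards [hM1] with i hi
  rw [integral_emp, hi, smul_eq_mul]

end Pool.Agent.P.MP_23b0f8_an
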