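import Mathlib
import Pool.Agent.P.MP_23b0f8_an.Equi

open Filter Topology MeasureTheory
open scoped ENNReal

namespace Pool.Agent.P.MP_23b0f8_an

attribute [local instance] probCircle

/-- An additive cocycle over the rotation by `γ` with gaps between `α > 0` and `β`. -/
structure Cocycle (γ : ℝ) where
  F : ℤ → UnitAddCircle → ℝ
  α : ℝ
  β : ℝ
  α_pos : 0 < α
  meas : ∀ k, Measurable (F k)
  cont : ∀ k, ∀ᵐ z, ContinuousAt (F k) z
  add : ∀ k l z, F (k + l) z = F k z + F l (z + ((k * γ : ℝ) : UnitAddCircle))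
  lower : ∀ z, α ≤ F 1 z
  upper : ∀ z, F 1 z ≤ β

theorem summable_decay {a : ℝ} (ha : 0 < a) :
    Summable fun k : ℤ => ((1 + a * |(k : ℝ)|) ^ 2)⁻¹ := by
  have h1 : Summable fun k : ℤ => (a ^ 2)⁻¹ * (1 / (k : ℝ) ^ 2) :=
    (Real.summable_one_div_int_pow.mpr (by norm_num)).mul_left _
  refine Summable.of_norm_bounded_eventually h1 ?_
  have : ∀ᶠ k : ℤ in cofinite, k ≠ 0 := eventually_cofinite_ne 0
  filter_upwards [this] with k hk
  have hk' : (0 : ℝ) < |(k : ℝ)| := by simpa using hk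
  rw [Real.norm_of_nonneg (by positivity), one_div, ← mul_inv, ← sq_abs (k : ℝ), ← mul_pow]
  gcongr
  linarith

theorem schwartz_decay (f : SchwartzMap ℝ ℂ) (k : ℕ) :
    ∃ C : ℝ, 0 ≤ C ∧ ∀ x : ℝ, ‖f x‖ ≤ C * ((1 + |x|) ^ k)⁻¹ := by
  refine ⟨2 ^ k * (Finset.Iic (k, 0)).sup (fun m => SchwartzMap.seminorm ℝ m.1 m.2) f,
    by positivity, fun x => ?_⟩
  have := SchwartzMap.one_add_le_sup_seminorm_apply (𝕜 := ℝ) (m := (k, 0)) (k := k) (n := 0)
    le_rfl le_rfl f x
  rw [norm_iteratedFDeriv_zero, Real.norm_eq_abs] at this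
  rw [← div_eq_mul_inv, le_div_iff₀ (by positivity), mul_comm]
  exact this

theorem locallyFinite_of_temperate (μ : Measure ℝ) [h : μ.HasTemperateGrowth] :
    IsLocallyFiniteMeasure μ := by
  obtain ⟨n, hn⟩ := h.exists_integrable
  have : IsFiniteMeasureOnCompacts μ := by
    constructor
    intro K hK
    obtain ⟨R, hR⟩ := hK.isBounded.subset_closedBall 0
    have hpos : 0 < (1 + |R|) ^ (-(n : ℝ)) := by positivity
    refine lt_of_le_of_lt (measure_mono fun x hx => ?_) (hn.measure_norm_ge_lt_top hpos)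
    have h1 : ‖x‖ ≤ |R| := (mem_closedBall_zero_iff.mp (hR hx)).trans (le_abs_self R)
    simp only [Set.mem_ofPred_eq]
    rw [Real.norm_of_nonneg (by positivity)]
    exact Real.rpow_le_rpow_of_nonpos (by positivity) (by linarith) (by simp)
  infer_instance

namespace Cocycle

variable {γ : ℝ} (c : Cocycle γ)

theorem F_zero (z : UnitAddCircle) : c.F 0 z = 0 := by
  have := c.add 0 0 z
  simp at this
  exact this

theorem α_le_β : c.α ≤ c.β := (c.lower 0).trans (c.upper 0)

theorem β_pos : 0 < c.β := c.α_pos.trans_le c.α_le_β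

theorem sub (n m : ℤ) (z : UnitAddCircle) :
    c.F n z - c.F m z = c.F (n - m) (z + ((m * γ : ℝ) : UnitAddCircle)) := by
  have := c.add m (n - m) z
  rw [add_sub_cancel] at this
  linarith

theorem nat_bounds (n : ℕ) (z : UnitAddCircle) :
    c.α * n ≤ c.F n z ∧ c.F n z ≤ c.β * n := by
  induction n with
  | zero => simp [c.F_zero]
  | succ n ih =>
    have h1 := c.add n 1 z
    have h2 := c.lower (z + (((n : ℤ) * γ : ℝ) : UnitAddCircle))
    have h3 := c.upper (z + (((n : ℤ) * γ : ℝ) : UnitAddCircle))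
    push_cast at h1 h2 h3 ⊢
    constructor <;> linarith [ih.1, ih.2]

theorem sub_bounds {n m : ℤ} (h : m ≤ n) (z : UnitAddCircle) :
    c.α * (n - m) ≤ c.F n z - c.F m z ∧ c.F n z - c.F m z ≤ c.β * (n - m) := by
  obtain ⟨d, hd⟩ := Int.le.dest h
  have := c.nat_bounds d (z + ((m * γ : ℝ) : UnitAddCircle))
  have h2 : n - m = d := by omega
  have h3 : (n : ℝ) - m = d := by exact_mod_cast h2
  rw [c.sub, h2, h3]
  exact this

theorem abs_bounds (k : ℤ) (z : UnitAddCircle) :
    c.α * |(k : ℝ)| ≤ |c.F k z| ∧ |c.F k z| ≤ c.β * |(k : ℝ)| := by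
  have ha := c.α_pos
  rcases le_total 0 k with hk | hk
  · have := c.sub_bounds hk z
    have hk' : (0 : ℝ) ≤ k := by exact_mod_cast hk
    rw [c.F_zero] at this
    simp only [Int.cast_zero, sub_zero] at this
    rw [abs_of_nonneg hk', abs_of_nonneg (le_trans (by positivity) this.1)]
    exact this
  · have := c.sub_bounds hk z
    have hk' : (k : ℝ) ≤ 0 := by exact_mod_cast hk
    rw [c.F_zero] at this
    simp only [Int.cast_zero, zero_sub] at this
    have h0 : 0 ≤ c.α * -(k : ℝ) := mul_nonneg ha.le (by linarith)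
    rw [abs_of_nonpos hk', abs_of_nonpos (by linarith [this.1])]
    exact this

theorem strictMono (z : UnitAddCircle) : StrictMono fun n => c.F n z := by
  intro m n h
  have := (c.sub_bounds h.le z).1
  have h2 : (0 : ℝ) < n - m := by
    have : (m : ℝ) < n := by exact_mod_cast h
    linarith
  have := mul_pos c.α_pos h2
  simp only
  linarith

/-- The mean gap. -/
noncomputable def mean : ℝ := ∫ z, c.F 1 z

theorem integrable_F (k : ℤ) : Integrable (c.F k) :=
  Integrable.of_bound (c.meas k).aestronglyMeasurable (c.β * |(k : ℝ)|)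
    (.of_forall fun z => (c.abs_bounds k z).2)

theorem α_le_mean : c.α ≤ c.mean := by
  have := integral_mono (integrable_const c.α) (c.integrable_F 1) c.lower
  simpa [mean] using this

theorem mean_le_β : c.mean ≤ c.β := by
  have := integral_mono (c.integrable_F 1) (integrable_const c.β) c.upper
  simpa [mean] using this

theorem mean_pos : 0 < c.mean := c.α_pos.trans_le c.α_le_mean

/-- The autocorrelation measure. -/
noncomputable def eta : Measure ℝ :=
  ENNReal.ofReal c.mean⁻¹ • Measure.sum fun k : ℤ => Measure.map (c.F k) volume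

section

variable {E : Type*} [NormedAddCommGroup E] [NormedSpace ℝ E] {u : ℝ → E} {C : ℝ}

omit [NormedSpace ℝ E] in
theorem norm_comp_le (hb : ∀ x, ‖u x‖ ≤ C * ((1 + |x|) ^ 2)⁻¹) (k : ℤ) (z : UnitAddCircle) :
    ‖u (c.F k z)‖ ≤ C * ((1 + c.α * |(k : ℝ)|) ^ 2)⁻¹ := by
  have hC : 0 ≤ C := by simpa using (norm_nonneg _).trans (hb 0)
  have ha := c.α_pos
  refine (hb _).trans ?_
  gcongr
  exact (c.abs_bounds k z).1

omit [NormedSpace ℝ E] in
theorem integrable_comp (hu : Continuous u) (hb : ∀ x, ‖u x‖ ≤ C * ((1 + |x|) ^ 2)⁻¹) (k : ℤ) :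
    Integrable fun z => u (c.F k z) :=
  Integrable.of_bound (hu.comp_aestronglyMeasurable (c.meas k).aestronglyMeasurable) _
    (.of_forall (c.norm_comp_le hb k))

omit [NormedSpace ℝ E] in
theorem integral_norm_comp_le (hu : Continuous u) (hb : ∀ x, ‖u x‖ ≤ C * ((1 + |x|) ^ 2)⁻¹)
    (k : ℤ) : ∫ z, ‖u (c.F k z)‖ ≤ C * ((1 + c.α * |(k : ℝ)|) ^ 2)⁻¹ := by
  have := integral_mono (c.integrable_comp hu hb k).norm (integrable_const _) (c.norm_comp_le hb k)
  simpa using this

omit [NormedSpace ℝ E] in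
theorem integrable_sum (hu : Continuous u) (hb : ∀ x, ‖u x‖ ≤ C * ((1 + |x|) ^ 2)⁻¹) :
    Integrable u (Measure.sum fun k : ℤ => Measure.map (c.F k) volume) := by
  refine integrable_sum_measure (fun k => ?_) ?_
  · rw [integrable_map_measure hu.aestronglyMeasurable (c.meas k).aemeasurable]
    exact c.integrable_comp hu hb k
  · refine Summable.of_nonneg_of_le (fun k => integral_nonneg fun _ => norm_nonneg _)
      (fun k => ?_) ((summable_decay c.α_pos).mul_left C)
    rw [integral_map (c.meas k).aemeasurable hu.norm.aestronglyMeasurable]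
    exact c.integral_norm_comp_le hu hb k

omit [NormedSpace ℝ E] in
theorem integrable_eta (hu : Continuous u) (hb : ∀ x, ‖u x‖ ≤ C * ((1 + |x|) ^ 2)⁻¹) :
    Integrable u c.eta :=
  (c.integrable_sum hu hb).smul_measure ENNReal.ofReal_ne_top

theorem integral_eta (hu : Continuous u) (hb : ∀ x, ‖u x‖ ≤ C * ((1 + |x|) ^ 2)⁻¹) :
    ∫ x, u x ∂c.eta = c.mean⁻¹ • ∑' k : ℤ, ∫ z, u (c.F k z) := by
  rw [eta, integral_smul_measure, integral_sum_measure (c.integrable_sum hu hb),
    ENNReal.toReal_ofReal (inv_nonneg.mpr c.mean_pos.le)]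
  congr 2
  ext k
  rw [integral_map (c.meas k).aemeasurable hu.aestronglyMeasurable]

end

theorem eta_temperate : c.eta.HasTemperateGrowth := by
  refine ⟨2, ?_⟩
  refine c.integrable_eta (C := 1) ?_ fun x => ?_
  · exact Continuous.rpow_const (by fun_prop) fun x => Or.inl (by positivity)
  · rw [Real.norm_of_nonneg (by positivity), Real.rpow_neg (by positivity), Real.rpow_natCast,
      Real.norm_eq_abs, one_mul]

end Cocycle

end Pool.Agent.P.MP_23b0f8_an
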