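import Mathlib

open Filter Topology MeasureTheory Set
open scoped FourierTransform

namespace Pool.Agent.P.MP_23b0f8_an

/-- The step `p (n+1) - p n` of the staircase. -/
noncomputable def step (D γ x₀ : ℝ) (n : ℤ) : ℤ × ℤ :=
  if Int.fract (x₀ + n * γ) < D then (0, 1) else (1, 0)

/-- The node `p n` of the staircase, with `p 0 = 0`. -/
noncomputable def node (D γ x₀ : ℝ) (n : ℤ) : ℤ × ℤ :=
  ∑ i ∈ Finset.Ico 0 n, step D γ x₀ i - ∑ i ∈ Finset.Ico n 0, step D γ x₀ i

/-- The orthogonal projection of the nodes onto the line spanned by `(1 - D, D)`, in the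
coordinate given by the unit vector of that line. -/
noncomputable def circleSeq (D γ x₀ : ℝ) : Set ℝ :=
  Set.range fun n : ℤ =>
    ((1 - D) * ((node D γ x₀ n).1 : ℝ) + D * ((node D γ x₀ n).2 : ℝ)) / √((1 - D) ^ 2 + D ^ 2)

/-- `η` is the vague limit of the normalised difference measures of `Λ ∩ [-T, T]`. -/
def IsAutocorrelation (Λ : Set ℝ) (η : Measure ℝ) : Prop :=
  IsLocallyFiniteMeasure η ∧
    ∀ f : ℝ → ℝ, Continuous f → HasCompactSupport f →
      Tendsto (fun T : ℝ => (2 * T)⁻¹ * ∑ᶠ x ∈ Λ ∩ Icc (-T) T, ∑ᶠ y ∈ Λ ∩ Icc (-T) T, f (x - y))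
        atTop (𝓝 (∫ z, f z ∂η))

/-- The positive measure `μ` is the Fourier transform of `η` as a tempered distribution. -/
def IsFourierTransform (η μ : Measure ℝ) : Prop :=
  η.HasTemperateGrowth ∧ μ.HasTemperateGrowth ∧
    ∀ f : SchwartzMap ℝ ℂ, ∫ s, f s ∂μ = ∫ z, 𝓕 (f : ℝ → ℂ) z ∂η

/-- The autocorrelation and the diffraction measure exist, and the diffraction measure has
countably infinitely many atoms. -/
def DiffractionCondition (Λ : Set ℝ) : Prop :=
  (∃ η μ : Measure ℝ, IsAutocorrelation Λ η ∧ IsFourierTransform η μ) ∧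
    ∀ η μ : Measure ℝ, IsAutocorrelation Λ η → IsFourierTransform η μ →
      {s : ℝ | μ {s} ≠ 0}.Countable ∧ {s : ℝ | μ {s} ≠ 0}.Infinite

end Pool.Agent.P.MP_23b0f8_an
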