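import Mathlib
import Pool.Agent.P.MP_23b0f8_an.Defs
import Pool.Agent.P.MP_23b0f8_an.Cocycle

open Filter Topology MeasureTheory
open scoped ENNReal

namespace Pool.Agent.P.MP_23b0f8_an

attribute [local instance] probCircle

namespace Cocycle

variable {γ : ℝ} (c : Cocycle γ)

theorem exists_upper (z : UnitAddCircle) (T : ℝ) : ∃ B : ℤ, ∀ n, c.F n z ≤ T ↔ n ≤ B := by
  have ha := c.α_pos
  obtain ⟨N, hN⟩ := exists_nat_gt (|T| / c.α)
  rw [div_lt_iff₀ ha] at hN
  have hT := abs_le.mp (le_refl |T|)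
  obtain ⟨B, hB, hB'⟩ := Int.exists_greatest_of_bdd (P := fun n => c.F n z ≤ T) ⟨N, fun n hn => by
      by_contra hcon
      have h1 := (c.strictMono z) (not_le.mp hcon)
      have h2 := (c.nat_bounds N z).1
      simp only at h1
      linarith⟩ ⟨-N, by
      have := (c.sub_bounds (n := 0) (m := -N) (by omega) z).1
      rw [c.F_zero] at this
      push_cast at this
      linarith⟩
  exact ⟨B, fun n => ⟨hB' n, fun h => ((c.strictMono z).monotone h).trans hB⟩⟩

theorem exists_lower (z : UnitAddCircle) (T : ℝ) : ∃ A : ℤ, ∀ n, T ≤ c.F n z ↔ A ≤ n := by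
  have ha := c.α_pos
  obtain ⟨N, hN⟩ := exists_nat_gt (|T| / c.α)
  rw [div_lt_iff₀ ha] at hN
  have hT := abs_le.mp (le_refl |T|)
  obtain ⟨A, hA, hA'⟩ := Int.exists_least_of_bdd (P := fun n => T ≤ c.F n z) ⟨-N, fun n hn => by
      by_contra hcon
      have h1 := (c.strictMono z) (not_le.mp hcon)
      have h2 := (c.sub_bounds (n := 0) (m := -N) (by omega) z).1
      rw [c.F_zero] at h2
      push_cast at h2
      simp only at h1
      linarith⟩ ⟨N, by
      have := (c.nat_bounds N z).1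
      linarith⟩
  exact ⟨A, fun n => ⟨hA' n, fun h => hA.trans ((c.strictMono z).monotone h)⟩⟩

theorem F_nat_eq_sum (M : ℕ) (z : UnitAddCircle) :
    c.F M z = ∑ m ∈ Finset.range M, c.F 1 (z + ((m * γ : ℝ) : UnitAddCircle)) := by
  induction M with
  | zero => simp [c.F_zero]
  | succ M ih =>
    rw [Finset.sum_range_succ, ← ih]
    have := c.add M 1 z
    push_cast at this ⊢
    exact this

theorem sum_Icc_eq (h : UnitAddCircle → ℝ) (z : UnitAddCircle) (A B : ℤ) :
    ∑ m ∈ Finset.Icc A B, h (z + ((m * γ : ℝ) : UnitAddCircle)) =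
      ∑ m ∈ Finset.range (B + 1 - A).toNat,
        h (z + ((A * γ : ℝ) : UnitAddCircle) + ((m * γ : ℝ) : UnitAddCircle)) := by
  rw [Int.Icc_eq_finset_map, Finset.sum_map]
  refine Finset.sum_congr rfl fun m _ => ?_
  congr 1
  rw [add_assoc, ← AddCircle.coe_add]
  congr 2
  simp
  ring

theorem boundary_error (g : ℤ → ℤ → ℝ) (K : ℕ) (Cf : ℝ) (hg : ∀ m k, |g m k| ≤ Cf)
    (h0 : ∀ m k, (K : ℤ) < |k| → g m k = 0) (A B : ℤ) :
    |∑ m ∈ Finset.Icc A B, ∑ n ∈ Finset.Icc A B, g m (n - m) -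
      ∑ m ∈ Finset.Icc A B, ∑ k ∈ Finset.Icc (-(K : ℤ)) K, g m k| ≤
        2 * K * ((2 * K + 1) * Cf) := by
  have hCf : 0 ≤ Cf := (abs_nonneg _).trans (hg 0 0)
  have h1 : ∀ m, ∑ n ∈ Finset.Icc A B, g m (n - m) =
      ∑ k ∈ (Finset.Icc (-(K : ℤ)) K).filter (fun k => m + k ∈ Finset.Icc A B), g m k := by
    intro m
    have h2 : ∑ n ∈ Finset.Icc A B, g m (n - m) = ∑ k ∈ Finset.Icc (A - m) (B - m), g m k := by
      refine Finset.sum_bij (fun n _ => n - m) ?_ ?_ ?_ ?_
      · intro n hn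
        simp only [Finset.mem_Icc] at hn ⊢
        omega
      · intro a _ b _ h
        simpa using h
      · intro k hk
        simp only [Finset.mem_Icc] at hk
        exact ⟨k + m, by simp only [Finset.mem_Icc]; omega, by simp⟩
      · intro n _
        rfl
    rw [h2]
    symm
    refine Finset.sum_subset ?_ ?_
    · intro k hk
      simp only [Finset.mem_filter, Finset.mem_Icc] at hk ⊢
      omega
    · intro k hk hk'
      simp only [Finset.mem_filter, Finset.mem_Icc] at hk hk'
      apply h0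
      rw [lt_abs]
      omega
  have h3 : ∀ m, |∑ n ∈ Finset.Icc A B, g m (n - m) - ∑ k ∈ Finset.Icc (-(K : ℤ)) K, g m k| ≤
      if A + K ≤ m ∧ m ≤ B - K then 0 else (2 * K + 1) * Cf := by
    intro m
    rw [h1]
    split_ifs with hm
    · rw [Finset.filter_true_of_mem]
      · simp
      · intro k hk
        simp only [Finset.mem_Icc] at hk ⊢
        omega
    · rw [← Finset.sum_filter_add_sum_filter_not (Finset.Icc (-(K : ℤ)) K)
        (fun k => m + k ∈ Finset.Icc A B), sub_add_cancel_left, abs_neg]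
      refine (Finset.abs_sum_le_sum_abs _ _).trans ?_
      refine (Finset.sum_le_sum (fun k _ => hg m k)).trans ?_
      rw [Finset.sum_const, nsmul_eq_mul]
      gcongr
      have := Finset.card_filter_le (Finset.Icc (-(K : ℤ)) K) (fun k => ¬ m + k ∈ Finset.Icc A B)
      rw [Int.card_Icc] at this
      have h5 : ((K : ℤ) + 1 - -(K : ℤ)).toNat = 2 * K + 1 := by omega
      rw [h5] at this
      exact_mod_cast this
  rw [← Finset.sum_sub_distrib]
  refine (Finset.abs_sum_le_sum_abs _ _).trans ?_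
  refine (Finset.sum_le_sum (fun m _ => h3 m)).trans ?_
  rw [Finset.sum_ite, Finset.sum_const_zero, zero_add, Finset.sum_const, nsmul_eq_mul]
  gcongr
  have h6 : (Finset.Icc A B).filter (fun m => ¬ (A + K ≤ m ∧ m ≤ B - K)) ⊆
      Finset.Ico A (A + K) ∪ Finset.Ioc (B - K) B := by
    intro m hm
    simp only [Finset.mem_filter, Finset.mem_Icc, Finset.mem_union, Finset.mem_Ico,
      Finset.mem_Ioc] at hm ⊢
    omega
  have h7 := (Finset.card_le_card h6).trans (Finset.card_union_le _ _)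
  rw [Int.card_Ico, Int.card_Ioc] at h7
  have h8 : (A + K - A).toNat + (B - (B - K)).toNat = 2 * K := by omega
  rw [h8] at h7
  exact_mod_cast h7

theorem isAutocorrelation (hγ : Irrational γ) (z₀ : UnitAddCircle) :
    IsAutocorrelation (Set.range fun n => c.F n z₀) c.eta := by
  have ha := c.α_pos
  have hb := c.β_pos
  have hmean := c.mean_pos
  refine ⟨@locallyFinite_of_temperate _ c.eta_temperate, fun f hf hfs => ?_⟩
  choose B hB using c.exists_upper z₀
  choose A' hA' using c.exists_lower z₀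
  set A : ℝ → ℤ := fun T => A' (-T) with hAdef
  have hA : ∀ T n, -T ≤ c.F n z₀ ↔ A T ≤ n := fun T n => hA' (-T) n
  set M : ℝ → ℕ := fun T => (B T + 1 - A T).toNat with hM
  set y : ℝ → UnitAddCircle := fun T => z₀ + ((A T * γ : ℝ) : UnitAddCircle) with hy
  have hlen : ∀ T, 0 ≤ T → |c.F (M T) (y T) - 2 * T| ≤ c.β := by
    intro T hT
    have h1 : 0 ≤ B T := (hB T 0).mp (by rw [c.F_zero]; exact hT)
    have h2 : A T ≤ 0 := (hA T 0).mp (by rw [c.F_zero]; linarith)
    have h3 : ((M T : ℕ) : ℤ) = B T + 1 - A T := by simp only [hM]; omega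
    rw [h3, hy, ← c.sub]
    have h4 := (hB T (B T)).mpr le_rfl
    have h5 : T < c.F (B T + 1) z₀ := by
      by_contra hcon
      have := (hB T _).mp (not_lt.mp hcon)
      omega
    have h6 := (hA T (A T)).mpr le_rfl
    have h7 : c.F (A T - 1) z₀ < -T := by
      by_contra hcon
      have := (hA T _).mp (not_lt.mp hcon)
      omega
    have h8 := (c.sub_bounds (n := B T + 1) (m := B T) (by omega) z₀).2
    have h9 := (c.sub_bounds (n := A T) (m := A T - 1) (by omega) z₀).2
    push_cast at h8 h9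
    rw [abs_le]
    constructor <;> linarith
  have hMR : Tendsto (fun T => (M T : ℝ)) atTop atTop := by
    have h1 : Tendsto (fun T : ℝ => (2 / c.β) * T + (-1)) atTop atTop :=
      tendsto_atTop_add_const_right _ _ (tendsto_id.const_mul_atTop (by positivity))
    refine tendsto_atTop_mono' _ ?_ h1
    filter_upwards [eventually_ge_atTop 0] with T hT
    have h2 := (abs_le.mp (hlen T hT)).1
    have h3 := (c.nat_bounds (M T) (y T)).2
    have h4 : 2 / c.β * T + -1 = (2 * T - c.β) / c.β := by field_simp; ring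
    rw [h4, div_le_iff₀ hb]
    linarith
  have hMtop : Tendsto M atTop atTop := tendsto_natCast_atTop_iff.mp hMR
  have hinv : Tendsto (fun T : ℝ => (2 * T)⁻¹) atTop (𝓝 0) :=
    tendsto_inv_atTop_zero.comp (tendsto_id.const_mul_atTop (by norm_num))
  have hratio : Tendsto (fun T => (2 * T)⁻¹ * (M T : ℝ)) atTop (𝓝 c.mean⁻¹) := by
    have h1 := equi hγ y M hMtop (c.meas 1) (C := c.β * |((1 : ℤ) : ℝ)|)
      (fun z => (c.abs_bounds 1 z).2) (c.cont 1)
    simp only [← c.F_nat_eq_sum] at h1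
    have h2 : Tendsto (fun T => (2 * T)⁻¹ * c.F (M T) (y T)) atTop (𝓝 1) := by
      have h3 : Tendsto (fun T => (2 * T)⁻¹ * (c.F (M T) (y T) - 2 * T)) atTop (𝓝 0) := by
        refine squeeze_zero_norm' ?_ (by simpa using hinv.mul_const c.β)
        filter_upwards [eventually_ge_atTop 0] with T hT
        rw [norm_mul, Real.norm_of_nonneg (by positivity), Real.norm_eq_abs, mul_inv, mul_comm 2⁻¹]
        gcongr
        exact hlen T hT
      have h4 := h3.add_const 1
      rw [zero_add] at h4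
      refine h4.congr' ?_
      filter_upwards [eventually_gt_atTop 0] with T hT
      field_simp
      ring
    have h5 := h2.mul (h1.inv₀ hmean.ne')
    rw [one_mul] at h5
    refine h5.congr' ?_
    filter_upwards [hMR.eventually_gt_atTop 0, eventually_gt_atTop 0] with T hT hT'
    have h6 : 0 < c.F (M T) (y T) := lt_of_lt_of_le (by positivity) (c.nat_bounds (M T) (y T)).1
    field_simp
  obtain ⟨Cf, hCf⟩ := hf.bounded_above_of_compact_support hfs
  have hCf0 : 0 ≤ Cf := (norm_nonneg _).trans (hCf 0)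
  obtain ⟨R, hR0, hR⟩ := hfs.isCompact.isBounded.subset_closedBall_lt 0 (0 : ℝ)
  have hfR : ∀ x, R < |x| → f x = 0 := by
    intro x hx
    by_contra hcon
    have := hR (subset_tsupport _ hcon)
    rw [mem_closedBall_zero_iff, Real.norm_eq_abs] at this
    linarith
  obtain ⟨K, hK⟩ := exists_nat_gt (R / c.α)
  rw [div_lt_iff₀ ha] at hK
  have hzero : ∀ (k : ℤ) z, (K : ℤ) < |k| → f (c.F k z) = 0 := by
    intro k z hk
    apply hfR
    have h1 := (c.abs_bounds k z).1
    have h2 : (K : ℝ) < |(k : ℝ)| := by exact_mod_cast hk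
    nlinarith
  set h : UnitAddCircle → ℝ := fun z => ∑ k ∈ Finset.Icc (-(K : ℤ)) K, f (c.F k z) with hh
  have hdec : ∀ x, ‖f x‖ ≤ (Cf * (1 + R) ^ 2) * ((1 + |x|) ^ 2)⁻¹ := by
    intro x
    rcases lt_or_ge R |x| with hx | hx
    · rw [hfR x hx, norm_zero]
      positivity
    · rw [← div_eq_mul_inv, le_div_iff₀ (by positivity)]
      gcongr
      exact hCf x
  have hint : ∫ z, f z ∂c.eta = c.mean⁻¹ * ∫ z, h z := by
    rw [c.integral_eta hf hdec, smul_eq_mul, hh,
      integral_finsetSum _ (fun k _ => c.integrable_comp hf hdec k)]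
    congr 1
    refine tsum_eq_sum fun k hk => ?_
    have : (K : ℤ) < |k| := by
      simp only [Finset.mem_Icc] at hk
      rw [lt_abs]
      omega
    simp [hzero k _ this]
  have hhm : Measurable h := Finset.measurable_sum _ fun k _ => hf.measurable.comp (c.meas k)
  have hhb : ∀ z, |h z| ≤ ∑ k ∈ Finset.Icc (-(K : ℤ)) K, Cf := fun z =>
    (Finset.abs_sum_le_sum_abs _ _).trans (Finset.sum_le_sum fun k _ => hCf _)
  have hhc : ∀ᵐ z, ContinuousAt h z := by
    have : ∀ᵐ z, ∀ k, ContinuousAt (c.F k) z := ae_all_iff.mpr c.cont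
    filter_upwards [this] with z hz
    exact tendsto_finsetSum _ fun k _ => hf.continuousAt.comp (hz k)
  have hequi := equi hγ y M hMtop hhm hhb hhc
  have hmain := hratio.mul hequi
  have herr : Tendsto (fun T => (2 * T)⁻¹ *
      (∑ m ∈ Finset.Icc (A T) (B T), ∑ n ∈ Finset.Icc (A T) (B T),
        f (c.F (n - m) (z₀ + ((m * γ : ℝ) : UnitAddCircle))) -
      ∑ m ∈ Finset.Icc (A T) (B T), h (z₀ + ((m * γ : ℝ) : UnitAddCircle)))) atTop (𝓝 0) := by
    refine squeeze_zero_norm' ?_
      (by simpa using hinv.mul_const (2 * K * ((2 * K + 1) * Cf)))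
    filter_upwards [eventually_ge_atTop 0] with T hT
    rw [norm_mul, Real.norm_of_nonneg (by positivity), Real.norm_eq_abs, mul_inv, mul_comm 2⁻¹]
    gcongr
    exact boundary_error (fun m k => f (c.F k (z₀ + ((m * γ : ℝ) : UnitAddCircle)))) K Cf
      (fun m k => hCf _) (fun m k hk => hzero k _ hk) _ _
  have hfin := herr.add hmain
  rw [zero_add, ← hint] at hfin
  refine hfin.congr' ?_
  filter_upwards [hMR.eventually_gt_atTop 0] with T hT
  have hset : (Set.range fun n => c.F n z₀) ∩ Set.Icc (-T) T =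
      (fun n => c.F n z₀) '' (Finset.Icc (A T) (B T) : Finset ℤ) := by
    ext x
    simp only [Set.mem_inter_iff, Set.mem_range, Set.mem_Icc, Set.mem_image, Finset.coe_Icc]
    constructor
    · rintro ⟨⟨n, rfl⟩, h1, h2⟩
      exact ⟨n, ⟨(hA T n).mp h1, (hB T n).mp h2⟩, rfl⟩
    · rintro ⟨n, ⟨h1, h2⟩, rfl⟩
      exact ⟨⟨n, rfl⟩, (hA T n).mpr h1, (hB T n).mpr h2⟩
  rw [hset, finsum_mem_image (c.strictMono z₀).injective.injOn, finsum_mem_coe_finset]
  simp only [finsum_mem_image (c.strictMono z₀).injective.injOn, finsum_mem_coe_finset]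
  rw [Finset.sum_comm (s := Finset.Icc (A T) (B T)) (t := Finset.Icc (A T) (B T))
    (f := fun n m => f (c.F n z₀ - c.F m z₀))]
  simp only [c.sub]
  rw [sum_Icc_eq h z₀]
  simp only [hM, hy] at hT ⊢
  generalize (∑ m ∈ Finset.Icc (A T) (B T), ∑ n ∈ Finset.Icc (A T) (B T),
        f (c.F (n - m) (z₀ + ((m * γ : ℝ) : UnitAddCircle)))) = S1
  generalize (∑ m ∈ Finset.range (B T + 1 - A T).toNat,
        h (z₀ + ((A T * γ : ℝ) : UnitAddCircle) + ((m * γ : ℝ) : UnitAddCircle))) = S2
  field_simp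
  ring

end Cocycle

end Pool.Agent.P.MP_23b0f8_an
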