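import Mathlib
import Pool.Agent.P.MP_23b0f8_an.Cocycle

open Filter Topology MeasureTheory
open scoped ENNReal FourierTransform Real

namespace Pool.Agent.P.MP_23b0f8_an

attribute [local instance] probCircle

/-- The Fejer weight. -/
noncomputable def fejerW (M : ℕ) (k : ℤ) : ℝ :=
  (M : ℝ)⁻¹ * ∑ n ∈ Finset.range M, ∑ m ∈ Finset.range M, if k = (n : ℤ) - m then (1 : ℝ) else 0

theorem fejer_inner (M n : ℕ) (k : ℤ) :
    (∑ m ∈ Finset.range M, if k = (n : ℤ) - m then (1 : ℝ) else 0) =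
      if 0 ≤ (n : ℤ) - k ∧ (n : ℤ) - k < M then 1 else 0 := by
  split_ifs with h
  · rw [Finset.sum_eq_single ((n : ℤ) - k).toNat]
    · rw [if_pos (by omega)]
    · intro b _ hb
      rw [if_neg (by omega)]
    · intro hb
      rw [Finset.mem_range] at hb
      omega
  · refine Finset.sum_eq_zero fun m hm => ?_
    rw [Finset.mem_range] at hm
    rw [if_neg (by omega)]

theorem fejerW_nonneg (M : ℕ) (k : ℤ) : 0 ≤ fejerW M k := by
  unfold fejerW
  positivity

theorem fejerW_le_one (M : ℕ) (k : ℤ) : fejerW M k ≤ 1 := by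
  unfold fejerW
  simp only [fejer_inner]
  apply inv_mul_le_one_of_le₀ _ (by positivity)
  calc _ ≤ ∑ n ∈ Finset.range M, (1 : ℝ) := Finset.sum_le_sum fun n _ => by split_ifs <;> norm_num
    _ = M := by simp

theorem fejerW_lower (M : ℕ) (hM : 0 < M) (k : ℤ) :
    1 - (M : ℝ)⁻¹ * (2 * k.natAbs) ≤ fejerW M k := by
  unfold fejerW
  simp only [fejer_inner]
  have hM' : (0 : ℝ) < M := by exact_mod_cast hM
  have h1 : (M : ℝ) - 2 * k.natAbs ≤
      ∑ n ∈ Finset.range M, if 0 ≤ (n : ℤ) - k ∧ (n : ℤ) - k < M then (1 : ℝ) else 0 := by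
    rw [Finset.sum_boole]
    have h2 : Finset.Ico k.natAbs (M - k.natAbs) ⊆
        (Finset.range M).filter (fun n : ℕ => 0 ≤ (n : ℤ) - k ∧ (n : ℤ) - k < M) := by
      intro n hn
      simp only [Finset.mem_Ico, Finset.mem_filter, Finset.mem_range] at hn ⊢
      omega
    have h3 := Finset.card_le_card h2
    rw [Nat.card_Ico] at h3
    have h4 : M ≤ ((Finset.range M).filter
      (fun n : ℕ => 0 ≤ (n : ℤ) - k ∧ (n : ℤ) - k < M)).card + 2 * k.natAbs := by omega
    have h5 : (M : ℝ) ≤ (((Finset.range M).filter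
      (fun n : ℕ => 0 ≤ (n : ℤ) - k ∧ (n : ℤ) - k < M)).card : ℝ) + 2 * k.natAbs := by
      exact_mod_cast h4
    linarith
  calc 1 - (M : ℝ)⁻¹ * (2 * k.natAbs) = (M : ℝ)⁻¹ * (M - 2 * k.natAbs) := by field_simp
    _ ≤ _ := by gcongr

theorem fejerW_tendsto (k : ℤ) : Tendsto (fun M => fejerW M k) atTop (𝓝 1) := by
  have h1 : Tendsto (fun M : ℕ => 1 - (M : ℝ)⁻¹ * (2 * k.natAbs)) atTop (𝓝 1) := by
    simpa using (tendsto_inv_atTop_nhds_zero_nat.mul_const (2 * (k.natAbs : ℝ))).const_sub 1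
  refine tendsto_of_tendsto_of_tendsto_of_le_of_le' h1 tendsto_const_nhds ?_
    (.of_forall fun M => fejerW_le_one M k)
  filter_upwards [eventually_gt_atTop 0] with M hM using fejerW_lower M hM k

theorem fejer_eq (I : ℤ → ℂ) (M : ℕ) :
    ((M : ℝ)⁻¹ : ℝ) • ∑ n ∈ Finset.range M, ∑ m ∈ Finset.range M, I ((n : ℤ) - m) =
      ∑' k, fejerW M k • I k := by
  have h1 : ∀ j : ℤ, HasSum (fun k => (if k = j then (1 : ℝ) else 0) • I k) (I j) := by
    intro j
    convert hasSum_ite_eq j (I j) using 2 with k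
    split_ifs with h <;> simp [h]
  have h2 : HasSum (fun k => ∑ n ∈ Finset.range M, ∑ m ∈ Finset.range M,
      (if k = (n : ℤ) - m then (1 : ℝ) else 0) • I k)
      (∑ n ∈ Finset.range M, ∑ m ∈ Finset.range M, I ((n : ℤ) - m)) :=
    hasSum_sum fun n _ => hasSum_sum fun m _ => h1 _
  rw [← (h2.const_smul ((M : ℝ)⁻¹ : ℝ)).tsum_eq]
  congr 1
  ext k
  simp only [fejerW, mul_smul, Finset.sum_smul]

theorem fejer_norm_le {I : ℤ → ℂ} {b : ℤ → ℝ} (h : ∀ k, ‖I k‖ ≤ b k) (M : ℕ)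
    (k : ℤ) : ‖fejerW M k • I k‖ ≤ b k := by
  rw [norm_smul, Real.norm_of_nonneg (fejerW_nonneg M k)]
  exact (mul_le_of_le_one_left (norm_nonneg _) (fejerW_le_one M k)).trans (h k)

theorem fejer_tendsto {I : ℤ → ℂ} {b : ℤ → ℝ} (hb : Summable b) (h : ∀ k, ‖I k‖ ≤ b k) :
    Tendsto (fun M : ℕ => ((M : ℝ)⁻¹ : ℝ) •
      ∑ n ∈ Finset.range M, ∑ m ∈ Finset.range M, I ((n : ℤ) - m)) atTop (𝓝 (∑' k, I k)) := by
  simp only [fejer_eq]
  refine tendsto_tsum_of_dominated_convergence hb (fun k => ?_)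
    (.of_forall fun M k => fejer_norm_le h M k)
  simpa using (fejerW_tendsto k).smul_const (I k)

theorem fejer_bound {I : ℤ → ℂ} {b : ℤ → ℝ} (hb : Summable b) (h : ∀ k, ‖I k‖ ≤ b k) (M : ℕ) :
    ‖((M : ℝ)⁻¹ : ℝ) • ∑ n ∈ Finset.range M, ∑ m ∈ Finset.range M, I ((n : ℤ) - m)‖ ≤
      ∑' k, b k := by
  rw [fejer_eq]
  exact tsum_of_norm_bounded hb.hasSum (fejer_norm_le h M)

/-- The character `exp (-2 π i v w)`. -/
noncomputable def ex (v w : ℝ) : ℂ := Complex.exp (↑(-2 * π * v * w) * Complex.I)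

theorem norm_ex (v w : ℝ) : ‖ex v w‖ = 1 := Complex.norm_exp_ofReal_mul_I _

theorem ex_mul_conj (v a b : ℝ) : ex v a * (starRingEnd ℂ) (ex v b) = ex v (a - b) := by
  unfold ex
  rw [← Complex.exp_conj, ← Complex.exp_add]
  congr 1
  simp only [map_mul, Complex.conj_ofReal, Complex.conj_I]
  push_cast
  ring

theorem continuous_ex : Continuous fun p : ℝ × ℝ => ex p.1 p.2 := by
  unfold ex
  fun_prop

theorem fourier_eq_ex (f : ℝ → ℂ) (w : ℝ) : 𝓕 f w = ∫ v, f v * ex v w := by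
  rw [Real.fourier_real_eq_integral_exp_smul]
  simp only [smul_eq_mul, ex, mul_comm]

theorem norm_fourier_translate (f : ℝ → ℂ) (t w : ℝ) :
    ‖𝓕 (fun v => f (v - t)) w‖ = ‖𝓕 f w‖ := by
  rw [fourier_eq_ex, fourier_eq_ex, ← integral_add_right_eq_self _ t]
  have : ∀ v, f (v + t - t) * ex (v + t) w = f v * ex v w * ex t w := by
    intro v
    rw [add_sub_cancel_right, mul_assoc]
    congr 1
    unfold ex
    rw [← Complex.exp_add]
    congr 1
    push_cast
    ring
  simp only [this]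
  rw [integral_mul_const, norm_mul, norm_ex, mul_one]

namespace Cocycle

variable {γ : ℝ} (c : Cocycle γ)

theorem measurable_ex (v : ℝ) (k : ℤ) : Measurable fun z => ex v (c.F k z) :=
  continuous_ex.measurable.comp (measurable_const.prodMk (c.meas k))

theorem integrable_ex (v : ℝ) (k : ℤ) : Integrable fun z => ex v (c.F k z) :=
  Integrable.of_bound (c.measurable_ex v k).aestronglyMeasurable 1
    (.of_forall fun _ => (norm_ex _ _).le)

/-- The averaged periodogram. -/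
noncomputable def phi (M : ℕ) (v : ℝ) : ℝ :=
  (M : ℝ)⁻¹ * ∫ z, ‖∑ n ∈ Finset.range M, ex v (c.F n z)‖ ^ 2

theorem phi_nonneg (M : ℕ) (v : ℝ) : 0 ≤ c.phi M v :=
  mul_nonneg (by positivity) (integral_nonneg fun _ => by positivity)

theorem phi_eq (M : ℕ) (v : ℝ) : (c.phi M v : ℂ) = ((M : ℝ)⁻¹ : ℝ) •
    ∑ n ∈ Finset.range M, ∑ m ∈ Finset.range M, ∫ z, ex v (c.F ((n : ℤ) - m) z) := by
  rw [phi, Complex.ofReal_mul, Complex.real_smul, ← integral_complex_ofReal]
  congr 1
  have h1 : ∀ z, (((‖∑ n ∈ Finset.range M, ex v (c.F n z)‖ ^ 2 : ℝ) : ℂ)) =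
      ∑ n ∈ Finset.range M, ∑ m ∈ Finset.range M,
        ex v (c.F ((n : ℤ) - m) (z + (((m : ℤ) * γ : ℝ) : UnitAddCircle))) := by
    intro z
    rw [Complex.ofReal_pow, ← Complex.mul_conj', map_sum, Finset.sum_mul_sum]
    simp only [ex_mul_conj, c.sub]
  have h2 : ∀ (k : ℤ) (t : UnitAddCircle), Integrable fun z => ex v (c.F k (z + t)) :=
    fun k t => (c.integrable_ex v k).comp_add_right t
  simp only [h1]
  rw [integral_finsetSum _ fun n _ => integrable_finsetSum _ fun m _ => h2 _ _]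
  refine Finset.sum_congr rfl fun n _ => ?_
  rw [integral_finsetSum _ fun m _ => h2 _ _]
  refine Finset.sum_congr rfl fun m _ => ?_
  exact integral_add_right_eq_self (fun z => ex v (c.F ((n : ℤ) - m) z)) _

theorem continuous_integral_ex (k : ℤ) : Continuous fun v => ∫ z, ex v (c.F k z) :=
  continuous_of_dominated (bound := fun _ => 1)
    (fun v => (c.measurable_ex v k).aestronglyMeasurable)
    (fun _ => .of_forall fun _ => (norm_ex _ _).le) (integrable_const _)
    (.of_forall fun _ => continuous_ex.comp (continuous_id.prodMk continuous_const))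

theorem norm_integral_ex (k : ℤ) (v : ℝ) : ‖∫ z, ex v (c.F k z)‖ ≤ 1 := by
  simpa using norm_integral_le_of_norm_le_const (μ := (volume : Measure UnitAddCircle))
    (f := fun z => ex v (c.F k z)) (C := 1) (.of_forall fun _ => (norm_ex _ _).le)

theorem continuous_phi (M : ℕ) : Continuous (c.phi M) := by
  have : c.phi M = fun v => (((M : ℝ)⁻¹ : ℝ) •
      ∑ n ∈ Finset.range M, ∑ m ∈ Finset.range M, ∫ z, ex v (c.F ((n : ℤ) - m) z)).re := by
    ext v
    rw [← c.phi_eq, Complex.ofReal_re]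
  rw [this]
  have h2 : Continuous fun v =>
      ∑ n ∈ Finset.range M, ∑ m ∈ Finset.range M, ∫ z, ex v (c.F ((n : ℤ) - m) z) :=
    continuous_finsetSum _ fun n _ => continuous_finsetSum _ fun m _ => c.continuous_integral_ex _
  exact Complex.continuous_re.comp (h2.const_smul ((M : ℝ)⁻¹ : ℝ))

theorem integral_mul_ex {f : ℝ → ℂ} (hf : Integrable f) (k : ℤ) :
    ∫ v, f v * ∫ z, ex v (c.F k z) = ∫ z, 𝓕 f (c.F k z) := by
  simp only [fourier_eq_ex, ← integral_const_mul]
  refine integral_integral_swap ?_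
  refine (hf.comp_fst volume).mul_bdd (c := 1) ?_ (.of_forall fun _ => (norm_ex _ _).le)
  exact (continuous_ex.measurable.comp
    (measurable_fst.prodMk ((c.meas k).comp measurable_snd))).aestronglyMeasurable

theorem integrable_mul_ex {f : ℝ → ℂ} (hf : Integrable f) (k : ℤ) :
    Integrable fun v => f v * ∫ z, ex v (c.F k z) :=
  hf.mul_bdd (c := 1) (c.continuous_integral_ex k).aestronglyMeasurable
    (.of_forall (c.norm_integral_ex k))

theorem integrable_mul_phi {f : ℝ → ℂ} (hf : Integrable f) (M : ℕ) :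
    Integrable fun v => f v * c.phi M v := by
  simp only [c.phi_eq, mul_smul_comm, Finset.mul_sum]
  exact (integrable_finsetSum _ fun n _ => integrable_finsetSum _ fun m _ =>
    c.integrable_mul_ex hf _).smul ((M : ℝ)⁻¹ : ℝ)

theorem integral_mul_phi {f : ℝ → ℂ} (hf : Integrable f) (M : ℕ) :
    ∫ v, f v * c.phi M v = ((M : ℝ)⁻¹ : ℝ) •
      ∑ n ∈ Finset.range M, ∑ m ∈ Finset.range M, ∫ z, 𝓕 f (c.F ((n : ℤ) - m) z) := by
  simp only [c.phi_eq, mul_smul_comm, Finset.mul_sum]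
  rw [integral_smul, integral_finsetSum _ fun n _ => integrable_finsetSum _ fun m _ =>
    c.integrable_mul_ex hf _]
  congr 1
  refine Finset.sum_congr rfl fun n _ => ?_
  rw [integral_finsetSum _ fun m _ => c.integrable_mul_ex hf _]
  exact Finset.sum_congr rfl fun m _ => c.integral_mul_ex hf _

end Cocycle

end Pool.Agent.P.MP_23b0f8_an
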