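import Mathlib
import Pool.Agent.P.MP_23b0f8_an.Defs
import Pool.Agent.P.MP_23b0f8_an.Fejer

open Filter Topology MeasureTheory
open scoped ENNReal NNReal FourierTransform Real

namespace Pool.Agent.P.MP_23b0f8_an

attribute [local instance] probCircle

/-- A bump equal to one on `[-1, 1]` and supported in `[-2, 2]`. -/
noncomputable def bump : ContDiffBump (0 : ℝ) := ⟨1, 2, one_pos, one_lt_two⟩

theorem bump_one {x : ℝ} (hx : |x| ≤ 1) : bump x = 1 :=
  bump.one_of_mem_closedBall (by simpa [bump] using hx)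

theorem bump_zero {x : ℝ} (hx : 2 ≤ |x|) : bump x = 0 :=
  bump.zero_of_le_dist (by simpa [bump] using hx)

/-- The bump as a complex Schwartz function. -/
noncomputable def bumpS : SchwartzMap ℝ ℂ :=
  HasCompactSupport.toSchwartzMap (f := fun x : ℝ => ((bump x : ℝ) : ℂ))
    (bump.hasCompactSupport.comp_left (g := fun t : ℝ => (t : ℂ)) (by simp))
    (Complex.ofRealCLM.contDiff.comp bump.contDiff)

theorem bumpS_apply (x : ℝ) : bumpS x = ((bump x : ℝ) : ℂ) := rfl

namespace Cocycle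

variable {γ : ℝ} (c : Cocycle γ)

theorem norm_integral_comp_le {u : ℝ → ℂ} {C : ℝ} (hb : ∀ x, ‖u x‖ ≤ C * ((1 + |x|) ^ 2)⁻¹)
    (k : ℤ) : ‖∫ z, u (c.F k z)‖ ≤ C * ((1 + c.α * |(k : ℝ)|) ^ 2)⁻¹ := by
  simpa using norm_integral_le_of_norm_le_const (μ := (volume : Measure UnitAddCircle))
    (f := fun z => u (c.F k z)) (.of_forall (c.norm_comp_le hb k))

theorem local_bound : ∃ C₀ : ℝ, ∀ (M : ℕ) (t : ℝ),
    ∫⁻ v, ENNReal.ofReal (bump (v - t) * c.phi M v) ≤ ENNReal.ofReal C₀ := by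
  obtain ⟨C, hC0, hC⟩ := schwartz_decay (𝓕 bumpS) 2
  refine ⟨∑' k : ℤ, C * ((1 + c.α * |(k : ℝ)|) ^ 2)⁻¹, fun M t => ?_⟩
  have hi : Integrable fun v => bumpS (v - t) := (bumpS.integrable).comp_sub_right t
  have h1 := c.integrable_mul_phi hi M
  have h2 := c.integral_mul_phi hi M
  have h3 : ∀ v, bumpS (v - t) * (c.phi M v : ℂ) = ((bump (v - t) * c.phi M v : ℝ) : ℂ) := by
    intro v
    rw [bumpS_apply, Complex.ofReal_mul]
  simp only [h3] at h1 h2
  have h4 : Integrable fun v => bump (v - t) * c.phi M v := by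
    simpa using h1.re
  have h5 : ∀ v, 0 ≤ bump (v - t) * c.phi M v := fun v => mul_nonneg bump.nonneg (c.phi_nonneg M v)
  rw [← ofReal_integral_eq_lintegral_ofReal h4 (.of_forall h5)]
  apply ENNReal.ofReal_le_ofReal
  rw [integral_complex_ofReal] at h2
  have h6 := fejer_bound (I := fun k => ∫ z, 𝓕 (fun v => bumpS (v - t)) (c.F k z))
    ((summable_decay c.α_pos).mul_left C) (fun k => c.norm_integral_comp_le (fun x => by
      rw [norm_fourier_translate]; exact hC x) k) M
  rw [← h2, Complex.norm_real, Real.norm_eq_abs] at h6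
  exact (le_abs_self _).trans h6

theorem mass_bound : ∃ L : ℝ≥0, ∀ M : ℕ,
    ∫⁻ v, ENNReal.ofReal (((1 + |v|) ^ 2)⁻¹ * c.phi M v) ≤ L := by
  obtain ⟨C₀, hC₀⟩ := c.local_bound
  have hs : Summable fun j : ℤ => 4 * ((1 + 1 * |(j : ℝ)|) ^ 2)⁻¹ :=
    (summable_decay one_pos).mul_left 4
  have hfin : (∑' j : ℤ, ENNReal.ofReal (4 * ((1 + 1 * |(j : ℝ)|) ^ 2)⁻¹)) * ENNReal.ofReal C₀
      ≠ ⊤ := ENNReal.mul_ne_top hs.tsum_ofReal_lt_top.ne ENNReal.ofReal_ne_top
  refine ⟨_root_.ENNReal.toNNReal _, fun M => le_trans ?_ (ENNReal.coe_toNNReal hfin).ge⟩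
  have hmeas : ∀ j : ℤ, Measurable fun v : ℝ => ENNReal.ofReal (bump (v - j) * c.phi M v) :=
    fun j => ((bump.continuous.comp (continuous_id.sub continuous_const)).mul
      (c.continuous_phi M)).measurable.ennreal_ofReal
  calc ∫⁻ v, ENNReal.ofReal (((1 + |v|) ^ 2)⁻¹ * c.phi M v)
      ≤ ∫⁻ v, ∑' j : ℤ, ENNReal.ofReal (4 * ((1 + 1 * |(j : ℝ)|) ^ 2)⁻¹) *
          ENNReal.ofReal (bump (v - j) * c.phi M v) := by
        refine lintegral_mono fun v => le_trans ?_ (ENNReal.le_tsum ⌊v⌋)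
        rw [← ENNReal.ofReal_mul (by positivity)]
        apply ENNReal.ofReal_le_ofReal
        have h1 := Int.floor_le v
        have h2 := Int.lt_floor_add_one v
        rw [bump_one (by rw [abs_le]; constructor <;> linarith), one_mul, one_mul]
        refine mul_le_mul_of_nonneg_right ?_ (c.phi_nonneg M v)
        have h3 : |(⌊v⌋ : ℝ)| ≤ |v| + 1 := by
          have := abs_le.mp (le_refl |v|)
          rw [abs_le]; constructor <;> linarith
        rw [← div_eq_mul_inv, le_div_iff₀ (by positivity), inv_mul_le_iff₀ (by positivity)]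
        have h4 := abs_nonneg v
        have h5 := abs_nonneg (⌊v⌋ : ℝ)
        nlinarith
    _ = ∑' j : ℤ, ENNReal.ofReal (4 * ((1 + 1 * |(j : ℝ)|) ^ 2)⁻¹) *
          ∫⁻ v, ENNReal.ofReal (bump (v - j) * c.phi M v) := by
        rw [lintegral_tsum fun j => ((hmeas j).const_mul _).aemeasurable]
        simp only [lintegral_const_mul _ (hmeas _)]
    _ ≤ ∑' j : ℤ, ENNReal.ofReal (4 * ((1 + 1 * |(j : ℝ)|) ^ 2)⁻¹) * ENNReal.ofReal C₀ := by
        gcongr with j
        exact hC₀ M j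
    _ = _ := ENNReal.tsum_mul_right

theorem exists_fourierTransform : ∃ μ : Measure ℝ, IsFourierTransform c.eta μ := by
  obtain ⟨L, hL⟩ := c.mass_bound
  have hmean := c.mean_pos
  set dens : ℕ → ℝ → ℝ≥0∞ := fun M v => ENNReal.ofReal (((1 + |v|) ^ 4)⁻¹ * c.phi M v) with hdens
  have hdm : ∀ M, Measurable (dens M) := fun M =>
    (Continuous.mul (Continuous.inv₀ (by fun_prop) fun v => by positivity)
      (c.continuous_phi M)).measurable.ennreal_ofReal
  have htail : ∀ (M n : ℕ) (s : Set ℝ), MeasurableSet s → (∀ v ∈ s, (n : ℝ) ≤ |v|) →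
      volume.withDensity (dens M) s ≤ (((1 + (n : ℝ≥0)) ^ 2)⁻¹ * L : ℝ≥0) := by
    intro M n s hs hn
    rw [withDensity_apply _ hs]
    calc ∫⁻ v in s, dens M v
        ≤ ∫⁻ v in s, (((1 + (n : ℝ≥0)) ^ 2)⁻¹ : ℝ≥0) *
          ENNReal.ofReal (((1 + |v|) ^ 2)⁻¹ * c.phi M v) := by
          refine setLIntegral_mono' hs fun v hv => ?_
          rw [← ENNReal.ofReal_coe_nnreal, ← ENNReal.ofReal_mul (by positivity)]
          apply ENNReal.ofReal_le_ofReal
          rw [← mul_assoc]
          refine mul_le_mul_of_nonneg_right ?_ (c.phi_nonneg M v)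
          have h1 := hn v hv
          have h2 : ((1 + |v|) ^ 4)⁻¹ = ((1 + |v|) ^ 2)⁻¹ * ((1 + |v|) ^ 2)⁻¹ := by
            rw [← mul_inv]; ring
          rw [h2]
          push_cast
          gcongr
      _ ≤ ∫⁻ v, (((1 + (n : ℝ≥0)) ^ 2)⁻¹ : ℝ≥0) *
          ENNReal.ofReal (((1 + |v|) ^ 2)⁻¹ * c.phi M v) := setLIntegral_le_lintegral _ _
      _ ≤ _ := by
          rw [lintegral_const_mul' _ _ ENNReal.coe_ne_top, ENNReal.coe_mul]
          gcongr
          exact hL M
  have huniv : ∀ M, volume.withDensity (dens M) Set.univ ≤ L := fun M => by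
    simpa using htail M 0 Set.univ MeasurableSet.univ (fun v _ => by simp)
  let ν : ℕ → FiniteMeasure ℝ := fun M =>
    ⟨volume.withDensity (dens M), ⟨(huniv M).trans_lt ENNReal.coe_lt_top⟩⟩
  have hu : Tendsto (fun n : ℕ => (((1 + (n : ℝ≥0)) ^ 2)⁻¹ * L : ℝ≥0)) atTop (𝓝 0) := by
    rw [← NNReal.tendsto_coe]
    push_cast
    have h1 : Tendsto (fun n : ℕ => (1 + (n : ℝ)) ^ 2) atTop atTop :=
      (tendsto_pow_atTop two_ne_zero).comp
        (tendsto_atTop_add_const_left _ _ tendsto_natCast_atTop_atTop)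
    simpa using (tendsto_inv_atTop_zero.comp h1).mul_const (L : ℝ)
  have hcomp := isCompact_setOfPred_finiteMeasure_mass_le_compl_isCompact_le
    (K := fun n : ℕ => Metric.closedBall (0 : ℝ) n) L hu (fun n => isCompact_closedBall _ _)
    (Or.inl inferInstance)
  let U : Ultrafilter ℕ := Ultrafilter.of atTop
  have hU : (U : Filter ℕ) ≤ atTop := Ultrafilter.of_le _
  obtain ⟨ν₀, -, hν₀ : Tendsto ν U (𝓝 ν₀)⟩ := hcomp.ultrafilter_le_nhds (U.map ν) (by
    rw [Ultrafilter.coe_map, le_principal_iff, mem_map]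
    refine univ_mem' fun M => ⟨?_, fun n => ?_⟩
    · rw [← ENNReal.coe_le_coe, FiniteMeasure.ennreal_mass]
      exact huniv M
    · rw [← ENNReal.coe_le_coe, FiniteMeasure.ennreal_coeFn_eq_coeFn_toMeasure]
      refine htail M n _ Metric.isClosed_closedBall.measurableSet.compl fun v hv => ?_
      simp only [Set.mem_compl_iff, mem_closedBall_zero_iff, not_le, Real.norm_eq_abs] at hv
      exact hv.le)
  rw [FiniteMeasure.tendsto_iff_forall_integral_rclike_tendsto ℂ] at hν₀
  set wt : ℝ → ℝ≥0∞ := fun v => ENNReal.ofReal (c.mean⁻¹ * (1 + |v|) ^ 4) with hwt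
  have hwm : Measurable wt := (by fun_prop : Continuous fun v : ℝ =>
    c.mean⁻¹ * (1 + |v|) ^ 4).measurable.ennreal_ofReal
  refine ⟨(ν₀ : Measure ℝ).withDensity wt, c.eta_temperate, ⟨4, ?_⟩, fun f => ?_⟩
  · rw [integrable_withDensity_iff_integrable_smul' hwm (.of_forall fun _ => ENNReal.ofReal_lt_top)]
    refine (integrable_const c.mean⁻¹).congr (.of_forall fun v => ?_)
    simp only [hwt]
    rw [ENNReal.toReal_ofReal (by positivity), Real.rpow_neg (by positivity), Real.rpow_natCast,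
      Real.norm_eq_abs, smul_eq_mul]
    field_simp
  · obtain ⟨C4, -, hC4⟩ := schwartz_decay f 4
    obtain ⟨C, -, hC⟩ := schwartz_decay (𝓕 f) 2
    let g : BoundedContinuousFunction ℝ ℂ :=
      BoundedContinuousFunction.ofNormedAddCommGroup (fun v => ((1 + |v|) ^ 4 : ℝ) • f v)
        ((by fun_prop : Continuous fun v : ℝ => (1 + |v|) ^ 4).smul f.continuous) C4 (fun v => by
          rw [norm_smul, Real.norm_of_nonneg (by positivity), mul_comm,
            ← le_div_iff₀ (by positivity), div_eq_mul_inv]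
          exact hC4 v)
    have hg : ∀ v, g v = ((1 + |v|) ^ 4 : ℝ) • f v := fun v => rfl
    have h1 := hν₀ g
    have h2 : ∀ M, ∫ v, g v ∂(ν M : Measure ℝ) = ∫ v, f v * c.phi M v := by
      intro M
      change ∫ v, g v ∂(volume.withDensity (dens M)) = _
      rw [integral_withDensity_eq_integral_toReal_smul (hdm M)
        (.of_forall fun _ => ENNReal.ofReal_lt_top)]
      congr 1
      ext v
      have := c.phi_nonneg M v
      simp only [hdens]
      rw [ENNReal.toReal_ofReal (by positivity), hg, smul_smul, Complex.real_smul, mul_comm]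
      congr 2
      field_simp
    simp only [h2, c.integral_mul_phi f.integrable] at h1
    have h3 := fejer_tendsto (I := fun k => ∫ z, 𝓕 (f : ℝ → ℂ) (c.F k z))
      ((summable_decay c.α_pos).mul_left C) (fun k => c.norm_integral_comp_le hC k)
    have h4 := tendsto_nhds_unique h1 (h3.mono_left hU)
    rw [c.integral_eta (u := 𝓕 (f : ℝ → ℂ)) (𝓕 f).continuous hC, ← h4,
      integral_withDensity_eq_integral_toReal_smul hwm (.of_forall fun _ => ENNReal.ofReal_lt_top),
      ← integral_smul]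
    congr 1
    ext v
    simp only [hwt]
    rw [ENNReal.toReal_ofReal (by positivity), hg, smul_smul]

end Cocycle

end Pool.Agent.P.MP_23b0f8_an
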