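import Mathlib
import Pool.Agent.P.MP_23b0f8_an.Auto
import Pool.Agent.P.MP_23b0f8_an.Bochner

open Filter Topology MeasureTheory
open scoped ENNReal NNReal FourierTransform Real

namespace Pool.Agent.P.MP_23b0f8_an

attribute [local instance] probCircle

theorem re_ex (s w : ℝ) : (ex s w).re = Real.cos (2 * π * s * w) := by
  unfold ex
  rw [Complex.exp_ofReal_mul_I_re, ← Real.cos_neg]
  congr 1
  ring

/-- The modulated and dilated bump. -/
noncomputable def testH (L : ℝ) (hL : 0 < L) (s : ℝ) : SchwartzMap ℝ ℂ :=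
  HasCompactSupport.toSchwartzMap (f := fun x : ℝ => ((L⁻¹ * bump (x / L) : ℝ) : ℂ) * ex s x)
    (by
      refine HasCompactSupport.intro (isCompact_closedBall (0 : ℝ) (2 * L)) fun x hx => ?_
      rw [mem_closedBall_zero_iff, Real.norm_eq_abs, not_le] at hx
      rw [bump_zero]
      · simp
      · rw [abs_div, abs_of_pos hL, le_div_iff₀ hL]
        exact hx.le)
    (by
      refine ContDiff.mul (Complex.ofRealCLM.contDiff.comp
        (contDiff_const.mul (bump.contDiff.comp (contDiff_id.div_const L)))) ?_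
      unfold ex
      refine Complex.contDiff_exp.comp (ContDiff.mul ?_ contDiff_const)
      exact Complex.ofRealCLM.contDiff.comp (contDiff_const.mul contDiff_id))

theorem testH_apply (L : ℝ) (hL : 0 < L) (s x : ℝ) :
    testH L hL s x = ((L⁻¹ * bump (x / L) : ℝ) : ℂ) * ex s x := rfl

theorem fourierInv_testH (L : ℝ) (hL : 0 < L) (s v : ℝ) :
    (𝓕⁻ (testH L hL s) : SchwartzMap ℝ ℂ) v = (𝓕 bumpS : SchwartzMap ℝ ℂ) (L * (s - v)) := by
  rw [SchwartzMap.fourierInv_coe, SchwartzMap.fourier_coe, Real.fourierInv_eq_fourier_neg,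
    fourier_eq_ex, fourier_eq_ex]
  have h1 : ∀ x, testH L hL s x * ex x (-v) =
      (L⁻¹ : ℝ) • (fun u => bumpS u * ex u (L * (s - v))) (x / L) := by
    intro x
    simp only [testH_apply, bumpS_apply, Complex.real_smul]
    rw [Complex.ofReal_mul, mul_assoc, mul_assoc]
    congr 2
    unfold ex
    rw [← Complex.exp_add]
    congr 1
    have : (L : ℂ) ≠ 0 := by exact_mod_cast hL.ne'
    push_cast
    field_simp
    ring
  simp only [h1]
  rw [integral_smul, Measure.integral_comp_div (fun u => bumpS u * ex u (L * (s - v))) L,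
    smul_smul, abs_of_pos hL, inv_mul_cancel₀ hL.ne', one_smul]

theorem tendsto_test (μ : Measure ℝ) [hμ : μ.HasTemperateGrowth] (s : ℝ) (h0 : μ {s} = 0)
    {b : ℝ} (hb : 0 < b) :
    Tendsto (fun K : ℕ => ∫ v, (𝓕 bumpS : SchwartzMap ℝ ℂ) (b * (K + 1) * (s - v)) ∂μ)
      atTop (𝓝 0) := by
  obtain ⟨n, hn⟩ := hμ.exists_integrable
  obtain ⟨C, hC0, hC⟩ := schwartz_decay (𝓕 bumpS) n
  obtain ⟨C1, hC10, hC1⟩ := schwartz_decay (𝓕 bumpS) 1
  have h := tendsto_integral_of_dominated_convergence (μ := μ)
    (F := fun (K : ℕ) v => (𝓕 bumpS : SchwartzMap ℝ ℂ) (b * (K + 1) * (s - v)))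
    (f := fun _ => (0 : ℂ))
    (fun v => (C * ((1 + b⁻¹) * (1 + |s|)) ^ n) * (1 + ‖v‖) ^ (-(n : ℝ)))
    (fun K => ((𝓕 bumpS : SchwartzMap ℝ ℂ).continuous.comp (by fun_prop)).aestronglyMeasurable)
    (hn.const_mul _) (fun K => .of_forall fun v => ?_) ?_
  · simpa using h
  · refine (hC _).trans ?_
    rw [Real.rpow_neg (by positivity), Real.rpow_natCast, Real.norm_eq_abs, mul_assoc C]
    gcongr
    rw [← div_eq_mul_inv, le_div_iff₀ (by positivity), inv_mul_le_iff₀ (by positivity), ← mul_pow]
    gcongr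
    have h1 : |v| ≤ |s - v| + |s| := by
      have := abs_sub (s - v) s
      rwa [sub_sub_cancel_left, abs_neg] at this
    have h2 : b * |s - v| ≤ |b * (K + 1) * (s - v)| := by
      rw [abs_mul, abs_of_pos (by positivity : 0 < b * (K + 1))]
      gcongr
      exact le_mul_of_one_le_right hb.le (by simp)
    have h3 : 1 + |s - v| ≤ (1 + |b * (K + 1) * (s - v)|) * (1 + b⁻¹) := by
      have h4 : |s - v| ≤ |b * (K + 1) * (s - v)| * b⁻¹ := by
        rw [← div_eq_mul_inv, le_div_iff₀ hb, mul_comm]
        exact h2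
      have h5 : 0 < b⁻¹ := by positivity
      have h6 := abs_nonneg (b * (K + 1) * (s - v))
      nlinarith
    have h7 := abs_nonneg s
    have h8 := abs_nonneg (s - v)
    calc 1 + |v| ≤ (1 + |s - v|) * (1 + |s|) := by nlinarith
      _ ≤ (1 + |b * (K + 1) * (s - v)|) * (1 + b⁻¹) * (1 + |s|) := by gcongr
      _ = _ := by ring
  · have hae : ∀ᵐ v ∂μ, v ≠ s := by
      rw [ae_iff]
      simpa using h0
    filter_upwards [hae] with v hv
    have h1 : Tendsto (fun K : ℕ => 1 + b * |s - v| * ((K : ℝ) + 1)) atTop atTop := by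
      refine tendsto_atTop_add_const_left _ _ (Tendsto.const_mul_atTop ?_
        (tendsto_atTop_add_const_right _ _ tendsto_natCast_atTop_atTop))
      exact mul_pos hb (abs_pos.mpr (sub_ne_zero.mpr hv.symm))
    have h2 := (tendsto_inv_atTop_zero.comp h1).const_mul C1
    rw [mul_zero] at h2
    refine squeeze_zero_norm (fun K => (hC1 _).trans (le_of_eq ?_)) h2
    rw [pow_one, abs_mul, abs_of_pos (by positivity : 0 < b * ((K : ℝ) + 1))]
    simp only [Function.comp]
    congr 3
    ring

namespace Cocycle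

variable {γ : ℝ} (c : Cocycle γ)

theorem atom {μ : Measure ℝ} (hμ : IsFourierTransform c.eta μ) (s : ℝ) {ε : ℝ} (r : ℕ)
    (hr : 2 * c.β ≤ r * c.α) (hε : 3 * ε * r < 1)
    (hs : ∀ k, volume.real {z | Real.cos (2 * π * s * c.F k z) < 1 / 2} ≤ ε) : μ {s} ≠ 0 := by
  intro h0
  have ha := c.α_pos
  have hb := c.β_pos
  have hab := c.α_le_β
  have hmean := c.mean_pos
  obtain ⟨-, hμt, hμ⟩ := hμ
  have hr2 : (2 : ℝ) ≤ r := by
    by_contra hcon
    push Not at hcon
    nlinarith
  have hlim := (Complex.continuous_re.tendsto 0).comp (tendsto_test μ s h0 hb)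
  have hlow : ∀ K : ℕ, c.mean⁻¹ * ((1 - 3 * ε * r) / c.β) ≤
      (∫ v, (𝓕 bumpS : SchwartzMap ℝ ℂ) (c.β * (K + 1) * (s - v)) ∂μ).re := by
    intro K
    set L : ℝ := c.β * (K + 1) with hLdef
    have hL : 0 < L := by positivity
    simp only [← fourierInv_testH L hL]
    rw [hμ, ← SchwartzMap.fourier_coe, FourierInvPair.fourier_fourierInv_eq]
    obtain ⟨C, -, hC⟩ := schwartz_decay (testH L hL s) 2
    have hcont := (testH L hL s).continuous
    have hzero : ∀ (k : ℤ) z, (r : ℝ) * (K + 1) ≤ |(k : ℝ)| → bump (c.F k z / L) = 0 := by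
      intro k z hk
      apply bump_zero
      rw [abs_div, abs_of_pos hL, le_div_iff₀ hL, hLdef]
      have h1 := (c.abs_bounds k z).1
      have h2 : (0 : ℝ) < K + 1 := by positivity
      nlinarith
    rw [c.integral_eta hcont hC, tsum_eq_sum (s := Finset.Icc (-(r * (K + 1) : ℤ)) (r * (K + 1))),
      Complex.smul_re, smul_eq_mul, Complex.re_sum]
    swap
    · intro k hk
      have : (r : ℝ) * (K + 1) ≤ |(k : ℝ)| := by
        have : (r * (K + 1) : ℤ) ≤ |k| := by
          simp only [Finset.mem_Icc] at hk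
          rw [le_abs]
          omega
        exact_mod_cast this
      simp [testH_apply, hzero k _ this]
    gcongr
    have hterm : ∀ k : ℤ, L⁻¹ * ((if |k| ≤ K + 1 then (1 / 2 : ℝ) else 0) - 3 / 2 * ε) ≤
        (∫ z, testH L hL s (c.F k z)).re := by
      intro k
      set Bad := {z | Real.cos (2 * π * s * c.F k z) < 1 / 2} with hBad
      have hBm : MeasurableSet Bad :=
        measurableSet_lt (Real.continuous_cos.measurable.comp ((c.meas k).const_mul _))
          measurable_const
      have hi := c.integrable_comp hcont hC k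
      have h1 : (∫ z, testH L hL s (c.F k z)).re = ∫ z, (testH L hL s (c.F k z)).re :=
        (integral_re hi).symm
      have h2 : ∫ z, L⁻¹ * ((if |k| ≤ K + 1 then (1 / 2 : ℝ) else 0) -
          3 / 2 * Bad.indicator 1 z) ≤ ∫ z, (testH L hL s (c.F k z)).re := by
        refine integral_mono (((integrable_const _).sub
          (((integrable_const 1).indicator hBm).const_mul _)).const_mul _) hi.re fun z => ?_
        simp only [testH_apply, Complex.re_ofReal_mul, re_ex]
        rw [mul_assoc L⁻¹]
        gcongr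
        have h3 : 0 ≤ bump (c.F k z / L) := bump.nonneg
        have h4 : bump (c.F k z / L) ≤ 1 := bump.le_one
        have h5 := Real.neg_one_le_cos (2 * π * s * c.F k z)
        by_cases hz : z ∈ Bad
        · rw [Set.indicator_of_mem hz]
          simp only [Pi.one_apply]
          split_ifs <;> nlinarith
        · rw [Set.indicator_of_notMem hz]
          simp only [hBad, Set.mem_ofPred_eq, not_lt] at hz
          split_ifs with hk
          · rw [bump_one]
            · linarith
            · rw [abs_div, abs_of_pos hL, div_le_one hL, hLdef]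
              refine (c.abs_bounds k z).2.trans ?_
              gcongr
              exact_mod_cast hk
          · nlinarith
      rw [h1]
      refine le_trans ?_ h2
      rw [integral_const_mul, integral_sub (integrable_const _)
        (((integrable_const 1).indicator hBm).const_mul _), integral_const_mul,
        integral_indicator_one hBm]
      simp only [integral_const, probReal_univ, one_smul]
      gcongr
      exact hs k
    refine le_trans ?_ (Finset.sum_le_sum fun k _ => hterm k)
    rw [← Finset.mul_sum, Finset.sum_sub_distrib, Finset.sum_ite, Finset.sum_const_zero, add_zero,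
      Finset.sum_const, Finset.sum_const, nsmul_eq_mul, nsmul_eq_mul, Int.card_Icc]
    have hr2' : 2 ≤ r := by exact_mod_cast hr2
    have hfilt : (Finset.Icc (-(r * (K + 1) : ℤ)) (r * (K + 1))).filter
        (fun k : ℤ => |k| ≤ K + 1) =
        Finset.Icc (-(K + 1 : ℤ)) (K + 1) := by
      ext k
      simp only [Finset.mem_filter, Finset.mem_Icc, abs_le]
      have : (K + 1 : ℤ) ≤ r * (K + 1) := by
        have : (1 : ℤ) ≤ r := by omega
        nlinarith
      omega
    rw [hfilt, Int.card_Icc]
    have e1 : (((K + 1 : ℤ) + 1 - -(K + 1 : ℤ)).toNat : ℝ) = 2 * (K + 1) + 1 := by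
      have : ((K + 1 : ℤ) + 1 - -(K + 1 : ℤ)).toNat = 2 * (K + 1) + 1 := by omega
      rw [this]; push_cast; ring
    have e2 : (((r * (K + 1) : ℤ) + 1 - -(r * (K + 1) : ℤ)).toNat : ℝ) = 2 * (r * (K + 1)) + 1 := by
      have h1 : (r * (K + 1) : ℤ) = ((r * (K + 1) : ℕ) : ℤ) := by push_cast; ring
      have : ((r * (K + 1) : ℤ) + 1 - -(r * (K + 1) : ℤ)).toNat = 2 * (r * (K + 1)) + 1 := by
        rw [h1]; omega
      rw [this]; push_cast; ring
    rw [e1, e2, hLdef, div_le_iff₀ hb]
    have hK : (0 : ℝ) < K + 1 := by positivity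
    have e3 : (c.β * (K + 1))⁻¹ * ((2 * (K + 1) + 1) * (1 / 2) - (2 * (r * (K + 1)) + 1) *
        (3 / 2 * ε)) * c.β = (1 - 3 * ε * r) + (1 / 2 - 3 / 2 * ε) / (K + 1) := by
      field_simp
      ring
    rw [e3]
    have : 0 ≤ (1 / 2 - 3 / 2 * ε) / (K + 1) := div_nonneg (by nlinarith) hK.le
    linarith
  have h1 := ge_of_tendsto' hlim hlow
  have h2 : 0 < c.mean⁻¹ * ((1 - 3 * ε * r) / c.β) :=
    mul_pos (by positivity) (div_pos (by linarith) hb)
  rw [Complex.zero_re] at h1
  linarith

theorem diffraction (hγ : Irrational γ) (z₀ : UnitAddCircle) {ε : ℝ} (r : ℕ)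
    (hr : 2 * c.β ≤ r * c.α) (hε : 3 * ε * r < 1)
    (hs : {s : ℝ | ∀ k, volume.real {z | Real.cos (2 * π * s * c.F k z) < 1 / 2} ≤ ε}.Infinite) :
    DiffractionCondition (Set.range fun n => c.F n z₀) := by
  obtain ⟨μ₀, hμ₀⟩ := c.exists_fourierTransform
  have hη := c.isAutocorrelation hγ z₀
  refine ⟨⟨c.eta, μ₀, hη, hμ₀⟩, fun η μ h1 h2 => ?_⟩
  have heq : η = c.eta := by
    have := h1.1
    have := hη.1
    refine Measure.ext_of_integral_eq_on_compactlySupported fun f => ?_
    exact tendsto_nhds_unique (h1.2 f f.continuous f.hasCompactSupport)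
      (hη.2 f f.continuous f.hasCompactSupport)
  subst heq
  constructor
  · have := h2.2.1
    have := locallyFinite_of_temperate μ
    have h3 := Measure.countable_meas_level_set_pos (μ := μ) (g := id) measurable_id
    refine h3.mono fun s hs => ?_
    simpa [pos_iff_ne_zero] using hs
  · exact hs.mono fun s hs => c.atom h2 s r hr hε hs

end Cocycle

end Pool.Agent.P.MP_23b0f8_an
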