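import Mathlib
import Pool.Agent.P.MP_23b0f8_an.Atom

open Filter Topology MeasureTheory
open scoped ENNReal Real

namespace Pool.Agent.P.MP_23b0f8_an

attribute [local instance] probCircle

/-- Signed sum over the integers between `0` and `n`. -/
noncomputable def isum {G : Type*} [AddCommGroup G] (g : ℤ → G) (n : ℤ) : G :=
  ∑ i ∈ Finset.Ico 0 n, g i - ∑ i ∈ Finset.Ico n 0, g i

theorem isum_zero {G : Type*} [AddCommGroup G] (g : ℤ → G) : isum g 0 = 0 := by simp [isum]

theorem isum_succ {G : Type*} [AddCommGroup G] (g : ℤ → G) (n : ℤ) :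
    isum g (n + 1) = isum g n + g n := by
  unfold isum
  rcases le_or_gt 0 n with h | h
  · have h1 : Finset.Ico 0 (n + 1) = insert n (Finset.Ico 0 n) := by
      ext i; simp only [Finset.mem_Ico, Finset.mem_insert]; omega
    rw [h1, Finset.sum_insert (by simp), Finset.Ico_eq_empty (a := n + 1) (by omega),
      Finset.Ico_eq_empty (a := n) (by omega)]
    simp only [Finset.sum_empty]
    abel
  · have h1 : Finset.Ico n 0 = insert n (Finset.Ico (n + 1) 0) := by
      ext i; simp only [Finset.mem_Ico, Finset.mem_insert]; omega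
    rw [h1, Finset.sum_insert (by simp), Finset.Ico_eq_empty (b := n + 1) (by omega),
      Finset.Ico_eq_empty (b := n) (by omega)]
    simp only [Finset.sum_empty]
    abel

theorem isum_unique {G : Type*} [AddCommGroup G] (g h : ℤ → G) (h0 : h 0 = 0)
    (hs : ∀ n, h (n + 1) = h n + g n) (n : ℤ) : isum g n = h n := by
  induction n using Int.induction_on with
  | zero => rw [isum_zero, h0]
  | succ n ih => rw [isum_succ, hs, ih]
  | pred n ih =>
    have h1 := isum_succ g (-(n : ℤ) - 1)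
    have h2 := hs (-(n : ℤ) - 1)
    rw [sub_add_cancel] at h1 h2
    rw [ih, h2] at h1
    exact (add_right_cancel h1).symm

theorem periodic_bt (t : ℝ) : Function.Periodic (fun y : ℝ => ⌊y⌋ - ⌊y - t⌋) 1 := by
  intro y
  simp only
  rw [add_sub_right_comm, Int.floor_add_one, Int.floor_add_one]
  ring

/-- The signed number of integers in `(y - t, y]`, as a function on the circle. -/
noncomputable def bt (t : ℝ) : UnitAddCircle → ℤ := (periodic_bt t).lift

theorem bt_coe (t y : ℝ) : bt t (y : UnitAddCircle) = ⌊y⌋ - ⌊y - t⌋ := rfl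

theorem measurable_bt (t : ℝ) : Measurable (bt t) := by
  refine QuotientAddGroup.measurable_from_quotient.mpr ?_
  change Measurable fun y : ℝ => ⌊y⌋ - ⌊y - t⌋
  fun_prop

theorem norm_coe_le (x : ℝ) (n : ℤ) : ‖(x : UnitAddCircle)‖ ≤ |x - n| := by
  rw [UnitAddCircle.norm_eq]
  exact round_le x n

theorem floor_add_of_lt {y u : ℝ} (h : |u| < ‖(y : UnitAddCircle)‖) : ⌊y + u⌋ = ⌊y⌋ := by
  have h1 := norm_coe_le y ⌊y⌋
  have h2 := norm_coe_le y (⌊y⌋ + 1)
  have h3 := Int.floor_le y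
  have h4 := Int.lt_floor_add_one y
  have h5 := abs_le.mp (le_refl |u|)
  push_cast at h2
  rw [abs_of_nonneg (by linarith)] at h1
  rw [abs_of_nonpos (by linarith)] at h2
  rw [Int.floor_eq_iff]
  constructor <;> linarith

theorem continuousAt_floor {y : ℝ} (h : (y : UnitAddCircle) ≠ 0) :
    ContinuousAt (fun x : ℝ => ⌊x⌋) y := by
  have h1 : ∀ᶠ x in 𝓝 y, ⌊y⌋ = ⌊x⌋ := by
    filter_upwards [Metric.ball_mem_nhds y (norm_pos_iff.mpr h)] with x hx
    rw [mem_ball_iff_norm, Real.norm_eq_abs] at hx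
    rw [← floor_add_of_lt hx, add_sub_cancel]
  exact continuousAt_const.congr h1

theorem continuousAt_bt (t : ℝ) {z : UnitAddCircle} (h0 : z ≠ 0) (h1 : z ≠ (t : UnitAddCircle)) :
    ContinuousAt (bt t) z := by
  obtain ⟨y, rfl⟩ := QuotientAddGroup.mk_surjective z
  refine QuotientAddGroup.isOpenQuotientMap_mk.continuousAt_comp_iff.mp ?_
  change ContinuousAt (fun y : ℝ => ⌊y⌋ - ⌊y - t⌋) y
  refine (continuousAt_floor h0).sub ?_
  refine ContinuousAt.comp (f := fun y : ℝ => y - t) (continuousAt_floor ?_) (by fun_prop)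
  rw [AddCircle.coe_sub]
  exact sub_ne_zero.mpr h1

theorem volume_ball_le (x : UnitAddCircle) {δ : ℝ} (hδ : 0 ≤ δ) :
    volume.real (Metric.closedBall x δ) ≤ 2 * δ := by
  rw [Measure.real, AddCircle.volume_closedBall, ENNReal.toReal_ofReal (by positivity)]
  exact min_le_right _ _

theorem ae_ne (x : UnitAddCircle) : ∀ᵐ z, z ≠ x := by
  rw [ae_iff]
  have := AddCircle.volume_closedBall (T := 1) (x := x) 0
  simpa using this

theorem ae_continuousAt_bt (t : ℝ) (w : UnitAddCircle) :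
    ∀ᵐ z, ContinuousAt (fun z => bt t (z + w)) z := by
  filter_upwards [ae_ne (-w), ae_ne ((t : UnitAddCircle) - w)] with z h0 h1
  refine ContinuousAt.comp (f := fun z => z + w) (continuousAt_bt t ?_ ?_) (by fun_prop)
  · exact fun h => h0 (eq_neg_of_add_eq_zero_left h)
  · exact fun h => h1 (eq_sub_of_add_eq h)

/-- The signed number of visits to the arc `[0, t)`. -/
noncomputable def Mn (γ t : ℝ) (n : ℤ) (z : UnitAddCircle) : ℤ :=
  isum (fun i => bt t (z + ((i * γ : ℝ) : UnitAddCircle))) n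

theorem Mn_zero (γ t : ℝ) (z : UnitAddCircle) : Mn γ t 0 z = 0 := isum_zero _

theorem Mn_succ (γ t : ℝ) (n : ℤ) (z : UnitAddCircle) :
    Mn γ t (n + 1) z = Mn γ t n z + bt t (z + ((n * γ : ℝ) : UnitAddCircle)) := isum_succ _ _

theorem Mn_add (γ t : ℝ) (k l : ℤ) (z : UnitAddCircle) :
    Mn γ t (k + l) z = Mn γ t k z + Mn γ t l (z + ((k * γ : ℝ) : UnitAddCircle)) := by
  have := isum_unique (fun i => bt t (z + ((k * γ : ℝ) : UnitAddCircle) +
      ((i * γ : ℝ) : UnitAddCircle))) (fun l => Mn γ t (k + l) z - Mn γ t k z) (by simp)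
      (fun n => by
        rw [← add_assoc k, Mn_succ, add_assoc z, ← AddCircle.coe_add]
        push_cast
        rw [add_mul]
        ring) l
  unfold Mn at this ⊢
  rw [this]
  ring

theorem measurable_Mn (γ t : ℝ) (n : ℤ) : Measurable (Mn γ t n) := by
  unfold Mn isum
  exact (Finset.measurable_sum _ fun i _ => (measurable_bt t).comp (measurable_add_const _)).sub
    (Finset.measurable_sum _ fun i _ => (measurable_bt t).comp (measurable_add_const _))

theorem ae_continuousAt_Mn (γ t : ℝ) (n : ℤ) : ∀ᵐ z, ContinuousAt (Mn γ t n) z := by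
  have : ∀ᵐ z, ∀ i : ℤ, ContinuousAt (fun z => bt t (z + ((i * γ : ℝ) : UnitAddCircle))) z :=
    ae_all_iff.mpr fun i => ae_continuousAt_bt t _
  filter_upwards [this] with z hz
  unfold Mn isum
  exact ContinuousAt.sub (tendsto_finsetSum _ fun i _ => hz i) (tendsto_finsetSum _ fun i _ => hz i)

theorem bt_eq_ite {D : ℝ} (h0 : 0 ≤ D) (h1 : D ≤ 1) (y : ℝ) :
    bt D (y : UnitAddCircle) = if Int.fract y < D then 1 else 0 := by
  rw [bt_coe]
  have h3 := Int.floor_le y
  have h4 := Int.lt_floor_add_one y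
  unfold Int.fract
  split_ifs with h
  · have : ⌊y - D⌋ = ⌊y⌋ - 1 := by
      rw [Int.floor_eq_iff]; push_cast; constructor <;> linarith
    rw [this]; ring
  · have : ⌊y - D⌋ = ⌊y⌋ := by
      rw [Int.floor_eq_iff]; constructor <;> linarith
    rw [this]; ring

theorem node_eq {D : ℝ} (h0 : 0 ≤ D) (h1 : D ≤ 1) (γ x₀ : ℝ) (n : ℤ) :
    node D γ x₀ n = (n - Mn γ D n (x₀ : UnitAddCircle), Mn γ D n (x₀ : UnitAddCircle)) := by
  refine isum_unique (step D γ x₀)
    (fun n => (n - Mn γ D n (x₀ : UnitAddCircle), Mn γ D n (x₀ : UnitAddCircle)))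
    (by simp [Mn_zero]) (fun n => ?_) n
  simp only [Mn_succ, ← AddCircle.coe_add, bt_eq_ite h0 h1, step]
  split_ifs <;> ext <;> simp <;> ring

theorem sqrt_pos (D : ℝ) : 0 < √((1 - D) ^ 2 + D ^ 2) :=
  Real.sqrt_pos.mpr (by nlinarith [sq_nonneg (2 * D - 1)])

/-- The cocycle of the projected staircase. -/
noncomputable def stair (γ : ℝ) {D : ℝ} (hD : D ∈ Set.Ioo (0 : ℝ) 1) : Cocycle γ where
  F n z := ((1 - D) * ((n - Mn γ D n z : ℤ) : ℝ) + D * (Mn γ D n z : ℝ)) / √((1 - D) ^ 2 + D ^ 2)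
  α := min D (1 - D) / √((1 - D) ^ 2 + D ^ 2)
  β := 1 / √((1 - D) ^ 2 + D ^ 2)
  α_pos := div_pos (lt_min hD.1 (sub_pos.mpr hD.2)) (sqrt_pos D)
  meas n := by
    have h : Measurable fun m : ℤ =>
        ((1 - D) * ((n - m : ℤ) : ℝ) + D * (m : ℝ)) / √((1 - D) ^ 2 + D ^ 2) :=
      measurable_of_countable _
    exact h.comp (measurable_Mn γ D n)
  cont n := by
    have h : Continuous fun m : ℤ =>
        ((1 - D) * ((n - m : ℤ) : ℝ) + D * (m : ℝ)) / √((1 - D) ^ 2 + D ^ 2) :=
      continuous_of_discreteTopology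
    filter_upwards [ae_continuousAt_Mn γ D n] with z hz
    exact h.continuousAt.comp hz
  add k l z := by
    rw [Mn_add]
    push_cast
    ring
  lower z := by
    obtain ⟨y, rfl⟩ := QuotientAddGroup.mk_surjective z
    have := Mn_succ γ D 0 (y : UnitAddCircle)
    rw [zero_add, Mn_zero, zero_add, ← AddCircle.coe_add, bt_eq_ite hD.1.le hD.2.le] at this
    rw [this]
    refine div_le_div_of_nonneg_right ?_ (sqrt_pos D).le
    split_ifs <;> simp
  upper z := by
    obtain ⟨y, rfl⟩ := QuotientAddGroup.mk_surjective z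
    have := Mn_succ γ D 0 (y : UnitAddCircle)
    rw [zero_add, Mn_zero, zero_add, ← AddCircle.coe_add, bt_eq_ite hD.1.le hD.2.le] at this
    rw [this]
    refine div_le_div_of_nonneg_right ?_ (sqrt_pos D).le
    split_ifs <;> simp [hD.1.le, hD.2.le]

theorem circleSeq_eq (γ : ℝ) {D : ℝ} (hD : D ∈ Set.Ioo (0 : ℝ) 1) (x₀ : ℝ) :
    circleSeq D γ x₀ = Set.range fun n => (stair γ hD).F n (x₀ : UnitAddCircle) := by
  unfold circleSeq
  simp only [node_eq hD.1.le hD.2.le]
  rfl

/-- Approximate eigenvalue equation modulo one, outside a set of small measure. -/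
def Good (γ t σ lam δ ε : ℝ) : Prop :=
  ∀ n : ℤ, volume.real {z | δ < ‖((σ * Mn γ t n z - lam * n : ℝ) : UnitAddCircle)‖} ≤ ε

theorem cos_ge_of_norm_le {x : ℝ} (h : ‖(x : UnitAddCircle)‖ ≤ 1 / 6) :
    1 / 2 ≤ Real.cos (2 * π * x) := by
  rw [UnitAddCircle.norm_eq] at h
  have h1 : 2 * π * x = 2 * π * (x - round x) + (round x : ℤ) * (2 * π) := by ring
  rw [h1, Real.cos_add_int_mul_two_pi, ← Real.cos_abs, ← Real.cos_pi_div_three]
  have hpi := Real.pi_pos
  refine Real.cos_le_cos_of_nonneg_of_le_pi (abs_nonneg _) (by linarith) ?_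
  rw [abs_mul, abs_of_pos (by positivity : 0 < 2 * π)]
  nlinarith

theorem diffraction_of_good {γ D ε : ℝ} (hγ : Irrational γ) (hD : D ∈ Set.Ioo (0 : ℝ) 1) (r : ℕ)
    (hr : 2 ≤ r * min D (1 - D)) (hε : 3 * ε * r < 1)
    (h : ∀ m : ℝ, ∃ (S σ lam : ℝ) (e a : ℤ), m < S ∧ S * (2 * D - 1) = σ + e ∧
      S * (1 - D) + lam = a ∧ Good γ D σ lam (1 / 6) ε) (x₀ : ℝ) :
    DiffractionCondition (circleSeq D γ x₀) := by
  have hN := sqrt_pos D
  rw [circleSeq_eq γ hD]
  refine (stair γ hD).diffraction hγ _ r ?_ hε ?_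
  · change 2 * (1 / √((1 - D) ^ 2 + D ^ 2)) ≤ r * (min D (1 - D) / √((1 - D) ^ 2 + D ^ 2))
    rw [← mul_div_assoc, ← mul_div_assoc, mul_one]
    exact div_le_div_of_nonneg_right hr hN.le
  · refine Set.infinite_of_forall_exists_gt fun m => ?_
    obtain ⟨S, σ, lam, e, a, h1, h2, h3, h4⟩ := h (m / √((1 - D) ^ 2 + D ^ 2))
    refine ⟨S * √((1 - D) ^ 2 + D ^ 2), fun k => le_trans (measureReal_mono ?_) (h4 k),
      by rwa [div_lt_iff₀ hN] at h1⟩
    intro z hz
    simp only [Set.mem_ofPred_eq] at hz ⊢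
    by_contra hcon
    have h5 := cos_ge_of_norm_le (not_lt.mp hcon)
    have h6 : 2 * π * (S * √((1 - D) ^ 2 + D ^ 2)) * (stair γ hD).F k z =
        2 * π * (σ * Mn γ D k z - lam * k) + ((a * k + e * Mn γ D k z : ℤ) : ℝ) * (2 * π) := by
      change 2 * π * (S * √((1 - D) ^ 2 + D ^ 2)) *
        (((1 - D) * ((k - Mn γ D k z : ℤ) : ℝ) + D * (Mn γ D k z : ℝ)) / √((1 - D) ^ 2 + D ^ 2)) = _
      have hσ : σ = S * (2 * D - 1) - e := by linarith
      have hl : lam = a - S * (1 - D) := by linarith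
      rw [hσ, hl]
      push_cast
      field_simp
      ring
    rw [h6, Real.cos_add_int_mul_two_pi] at hz
    linarith

end Pool.Agent.P.MP_23b0f8_an
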