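import Mathlib
import Pool.Agent.P.MP_23b0f8_an.Stair

open Filter Topology MeasureTheory
open scoped ENNReal Real

namespace Pool.Agent.P.MP_23b0f8_an

attribute [local instance] probCircle

theorem bt_add (t t' : ℝ) (z : UnitAddCircle) :
    bt (t + t') z = bt t z + bt t' (z - (t : UnitAddCircle)) := by
  obtain ⟨y, rfl⟩ := QuotientAddGroup.mk_surjective z
  rw [← AddCircle.coe_sub, bt_coe, bt_coe, bt_coe, sub_sub]
  ring

theorem Mn_add_arc (γ t t' : ℝ) (n : ℤ) (z : UnitAddCircle) :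
    Mn γ (t + t') n z = Mn γ t n z + Mn γ t' n (z - (t : UnitAddCircle)) := by
  refine isum_unique _ (fun n => Mn γ t n z + Mn γ t' n (z - (t : UnitAddCircle)))
    (by simp [Mn_zero]) (fun n => ?_) n
  rw [Mn_succ, Mn_succ, bt_add, add_sub_right_comm]
  ring

theorem Mn_arc_zero (γ : ℝ) (n : ℤ) (z : UnitAddCircle) : Mn γ 0 n z = 0 := by
  have := Mn_add_arc γ 0 0 n z
  simpa using this

/-- Transfer function. -/
noncomputable def Gq (γ : ℝ) (q : ℕ) (y : ℝ) : ℤ := ∑ i ∈ Finset.range q, ⌊y - (i + 1) * γ⌋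

theorem Gq_step (γ : ℝ) (q : ℕ) (y : ℝ) : Gq γ q (y + γ) - Gq γ q y = ⌊y⌋ - ⌊y - q * γ⌋ := by
  induction q with
  | zero => simp [Gq]
  | succ q ih =>
    unfold Gq at ih ⊢
    rw [Finset.sum_range_succ, Finset.sum_range_succ]
    have : y + γ - (q + 1) * γ = y - q * γ := by ring
    rw [this]
    push_cast
    linarith

theorem Mn_kesten (γ : ℝ) (q : ℕ) (p n : ℤ) (y : ℝ) :
    Mn γ (q * γ - p) n (y : UnitAddCircle) = Gq γ q (y + n * γ) - Gq γ q y - n * p := by
  refine isum_unique _ (fun n => Gq γ q (y + n * γ) - Gq γ q y - n * p) (by simp) (fun n => ?_) n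
  have h1 := Gq_step γ q (y + n * γ)
  have h2 : y + n * γ - (q * γ - p) = y + n * γ - q * γ + p := by ring
  have h3 : y + ((n + 1 : ℤ) : ℝ) * γ = y + n * γ + γ := by push_cast; ring
  rw [← AddCircle.coe_add, bt_coe, h2, Int.floor_add_intCast, h3]
  linarith

theorem Mn_bound_nat (γ : ℝ) (q : ℕ) (p n : ℤ) (z : UnitAddCircle) :
    |(Mn γ (q * γ - p) n z : ℝ) - n * (q * γ - p)| ≤ q := by
  obtain ⟨y, rfl⟩ := QuotientAddGroup.mk_surjective z
  rw [Mn_kesten]
  have h1 : ((Gq γ q (y + n * γ) - Gq γ q y - n * p : ℤ) : ℝ) - n * (q * γ - p) =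
      ∑ i ∈ Finset.range q, (Int.fract (y - (i + 1) * γ) - Int.fract (y + n * γ - (i + 1) * γ)) := by
    unfold Gq Int.fract
    push_cast
    rw [← Finset.sum_sub_distrib]
    have : ∀ i : ℕ, y - (i + 1) * γ - (⌊y - (i + 1) * γ⌋ : ℝ) -
        (y + n * γ - (i + 1) * γ - (⌊y + n * γ - (i + 1) * γ⌋ : ℝ)) =
        ((⌊y + n * γ - (i + 1) * γ⌋ : ℝ) - (⌊y - (i + 1) * γ⌋ : ℝ)) - n * γ := fun i => by ring
    simp only [this]
    rw [Finset.sum_sub_distrib (g := fun _ => n * γ)]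
    simp only [Finset.sum_const, Finset.card_range, nsmul_eq_mul]
    ring
  rw [h1]
  refine (Finset.abs_sum_le_sum_abs _ _).trans ?_
  calc _ ≤ ∑ i ∈ Finset.range q, (1 : ℝ) := Finset.sum_le_sum fun i _ => by
        have := Int.fract_nonneg (y - (i + 1) * γ)
        have := Int.fract_lt_one (y - (i + 1) * γ)
        have := Int.fract_nonneg (y + n * γ - (i + 1) * γ)
        have := Int.fract_lt_one (y + n * γ - (i + 1) * γ)
        rw [abs_le]; constructor <;> linarith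
    _ = q := by simp

theorem Mn_bound_int (γ : ℝ) (j k n : ℤ) (z : UnitAddCircle) :
    |(Mn γ (j * γ + k) n z : ℝ) - n * (j * γ + k)| ≤ |(j : ℝ)| := by
  obtain ⟨q, rfl | rfl⟩ := Int.eq_nat_or_neg j
  · have := Mn_bound_nat γ q (-k) n z
    simpa using this
  · have h1 := Mn_add_arc γ (((-(q : ℤ) : ℤ) : ℝ) * γ + k) (q * γ - k) n z
    have h2 : ((-(q : ℤ) : ℤ) : ℝ) * γ + k + (q * γ - k) = 0 := by push_cast; ring
    rw [h2, Mn_arc_zero] at h1
    have h3 := Mn_bound_nat γ q k n (z - ((((-(q : ℤ) : ℤ) : ℝ) * γ + k : ℝ) : UnitAddCircle))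
    rw [eq_neg_of_add_eq_zero_left h1.symm, ← abs_neg]
    convert h3 using 2
    · push_cast; ring
    · simp

theorem norm_coe_le_abs (x : ℝ) : ‖(x : UnitAddCircle)‖ ≤ |x| := by
  simpa using norm_coe_le x 0

theorem good_base (γ σ : ℝ) (j k : ℤ) {δ : ℝ} (hδ : |σ| * |(j : ℝ)| ≤ δ) :
    Good γ (j * γ + k) σ (σ * (j * γ + k)) δ 0 := by
  intro n
  have : {z | δ < ‖((σ * Mn γ (j * γ + k) n z - σ * (j * γ + k) * n : ℝ) : UnitAddCircle)‖} = ∅ := by
    ext z
    simp only [Set.mem_ofPred_eq, Set.mem_empty_iff_false, iff_false, not_lt]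
    refine (norm_coe_le_abs _).trans (le_trans ?_ hδ)
    have h1 : σ * Mn γ (j * γ + k) n z - σ * (j * γ + k) * n =
      σ * (Mn γ (j * γ + k) n z - n * (j * γ + k)) := by ring
    rw [h1, abs_mul]
    exact mul_le_mul_of_nonneg_left (Mn_bound_int γ j k n z) (abs_nonneg _)
  rw [this, measureReal_empty]

theorem Mn_mul (γ : ℝ) (q b : ℕ) (p n : ℤ) (y : ℝ)
    (h : ∀ i ∈ Finset.range q, b * |q * γ - p| < ‖((y - (i + 1) * γ : ℝ) : UnitAddCircle)‖ ∧
      b * |q * γ - p| < ‖((y + n * γ - (i + 1) * γ : ℝ) : UnitAddCircle)‖) :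
    Mn γ (b * (q * γ - p)) n (y : UnitAddCircle) = b * Mn γ (q * γ - p) n (y : UnitAddCircle) := by
  have key : ∀ l : ℕ, l ≤ b →
      Mn γ (l * (q * γ - p)) n (y : UnitAddCircle) = l * Mn γ (q * γ - p) n (y : UnitAddCircle) := by
    intro l
    induction l with
    | zero => simp [Mn_arc_zero]
    | succ l ih =>
      intro hl
      have h1 : ((l + 1 : ℕ) : ℝ) * (q * γ - p) = l * (q * γ - p) + (q * γ - p) := by
        push_cast; ring
      have hlb : (l : ℝ) ≤ b := by exact_mod_cast (by omega : l ≤ b)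
      have hu : |-(l * (q * γ - p))| ≤ b * |q * γ - p| := by
        rw [abs_neg, abs_mul, Nat.abs_cast]
        gcongr
      have h2 : ∀ w : ℝ, (∀ i ∈ Finset.range q,
          b * |q * γ - p| < ‖((w - (i + 1) * γ : ℝ) : UnitAddCircle)‖) →
          Gq γ q (w - l * (q * γ - p)) = Gq γ q w := by
        intro w hw
        refine Finset.sum_congr rfl fun i hi => ?_
        rw [← floor_add_of_lt (hu.trans_lt (hw i hi))]
        congr 1
        ring
      rw [h1, Mn_add_arc, ih (by omega), ← AddCircle.coe_sub, Mn_kesten γ q p n (y - _),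
        sub_add_eq_add_sub, h2 _ fun i hi => (h i hi).1, h2 _ fun i hi => (h i hi).2, Mn_kesten]
      push_cast
      ring
  exact key b le_rfl

theorem volume_biUnion_ball_le {ι : Type*} (s : Finset ι) (x : ι → UnitAddCircle) {δ : ℝ}
    (hδ : 0 ≤ δ) : volume.real (⋃ i ∈ s, Metric.closedBall (x i) δ) ≤ s.card * (2 * δ) := by
  refine (measureReal_biUnion_finset_le _ _).trans ?_
  refine (Finset.sum_le_sum fun i _ => volume_ball_le (x i) hδ).trans ?_
  simp

theorem good_step {γ t σ lam δ ε : ℝ} (hg : Good γ t σ lam δ ε) (q b : ℕ) (p κ : ℤ) :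
    Good γ (t + b * (q * γ - p)) σ (lam + (σ * b - κ) * (q * γ - p)) (δ + |σ * b - κ| * q)
      (ε + 4 * q * (b * |q * γ - p|)) := by
  intro n
  set θ : ℝ := q * γ - p with hθ
  have h0 : 0 ≤ b * |θ| := by positivity
  have h1 := volume_biUnion_ball_le (Finset.range q)
    (fun i => ((t + (i + 1) * γ : ℝ) : UnitAddCircle)) h0
  have h2 := volume_biUnion_ball_le (Finset.range q)
    (fun i => ((t + (i + 1) * γ - n * γ : ℝ) : UnitAddCircle)) h0
  rw [Finset.card_range] at h1 h2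
  refine le_trans (measureReal_mono (s₂ := {z | δ < ‖((σ * Mn γ t n z - lam * n : ℝ) :
    UnitAddCircle)‖} ∪ ((⋃ i ∈ Finset.range q,
      Metric.closedBall ((t + (i + 1) * γ : ℝ) : UnitAddCircle) (b * |θ|)) ∪
      ⋃ i ∈ Finset.range q,
        Metric.closedBall ((t + (i + 1) * γ - n * γ : ℝ) : UnitAddCircle) (b * |θ|))) ?_) ?_
  · intro z hz
    obtain ⟨y, rfl⟩ := QuotientAddGroup.mk_surjective z
    by_contra hcon
    simp only [Set.mem_union, Set.mem_ofPred_eq, Set.mem_iUnion, not_or, not_lt, not_exists,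
      mem_closedBall_iff_norm, not_le, ← AddCircle.coe_sub] at hz hcon
    obtain ⟨h3, h4, h5⟩ := hcon
    have h6 := Mn_mul γ q b p n (y - t) fun i hi => ⟨by
      rw [sub_sub]; exact h4 i hi, by
      rw [show y - t + n * γ - (i + 1) * γ = y - (t + (i + 1) * γ - n * γ) by ring]
      exact h5 i hi⟩
    rw [Mn_add_arc, ← AddCircle.coe_sub, h6] at hz
    set m1 := Mn γ t n (y : UnitAddCircle)
    set m2 := Mn γ θ n ((y - t : ℝ) : UnitAddCircle) with hm2
    have h7 : |(m2 : ℝ) - n * θ| ≤ q := Mn_bound_nat γ q p n _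
    have h8 : σ * ((m1 + b * m2 : ℤ) : ℝ) - (lam + (σ * b - κ) * θ) * n =
        (σ * m1 - lam * n) + ((σ * b - κ) * (m2 - n * θ) + ((κ * m2 : ℤ) : ℝ)) := by
      push_cast; ring
    rw [h8, AddCircle.coe_add] at hz
    have h9 := norm_coe_le ((σ * b - κ) * (m2 - n * θ) + ((κ * m2 : ℤ) : ℝ)) (κ * m2)
    rw [add_sub_cancel_right, abs_mul] at h9
    have h10 : |σ * b - κ| * |(m2 : ℝ) - n * θ| ≤ |σ * b - κ| * q := by gcongr
    have h11 := norm_add_le ((σ * m1 - lam * n : ℝ) : UnitAddCircle)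
      (((σ * b - κ) * (m2 - n * θ) + ((κ * m2 : ℤ) : ℝ) : ℝ) : UnitAddCircle)
    linarith
  · refine (measureReal_union_le _ _).trans (add_le_add (hg n) ?_)
    refine (measureReal_union_le _ _).trans ?_
    linarith

theorem Mn_small (γ u : ℝ) (n : ℤ) (z : UnitAddCircle)
    (h : ∀ i ∈ Finset.Ico (-|n|) |n|, |u| < ‖z + ((i * γ : ℝ) : UnitAddCircle)‖) :
    Mn γ u n z = 0 := by
  obtain ⟨y, rfl⟩ := QuotientAddGroup.mk_surjective z
  have h1 : ∀ i ∈ Finset.Ico (-|n|) |n|,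
      bt u ((y : UnitAddCircle) + ((i * γ : ℝ) : UnitAddCircle)) = 0 := by
    intro i hi
    have h2 := h i hi
    rw [← AddCircle.coe_add] at h2 ⊢
    rw [← abs_neg] at h2
    rw [bt_coe, sub_eq_add_neg _ u, floor_add_of_lt h2, sub_self]
  have h3 := le_abs_self n
  have h4 := neg_abs_le n
  unfold Mn isum
  rw [Finset.sum_eq_zero, Finset.sum_eq_zero, sub_self]
  · intro i hi
    refine h1 i ?_
    simp only [Finset.mem_Ico] at hi ⊢
    omega
  · intro i hi
    refine h1 i ?_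
    simp only [Finset.mem_Ico] at hi ⊢
    omega

theorem good_limit {γ D σ lam δ δ' ε ε' : ℝ} {t l : ℕ → ℝ} (ht : Tendsto t atTop (𝓝 D))
    (hl : Tendsto l atTop (𝓝 lam)) (hg : ∀ᶠ K in atTop, Good γ (t K) σ (l K) δ ε) (hδ : δ < δ')
    (hε : ε < ε') : Good γ D σ lam δ' ε' := by
  intro n
  have h1 : Tendsto (fun K => δ + |lam - l K| * |(n : ℝ)|) atTop (𝓝 δ) := by
    simpa using (((hl.const_sub lam).abs).mul_const |(n : ℝ)|).const_add δ
  have h2 : Tendsto (fun K => ε + (Finset.Ico (-|n|) |n|).card * (2 * |D - t K|)) atTop (𝓝 ε) := by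
    simpa using ((((ht.const_sub D).abs).const_mul 2).const_mul
      ((Finset.Ico (-|n|) |n|).card : ℝ)).const_add ε
  obtain ⟨K, hK1, hK2, hK3⟩ :=
    ((h1.eventually_lt_const hδ).and ((h2.eventually_lt_const hε).and hg)).exists
  have h3 := volume_biUnion_ball_le (Finset.Ico (-|n|) |n|)
    (fun i => ((t K - i * γ : ℝ) : UnitAddCircle)) (abs_nonneg (D - t K))
  refine le_trans (measureReal_mono (s₂ := {z | δ < ‖((σ * Mn γ (t K) n z - l K * n : ℝ) :
    UnitAddCircle)‖} ∪ ⋃ i ∈ Finset.Ico (-|n|) |n|,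
      Metric.closedBall ((t K - i * γ : ℝ) : UnitAddCircle) |D - t K|) ?_) ?_
  · intro z hz
    by_contra hcon
    simp only [Set.mem_union, Set.mem_ofPred_eq, Set.mem_iUnion, not_or, not_lt, not_exists,
      mem_closedBall_iff_norm, not_le] at hz hcon
    obtain ⟨h4, h5⟩ := hcon
    have h6 : Mn γ D n z = Mn γ (t K) n z := by
      have h7 := Mn_add_arc γ (t K) (D - t K) n z
      rw [add_sub_cancel, Mn_small γ (D - t K) n _ fun i hi => ?_, add_zero] at h7
      · exact h7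
      · have h10 := h5 i hi
        rwa [AddCircle.coe_sub, ← sub_add] at h10
    have h8 : σ * Mn γ (t K) n z - lam * n = (σ * Mn γ (t K) n z - l K * n) + -((lam - l K) * n) := by
      ring
    rw [h6, h8, AddCircle.coe_add] at hz
    have h9 := norm_coe_le_abs (-((lam - l K) * n))
    rw [abs_neg, abs_mul] at h9
    have h11 := norm_add_le ((σ * Mn γ (t K) n z - l K * n : ℝ) : UnitAddCircle)
      ((-((lam - l K) * n) : ℝ) : UnitAddCircle)
    linarith
  · refine (measureReal_union_le _ _).trans ?_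
    linarith [hK3 n]

theorem diffraction_of_kesten {γ D : ℝ} (hγ : Irrational γ) (hD : D ∈ Set.Ioo (0 : ℝ) 1)
    {j k : ℤ} (hjk : D = j * γ + k) (x₀ : ℝ) : DiffractionCondition (circleSeq D γ x₀) := by
  have hmin : 0 < min D (1 - D) := lt_min hD.1 (sub_pos.mpr hD.2)
  obtain ⟨r, hr⟩ := exists_nat_ge (2 / min D (1 - D))
  rw [div_le_iff₀ hmin] at hr
  refine diffraction_of_good (ε := 0) hγ hD r hr (by simp) (fun m => ?_) x₀
  obtain ⟨m', hm'⟩ := exists_nat_gt (|m| + 1)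
  have hm0 : (1 : ℝ) < m' := by linarith [abs_nonneg m]
  obtain ⟨N, hN⟩ := exists_nat_gt (12 * m' * (|(j : ℝ)| + 1))
  have hN0 : (0 : ℝ) < N := lt_trans (by positivity) hN
  obtain ⟨B, q, hq, -, hB⟩ := Real.exists_int_int_abs_mul_sub_le D (n := N) (by exact_mod_cast hN0)
  set w : ℝ := 1 - 2 * D + 2 * D ^ 2 with hw
  have hw2 : 1 / 2 ≤ w := by nlinarith [sq_nonneg (2 * D - 1)]
  set σ : ℝ := m' * (q * D - B) / w with hσ
  have hσw : σ * w = m' * (q * D - B) := by rw [hσ]; field_simp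
  have hσb : |σ| * (|(j : ℝ)| + 1) ≤ 1 / 6 := by
    have h1 : |σ| * w = m' * |q * D - B| := by
      rw [← abs_of_pos (by linarith : 0 < w), ← abs_mul, hσw, abs_mul, Nat.abs_cast]
    have h2 : |q * D - B| * N ≤ 1 := by
      rw [le_div_iff₀ (by positivity)] at hB
      nlinarith [abs_nonneg (q * D - B)]
    have h3 : |σ| ≤ 2 * (m' * |q * D - B|) := by nlinarith [abs_nonneg σ]
    have h4 : |q * D - B| * (12 * m' * (|(j : ℝ)| + 1)) ≤ 1 := by
      nlinarith [abs_nonneg (q * D - B)]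
    have h5 : 0 ≤ |(j : ℝ)| + 1 := by positivity
    nlinarith
  have hσ1 : |σ| ≤ 1 / 6 := by nlinarith [abs_nonneg σ, abs_nonneg (j : ℝ)]
  refine ⟨m' * q - σ * (2 * D - 1), σ, σ * D, 2 * (m' * B) - m' * q, m' * q - m' * B, ?_, ?_, ?_, ?_⟩
  · have h1 : (1 : ℝ) ≤ q := by exact_mod_cast hq
    have h2 : |σ * (2 * D - 1)| ≤ 1 / 6 * 1 := by
      rw [abs_mul]
      gcongr
      rw [abs_le]; constructor <;> linarith [hD.1, hD.2]
    have h3 := le_abs_self (σ * (2 * D - 1))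
    have h4 := le_abs_self m
    nlinarith
  · push_cast
    linear_combination (-2) * hσw
  · push_cast
    linear_combination hσw
  · have := good_base γ σ j k (δ := 1 / 6) (by nlinarith [abs_nonneg σ])
    rwa [← hjk] at this

end Pool.Agent.P.MP_23b0f8_an
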