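import Mathlib

open Filter Topology

namespace Pool.Agent.P.MP_23b0f8_an

theorem fast {a c : ℕ → ℝ} (hc : ∀ k, c (k + 1) ≤ c k / 2) (h : ∀ k, |a (k + 1) - a k| ≤ c k) :
    ∃ A, Tendsto a atTop (𝓝 A) ∧ ∀ k, |A - a k| ≤ 2 * c k := by
  have hc0 : ∀ k, 0 ≤ c k := fun k => (abs_nonneg _).trans (h k)
  have h1 : ∀ k, c k ≤ c 0 * (1 / 2) ^ k := by
    intro k
    induction k with
    | zero => simp
    | succ k ih => rw [pow_succ]; linarith [hc k]
  have h2 : CauchySeq a := cauchySeq_of_le_geometric (1 / 2) (c 0) (by norm_num) fun k => by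
    rw [dist_comm, Real.dist_eq]; exact (h k).trans (h1 k)
  obtain ⟨A, hA⟩ := cauchySeq_tendsto_of_complete h2
  refine ⟨A, hA, fun k => ?_⟩
  have h3 : ∀ n, |a (n + k) - a k| ≤ 2 * c k - 2 * c (n + k) := by
    intro n
    induction n with
    | zero => simp
    | succ n ih =>
      have e : n + 1 + k = n + k + 1 := by ring
      rw [e]
      have := abs_sub_le (a (n + k + 1)) (a (n + k)) (a k)
      linarith [h (n + k), hc (n + k)]
  have h4 : Tendsto (fun n => |a (n + k) - a k|) atTop (𝓝 |A - a k|) :=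
    (((tendsto_add_atTop_iff_nat k).mpr hA).sub_const _).abs
  exact le_of_tendsto' h4 fun n => by linarith [h3 n, hc0 (n + k)]

/-- Denominators. -/
def qq : ℕ → ℕ
  | 0 => 30
  | k + 1 => qq k ^ 10

/-- Numerators of the approximations of the rotation number. -/
def pp : ℕ → ℤ
  | 0 => 10
  | k + 1 => pp k * (qq k : ℤ) ^ 9 + 1

/-- The pair of the numerator of the arc approximation and the Kesten index. -/
def uj : ℕ → ℤ × ℤ
  | 0 => (10, 1)
  | k + 1 =>
    ((uj k).1 * (qq k : ℤ) ^ 9 + ((uj k).2 + ((qq k - (uj k).1) ^ 2 + (uj k).1 ^ 2) * qq k),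
      (uj k).2 + ((qq k - (uj k).1) ^ 2 + (uj k).1 ^ 2) * qq k)

/-- Numerators of the approximations of the arc. -/
def uu (k : ℕ) : ℤ := (uj k).1

/-- Kesten indices. -/
def jj (k : ℕ) : ℤ := (uj k).2

/-- Multiplicities. -/
def ww (k : ℕ) : ℤ := (qq k - uu k) ^ 2 + uu k ^ 2

/-- Integer parts. -/
def ll : ℕ → ℤ
  | 0 => 0
  | k + 1 => ll k + ww k * pp k

theorem qq_succ (k : ℕ) : qq (k + 1) = qq k ^ 10 := rfl
theorem pp_succ (k : ℕ) : pp (k + 1) = pp k * (qq k : ℤ) ^ 9 + 1 := rfl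
theorem jj_succ (k : ℕ) : jj (k + 1) = jj k + ww k * qq k := rfl
theorem uu_succ (k : ℕ) : uu (k + 1) = uu k * (qq k : ℤ) ^ 9 + jj (k + 1) := rfl
theorem ll_succ (k : ℕ) : ll (k + 1) = ll k + ww k * pp k := rfl

theorem uu_eq (k : ℕ) : uu k = jj k * pp k - ll k * qq k := by
  induction k with
  | zero => rfl
  | succ k ih =>
    rw [uu_succ, ih, pp_succ, ll_succ, qq_succ, jj_succ]
    push_cast
    ring

theorem qq_ge (k : ℕ) : 30 ≤ qq k := by
  induction k with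
  | zero => rfl
  | succ k ih =>
    rw [qq_succ]
    exact ih.trans (Nat.le_self_pow (by norm_num) _)

theorem Q_ge (k : ℕ) : (30 : ℝ) ≤ qq k := by exact_mod_cast qq_ge k

theorem Q_pos (k : ℕ) : (0 : ℝ) < qq k := by linarith [Q_ge k]

theorem Q_succ (k : ℕ) : (qq (k + 1) : ℝ) = (qq k : ℝ) ^ 10 := by rw [qq_succ]; push_cast; rfl

theorem Q_double (k : ℕ) : 2 * (qq k : ℝ) ≤ qq (k + 1) := by
  rw [Q_succ]
  have h := Q_ge k
  have h1 : (30 : ℝ) ^ 9 ≤ (qq k : ℝ) ^ 9 := by gcongr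
  have h2 : (qq k : ℝ) ^ 10 = (qq k : ℝ) ^ 9 * qq k := by ring
  rw [h2]
  nlinarith

theorem Q_mono : Monotone fun k => (qq k : ℝ) :=
  monotone_nat_of_le_succ fun k => by linarith [Q_double k, Q_pos k]

theorem Q_ge_self (k : ℕ) : (k : ℝ) ≤ qq k := by
  induction k with
  | zero => simp
  | succ k ih => push_cast; linarith [Q_double k, Q_ge k]

theorem inv_pow_half (k r : ℕ) (hr : r ≠ 0) (C : ℝ) (hC : 0 ≤ C) :
    C / (qq (k + 1) : ℝ) ^ r ≤ C / (qq k : ℝ) ^ r / 2 := by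
  have h := Q_pos k
  rw [div_div]
  refine div_le_div_of_nonneg_left hC (by positivity) ?_
  calc (qq k : ℝ) ^ r * 2 ≤ (qq k : ℝ) ^ r * 2 ^ r := by
        gcongr; exact le_self_pow₀ (by norm_num) hr
    _ = (2 * qq k) ^ r := by rw [mul_pow]; ring
    _ ≤ _ := by gcongr; exact Q_double k

theorem tendsto_Q : Tendsto (fun k => (qq k : ℝ)) atTop atTop :=
  tendsto_atTop_mono Q_ge_self tendsto_natCast_atTop_atTop

/-- Rational approximations of the rotation number. -/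
noncomputable def gg (k : ℕ) : ℝ := pp k / qq k

/-- Rational approximations of the arc. -/
noncomputable def dd (k : ℕ) : ℝ := uu k / qq k

theorem gg_succ (k : ℕ) : gg (k + 1) = gg k + 1 / (qq k : ℝ) ^ 10 := by
  have h := Q_pos k
  unfold gg
  rw [Q_succ, pp_succ]
  push_cast
  field_simp

theorem dd_succ (k : ℕ) : dd (k + 1) = dd k + jj (k + 1) / (qq k : ℝ) ^ 10 := by
  have h := Q_pos k
  unfold dd
  rw [Q_succ, uu_succ]
  push_cast
  field_simp

theorem ww_eq (k : ℕ) : (ww k : ℝ) = (qq k : ℝ) ^ 2 * (1 - 2 * dd k + 2 * dd k ^ 2) := by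
  have h := Q_pos k
  unfold ww dd
  push_cast
  field_simp
  ring

theorem basic_bounds (k : ℕ) :
    1 / 3 ≤ dd k ∧ dd k ≤ 1 / 2 - 1 / qq k ∧ 0 < (jj k : ℝ) ∧ (jj k : ℝ) ≤ qq k := by
  induction k with
  | zero => simp [dd, uu, jj, uj, qq]; norm_num
  | succ k ih =>
    obtain ⟨h1, h2, h3, h4⟩ := ih
    have hQ := Q_ge k
    have hQ0 := Q_pos k
    have h5 : 0 < 1 / (qq k : ℝ) := by positivity
    have hw1 : (ww k : ℝ) ≤ (qq k : ℝ) ^ 2 := by
      rw [ww_eq]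
      exact mul_le_of_le_one_right (by positivity) (by nlinarith)
    have hw0 : 0 ≤ (ww k : ℝ) := by
      rw [ww_eq]
      exact mul_nonneg (by positivity) (by nlinarith)
    have hj : (jj (k + 1) : ℝ) = jj k + ww k * qq k := by rw [jj_succ]; push_cast; ring
    have hj0 : 0 < (jj (k + 1) : ℝ) := by rw [hj]; positivity
    have hj1 : (jj (k + 1) : ℝ) ≤ 2 * (qq k : ℝ) ^ 3 := by rw [hj]; nlinarith
    have h7 : (30 : ℝ) ^ 6 ≤ (qq k : ℝ) ^ 6 := by gcongr
    have hj2 : (jj (k + 1) : ℝ) / (qq k : ℝ) ^ 10 ≤ 1 / qq k / 2 := by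
      rw [div_div, div_le_div_iff₀ (by positivity) (by positivity)]
      have : (qq k : ℝ) ^ 10 = (qq k : ℝ) ^ 6 * (qq k : ℝ) ^ 4 := by ring
      have h8 : (jj (k + 1) : ℝ) * (qq k * 2) ≤ 2 * (qq k : ℝ) ^ 3 * (qq k * 2) := by gcongr
      have h9 : 0 < (qq k : ℝ) ^ 4 := by positivity
      nlinarith
    have h10 := inv_pow_half k 1 one_ne_zero 1 zero_le_one
    simp only [pow_one] at h10
    refine ⟨?_, ?_, hj0, ?_⟩
    · rw [dd_succ]
      have : 0 ≤ (jj (k + 1) : ℝ) / (qq k : ℝ) ^ 10 := by positivity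
      linarith
    · rw [dd_succ]; linarith
    · rw [Q_succ]
      have : (qq k : ℝ) ^ 10 = (qq k : ℝ) ^ 6 * (qq k : ℝ) * (qq k : ℝ) ^ 3 := by ring
      have h9 : 0 < (qq k : ℝ) ^ 3 := by positivity
      have h11 : 2 ≤ (qq k : ℝ) ^ 6 * (qq k : ℝ) := by nlinarith
      nlinarith

theorem dd_lower (k : ℕ) : 1 / 3 ≤ dd k := (basic_bounds k).1

theorem dd_upper (k : ℕ) : dd k ≤ 1 / 2 := by
  have h := (basic_bounds k).2.1
  have : 0 < 1 / (qq k : ℝ) := by have := Q_pos k; positivity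
  linarith

theorem jj_pos (k : ℕ) : 0 < (jj k : ℝ) := (basic_bounds k).2.2.1

theorem jj_le (k : ℕ) : (jj k : ℝ) ≤ qq k := (basic_bounds k).2.2.2

theorem ww_le (k : ℕ) : (ww k : ℝ) ≤ (qq k : ℝ) ^ 2 := by
  have := dd_lower k
  have := dd_upper k
  rw [ww_eq]
  exact mul_le_of_le_one_right (by positivity) (by nlinarith)

theorem ww_ge (k : ℕ) : (qq k : ℝ) ^ 2 / 2 ≤ ww k := by
  rw [ww_eq]
  nlinarith [sq_nonneg ((qq k : ℝ) * (2 * dd k - 1))]

theorem ww_pos (k : ℕ) : 0 < (ww k : ℝ) := by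
  have := Q_pos k
  exact lt_of_lt_of_le (by positivity) (ww_ge k)

theorem jj_succ_le (k : ℕ) : (jj (k + 1) : ℝ) ≤ 2 * (qq k : ℝ) ^ 3 := by
  have hj : (jj (k + 1) : ℝ) = jj k + ww k * qq k := by rw [jj_succ]; push_cast; ring
  have := jj_le k
  have := ww_le k
  have := Q_ge k
  rw [hj]
  nlinarith

theorem dd_step (k : ℕ) : |dd (k + 1) - dd k| ≤ 2 / (qq k : ℝ) ^ 7 := by
  have := Q_pos k
  have := jj_pos (k + 1)
  rw [dd_succ, add_sub_cancel_left, abs_of_pos (by positivity),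
    div_le_div_iff₀ (by positivity) (by positivity)]
  calc (jj (k + 1) : ℝ) * (qq k : ℝ) ^ 7 ≤ 2 * (qq k : ℝ) ^ 3 * (qq k : ℝ) ^ 7 := by
        gcongr; exact jj_succ_le k
    _ = _ := by ring

theorem exists_gamma : ∃ γ, Tendsto gg atTop (𝓝 γ) ∧ ∀ k, |γ - gg k| ≤ 2 * (1 / (qq k : ℝ) ^ 10) :=
  fast (fun k => inv_pow_half k 10 (by norm_num) 1 zero_le_one) fun k => by
    have := Q_pos k
    rw [gg_succ, add_sub_cancel_left, abs_of_pos (by positivity)]

theorem exists_D : ∃ D, Tendsto dd atTop (𝓝 D) ∧ ∀ k, |D - dd k| ≤ 2 * (2 / (qq k : ℝ) ^ 7) :=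
  fast (fun k => inv_pow_half k 7 (by norm_num) 2 zero_le_two) dd_step

theorem independent {γ D : ℝ} (hγ : ∀ k, |γ - gg k| ≤ 2 * (1 / (qq k : ℝ) ^ 10))
    (hD : ∀ k, |D - dd k| ≤ 2 * (2 / (qq k : ℝ) ^ 7)) {A B C : ℤ} (h : A * D + B * γ + C = 0) :
    A = 0 ∧ B = 0 := by
  have h1 : ∀ k : ℕ, 4 * |(A : ℝ)| + 2 * |(B : ℝ)| < k → A * uu k + B * pp k + C * qq k = 0 := by
    intro k hk
    have hQ := Q_ge k
    have hQ0 := Q_pos k
    have h2 : ((A * uu k + B * pp k + C * qq k : ℤ) : ℝ) =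
        -(qq k * (A * (D - dd k) + B * (γ - gg k))) := by
      have hC : (C : ℝ) = -(A * D + B * γ) := by linarith
      unfold dd gg
      push_cast
      rw [hC]
      field_simp
      ring
    have h3 : |D - dd k| ≤ 4 / (qq k : ℝ) ^ 2 := by
      refine (hD k).trans ?_
      rw [← mul_div_assoc]
      norm_num
      gcongr
      · linarith
      · norm_num
    have h4 : |γ - gg k| ≤ 2 / (qq k : ℝ) ^ 2 := by
      refine (hγ k).trans ?_
      rw [← mul_div_assoc, mul_one]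
      gcongr
      · linarith
      · norm_num
    have h5 : |((A * uu k + B * pp k + C * qq k : ℤ) : ℝ)| < 1 := by
      rw [h2, abs_neg, abs_mul, abs_of_pos hQ0]
      calc (qq k : ℝ) * |A * (D - dd k) + B * (γ - gg k)|
          ≤ qq k * (|(A : ℝ)| * (4 / (qq k : ℝ) ^ 2) + |(B : ℝ)| * (2 / (qq k : ℝ) ^ 2)) := by
            gcongr
            refine (abs_add_le _ _).trans ?_
            rw [abs_mul, abs_mul]
            gcongr
        _ = (4 * |(A : ℝ)| + 2 * |(B : ℝ)|) / qq k := by field_simp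
        _ < 1 := by rw [div_lt_one hQ0]; linarith [Q_ge_self k]
    have h6 : |A * uu k + B * pp k + C * qq k| < 1 := by exact_mod_cast h5
    exact Int.abs_lt_one_iff.mp h6
  have h2 : ∀ k : ℕ, 4 * |(A : ℝ)| + 2 * |(B : ℝ)| < k → A * jj (k + 1) + B = 0 := by
    intro k hk
    have h3 := h1 k hk
    have h4 := h1 (k + 1) (by push_cast; linarith)
    rw [uu_succ, pp_succ, qq_succ] at h4
    push_cast at h4
    linear_combination h4 - (qq k : ℤ) ^ 9 * h3
  obtain ⟨k, hk⟩ := exists_nat_gt (4 * |(A : ℝ)| + 2 * |(B : ℝ)|)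
  have h3 := h2 k hk
  have h4 := h2 (k + 1) (by push_cast; linarith)
  rw [jj_succ] at h4
  have h5 : A * (ww (k + 1) * qq (k + 1)) = 0 := by linear_combination h4 - h3
  have h6 : (0 : ℤ) < ww (k + 1) := by exact_mod_cast ww_pos (k + 1)
  have h7 : (0 : ℤ) < qq (k + 1) := by exact_mod_cast Q_pos (k + 1)
  have hA : A = 0 := (mul_eq_zero.mp h5).resolve_right (mul_pos h6 h7).ne'
  exact ⟨hA, by simpa [hA] using h3⟩

end Pool.Agent.P.MP_23b0f8_an
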