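import Mathlib
import Pool.Agent.P.MP_23b0f8_an.Seqs
import Pool.Agent.P.MP_23b0f8_an.Kesten

open Filter Topology

namespace Pool.Agent.P.MP_23b0f8_an

/-- The quotient `(2d - 1) / ((1 - d) ^ 2 + d ^ 2)`. -/
noncomputable def GG (d : ℝ) : ℝ := (2 * d - 1) / (1 - 2 * d + 2 * d ^ 2)

theorem NN_pos (d : ℝ) : 0 < 1 - 2 * d + 2 * d ^ 2 := by nlinarith [sq_nonneg (2 * d - 1)]

theorem abs_GG_le (d : ℝ) : |GG d| ≤ 1 := by
  have h := NN_pos d
  unfold GG
  rw [abs_div, abs_of_pos h, div_le_one h, abs_le]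
  constructor <;> nlinarith [sq_nonneg (d - 1), sq_nonneg d]

theorem GG_lip (d d' : ℝ) : |GG d - GG d'| ≤ 4 * |d - d'| := by
  have h := NN_pos d
  have h' := NN_pos d'
  have h1 : GG d - GG d' = (d - d') * ((1 - (2 * d - 1) * (2 * d' - 1)) /
      ((1 - 2 * d + 2 * d ^ 2) * (1 - 2 * d' + 2 * d' ^ 2))) := by
    unfold GG
    field_simp
    ring
  rw [h1, abs_mul, mul_comm]
  gcongr
  rw [abs_div, abs_of_pos (mul_pos h h'), div_le_iff₀ (mul_pos h h')]
  have h2 : 4 * ((1 - 2 * d + 2 * d ^ 2) * (1 - 2 * d' + 2 * d' ^ 2)) =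
      (1 + (2 * d - 1) ^ 2) * (1 + (2 * d' - 1) ^ 2) := by ring
  rw [h2]
  generalize 2 * d - 1 = x
  generalize 2 * d' - 1 = y
  rw [abs_le]
  constructor <;> nlinarith [sq_nonneg (x - y), sq_nonneg (x + y), sq_nonneg (x * y)]

theorem continuous_GG : Continuous GG :=
  Continuous.div (by fun_prop) (by fun_prop) fun d => (NN_pos d).ne'

/-- The integer `e`. -/
def ee (t : ℕ) : ℤ := 2 * uu t - qq t

/-- State of the recursion for the `t`-th eigenvalue. -/
def zy (t : ℕ) : ℕ → ℤ × ℤ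
  | 0 => (ww t, 0)
  | n + 1 =>
    ((qq (t + n) : ℤ) ^ 9 * (zy t n).1 + ee t * jj (t + n + 1) +
      ((zy t n).2 + ((zy t n).1 * ee (t + n) - ee t * ww (t + n)) * qq (t + n)),
      (zy t n).2 + ((zy t n).1 * ee (t + n) - ee t * ww (t + n)) * qq (t + n))

/-- The correcting integers. -/
def kap (t n : ℕ) : ℤ := (zy t n).1 * ee (t + n) - ee t * ww (t + n)

/-- The accumulated index. -/
def yy (t n : ℕ) : ℤ := (zy t n).2

/-- Approximation of the eigenvalue times the squared norm. -/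
noncomputable def ZZ (t n : ℕ) : ℝ := (zy t n).1 / qq (t + n)

/-- Approximation of the reduced frequency. -/
noncomputable def sig (t n : ℕ) : ℝ := ZZ t n * GG (dd (t + n)) - ee t

theorem yy_succ (t n : ℕ) : yy t (n + 1) = yy t n + kap t n * qq (t + n) := rfl

theorem ZZ_succ (t n : ℕ) : ZZ t (n + 1) =
    ZZ t n + (ee t * jj (t + n + 1) + yy t (n + 1)) / (qq (t + n) : ℝ) ^ 10 := by
  have h := Q_pos (t + n)
  have h1 : (zy t (n + 1)).1 =
    (qq (t + n) : ℤ) ^ 9 * (zy t n).1 + ee t * jj (t + n + 1) + yy t (n + 1) := rfl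
  unfold ZZ
  rw [h1, ← add_assoc t, Q_succ]
  push_cast
  field_simp
  ring

theorem ee_eq (t : ℕ) : (ee t : ℝ) = qq t * (2 * dd t - 1) := by
  have h := Q_pos t
  unfold ee dd
  push_cast
  field_simp

theorem kap_eq (t n : ℕ) : (kap t n : ℝ) = sig t n * ww (t + n) := by
  have h := Q_pos (t + n)
  have h' := NN_pos (dd (t + n))
  unfold kap sig ZZ GG
  push_cast
  rw [ee_eq (t + n), ww_eq]
  field_simp

theorem ZZ_zero (t : ℕ) : ZZ t 0 = qq t * (1 - 2 * dd t + 2 * dd t ^ 2) := by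
  have h := Q_pos t
  change (ww t : ℝ) / qq t = _
  rw [ww_eq]
  field_simp

theorem sig_zero (t : ℕ) : sig t 0 = 0 := by
  have h' := NN_pos (dd t)
  unfold sig GG
  rw [ZZ_zero, ee_eq, add_zero]
  field_simp
  ring

theorem abs_ee_le (t : ℕ) : |(ee t : ℝ)| ≤ qq t := by
  have h := Q_pos t
  have h1 := dd_lower t
  have h2 := dd_upper t
  rw [ee_eq, abs_le]
  constructor <;> nlinarith

theorem step_bounds (t n : ℕ) (h1 : |sig t n| ≤ 1) (h2 : |ZZ t n| ≤ qq t + 1)
    (h3 : |(yy t n : ℝ)| ≤ jj (t + n)) :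
    |(yy t (n + 1) : ℝ)| ≤ jj (t + n + 1) ∧
      |ZZ t (n + 1) - ZZ t n| ≤ 3 / (qq (t + n) : ℝ) ^ 6 ∧
      |sig t (n + 1) - sig t n| ≤ 20 / (qq (t + n) : ℝ) ^ 6 := by
  set Q : ℝ := (qq (t + n) : ℝ) with hQdef
  have hQ : 30 ≤ Q := Q_ge (t + n)
  have hQ0 : 0 < Q := Q_pos (t + n)
  have hqt : (qq t : ℝ) ≤ Q := Q_mono (Nat.le_add_right t n)
  have hw := ww_pos (t + n)
  have a1 : |(yy t (n + 1) : ℝ)| ≤ jj (t + n + 1) := by
    rw [yy_succ, jj_succ]
    push_cast
    refine (abs_add_le _ _).trans (add_le_add h3 ?_)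
    rw [kap_eq, abs_mul, abs_mul, abs_of_pos hw, abs_of_pos hQ0]
    gcongr
    exact mul_le_of_le_one_left hw.le h1
  have hj0 := jj_pos (t + n + 1)
  have hj1 : (jj (t + n + 1) : ℝ) ≤ 2 * Q ^ 3 := jj_succ_le (t + n)
  have a2 : |ZZ t (n + 1) - ZZ t n| ≤ 3 / Q ^ 6 := by
    rw [ZZ_succ, add_sub_cancel_left, abs_div, abs_of_pos (by positivity : 0 < Q ^ 10),
      div_le_div_iff₀ (by positivity) (by positivity)]
    have b1 : |(ee t : ℝ) * jj (t + n + 1) + yy t (n + 1)| ≤ 3 * Q ^ 4 := by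
      refine (abs_add_le _ _).trans ?_
      rw [abs_mul, abs_of_pos hj0]
      have b2 : |(ee t : ℝ)| * jj (t + n + 1) ≤ Q * (2 * Q ^ 3) := by
        gcongr
        exact (abs_ee_le t).trans hqt
      have b3 : 0 < Q ^ 3 := by positivity
      nlinarith
    calc _ ≤ 3 * Q ^ 4 * Q ^ 6 := by gcongr
      _ = _ := by ring
  refine ⟨a1, a2, ?_⟩
  have e1 : sig t (n + 1) - sig t n = (ZZ t (n + 1) - ZZ t n) * GG (dd (t + n + 1)) +
      ZZ t n * (GG (dd (t + n + 1)) - GG (dd (t + n))) := by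
    unfold sig
    rw [← add_assoc t]
    ring
  rw [e1]
  refine (abs_add_le _ _).trans ?_
  rw [abs_mul, abs_mul]
  have b1 : |ZZ t (n + 1) - ZZ t n| * |GG (dd (t + n + 1))| ≤ 3 / Q ^ 6 * 1 := by
    gcongr
    exact abs_GG_le _
  have b2 : |ZZ t n| * |GG (dd (t + n + 1)) - GG (dd (t + n))| ≤ (2 * Q) * (4 * (2 / Q ^ 7)) := by
    gcongr
    · linarith
    · refine (GG_lip _ _).trans ?_
      gcongr
      exact dd_step (t + n)
  have b3 : (2 * Q) * (4 * (2 / Q ^ 7)) = 16 / Q ^ 6 := by field_simp; norm_num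
  have b4 : 0 < 1 / Q ^ 6 := by positivity
  have b5 : 20 / Q ^ 6 = 3 / Q ^ 6 * 1 + 16 / Q ^ 6 + 1 / Q ^ 6 := by ring
  linarith

theorem div_pow_six_le {C : ℝ} (hC : C ≤ 20) (k : ℕ) : C / (qq k : ℝ) ^ 6 ≤ 1 / qq k := by
  have hQ := Q_ge k
  have hQ0 := Q_pos k
  rw [div_le_div_iff₀ (by positivity) hQ0]
  have h1 : (30 : ℝ) ^ 5 ≤ (qq k : ℝ) ^ 5 := by gcongr
  have h2 : (qq k : ℝ) ^ 6 = (qq k : ℝ) ^ 5 * qq k := by ring
  rw [h2]
  nlinarith

theorem inv_bounds (t n : ℕ) : |sig t n| ≤ 1 - 2 / qq (t + n) ∧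
    |ZZ t n| ≤ qq t + 1 - 2 / qq (t + n) ∧ |(yy t n : ℝ)| ≤ jj (t + n) := by
  induction n with
  | zero =>
    have hQ := Q_ge t
    have hQ0 := Q_pos t
    have h1 : 2 / (qq t : ℝ) ≤ 1 := by rw [div_le_one hQ0]; linarith
    have h2 := dd_lower t
    have h3 := dd_upper t
    have h4 := NN_pos (dd t)
    refine ⟨by rw [sig_zero, add_zero, abs_zero]; linarith, ?_, ?_⟩
    · rw [ZZ_zero, add_zero, abs_of_pos (by positivity)]
      have : (qq t : ℝ) * (1 - 2 * dd t + 2 * dd t ^ 2) ≤ qq t :=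
        mul_le_of_le_one_right hQ0.le (by nlinarith)
      linarith
    · simpa [yy, zy] using (jj_pos t).le
  | succ n ih =>
    obtain ⟨h1, h2, h3⟩ := ih
    have hQ0 := Q_pos (t + n)
    have h4 : 0 < 2 / (qq (t + n) : ℝ) := by positivity
    obtain ⟨a1, a2, a3⟩ := step_bounds t n (by linarith) (by linarith) h3
    have h5 := inv_pow_half (t + n) 1 one_ne_zero 2 zero_le_two
    simp only [pow_one] at h5
    have h6 := div_pow_six_le (C := 3) (by norm_num) (t + n)
    have h7 := div_pow_six_le (C := 20) le_rfl (t + n)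
    have h8 : 2 / (qq (t + n) : ℝ) / 2 = 1 / qq (t + n) := by ring
    have h9 : 2 / (qq (t + n) : ℝ) = 2 * (1 / qq (t + n)) := by ring
    have h10 := abs_sub_abs_le_abs_sub (sig t (n + 1)) (sig t n)
    have h11 := abs_sub_abs_le_abs_sub (ZZ t (n + 1)) (ZZ t n)
    rw [← add_assoc t]
    exact ⟨by linarith, by linarith, a1⟩

theorem steps (t n : ℕ) : |ZZ t (n + 1) - ZZ t n| ≤ 3 / (qq (t + n) : ℝ) ^ 6 ∧
    |sig t (n + 1) - sig t n| ≤ 20 / (qq (t + n) : ℝ) ^ 6 := by
  obtain ⟨h1, h2, h3⟩ := inv_bounds t n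
  have hQ0 := Q_pos (t + n)
  have h4 : 0 < 2 / (qq (t + n) : ℝ) := by positivity
  exact (step_bounds t n (by linarith) (by linarith) h3).2

theorem Good.mono {γ t σ lam δ δ' ε ε' : ℝ} (h : Good γ t σ lam δ ε) (hδ : δ ≤ δ') (hε : ε ≤ ε') :
    Good γ t σ lam δ' ε' := by
  have := probCircle
  exact fun n => le_trans (MeasureTheory.measureReal_mono fun z hz => hδ.trans_lt hz)
    ((h n).trans hε)

theorem eigen {γ D : ℝ} (hγ : ∀ k, |γ - gg k| ≤ 2 * (1 / (qq k : ℝ) ^ 10))
    (hD : Tendsto dd atTop (𝓝 D)) (hD0 : 0 ≤ D) (hD1 : D ≤ 1) (t : ℕ) :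
    ∃ (S σ lam : ℝ) (e a : ℤ), (qq t : ℝ) / 2 - 1 ≤ S ∧ S * (2 * D - 1) = σ + e ∧
      S * (1 - D) + lam = a ∧ Good γ D σ lam (1 / 6) (1 / 20) := by
  obtain ⟨Z, hZ, hZb⟩ := fast (a := ZZ t) (c := fun n => 3 / (qq (t + n) : ℝ) ^ 6)
    (fun n => inv_pow_half (t + n) 6 (by norm_num) 3 (by norm_num)) fun n => (steps t n).1
  obtain ⟨σ, hσ, hσb⟩ := fast (a := sig t) (c := fun n => 20 / (qq (t + n) : ℝ) ^ 6)
    (fun n => inv_pow_half (t + n) 6 (by norm_num) 20 (by norm_num)) fun n => (steps t n).2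
  have hshift : Tendsto (fun n => t + n) atTop atTop := tendsto_atTop_mono
    (fun n => Nat.le_add_left n t) tendsto_id
  have hDt : Tendsto (fun n => dd (t + n)) atTop (𝓝 D) := hD.comp hshift
  have hσeq : σ = Z * GG D - ee t :=
    tendsto_nhds_unique hσ ((hZ.mul ((continuous_GG.tendsto D).comp hDt)).sub_const _)
  have hN := NN_pos D
  have hsmall : ∀ (v : ℕ → ℝ), (∀ n, |v n| ≤ qq (t + n)) →
      Tendsto (fun n => v n * (γ - gg (t + n))) atTop (𝓝 0) := by
    intro v hv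
    have h1 : Tendsto (fun n => 2 * (qq (t + n) : ℝ)⁻¹) atTop (𝓝 0) := by
      simpa using (tendsto_inv_atTop_zero.comp (tendsto_Q.comp hshift)).const_mul 2
    refine squeeze_zero_norm (fun n => ?_) h1
    have hQ := Q_ge (t + n)
    have hQ0 := Q_pos (t + n)
    rw [Real.norm_eq_abs, abs_mul]
    calc |v n| * |γ - gg (t + n)| ≤ qq (t + n) * (2 * (1 / (qq (t + n) : ℝ) ^ 10)) := by
          gcongr
          · exact hv n
          · exact hγ _
      _ = 2 * ((qq (t + n) : ℝ) ^ 9)⁻¹ := by field_simp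
      _ ≤ _ := by
          gcongr
          exact le_self_pow₀ (by linarith) (by norm_num)
  set a : ℤ := qq t - uu t with ha
  set arc : ℕ → ℝ := fun n => jj (t + n) * γ - ll (t + n) with harc
  set lam : ℕ → ℝ := fun n => σ * arc n -
    (ZZ t n - a - ee t * dd (t + n) + yy t n * (γ - gg (t + n))) with hlam
  have harc_eq : ∀ n, arc n = dd (t + n) + jj (t + n) * (γ - gg (t + n)) := by
    intro n
    have hQ0 := Q_pos (t + n)
    simp only [harc, dd, gg, uu_eq]
    push_cast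
    field_simp
    ring
  have harc_lim : Tendsto arc atTop (𝓝 D) := by
    have := hDt.add (hsmall (fun n => jj (t + n)) fun n => by
      rw [abs_of_pos (jj_pos _)]; exact jj_le _)
    rw [add_zero] at this
    exact this.congr fun n => (harc_eq n).symm
  have hlam_lim : Tendsto lam atTop (𝓝 (σ * D - (Z - a - ee t * D + 0))) :=
    (harc_lim.const_mul σ).sub (((hZ.sub_const _).sub (hDt.const_mul _)).add
      (hsmall (fun n => yy t n) fun n => (inv_bounds t n).2.2.trans (jj_le _)))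
  have hQt := Q_ge t
  have hQt0 := Q_pos t
  have hgood : ∀ n, Good γ (arc n) σ (lam n) (3 / qq t - 2 / qq (t + n))
      (1 / qq t - 1 / qq (t + n)) := by
    intro n
    induction n with
    | zero =>
      have h1 := hσb 0
      rw [sig_zero, sub_zero, add_zero] at h1
      have h2 : |σ| * |(jj t : ℝ)| ≤ 1 / qq t := by
        rw [abs_of_pos (jj_pos t)]
        calc |σ| * jj t ≤ 2 * (20 / (qq t : ℝ) ^ 6) * qq t :=
              mul_le_mul h1 (jj_le t) (jj_pos t).le (by positivity)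
          _ = 40 / (qq t : ℝ) ^ 4 * (1 / qq t) := by field_simp; norm_num
          _ ≤ _ := by
              refine mul_le_of_le_one_left (by positivity) ?_
              rw [div_le_one (by positivity)]
              have : (30 : ℝ) ^ 4 ≤ (qq t : ℝ) ^ 4 := by gcongr
              linarith
      have h3 := good_base γ σ (jj t) (-ll t) h2
      have h4 : arc 0 = jj t * γ + ((-ll t : ℤ) : ℝ) := by simp [harc, sub_eq_add_neg]
      have h5 : lam 0 = σ * arc 0 := by
        simp only [hlam, ZZ_zero, ee_eq, ha, add_zero, yy, zy, dd]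
        push_cast
        field_simp
        ring
      rw [h5, h4]
      exact h3.mono (by rw [add_zero]; apply le_of_eq; ring) (by simp)
    | succ n ih =>
      set Q : ℝ := (qq (t + n) : ℝ) with hQdef
      have hQ : 30 ≤ Q := Q_ge (t + n)
      have hQ0 : 0 < Q := Q_pos (t + n)
      have hw := ww_pos (t + n)
      have hw1 : (ww (t + n) : ℝ) ≤ Q ^ 2 := ww_le (t + n)
      have hb : (((ww (t + n)).toNat : ℕ) : ℝ) = ww (t + n) := by
        have : (0 : ℤ) ≤ ww (t + n) := by exact_mod_cast hw.le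
        exact_mod_cast Int.toNat_of_nonneg this
      have h1 := good_step ih (qq (t + n)) (ww (t + n)).toNat (pp (t + n)) (kap t n)
      rw [hb] at h1
      have hθ : Q * γ - pp (t + n) = Q * (γ - gg (t + n)) := by
        unfold gg
        rw [← hQdef]
        field_simp
      have h2 : arc (n + 1) = arc n + ww (t + n) * (Q * γ - pp (t + n)) := by
        simp only [harc, ← add_assoc t, jj_succ, ll_succ]
        push_cast
        ring
      have h3 : lam (n + 1) = lam n + (σ * ww (t + n) - kap t n) * (Q * γ - pp (t + n)) := by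
        simp only [hlam, h2, ← add_assoc t, ZZ_succ, dd_succ, gg_succ, hθ]
        rw [yy_succ]
        push_cast
        ring
      rw [h2, h3]
      have h5 := inv_pow_half (t + n) 1 one_ne_zero 1 zero_le_one
      simp only [pow_one] at h5
      have h30 : (30 : ℝ) ^ 2 ≤ Q ^ 2 := by gcongr
      refine h1.mono ?_ ?_
      · have h6 : |σ * ww (t + n) - kap t n| * Q ≤ 1 / Q := by
          rw [kap_eq, ← sub_mul, abs_mul, abs_of_pos hw]
          calc |σ - sig t n| * ww (t + n) * Q ≤ 2 * (20 / Q ^ 6) * Q ^ 2 * Q := by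
                gcongr
                exact hσb n
            _ = 40 / Q ^ 2 * (1 / Q) := by field_simp; norm_num
            _ ≤ _ := by
                refine mul_le_of_le_one_left (by positivity) ?_
                rw [div_le_one (by positivity)]
                linarith
        have h7 : 2 / (qq (t + n + 1) : ℝ) = 2 * (1 / qq (t + n + 1)) := by ring
        have h8 : 2 / Q = 2 * (1 / Q) := by ring
        rw [← add_assoc t]
        linarith
      · have h6 : 4 * Q * (ww (t + n) * |Q * γ - pp (t + n)|) ≤ 1 / Q / 2 := by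
          rw [hθ, abs_mul, abs_of_pos hQ0]
          calc 4 * Q * (ww (t + n) * (Q * |γ - gg (t + n)|))
              ≤ 4 * Q * (Q ^ 2 * (Q * (2 * (1 / Q ^ 10)))) := by
                gcongr
                exact hγ _
            _ = 16 / Q ^ 5 * (1 / Q / 2) := by field_simp; norm_num
            _ ≤ _ := by
                refine mul_le_of_le_one_left (by positivity) ?_
                rw [div_le_one (by positivity)]
                have : (30 : ℝ) ^ 5 ≤ Q ^ 5 := by gcongr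
                linarith
        rw [← add_assoc t]
        linarith
  have h30 : 1 / (qq t : ℝ) ≤ 1 / 30 := by gcongr
  have hfin : Good γ D σ (σ * D - (Z - a - ee t * D + 0)) (1 / 6) (1 / 20) := by
    refine good_limit (δ := 1 / 10) (ε := 1 / 30) harc_lim hlam_lim
      (.of_forall fun n => (hgood n).mono ?_ ?_) (by norm_num) (by norm_num)
    · have := Q_pos (t + n)
      have h1 : 0 < 2 / (qq (t + n) : ℝ) := by positivity
      have h2 : 3 / (qq t : ℝ) = 3 * (1 / qq t) := by ring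
      linarith
    · have := Q_pos (t + n)
      have h1 : 0 < 1 / (qq (t + n) : ℝ) := by positivity
      linarith
  refine ⟨Z / (1 - 2 * D + 2 * D ^ 2), σ, _, ee t, a, ?_, ?_, ?_, hfin⟩
  · have h1 := hZb 0
    rw [ZZ_zero, add_zero] at h1
    have h2 := div_pow_six_le (C := 3) (by norm_num) t
    have h3 := (abs_le.mp h1).1
    have h4 : (qq t : ℝ) / 2 ≤ qq t * (1 - 2 * dd t + 2 * dd t ^ 2) := by
      nlinarith [sq_nonneg (2 * dd t - 1)]
    have h5 : (qq t : ℝ) / 2 - 1 ≤ Z := by linarith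
    rw [le_div_iff₀ hN]
    refine le_trans (mul_le_of_le_one_right (by linarith) (by nlinarith)) h5
  · rw [hσeq, GG]
    ring
  · rw [hσeq, GG]
    field_simp
    ring

theorem exists_example : ∃ D γ : ℝ, D ∈ Set.Ioo (0 : ℝ) 1 ∧
    (∀ A B C : ℤ, A * D + B * γ + C = 0 → A = 0 ∧ B = 0) ∧ Irrational γ ∧
      ∀ x₀ : ℝ, DiffractionCondition (circleSeq D γ x₀) := by
  obtain ⟨γ, -, hγ⟩ := exists_gamma
  obtain ⟨D, hD, hDb⟩ := exists_D
  have h1 : 1 / 3 ≤ D := ge_of_tendsto' hD dd_lower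
  have h2 : D ≤ 1 / 2 := le_of_tendsto' hD dd_upper
  have hmem : D ∈ Set.Ioo (0 : ℝ) 1 := ⟨by linarith, by linarith⟩
  have hirr : Irrational γ := by
    rintro ⟨r, hr⟩
    have h3 := (independent hγ hDb (A := 0) (B := r.den) (C := -r.num) (by
      rw [← hr, Rat.cast_def]
      have : (r.den : ℝ) ≠ 0 := by exact_mod_cast r.den_nz
      push_cast
      field_simp
      ring)).2
    exact r.den_nz (by exact_mod_cast h3)
  refine ⟨D, γ, hmem, fun A B C h => independent hγ hDb h, hirr, fun x₀ => ?_⟩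
  refine diffraction_of_good (ε := 1 / 20) hirr hmem 6 ?_ (by norm_num) (fun m => ?_) x₀
  · have : 1 / 3 ≤ min D (1 - D) := le_min h1 (by linarith)
    push_cast
    linarith
  · obtain ⟨t, ht⟩ := exists_nat_gt (2 * m + 2)
    obtain ⟨S, σ, lam, e, a, h3, h4⟩ := eigen hγ hD (by linarith) (by linarith) t
    exact ⟨S, σ, lam, e, a, by linarith [Q_ge_self t], h4⟩

theorem exists_example' : ∃ D γ : ℝ, D ∈ Set.Ioo (0 : ℝ) 1 ∧ Irrational γ ∧
    (¬ ∃ j k : ℤ, D = j * γ + k) ∧ (¬ ∃ a b : ℚ, D = a * γ + b) ∧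
    ∀ x₀ : ℝ, DiffractionCondition (circleSeq D γ x₀) := by
  obtain ⟨D, γ, h1, h2, h3, h4⟩ := exists_example
  have h5 : ¬ ∃ a b : ℚ, D = a * γ + b := by
    rintro ⟨a, b, h⟩
    have ha : (a.den : ℝ) ≠ 0 := by exact_mod_cast a.den_nz
    have hb : (b.den : ℝ) ≠ 0 := by exact_mod_cast b.den_nz
    have h6 := (h2 (a.den * b.den) (-(a.num * b.den)) (-(b.num * a.den)) (by
      rw [h, Rat.cast_def a, Rat.cast_def b]
      push_cast
      field_simp
      ring)).1
    have h7 : (a.den : ℝ) * b.den = 0 := by exact_mod_cast h6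
    exact mul_ne_zero ha hb h7
  refine ⟨D, γ, h1, h3, ?_, h5, h4⟩
  rintro ⟨j, k, h⟩
  exact h5 ⟨j, k, by simpa using h⟩

end Pool.Agent.P.MP_23b0f8_an
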