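import Mathlib
import Pool.Agent.P.MP_23b0f8_an.Atom

/-! Test functions with nonnegative Fourier transform. -/

open Filter Topology MeasureTheory
open scoped ENNReal NNReal FourierTransform Real

namespace Pool.Agent.P.MP_23b0f8_an

theorem pp_ex_conj (x v : ℝ) : (starRingEnd ℂ) (ex x v) = ex (-x) v := by
  unfold ex
  rw [← Complex.exp_conj]
  congr 1
  simp only [map_mul, Complex.conj_ofReal, Complex.conj_I]
  push_cast
  ring

theorem pp_ex_add (x y v : ℝ) : ex (x + y) v = ex x v * ex y v := by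
  unfold ex
  rw [← Complex.exp_add]
  congr 1
  push_cast
  ring

theorem pp_beta_real (v : ℝ) :
    (𝓕 bumpS : SchwartzMap ℝ ℂ) v = (((𝓕 bumpS : SchwartzMap ℝ ℂ) v).re : ℂ) := by
  symm
  rw [← Complex.conj_eq_iff_re, SchwartzMap.fourier_coe, fourier_eq_ex, ← integral_conj,
    ← integral_neg_eq_self]
  refine integral_congr_ae (.of_forall fun x => ?_)
  simp only [map_mul, bumpS_apply, Complex.conj_ofReal, pp_ex_conj, neg_neg, bump.neg]

theorem pp_beta_zero : (𝓕 bumpS : SchwartzMap ℝ ℂ) 0 ≠ 0 := by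
  rw [SchwartzMap.fourier_coe, fourier_eq_ex]
  have h1 : ∀ x, bumpS x * ex x 0 = ((bump x : ℝ) : ℂ) := by
    intro x
    simp [ex, bumpS_apply]
  simp only [h1]
  rw [integral_complex_ofReal]
  exact_mod_cast (bump.integral_pos (μ := volume)).ne'

theorem pp_test : ∃ C : ℝ, ∀ a R : ℝ, 0 < a → 0 < R → ∃ (g : SchwartzMap ℝ ℂ) (h : ℝ → ℝ),
    (∀ x, 0 ≤ (g x).re) ∧ (∀ x, a ≤ |x| → g x = 0) ∧ 1 / a ≤ (g 0).re ∧
    (∀ v, 0 ≤ h v) ∧ (∀ v, |v| ≤ R → 0 < h v) ∧ (∀ v, h v ≤ C) ∧
    ∀ v, (𝓕⁻ g : SchwartzMap ℝ ℂ) v = (h v : ℂ) := by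
  obtain ⟨C, hC0, hC⟩ := schwartz_decay (𝓕 bumpS) 0
  refine ⟨C ^ 2, fun a R ha hR => ?_⟩
  obtain ⟨ρ, hρ, hρ'⟩ := Metric.eventually_nhds_iff.mp
    ((𝓕 bumpS : SchwartzMap ℝ ℂ).continuous.continuousAt.eventually_ne pp_beta_zero)
  set L : ℝ := min (a / 4) (ρ / (2 * R)) with hLdef
  have hL : 0 < L := lt_min (by positivity) (by positivity)
  have hLa : L ≤ a / 4 := min_le_left _ _
  have hLρ : L * (2 * R) ≤ ρ := (le_div_iff₀ (by positivity)).mp (min_le_right _ _)
  set φ := testH L hL 0 with hφ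
  have hφa : ∀ x, φ x = ((L⁻¹ * bump (x / L) : ℝ) : ℂ) := by
    intro x
    rw [hφ, testH_apply]
    simp [ex]
  set g := SchwartzMap.convolution (ContinuousLinearMap.mul ℂ ℂ) φ φ with hg
  have hga : ∀ x, g x =
      ((∫ t, (L⁻¹ * bump (t / L)) * (L⁻¹ * bump ((x - t) / L)) : ℝ) : ℂ) := by
    intro x
    rw [hg, SchwartzMap.convolution_apply, convolution_def, ← integral_complex_ofReal]
    refine integral_congr_ae (.of_forall fun t => ?_)
    simp only [ContinuousLinearMap.mul_apply', hφa]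
    push_cast
    rfl
  have hb0 : ∀ x, 0 ≤ bump x := fun x => bump.nonneg
  refine ⟨g, fun v => ((𝓕 bumpS : SchwartzMap ℝ ℂ) (L * (0 - v))).re ^ 2, fun x => ?_,
    fun x hx => ?_, ?_, fun v => sq_nonneg _, fun v hv => ?_, fun v => ?_, fun v => ?_⟩
  · rw [hga, Complex.ofReal_re]
    exact integral_nonneg fun t => mul_nonneg (mul_nonneg (by positivity) (hb0 _))
      (mul_nonneg (by positivity) (hb0 _))
  · rw [hga]
    have : ∀ t, (L⁻¹ * bump (t / L)) * (L⁻¹ * bump ((x - t) / L)) = 0 := by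
      intro t
      by_cases h1 : 2 * L ≤ |t|
      · rw [bump_zero (x := t / L) (by rwa [abs_div, abs_of_pos hL, le_div_iff₀ hL])]
        simp
      · have h2 : |x| ≤ |t| + |x - t| := by
          have := abs_add_le t (x - t)
          rwa [add_sub_cancel] at this
        rw [bump_zero (x := (x - t) / L)
          (by rw [abs_div, abs_of_pos hL, le_div_iff₀ hL]; push Not at h1; linarith)]
        simp
    simp [this]
  · rw [hga, Complex.ofReal_re]
    have hcont : Continuous fun t : ℝ =>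
        (L⁻¹ * bump (t / L)) * (L⁻¹ * bump ((0 - t) / L)) := by
      have := bump.continuous
      fun_prop
    have hsupp : HasCompactSupport fun t : ℝ =>
        (L⁻¹ * bump (t / L)) * (L⁻¹ * bump ((0 - t) / L)) := by
      refine HasCompactSupport.intro (isCompact_closedBall (0 : ℝ) (2 * L)) fun t ht => ?_
      rw [mem_closedBall_zero_iff, Real.norm_eq_abs, not_le] at ht
      rw [bump_zero (x := t / L) (by rw [abs_div, abs_of_pos hL, le_div_iff₀ hL]; exact ht.le)]
      simp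
    have h1 : ∫ t, (Set.Icc (-L) L).indicator (fun _ => L⁻¹ * L⁻¹) t ≤
        ∫ t, (L⁻¹ * bump (t / L)) * (L⁻¹ * bump ((0 - t) / L)) := by
      refine integral_mono ((integrable_indicator_iff measurableSet_Icc).mpr
        (integrableOn_const (by simp))) (hcont.integrable_of_hasCompactSupport hsupp) fun t => ?_
      by_cases ht : t ∈ Set.Icc (-L) L
      · have h2 : |t / L| ≤ 1 := by
          rw [abs_div, abs_of_pos hL, div_le_one hL]; exact abs_le.mpr ht
        have h3 : |(0 - t) / L| ≤ 1 := by rwa [zero_sub, neg_div, abs_neg]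
        simp only [Set.indicator_of_mem ht, bump_one h2, bump_one h3, mul_one, le_refl]
      · simp only [Set.indicator_of_notMem ht]
        exact mul_nonneg (mul_nonneg (by positivity) (hb0 _)) (mul_nonneg (by positivity) (hb0 _))
    rw [integral_indicator_const _ measurableSet_Icc, Real.volume_real_Icc_of_le (by linarith),
      smul_eq_mul] at h1
    refine le_trans ?_ h1
    have h4 : (L - -L) * (L⁻¹ * L⁻¹) = 2 / L := by field_simp; ring
    rw [h4, div_le_div_iff₀ ha hL]
    linarith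
  · have h1 : (𝓕 bumpS : SchwartzMap ℝ ℂ) (L * (0 - v)) ≠ 0 := by
      apply hρ'
      rw [dist_zero_right, Real.norm_eq_abs, abs_mul, abs_of_pos hL, zero_sub, abs_neg]
      nlinarith
    rw [pp_beta_real] at h1
    have h2 : ((𝓕 bumpS : SchwartzMap ℝ ℂ) (L * (0 - v))).re ≠ 0 := by exact_mod_cast h1
    positivity
  · have h1 := hC (L * (0 - v))
    rw [pow_zero, inv_one, mul_one] at h1
    have h2 := (Complex.abs_re_le_norm _).trans h1
    exact sq_le_sq' (abs_le.mp h2).1 (abs_le.mp h2).2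
  · have h1 : ∀ f : SchwartzMap ℝ ℂ, (𝓕⁻ f : SchwartzMap ℝ ℂ) v = (𝓕 f : SchwartzMap ℝ ℂ) (-v) := by
      intro f
      rw [SchwartzMap.fourierInv_coe, SchwartzMap.fourier_coe, Real.fourierInv_eq_fourier_neg]
    rw [h1, hg, SchwartzMap.fourier_convolution, SchwartzMap.pairing_apply_apply,
      ContinuousLinearMap.mul_apply', ← h1, hφ, fourierInv_testH, pp_beta_real]
    push_cast
    ring

theorem pp_translate (g : SchwartzMap ℝ ℂ) (T v : ℝ) :
    (𝓕⁻ (g.compSubConstCLM ℂ T) : SchwartzMap ℝ ℂ) v =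
      (𝓕⁻ g : SchwartzMap ℝ ℂ) v * ex T (-v) := by
  rw [SchwartzMap.fourierInv_coe, SchwartzMap.fourierInv_coe, Real.fourierInv_eq_fourier_neg,
    Real.fourierInv_eq_fourier_neg, fourier_eq_ex, fourier_eq_ex, ← integral_add_right_eq_self _ T,
    ← integral_mul_const]
  refine integral_congr_ae (.of_forall fun x => ?_)
  simp only [SchwartzMap.compSubConstCLM_apply, add_sub_cancel_right, pp_ex_add, mul_assoc]

end Pool.Agent.P.MP_23b0f8_an
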