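import Mathlib
import Pool.Agent.P.MP_23b0f8_an.PP1

/-! Averages over lattices of translates. -/

open Filter Topology MeasureTheory
open scoped ENNReal NNReal FourierTransform Real

namespace Pool.Agent.P.MP_23b0f8_an

attribute [local instance] probCircle

theorem pp_tent {A Q : ℝ} (hA0 : 0 ≤ A) (hA1 : A ≤ 1) (hQ : 2 ≤ Q) :
    A ^ 2 / Q ≤ ∫ z : UnitAddCircle, max 0 (A - Q * ‖z‖) := by
  have hQ0 : 0 < Q := by linarith
  rw [← UnitAddCircle.intervalIntegral_preimage (-(1 / 2))]
  have ha : 0 ≤ A / Q := by positivity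
  have ha2 : A / Q ≤ 1 / 2 := by rw [div_le_iff₀ hQ0]; linarith
  have hc : Continuous fun x : ℝ => max 0 (A - Q * ‖(x : UnitAddCircle)‖) := by fun_prop
  have h1 : ∫ x in (-(A / Q))..(A / Q), max 0 (A - Q * ‖(x : UnitAddCircle)‖) ≤
      ∫ x in (-(1 / 2) : ℝ)..(-(1 / 2) + 1), max 0 (A - Q * ‖(x : UnitAddCircle)‖) :=
    intervalIntegral.integral_mono_interval (by linarith) (by linarith) (by linarith)
      (.of_forall fun x => le_max_left _ _) (hc.intervalIntegrable _ _)
  refine le_trans ?_ h1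
  rw [← intervalIntegral.integral_add_adjacent_intervals (b := 0) (hc.intervalIntegrable _ _)
    (hc.intervalIntegrable _ _)]
  have hn : ∀ x : ℝ, ‖(x : UnitAddCircle)‖ ≤ |x| := fun x => by
    rw [UnitAddCircle.norm_eq]
    simpa using round_le x 0
  have h2 : ∫ x in (-(A / Q))..0, (A + Q * x) ≤
      ∫ x in (-(A / Q))..0, max 0 (A - Q * ‖(x : UnitAddCircle)‖) := by
    refine intervalIntegral.integral_mono_on (by linarith)
      ((by fun_prop : Continuous fun x : ℝ => A + Q * x).intervalIntegrable _ _)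
      (hc.intervalIntegrable _ _) fun x hx => le_max_of_le_right ?_
    have := hn x
    rw [abs_of_nonpos hx.2] at this
    nlinarith
  have h3 : ∫ x in (0 : ℝ)..(A / Q), (A - Q * x) ≤
      ∫ x in (0 : ℝ)..(A / Q), max 0 (A - Q * ‖(x : UnitAddCircle)‖) := by
    refine intervalIntegral.integral_mono_on ha
      ((by fun_prop : Continuous fun x : ℝ => A - Q * x).intervalIntegrable _ _)
      (hc.intervalIntegrable _ _) fun x hx => le_max_of_le_right ?_
    have := hn x
    rw [abs_of_nonneg hx.1] at this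
    nlinarith
  have h4 : ∫ x in (-(A / Q))..0, (A + Q * x) = A ^ 2 / Q / 2 := by
    rw [intervalIntegral.integral_add (by simp)
      ((by fun_prop : Continuous fun x : ℝ => Q * x).intervalIntegrable _ _),
      intervalIntegral.integral_const_mul, integral_id]
    simp only [intervalIntegral.integral_const, smul_eq_mul]
    field_simp
    ring
  have h5 : ∫ x in (0 : ℝ)..(A / Q), (A - Q * x) = A ^ 2 / Q / 2 := by
    rw [intervalIntegral.integral_sub (by simp)
      ((by fun_prop : Continuous fun x : ℝ => Q * x).intervalIntegrable _ _),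
      intervalIntegral.integral_const_mul, integral_id]
    simp only [intervalIntegral.integral_const, smul_eq_mul]
    field_simp
    ring
  linarith

theorem pp_geom {s v : ℝ} (hs : 0 < s) (hv : ∀ k : ℤ, v ≠ k * s) :
    Tendsto (fun M : ℕ => ((M : ℝ) + 1)⁻¹ * ‖∑ m ∈ Finset.range (M + 1), ex (m / s) (-v)‖)
      atTop (𝓝 0) := by
  set ζ : ℂ := ex (1 / s) (-v) with hζ
  have hpow : ∀ m : ℕ, ex (m / s) (-v) = ζ ^ m := by
    intro m
    induction m with
    | zero => simp [ex]
    | succ m ih =>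
      rw [pow_succ, ← ih, hζ, ← pp_ex_add]
      congr 1
      push_cast
      ring
  have hne : ζ ≠ 1 := by
    intro h
    rw [hζ, ex, Complex.exp_eq_one_iff] at h
    obtain ⟨n, hn⟩ := h
    apply hv n
    have h1 : ((-2 * π * (1 / s) * -v : ℝ) : ℂ) = ((n * (2 * π) : ℝ) : ℂ) := by
      apply mul_right_cancel₀ Complex.I_ne_zero
      rw [hn]
      push_cast
      ring
    have h2 : -2 * π * (1 / s) * -v = n * (2 * π) := by exact_mod_cast h1
    have hpi := Real.pi_pos
    field_simp at h2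
    linarith
  have hb : ∀ M : ℕ, ‖∑ m ∈ Finset.range (M + 1), ex (m / s) (-v)‖ ≤ 2 / ‖ζ - 1‖ := by
    intro M
    simp only [hpow]
    rw [geom_sum_eq hne, norm_div]
    gcongr
    refine (norm_sub_le _ _).trans ?_
    rw [norm_pow, hζ, norm_ex]
    norm_num
  have h0 : Tendsto (fun M : ℕ => ((M : ℝ) + 1)⁻¹ * (2 / ‖ζ - 1‖)) atTop (𝓝 0) := by
    simpa using (tendsto_inv_atTop_zero.comp
      (tendsto_atTop_add_const_right _ 1 tendsto_natCast_atTop_atTop)).mul_const (2 / ‖ζ - 1‖)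
  refine squeeze_zero (fun M => by positivity) (fun M => ?_) h0
  gcongr
  exact hb M

namespace Cocycle

variable {γ : ℝ} (c : Cocycle γ)

theorem pp_unif (hγ : Irrational γ) {ε : ℝ} (hε : 0 < ε) :
    ∀ᶠ K : ℕ in atTop, ∀ z, c.F K z ≤ K * (c.mean + ε) := by
  have h1 := equi hγ (l := (atTop : Filter ℕ) ×ˢ (⊤ : Filter UnitAddCircle)) (fun p => p.2)
    (fun p => p.1) tendsto_fst (c.meas 1) (C := c.β)
    (fun z => by simpa using (c.abs_bounds 1 z).2) (c.cont 1)
  have h2 := (h1.eventually (gt_mem_nhds (show ∫ z, c.F 1 z < c.mean + ε by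
    unfold mean; linarith))).curry
  filter_upwards [h2, eventually_gt_atTop 0] with K hK hK0 z
  have h3 := eventually_top.mp hK z
  have hK' : (0 : ℝ) < K := by exact_mod_cast hK0
  rw [← c.F_nat_eq_sum, inv_mul_lt_iff₀ hK'] at h3
  exact h3.le

theorem pp_summable (g : SchwartzMap ℝ ℂ) (T : ℝ) :
    Summable fun k : ℤ => ∫ z, g (c.F k z - T) := by
  obtain ⟨C, -, hC⟩ := schwartz_decay (g.compSubConstCLM ℂ T) 2
  exact Summable.of_norm_bounded ((summable_decay c.α_pos).mul_left C)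
    (c.norm_integral_comp_le hC)

theorem pp_integrable (g : SchwartzMap ℝ ℂ) (T : ℝ) (k : ℤ) :
    Integrable fun z => g (c.F k z - T) := by
  obtain ⟨C, -, hC⟩ := schwartz_decay (g.compSubConstCLM ℂ T) 2
  exact c.integrable_comp (g.compSubConstCLM ℂ T).continuous hC k

theorem pp_FT {μ : Measure ℝ} (hμ : IsFourierTransform c.eta μ) (g : SchwartzMap ℝ ℂ)
    {h : ℝ → ℝ} (hgh : ∀ v, (𝓕⁻ g : SchwartzMap ℝ ℂ) v = (h v : ℂ)) (T : ℝ) :
    (∫ v, (h v : ℂ) * ex T (-v) ∂μ).re = c.mean⁻¹ * ∑' k : ℤ, ∫ z, (g (c.F k z - T)).re := by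
  obtain ⟨C, -, hC⟩ := schwartz_decay (g.compSubConstCLM ℂ T) 2
  simp only [← hgh, ← pp_translate]
  rw [hμ.2.2, ← SchwartzMap.fourier_coe, FourierInvPair.fourier_fourierInv_eq,
    c.integral_eta (g.compSubConstCLM ℂ T).continuous hC, Complex.smul_re, smul_eq_mul]
  congr 1
  simp only [SchwartzMap.compSubConstCLM_apply]
  rw [Complex.re_tsum (c.pp_summable g T)]
  congr 1
  ext k
  exact (integral_re (c.pp_integrable g T k)).symm

theorem pp_zero {μ : Measure ℝ} (hμ : IsFourierTransform c.eta μ) (g : SchwartzMap ℝ ℂ)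
    {h : ℝ → ℝ} (hgh : ∀ v, (𝓕⁻ g : SchwartzMap ℝ ℂ) v = (h v : ℂ))
    (hs : ∀ x, c.α ≤ |x| → g x = 0) : ∫ v, h v ∂μ = c.mean⁻¹ * (g 0).re := by
  have h1 := c.pp_FT hμ g hgh 0
  have h2 : ∀ v, (h v : ℂ) * ex 0 (-v) = (h v : ℂ) := fun v => by simp [ex]
  simp only [h2] at h1
  rw [integral_complex_ofReal, Complex.ofReal_re, tsum_eq_single 0] at h1
  · simpa [c.F_zero] using h1
  · intro k hk
    have h3 : ∀ z, g (c.F k z - 0) = 0 := by
      intro z
      apply hs
      have h4 := (c.abs_bounds k z).1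
      have h5 : (1 : ℝ) ≤ |(k : ℝ)| := by exact_mod_cast Int.one_le_abs hk
      have := c.α_pos
      rw [sub_zero]
      nlinarith
    simp only [h3, Complex.zero_re, integral_zero]

end Cocycle

end Pool.Agent.P.MP_23b0f8_an
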