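import Mathlib
import Pool.Agent.P.MP_23b0f8_an.PP2

/-! A criterion for pure point diffraction. -/

open Filter Topology MeasureTheory
open scoped ENNReal NNReal FourierTransform Real

namespace Pool.Agent.P.MP_23b0f8_an

attribute [local instance] probCircle

namespace Cocycle

variable {γ : ℝ} (c : Cocycle γ)

theorem pp_lower {μ : Measure ℝ} (hμ : IsFourierTransform c.eta μ) (g : SchwartzMap ℝ ℂ)
    {h : ℝ → ℝ} (hgh : ∀ v, (𝓕⁻ g : SchwartzMap ℝ ℂ) v = (h v : ℂ))
    (hg0 : ∀ x, 0 ≤ (g x).re) {s Q ε δ m₀ : ℝ} (hs : 0 < s) (hm₀ : 0 ≤ m₀)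
    (hmin : ∀ x, |x| ≤ δ → m₀ ≤ (g x).re)
    (hbad : ∀ n : ℤ, volume.real {z | δ * s < ‖((s * c.F n z : ℝ) : UnitAddCircle)‖} ≤
      ε + Q * ‖((n * γ : ℝ) : UnitAddCircle)‖)
    (K M : ℕ) (hKM : ∀ z, s * c.F K z ≤ M) :
    c.mean⁻¹ * (m₀ * ∑ k ∈ Finset.range K, max 0 (1 - ε - Q * ‖((k * γ : ℝ) : UnitAddCircle)‖)) ≤
      ∑ m ∈ Finset.range (M + 1), (∫ v, (h v : ℂ) * ex (m / s) (-v) ∂μ).re := by
  have hmean := c.mean_pos
  simp only [c.pp_FT hμ g hgh]
  rw [← Finset.mul_sum]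
  gcongr
  have h1 : ∀ m : ℕ, ∑ k ∈ Finset.range K, ∫ z, (g (c.F k z - m / s)).re ≤
      ∑' k : ℤ, ∫ z, (g (c.F k z - m / s)).re := by
    intro m
    have hsum : Summable fun k : ℤ => ∫ z, (g (c.F k z - m / s)).re := by
      refine (Complex.reCLM.summable (c.pp_summable g (m / s))).congr fun k => ?_
      exact (integral_re (c.pp_integrable g (m / s) k)).symm
    have h2 := hsum.sum_le_tsum ((Finset.range K).map Nat.castEmbedding)
      (fun k _ => integral_nonneg fun z => hg0 _)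
    rwa [Finset.sum_map] at h2
  refine le_trans ?_ (Finset.sum_le_sum fun m _ => h1 m)
  rw [Finset.sum_comm, Finset.mul_sum]
  refine Finset.sum_le_sum fun k hk => ?_
  have hint : ∀ m : ℕ, Integrable fun z => (g (c.F k z - m / s)).re := fun m =>
    (c.pp_integrable g (m / s) k).re
  rw [← integral_finsetSum _ fun m _ => hint m]
  set Bad := {z | δ * s < ‖((s * c.F k z : ℝ) : UnitAddCircle)‖} with hBad
  have hBm : MeasurableSet Bad := by
    refine measurableSet_lt measurable_const ?_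
    have h3 : Continuous fun x : ℝ => ‖((s * x : ℝ) : UnitAddCircle)‖ := by fun_prop
    exact h3.measurable.comp (c.meas k)
  have h4 : ∫ z, Badᶜ.indicator (fun _ => m₀) z ≤
      ∫ z, ∑ m ∈ Finset.range (M + 1), (g (c.F k z - m / s)).re := by
    refine integral_mono ((integrable_const _).indicator hBm.compl)
      (integrable_finsetSum _ fun m _ => hint m) fun z => ?_
    by_cases hz : z ∈ Badᶜ
    · rw [Set.indicator_of_mem hz]
      have h5 : ‖((s * c.F k z : ℝ) : UnitAddCircle)‖ ≤ δ * s := not_lt.mp hz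
      rw [UnitAddCircle.norm_eq] at h5
      have h6 : 0 ≤ c.F k z := le_trans (by have := c.α_pos; positivity) (c.nat_bounds k z).1
      have h7 : c.F k z ≤ c.F K z := (c.strictMono z).monotone
        (by exact_mod_cast (Finset.mem_range.mp hk).le)
      have h8 : s * c.F k z ≤ M := le_trans (by gcongr) (hKM z)
      have h9 : 0 ≤ round (s * c.F k z) := by
        rw [round_eq]; exact Int.floor_nonneg.mpr (by positivity)
      have h10 : round (s * c.F k z) < M + 1 := by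
        rw [round_eq, Int.floor_lt]; push_cast; linarith
      obtain ⟨m, hm⟩ := Int.eq_ofNat_of_zero_le h9
      rw [hm] at h5 h10
      refine le_trans (hmin (c.F k z - m / s) ?_) (Finset.single_le_sum
        (f := fun m : ℕ => (g (c.F k z - m / s)).re) (fun i _ => hg0 _)
        (Finset.mem_range.mpr (by exact_mod_cast h10)))
      have h11 : c.F k z - m / s = (s * c.F k z - ((m : ℤ) : ℝ)) / s := by
        push_cast; field_simp
      rwa [h11, abs_div, abs_of_pos hs, div_le_iff₀ hs]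
    · rw [Set.indicator_of_notMem hz]
      exact Finset.sum_nonneg fun m _ => hg0 _
  refine le_trans ?_ h4
  rw [integral_indicator_const _ hBm.compl, smul_eq_mul, mul_comm]
  gcongr
  refine max_le measureReal_nonneg ?_
  rw [probReal_compl_eq_one_sub hBm]
  have := hbad k
  push_cast at this
  linarith

theorem pp_upper {μ : Measure ℝ} {h : ℝ → ℝ} (hi : Integrable h μ) (h0 : ∀ v, 0 ≤ h v)
    {C : Set ℝ} (hC : MeasurableSet C) {s : ℝ} (hs : 0 < s) (hsC : ∀ k : ℤ, k * s ∈ C) :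
    ∃ e : ℕ → ℝ, Tendsto e atTop (𝓝 0) ∧ ∀ M : ℕ, ((M : ℝ) + 1)⁻¹ *
      ∑ m ∈ Finset.range (M + 1), (∫ v, (h v : ℂ) * ex (m / s) (-v) ∂μ).re ≤
        ∫ v in C, h v ∂μ + e M := by
  set w : ℕ → ℝ → ℝ := fun M v =>
    ((M : ℝ) + 1)⁻¹ * ‖∑ m ∈ Finset.range (M + 1), ex (m / s) (-v)‖ with hw
  have hex : ∀ T : ℝ, Continuous fun v : ℝ => ex T (-v) := fun T =>
    continuous_ex.comp (continuous_const.prodMk continuous_neg)
  have hwc : ∀ M, Continuous (w M) := fun M =>
    continuous_const.mul (continuous_finsetSum _ fun m _ => hex _).norm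
  have hw0 : ∀ M v, 0 ≤ w M v := fun M v => by positivity
  have hw1 : ∀ M v, w M v ≤ 1 := by
    intro M v
    refine inv_mul_le_one_of_le₀ ((norm_sum_le _ _).trans ?_) (by positivity)
    simp [norm_ex]
  have hb : ∀ M v, ‖h v * w M v‖ ≤ h v := by
    intro M v
    rw [Real.norm_of_nonneg (mul_nonneg (h0 v) (hw0 M v))]
    exact mul_le_of_le_one_right (h0 v) (hw1 M v)
  have hiw : ∀ M, Integrable (fun v => h v * w M v) μ := fun M =>
    hi.mono' (hi.aestronglyMeasurable.mul (hwc M).aestronglyMeasurable) (.of_forall (hb M))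
  have hie : ∀ T : ℝ, Integrable (fun v => (h v : ℂ) * ex T (-v)) μ := fun T =>
    hi.mono' (hi.ofReal.aestronglyMeasurable.mul (hex T).aestronglyMeasurable)
      (.of_forall fun v => by
        rw [norm_mul, norm_ex, mul_one, Complex.norm_real, Real.norm_of_nonneg (h0 v)])
  refine ⟨fun M => ∫ v in Cᶜ, h v * w M v ∂μ, ?_, fun M => ?_⟩
  · have := tendsto_integral_of_dominated_convergence (μ := μ.restrict Cᶜ)
      (F := fun M v => h v * w M v) (f := fun _ => (0 : ℝ)) h
      (fun M => (hiw M).aestronglyMeasurable.restrict) hi.restrict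
      (fun M => .of_forall (hb M)) (by
        rw [ae_restrict_iff' hC.compl]
        refine .of_forall fun v hv => ?_
        have := (pp_geom hs (v := v) fun k hk => hv (hk ▸ hsC k)).const_mul (h v)
        simpa using this)
    simpa using this
  · have h1 : ∫ v in C, h v * w M v ∂μ ≤ ∫ v in C, h v ∂μ :=
      integral_mono (hiw M).restrict hi.restrict fun v =>
        mul_le_of_le_one_right (h0 v) (hw1 M v)
    have h2 := integral_add_compl hC (hiw M)
    have h3 : ((M : ℝ) + 1)⁻¹ *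
        ∑ m ∈ Finset.range (M + 1), (∫ v, (h v : ℂ) * ex (m / s) (-v) ∂μ).re ≤
          ∫ v, h v * w M v ∂μ := by
      rw [← Complex.re_sum, ← integral_finsetSum _ fun m _ => hie _]
      have h4 : ∀ v, h v * w M v = ((M : ℝ) + 1)⁻¹ *
          ‖∑ m ∈ Finset.range (M + 1), (h v : ℂ) * ex (m / s) (-v)‖ := by
        intro v
        rw [← Finset.mul_sum, norm_mul, Complex.norm_real, Real.norm_of_nonneg (h0 v), hw]
        ring
      simp only [h4]
      rw [integral_const_mul]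
      gcongr
      exact (Complex.re_le_norm _).trans (norm_integral_le_integral_norm _)
    linarith

theorem pp_mass (hγ : Irrational γ) {μ : Measure ℝ} (hμ : IsFourierTransform c.eta μ)
    (g : SchwartzMap ℝ ℂ) {h : ℝ → ℝ} (hgh : ∀ v, (𝓕⁻ g : SchwartzMap ℝ ℂ) v = (h v : ℂ))
    (hg0 : ∀ x, 0 ≤ (g x).re) (hi : Integrable h μ) (h0 : ∀ v, 0 ≤ h v)
    {C : Set ℝ} (hC : MeasurableSet C) {s Q ε δ m₀ : ℝ} (hs : 0 < s) (hm₀ : 0 ≤ m₀)
    (hε : 0 < ε) (hε1 : ε ≤ 1) (hQ : 2 ≤ Q) (hsC : ∀ k : ℤ, k * s ∈ C)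
    (hmin : ∀ x, |x| ≤ δ → m₀ ≤ (g x).re)
    (hbad : ∀ n : ℤ, volume.real {z | δ * s < ‖((s * c.F n z : ℝ) : UnitAddCircle)‖} ≤
      ε + Q * ‖((n * γ : ℝ) : UnitAddCircle)‖) :
    ((c.mean + 2 * ε) * s)⁻¹ * (c.mean⁻¹ * (m₀ * ((1 - ε) ^ 2 / Q))) ≤ ∫ v in C, h v ∂μ := by
  have hmean := c.mean_pos
  obtain ⟨e, he, hup⟩ := pp_upper hi h0 hC hs hsC
  set M : ℕ → ℕ := fun K => ⌈s * (K * (c.mean + ε))⌉₊ with hM
  have hMt : Tendsto M atTop atTop :=
    tendsto_nat_ceil_atTop.comp ((tendsto_natCast_atTop_atTop.atTop_mul_const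
      (by positivity)).const_mul_atTop hs)
  have hcont : Continuous fun z : UnitAddCircle => max 0 (1 - ε - Q * ‖z‖) := by fun_prop
  have h1 := equi hγ (l := (atTop : Filter ℕ)) (fun _ => 0) (fun K => K) tendsto_id
    hcont.measurable (C := 1) (fun z => by
      rw [abs_of_nonneg (le_max_left _ _)]
      have : 0 ≤ Q * ‖z‖ := by positivity
      exact max_le zero_le_one (by linarith)) (.of_forall fun z => hcont.continuousAt)
  simp only [zero_add] at h1
  have h2 := ((h1.const_mul m₀).const_mul c.mean⁻¹).const_mul ((c.mean + 2 * ε) * s)⁻¹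
  have h3 := (he.comp hMt).const_add (∫ v in C, h v ∂μ)
  rw [add_zero] at h3
  refine le_trans ?_ (le_of_tendsto_of_tendsto h2 h3 ?_)
  · gcongr
    exact pp_tent (by linarith) (by linarith) hQ
  · filter_upwards [c.pp_unif hγ hε, eventually_gt_atTop 0,
      (tendsto_natCast_atTop_atTop (R := ℝ)).eventually_ge_atTop (2 / (ε * s))] with K hK hK0 hK2
    have hK' : (0 : ℝ) < K := by exact_mod_cast hK0
    have h4 := c.pp_lower hμ g hgh hg0 hs hm₀ hmin hbad K (M K) fun z =>
      le_trans (by gcongr; exact hK z) (Nat.le_ceil _)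
    refine le_trans ?_ (hup (M K))
    have h5 : (M K : ℝ) + 1 ≤ K * ((c.mean + 2 * ε) * s) := by
      have h6 : (M K : ℝ) < s * (K * (c.mean + ε)) + 1 := Nat.ceil_lt_add_one (by positivity)
      rw [div_le_iff₀ (by positivity)] at hK2
      nlinarith
    have h7 : 0 ≤ ∑ k ∈ Finset.range K, max 0 (1 - ε - Q * ‖((k * γ : ℝ) : UnitAddCircle)‖) :=
      Finset.sum_nonneg fun k _ => le_max_left _ _
    calc _ = (K * ((c.mean + 2 * ε) * s))⁻¹ * (c.mean⁻¹ * (m₀ * ∑ k ∈ Finset.range K,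
            max 0 (1 - ε - Q * ‖((k * γ : ℝ) : UnitAddCircle)‖))) := by
          rw [mul_inv (K : ℝ)]; ring
      _ ≤ ((M K : ℝ) + 1)⁻¹ * (c.mean⁻¹ * (m₀ * ∑ k ∈ Finset.range K,
            max 0 (1 - ε - Q * ‖((k * γ : ℝ) : UnitAddCircle)‖))) := by gcongr
      _ ≤ _ := by gcongr

end Cocycle

end Pool.Agent.P.MP_23b0f8_an
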