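import Mathlib
import Pool.Agent.P.MP_23b0f8_an.PP3

/-! Pure point diffraction from approximate periods. -/

open Filter Topology MeasureTheory
open scoped ENNReal NNReal FourierTransform Real

namespace Pool.Agent.P.MP_23b0f8_an

attribute [local instance] probCircle

namespace Cocycle

variable {γ : ℝ} (c : Cocycle γ)

/-- Approximate periodicity with frequencies in `C`. -/
def PPer (C : Set ℝ) : Prop :=
  ∀ ε : ℝ, 0 < ε → ∃ s Q : ℝ, 0 < s ∧ 2 ≤ Q ∧ Q * s * c.mean ≤ 1 + ε ∧ (∀ k : ℤ, k * s ∈ C) ∧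
    ∀ n : ℤ, volume.real {z | ε * s < ‖((s * c.F n z : ℝ) : UnitAddCircle)‖} ≤
      ε + Q * ‖((n * γ : ℝ) : UnitAddCircle)‖

theorem pp_hint {μ : Measure ℝ} (hμ : IsFourierTransform c.eta μ) (g : SchwartzMap ℝ ℂ)
    {h : ℝ → ℝ} (hgh : ∀ v, (𝓕⁻ g : SchwartzMap ℝ ℂ) v = (h v : ℂ)) : Integrable h μ := by
  have := hμ.2.1
  refine ((𝓕⁻ g : SchwartzMap ℝ ℂ).integrable (μ := μ)).re.congr (.of_forall fun v => ?_)
  simp [hgh]

theorem pp_full (hγ : Irrational γ) {μ : Measure ℝ} (hμ : IsFourierTransform c.eta μ)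
    (g : SchwartzMap ℝ ℂ) {h : ℝ → ℝ} (hgh : ∀ v, (𝓕⁻ g : SchwartzMap ℝ ℂ) v = (h v : ℂ))
    (hg0 : ∀ x, 0 ≤ (g x).re) (hg1 : 0 < (g 0).re) (h0 : ∀ v, 0 ≤ h v)
    {C : Set ℝ} (hC : MeasurableSet C) (H : c.PPer C) :
    c.mean⁻¹ * (g 0).re ≤ ∫ v in C, h v ∂μ := by
  have hmean := c.mean_pos
  have hi := c.pp_hint hμ g hgh
  set ψ : ℝ → ℝ := fun θ => c.mean⁻¹ * ((g 0).re - θ) * (1 - θ) ^ 2 *
    (c.mean / ((c.mean + 2 * θ) * (1 + θ))) with hψ
  have hψc : ContinuousAt ψ 0 := by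
    refine ContinuousAt.mul (by fun_prop) (ContinuousAt.div (by fun_prop) (by fun_prop) ?_)
    simpa using hmean.ne'
  have hψ0 : ψ 0 = c.mean⁻¹ * (g 0).re := by
    simp only [hψ]
    field_simp
    ring
  rw [← hψ0]
  refine le_of_tendsto (hψc.tendsto.mono_left (nhdsWithin_le_nhds (s := Set.Ioi 0))) ?_
  filter_upwards [self_mem_nhdsWithin, nhdsWithin_le_nhds (Iio_mem_nhds (zero_lt_one' ℝ)),
    nhdsWithin_le_nhds (Iio_mem_nhds hg1)] with θ hθ hθ1 hθ2
  have hθ0 : 0 < θ := hθ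
  have hθ1' : θ < 1 := hθ1
  have hθ2' : θ < (g 0).re := hθ2
  have hgc : Continuous fun x => (g x).re := Complex.continuous_re.comp g.continuous
  obtain ⟨δ, hδ, hδ'⟩ := Metric.eventually_nhds_iff.mp
    (hgc.continuousAt.eventually (lt_mem_nhds (show (g 0).re - θ < (g 0).re by linarith)))
  obtain ⟨s, Q, hs, hQ, h1, h2, h3⟩ := H (min θ (δ / 2)) (lt_min hθ0 (by linarith))
  have hm := min_le_left θ (δ / 2)
  have h4 := c.pp_mass hγ hμ g hgh hg0 hi h0 hC hs (m₀ := (g 0).re - θ) (δ := min θ (δ / 2))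
    (by linarith) hθ0 hθ1'.le hQ h2 (fun x hx => (hδ' (by
      rw [dist_zero_right, Real.norm_eq_abs]
      linarith [min_le_right θ (δ / 2)])).le) (fun n => (h3 n).trans (by linarith))
  refine le_trans ?_ h4
  have hQ0 : 0 < Q := by linarith
  have h5 : ((c.mean + 2 * θ) * s)⁻¹ * (c.mean⁻¹ * (((g 0).re - θ) * ((1 - θ) ^ 2 / Q))) =
      c.mean⁻¹ * ((g 0).re - θ) * (1 - θ) ^ 2 *
        (c.mean / ((c.mean + 2 * θ) * (Q * s * c.mean))) := by
    field_simp
  rw [h5]
  have h6 : 0 ≤ (g 0).re - θ := by linarith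
  simp only [hψ]
  gcongr
  linarith

theorem pp_null (hγ : Irrational γ) {μ : Measure ℝ} (hμ : IsFourierTransform c.eta μ)
    {C : Set ℝ} (hC : MeasurableSet C) (H : c.PPer C) : μ Cᶜ = 0 := by
  obtain ⟨B, hB⟩ := pp_test
  have h1 : ∀ R : ℕ, μ (Cᶜ ∩ {v | |v| ≤ (R : ℝ) + 1}) = 0 := by
    intro R
    obtain ⟨g, h, g0, gs, g1, h0, hp, -, hgh⟩ := hB c.α (R + 1) c.α_pos (by positivity)
    have hi := c.pp_hint hμ g hgh
    have h2 := c.pp_full hγ hμ g hgh g0
      (lt_of_lt_of_le (by have := c.α_pos; positivity) g1) h0 hC H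
    have h3 := c.pp_zero hμ g hgh gs
    have h4 := integral_add_compl hC hi
    have h5 : ∫ v in Cᶜ, h v ∂μ = 0 :=
      le_antisymm (by linarith) (integral_nonneg fun v => h0 v)
    rw [integral_eq_zero_iff_of_nonneg (fun v => h0 v) hi.restrict, EventuallyEq,
      ae_restrict_iff' hC.compl, ae_iff] at h5
    refine measure_mono_null (fun v hv => ?_) h5
    intro h6
    exact (hp v hv.2).ne' (h6 hv.1)
  refine measure_mono_null (fun v hv => ?_) (measure_iUnion_null h1)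
  obtain ⟨R, hR⟩ := exists_nat_ge |v|
  exact Set.mem_iUnion.mpr ⟨R, hv, by simp only [Set.mem_ofPred_eq]; linarith⟩

theorem pp_infinite_mass {μ : Measure ℝ} (hμ : IsFourierTransform c.eta μ) :
    ¬IsFiniteMeasure μ := by
  intro hf
  obtain ⟨B, hB⟩ := pp_test
  have hmean := c.mean_pos
  set X : ℝ := c.mean * (|B| * μ.real Set.univ) + 1 with hX
  have hX0 : 0 < X := by have := measureReal_nonneg (μ := μ) (s := Set.univ); positivity
  obtain ⟨g, h, -, gs, g1, h0, -, hb, hgh⟩ := hB (min c.α (1 / X)) 1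
    (lt_min c.α_pos (by positivity)) one_pos
  have h3 := c.pp_zero hμ g hgh fun x hx => gs x ((min_le_left _ _).trans hx)
  have h4 : ∫ v, h v ∂μ ≤ ∫ _, |B| ∂μ :=
    integral_mono (c.pp_hint hμ g hgh) (integrable_const _) fun v => (hb v).trans (le_abs_self _)
  rw [integral_const, smul_eq_mul, h3, inv_mul_le_iff₀ hmean] at h4
  have h5 : X ≤ 1 / min c.α (1 / X) := by
    rw [le_div_iff₀ (lt_min c.α_pos (by positivity))]
    calc X * min c.α (1 / X) ≤ X * (1 / X) := by gcongr; exact min_le_right _ _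
      _ = 1 := by field_simp
  nlinarith

theorem pp_diffraction (hγ : Irrational γ) (z₀ : UnitAddCircle) {C : Set ℝ} (hC : C.Countable)
    (H : c.PPer C) : DiffractionCondition (Set.range fun n => c.F n z₀) ∧
      ∀ η μ : Measure ℝ, IsAutocorrelation (Set.range fun n => c.F n z₀) η →
        IsFourierTransform η μ → μ Cᶜ = 0 := by
  obtain ⟨μ₀, hμ₀⟩ := c.exists_fourierTransform
  have hη := c.isAutocorrelation hγ z₀
  have heq : ∀ η, IsAutocorrelation (Set.range fun n => c.F n z₀) η → η = c.eta := by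
    intro η h1
    have := h1.1
    have := hη.1
    refine Measure.ext_of_integral_eq_on_compactlySupported fun f => ?_
    exact tendsto_nhds_unique (h1.2 f f.continuous f.hasCompactSupport)
      (hη.2 f f.continuous f.hasCompactSupport)
  refine ⟨⟨⟨c.eta, μ₀, hη, hμ₀⟩, fun η μ h1 h2 => ?_⟩, fun η μ h1 h2 => ?_⟩
  · obtain rfl := heq η h1
    have := h2.2.1
    have := locallyFinite_of_temperate μ
    constructor
    · have h3 := Measure.countable_meas_level_set_pos (μ := μ) (g := id) measurable_id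
      refine h3.mono fun s hs => ?_
      simpa [pos_iff_ne_zero] using hs
    · intro hfin
      refine c.pp_infinite_mass h2 ⟨?_⟩
      have h3 := c.pp_null hγ h2 hC.measurableSet H
      have h4 : μ (C \ {s | μ {s} ≠ 0}) = 0 := by
        rw [← Set.biUnion_of_singleton (C \ {s | μ {s} ≠ 0}),
          measure_biUnion_null_iff (hC.mono Set.sdiff_subset)]
        intro s hs
        simpa using hs.2
      have h5 : μ {s | μ {s} ≠ 0} < ⊤ := hfin.isCompact.measure_lt_top
      calc μ Set.univ ≤ μ (Cᶜ ∪ (C \ {s | μ {s} ≠ 0}) ∪ {s | μ {s} ≠ 0}) := by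
            refine measure_mono fun s _ => ?_
            by_cases h6 : μ {s} ≠ 0
            · exact Or.inr h6
            · by_cases h7 : s ∈ C
              · exact Or.inl (Or.inr ⟨h7, h6⟩)
              · exact Or.inl (Or.inl h7)
        _ ≤ μ (Cᶜ ∪ (C \ {s | μ {s} ≠ 0})) + μ {s | μ {s} ≠ 0} := measure_union_le _ _
        _ < ⊤ := by rwa [measure_union_null h3 h4, zero_add]
  · obtain rfl := heq η h1
    exact c.pp_null hγ h2 hC.measurableSet H

end Cocycle

end Pool.Agent.P.MP_23b0f8_an
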