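import Mathlib
import Pool.Agent.P.MP_23b0f8_an.Construct

/-! The approximating sequences of the limit periodic example. -/

open Filter Topology

namespace Pool.Agent.P.MP_23b0f8_an.LP

/-- Denominators. -/
def q : ℕ → ℕ
  | 0 => 31
  | k + 1 => q k ^ 10

/-- Numerators of the approximations of the rotation number. -/
def p : ℕ → ℤ
  | 0 => 11
  | k + 1 => p k * (q k : ℤ) ^ 9 + 1

/-- An inverse of `a` modulo `n`. -/
def inv (a n : ℤ) : ℤ := Int.gcdA a n % n

/-- Numerators of the approximations of the arc. -/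
def u : ℕ → ℤ
  | 0 => 11
  | k + 1 => u k * (q k : ℤ) ^ 9 + ((q k - u k) ^ 2 + u k ^ 2) * inv (2 * u k * p k) (q k)

/-- The inverse of `2 u p`. -/
def y (k : ℕ) : ℤ := inv (2 * u k * p k) (q k)

/-- The period in lattice units. -/
def w (k : ℕ) : ℤ := (q k - u k) ^ 2 + u k ^ 2

/-- The difference of the two gaps in lattice units. -/
def e (k : ℕ) : ℤ := 2 * u k - q k

/-- Kesten indices. -/
def J (k : ℕ) : ℤ := w k * y k

/-- Integer parts. -/
def L (k : ℕ) : ℤ := (J k * p k - u k) / q k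

/-- Second Bezout coefficient. -/
def B (k : ℕ) : ℤ := e k * y k

/-- First Bezout coefficient. -/
def A (k : ℕ) : ℤ := (1 - p k * B k) / q k

theorem q_succ (k : ℕ) : q (k + 1) = q k ^ 10 := rfl
theorem p_succ (k : ℕ) : p (k + 1) = p k * (q k : ℤ) ^ 9 + 1 := rfl
theorem u_succ (k : ℕ) : u (k + 1) = u k * (q k : ℤ) ^ 9 + J k := rfl

theorem q_ge (k : ℕ) : 31 ≤ q k := by
  induction k with
  | zero => rfl
  | succ k ih =>
    rw [q_succ]
    exact ih.trans (Nat.le_self_pow (by norm_num) _)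

theorem inv_spec {a n : ℤ} (h : IsCoprime a n) (hn : 1 < n) :
    0 < inv a n ∧ inv a n < n ∧ n ∣ a * inv a n - 1 := by
  have h1 := Int.gcd_eq_gcd_ab a n
  rw [Int.isCoprime_iff_gcd_eq_one.mp h] at h1
  have h2 : n ∣ a * inv a n - 1 := by
    refine ⟨-(Int.gcdB a n) - a * (Int.gcdA a n / n), ?_⟩
    unfold inv
    rw [Int.emod_def]
    push_cast at h1
    linear_combination -h1
  have h3 : 0 ≤ inv a n := Int.emod_nonneg _ (by omega)
  refine ⟨lt_of_le_of_ne h3 fun h4 => ?_, Int.emod_lt_of_pos _ (by omega), h2⟩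
  rw [← h4, mul_zero, zero_sub, dvd_neg] at h2
  have := Int.le_of_dvd one_pos h2
  omega

theorem q_gt (k : ℕ) : (1 : ℤ) < q k := by
  have := q_ge k
  omega

theorem cop (k : ℕ) : IsCoprime (2 * u k * p k) (q k : ℤ) := by
  induction k with
  | zero =>
    change IsCoprime (2 * 11 * 11 : ℤ) ((31 : ℕ) : ℤ)
    exact Int.isCoprime_iff_gcd_eq_one.mpr (by norm_num)
  | succ k ih =>
    obtain ⟨-, -, t, ht⟩ := inv_spec ih (q_gt k)
    have h2 : IsCoprime 2 (q k : ℤ) := ih.of_mul_left_left.of_mul_left_left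
    have hu : IsCoprime (u k) (q k : ℤ) := ih.of_mul_left_left.of_mul_left_right
    have hy : IsCoprime (y k) (q k : ℤ) := ⟨2 * u k * p k, -t, by unfold y; linear_combination ht⟩
    have hp' : IsCoprime (p (k + 1)) (q k : ℤ) :=
      ⟨1, -(p k * (q k : ℤ) ^ 8), by rw [p_succ]; ring⟩
    have hu' : IsCoprime (u (k + 1)) (q k : ℤ) := by
      have h3 : u (k + 1) = 2 * u k * u k * y k +
          (q k : ℤ) * (u k * (q k : ℤ) ^ 8 + (q k - 2 * u k) * y k) := by
        rw [u_succ]; unfold J w; ring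
      rw [h3]
      exact (((h2.mul_left hu).mul_left hu).mul_left hy).add_mul_left_left _
    rw [q_succ]
    push_cast
    exact ((h2.mul_left hu').mul_left hp').pow_right

theorem y_spec (k : ℕ) : 0 < y k ∧ y k < q k ∧ (q k : ℤ) ∣ 2 * u k * p k * y k - 1 :=
  inv_spec (cop k) (q_gt k)

theorem bez (k : ℕ) : q k * A k + p k * B k = 1 := by
  obtain ⟨t, ht⟩ := (y_spec k).2.2
  have h1 : (q k : ℤ) ∣ 1 - p k * B k :=
    ⟨p k * y k - t, by unfold B e; linear_combination -ht⟩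
  unfold A
  rw [Int.mul_ediv_cancel' h1]
  ring

theorem JL (k : ℕ) : J k * p k - L k * q k = u k := by
  obtain ⟨t, ht⟩ := (y_spec k).2.2
  have h1 : (q k : ℤ) ∣ J k * p k - u k :=
    ⟨(q k - 2 * u k) * y k * p k + u k * t, by unfold J w; linear_combination u k * ht⟩
  unfold L
  rw [Int.ediv_mul_cancel h1]
  ring

theorem wB (k : ℕ) : w k * B k = e k * J k := by unfold B J; ring

theorem wA (k : ℕ) : w k * A k = q k - u k - e k * L k := by
  have hq : (q k : ℤ) ≠ 0 := by have := q_gt k; omega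
  apply mul_left_cancel₀ hq
  have h1 := bez k
  have h2 := JL k
  have h3 := wB k
  have h4 : w k = (q k - u k) ^ 2 + u k ^ 2 := rfl
  have h5 : e k = 2 * u k - q k := rfl
  linear_combination w k * h1 - p k * h3 - e k * h2 + h4 - u k * h5

theorem JL' (k : ℕ) : J k * p (k + 1) - L k * q (k + 1) = u (k + 1) := by
  rw [p_succ, q_succ, u_succ, ← JL k]
  push_cast
  ring

/-- A solution of `q a + p b = 0` is a multiple of `(-p, q)`. -/
theorem kernel (k : ℕ) {a b : ℤ} (h : q k * a + p k * b = 0) :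
    b = (A k * b - B k * a) * q k ∧ a = -((A k * b - B k * a) * p k) := by
  have h1 := bez k
  constructor
  · linear_combination -b * h1 + B k * h
  · linear_combination -a * h1 + A k * h

theorem Q_ge (k : ℕ) : (31 : ℝ) ≤ q k := by exact_mod_cast q_ge k

theorem Q_pos (k : ℕ) : (0 : ℝ) < q k := by linarith [Q_ge k]

theorem Q_succ (k : ℕ) : (q (k + 1) : ℝ) = (q k : ℝ) ^ 10 := by rw [q_succ]; push_cast; rfl

theorem Q_double (k : ℕ) : 2 * (q k : ℝ) ≤ q (k + 1) := by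
  rw [Q_succ]
  have h := Q_ge k
  have h1 : (31 : ℝ) ^ 9 ≤ (q k : ℝ) ^ 9 := by gcongr
  have h2 : (q k : ℝ) ^ 10 = (q k : ℝ) ^ 9 * q k := by ring
  rw [h2]
  nlinarith

theorem Q_ge_self (k : ℕ) : (k : ℝ) ≤ q k := by
  induction k with
  | zero => simp
  | succ k ih => push_cast; linarith [Q_double k, Q_ge k]

theorem inv_pow_half (k r : ℕ) (hr : r ≠ 0) (C : ℝ) (hC : 0 ≤ C) :
    C / (q (k + 1) : ℝ) ^ r ≤ C / (q k : ℝ) ^ r / 2 := by
  have h := Q_pos k
  rw [div_div]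
  refine div_le_div_of_nonneg_left hC (by positivity) ?_
  calc (q k : ℝ) ^ r * 2 ≤ (q k : ℝ) ^ r * 2 ^ r := by
        gcongr; exact le_self_pow₀ (by norm_num) hr
    _ = (2 * q k) ^ r := by rw [mul_pow]; ring
    _ ≤ _ := by gcongr; exact Q_double k

theorem inv_half (k : ℕ) : 1 / (q (k + 1) : ℝ) ≤ 1 / q k / 2 := by
  simpa using inv_pow_half k 1 one_ne_zero 1 zero_le_one

theorem tendsto_Q : Tendsto (fun k => (q k : ℝ)) atTop atTop :=
  tendsto_atTop_mono Q_ge_self tendsto_natCast_atTop_atTop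

theorem small (k r : ℕ) {C : ℝ} (hC : C ≤ 31) : C / (q k : ℝ) ^ (r + 2) ≤ 1 / q k := by
  have hQ := Q_ge k
  have hQ0 := Q_pos k
  rw [div_le_div_iff₀ (by positivity) hQ0]
  have h1 : (1 : ℝ) ≤ (q k : ℝ) ^ r := one_le_pow₀ (by linarith)
  have h2 : (q k : ℝ) ^ (r + 2) = (q k : ℝ) ^ r * (q k * q k) := by ring
  rw [h2]
  nlinarith [mul_pos hQ0 hQ0]

/-- Rational approximations of the rotation number. -/
noncomputable def g (k : ℕ) : ℝ := p k / q k

/-- Rational approximations of the arc. -/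
noncomputable def d (k : ℕ) : ℝ := u k / q k

theorem g_succ (k : ℕ) : g (k + 1) = g k + 1 / (q k : ℝ) ^ 10 := by
  have h := Q_pos k
  unfold g
  rw [Q_succ, p_succ]
  push_cast
  field_simp

theorem d_succ (k : ℕ) : d (k + 1) = d k + J k / (q k : ℝ) ^ 10 := by
  have h := Q_pos k
  unfold d
  rw [Q_succ, u_succ]
  push_cast
  field_simp

theorem w_eq (k : ℕ) : (w k : ℝ) = (q k : ℝ) ^ 2 * (1 - 2 * d k + 2 * d k ^ 2) := by
  have h := Q_pos k
  unfold w d
  push_cast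
  field_simp
  ring

theorem e_eq (k : ℕ) : (e k : ℝ) = q k * (2 * d k - 1) := by
  have h := Q_pos k
  unfold e d
  push_cast
  field_simp

theorem w_ge (k : ℕ) : (q k : ℝ) ^ 2 / 2 ≤ w k := by
  rw [w_eq]
  nlinarith [sq_nonneg ((q k : ℝ) * (2 * d k - 1))]

theorem w_pos (k : ℕ) : 0 < (w k : ℝ) := by
  have := Q_pos k
  exact lt_of_lt_of_le (by positivity) (w_ge k)

theorem y_ge (k : ℕ) : (1 : ℝ) ≤ y k := by exact_mod_cast (y_spec k).1

theorem y_le (k : ℕ) : (y k : ℝ) ≤ q k := by exact_mod_cast (y_spec k).2.1.le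

theorem J_eq (k : ℕ) : (J k : ℝ) = w k * y k := by unfold J; push_cast; ring

theorem J_ge (k : ℕ) : (q k : ℝ) ^ 2 / 2 ≤ J k := by
  rw [J_eq]
  nlinarith [w_ge k, y_ge k, w_pos k]

theorem J_pos (k : ℕ) : 0 < (J k : ℝ) := by
  have := Q_pos k
  exact lt_of_lt_of_le (by positivity) (J_ge k)

theorem J_le_of (k : ℕ) (h1 : 0 ≤ d k) (h2 : d k ≤ 1) : (J k : ℝ) ≤ (q k : ℝ) ^ 3 := by
  have hw : (w k : ℝ) ≤ (q k : ℝ) ^ 2 := by
    rw [w_eq]
    exact mul_le_of_le_one_right (by positivity) (by nlinarith)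
  rw [J_eq, pow_succ]
  exact mul_le_mul hw (y_le k) (by linarith [y_ge k]) (by positivity)

theorem d_bounds (k : ℕ) : 1 / 3 ≤ d k ∧ d k ≤ 1 / 2 - 1 / q k := by
  induction k with
  | zero => simp [d, u, q]; norm_num
  | succ k ih =>
    obtain ⟨h1, h2⟩ := ih
    have hQ0 := Q_pos k
    have h5 : 0 < 1 / (q k : ℝ) := by positivity
    have h3 := J_le_of k (by linarith) (by linarith)
    have h4 : (J k : ℝ) / (q k : ℝ) ^ 10 ≤ 1 / q k / 2 := by
      have h6 := small k 5 (C := 2) (by norm_num)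
      have h7 : (J k : ℝ) / (q k : ℝ) ^ 10 ≤ (q k : ℝ) ^ 3 / (q k : ℝ) ^ 10 := by gcongr
      have h8 : (q k : ℝ) ^ 3 / (q k : ℝ) ^ 10 = 2 / (q k : ℝ) ^ (5 + 2) / 2 := by field_simp
      linarith
    have h9 : 0 < (J k : ℝ) / (q k : ℝ) ^ 10 := div_pos (J_pos k) (by positivity)
    rw [d_succ]
    exact ⟨by linarith, by linarith [inv_half k]⟩

theorem d_lower (k : ℕ) : 1 / 3 ≤ d k := (d_bounds k).1

theorem d_upper (k : ℕ) : d k ≤ 1 / 2 := by
  have h := (d_bounds k).2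
  have : 0 < 1 / (q k : ℝ) := by have := Q_pos k; positivity
  linarith

theorem J_le (k : ℕ) : (J k : ℝ) ≤ (q k : ℝ) ^ 3 :=
  J_le_of k (by linarith [d_lower k]) (by linarith [d_upper k])

theorem J_lt (k : ℕ) : J k < J (k + 1) := by
  have h1 := J_le k
  have h2 := J_ge (k + 1)
  have hQ := Q_ge k
  rw [Q_succ] at h2
  have h3 : (31 : ℝ) ^ 17 ≤ (q k : ℝ) ^ 17 := by gcongr
  have h4 : ((q k : ℝ) ^ 10) ^ 2 = (q k : ℝ) ^ 17 * (q k : ℝ) ^ 3 := by ring
  have h5 : 0 < (q k : ℝ) ^ 3 := by positivity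
  have : (J k : ℝ) < J (k + 1) := by nlinarith
  exact_mod_cast this

theorem B_le (k : ℕ) : |(B k : ℝ)| ≤ (q k : ℝ) ^ 2 := by
  have h := Q_pos k
  have h1 := d_lower k
  have h2 := d_upper k
  have h3 : |(e k : ℝ)| ≤ q k := by
    rw [e_eq, abs_le]
    constructor <;> nlinarith
  unfold B
  push_cast
  rw [abs_mul, abs_of_pos (by linarith [y_ge k] : (0 : ℝ) < y k), sq]
  exact mul_le_mul h3 (y_le k) (by linarith [y_ge k]) h.le

theorem exists_gamma : ∃ γ, Tendsto g atTop (𝓝 γ) ∧ ∀ k, |γ - g k| ≤ 2 * (1 / (q k : ℝ) ^ 10) :=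
  fast (fun k => inv_pow_half k 10 (by norm_num) 1 zero_le_one) fun k => by
    have := Q_pos k
    rw [g_succ, add_sub_cancel_left, abs_of_pos (by positivity)]

theorem exists_D : ∃ D, Tendsto d atTop (𝓝 D) ∧ ∀ k, |D - d k| ≤ 2 * (1 / (q k : ℝ) ^ 7) :=
  fast (fun k => inv_pow_half k 7 (by norm_num) 1 zero_le_one) fun k => by
    have := Q_pos k
    rw [d_succ, add_sub_cancel_left, abs_of_pos (div_pos (J_pos k) (by positivity)),
      div_le_div_iff₀ (by positivity) (by positivity)]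
    calc (J k : ℝ) * (q k : ℝ) ^ 7 ≤ (q k : ℝ) ^ 3 * (q k : ℝ) ^ 7 := by gcongr; exact J_le k
      _ = _ := by ring

end Pool.Agent.P.MP_23b0f8_an.LP
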