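import Mathlib
import Pool.Agent.P.MP_23b0f8_an.PP5

/-! Frequencies of the limit periodic example. -/

open Filter Topology

namespace Pool.Agent.P.MP_23b0f8_an.LP

/-- Partial products of the period corrections. -/
def Pr : ℕ → ℚ
  | 0 => 1
  | k + 1 => Pr k * (1 + B k / (q k : ℚ) ^ 9)

theorem Pr_succ (k : ℕ) : (Pr (k + 1) : ℝ) = Pr k * (1 + B k / (q k : ℝ) ^ 9) := by
  rw [Pr]; push_cast; rfl

theorem B_div (k : ℕ) : |(B k : ℝ) / (q k : ℝ) ^ 9| ≤ 1 / (q k : ℝ) ^ 7 := by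
  have := Q_pos k
  rw [abs_div, abs_of_pos (by positivity : 0 < (q k : ℝ) ^ 9),
    div_le_div_iff₀ (by positivity) (by positivity)]
  calc |(B k : ℝ)| * (q k : ℝ) ^ 7 ≤ (q k : ℝ) ^ 2 * (q k : ℝ) ^ 7 := by gcongr; exact B_le k
    _ = _ := by ring

theorem Pr_step_of (k : ℕ) (h : |(Pr k : ℝ)| ≤ 2) :
    |(Pr (k + 1) : ℝ) - Pr k| ≤ 2 / (q k : ℝ) ^ 7 := by
  have h1 : (Pr (k + 1) : ℝ) - Pr k = Pr k * (B k / (q k : ℝ) ^ 9) := by rw [Pr_succ]; ring
  rw [h1, abs_mul]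
  calc _ ≤ 2 * (1 / (q k : ℝ) ^ 7) := mul_le_mul h (B_div k) (abs_nonneg _) zero_le_two
    _ = _ := by ring

theorem Pr_bounds (k : ℕ) : 1 / 2 + 1 / (q k : ℝ) ≤ Pr k ∧ (Pr k : ℝ) ≤ 2 - 1 / q k := by
  induction k with
  | zero => simp [Pr, q]; norm_num
  | succ k ih =>
    have hQ0 := Q_pos k
    have h5 : 0 < 1 / (q k : ℝ) := by positivity
    have h1 := abs_le.mp (Pr_step_of k (abs_le.mpr ⟨by linarith [ih.1], by linarith [ih.2]⟩))
    have h2 := small k 5 (C := 4) (by norm_num)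
    have h3 : 4 / (q k : ℝ) ^ (5 + 2) = 2 * (2 / (q k : ℝ) ^ 7) := by ring
    have h4 := inv_half k
    constructor <;> linarith [ih.1, ih.2, h1.1, h1.2]

theorem Pr_lower (k : ℕ) : (1 / 2 : ℝ) ≤ Pr k := by
  have : 0 < 1 / (q k : ℝ) := by have := Q_pos k; positivity
  linarith [(Pr_bounds k).1]

theorem Pr_upper (k : ℕ) : (Pr k : ℝ) ≤ 2 := by
  have : 0 < 1 / (q k : ℝ) := by have := Q_pos k; positivity
  linarith [(Pr_bounds k).2]

theorem exists_P : ∃ P : ℝ, Tendsto (fun k => (Pr k : ℝ)) atTop (𝓝 P) ∧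
    ∀ k, |P - Pr k| ≤ 2 * (2 / (q k : ℝ) ^ 7) :=
  fast (fun k => inv_pow_half k 7 (by norm_num) 2 zero_le_two) fun k =>
    Pr_step_of k (abs_le.mpr ⟨by linarith [Pr_lower k], Pr_upper k⟩)

/-- Ratios of the periods. -/
def N (t : ℕ) : ℕ → ℤ
  | 0 => 1
  | n + 1 => N t n * ((q (t + n) : ℤ) ^ 9 + B (t + n))

theorem N_succ (t n : ℕ) : N t (n + 1) = N t n * ((q (t + n) : ℤ) ^ 9 + B (t + n)) := rfl

theorem N_eq (t n : ℕ) : (N t n : ℝ) = q (t + n) * (Pr (t + n) / (q t * Pr t)) := by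
  have h1 := Q_pos t
  have h2 : (0 : ℝ) < Pr t := by linarith [Pr_lower t]
  induction n with
  | zero =>
    simp only [N, add_zero, Int.cast_one]
    field_simp
  | succ n ih =>
    have h3 := Q_pos (t + n)
    rw [N_succ, ← add_assoc, Pr_succ, Q_succ]
    push_cast
    rw [ih]
    field_simp

theorem bez' (k : ℕ) : q (k + 1) * A k + p (k + 1) * B k = (q k : ℤ) ^ 9 + B k := by
  rw [p_succ, q_succ]
  push_cast
  linear_combination (q k : ℤ) ^ 9 * bez k

theorem exists_kappa (t n : ℕ) : ∃ κ : ℤ,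
    N t (n + 1) * B (t + n + 1) - N t n * B (t + n) = κ * q (t + n + 1) ∧
      N t (n + 1) * A (t + n + 1) - N t n * A (t + n) = -(κ * p (t + n + 1)) :=
  ⟨_, kernel (t + n + 1) (by
    have h1 := bez (t + n + 1)
    have h2 := bez' (t + n)
    have h3 := N_succ t n
    linear_combination N t (n + 1) * h1 - N t n * h2 + h3)⟩

theorem exists_mult (k : ℕ) : ∃ v : ℕ, J (k + 1) - J k = v * q (k + 1) ∧
    L (k + 1) - L k = v * p (k + 1) := by
  obtain ⟨h1, h2⟩ := kernel (k + 1) (a := -(L (k + 1) - L k)) (b := J (k + 1) - J k) (by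
    linear_combination JL (k + 1) - JL' k)
  set v := A (k + 1) * (J (k + 1) - J k) - B (k + 1) * -(L (k + 1) - L k) with hv
  have h3 : 0 ≤ v := by
    have h4 := J_lt k
    have h5 := q_gt (k + 1)
    by_contra h6
    push Not at h6
    nlinarith
  obtain ⟨m, hm⟩ := Int.eq_ofNat_of_zero_le h3
  exact ⟨m, by rw [← hm]; exact h1, by rw [← hm]; linarith⟩

theorem independent {γ D : ℝ} (hγ : ∀ k, |γ - g k| ≤ 2 * (1 / (q k : ℝ) ^ 10))
    (hD : ∀ k, |D - d k| ≤ 2 * (1 / (q k : ℝ) ^ 7)) {a b c : ℤ} (h : a * D + b * γ + c = 0) :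
    a = 0 ∧ b = 0 := by
  have h1 : ∀ k : ℕ, 2 * |(a : ℝ)| + 2 * |(b : ℝ)| < k → a * u k + b * p k + c * q k = 0 := by
    intro k hk
    have hQ := Q_ge k
    have hQ0 := Q_pos k
    have h2 : ((a * u k + b * p k + c * q k : ℤ) : ℝ) =
        -(q k * (a * (D - d k) + b * (γ - g k))) := by
      have hC : (c : ℝ) = -(a * D + b * γ) := by linarith
      unfold d g
      push_cast
      rw [hC]
      field_simp
      ring
    have h3 : |D - d k| ≤ 2 / (q k : ℝ) ^ 2 := by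
      refine (hD k).trans ?_
      rw [← mul_div_assoc, mul_one]
      gcongr
      · linarith
      · norm_num
    have h4 : |γ - g k| ≤ 2 / (q k : ℝ) ^ 2 := by
      refine (hγ k).trans ?_
      rw [← mul_div_assoc, mul_one]
      gcongr
      · linarith
      · norm_num
    have h5 : |((a * u k + b * p k + c * q k : ℤ) : ℝ)| < 1 := by
      rw [h2, abs_neg, abs_mul, abs_of_pos hQ0]
      calc (q k : ℝ) * |a * (D - d k) + b * (γ - g k)|
          ≤ q k * (|(a : ℝ)| * (2 / (q k : ℝ) ^ 2) + |(b : ℝ)| * (2 / (q k : ℝ) ^ 2)) := by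
            gcongr
            refine (abs_add_le _ _).trans ?_
            rw [abs_mul, abs_mul]
            gcongr
        _ = (2 * |(a : ℝ)| + 2 * |(b : ℝ)|) / q k := by field_simp
        _ < 1 := by rw [div_lt_one hQ0]; linarith [Q_ge_self k]
    have h6 : |a * u k + b * p k + c * q k| < 1 := by exact_mod_cast h5
    exact Int.abs_lt_one_iff.mp h6
  have h2 : ∀ k : ℕ, 2 * |(a : ℝ)| + 2 * |(b : ℝ)| < k → a * J k + b = 0 := by
    intro k hk
    have h3 := h1 k hk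
    have h4 := h1 (k + 1) (by push_cast; linarith)
    rw [u_succ, p_succ, q_succ] at h4
    push_cast at h4
    linear_combination h4 - (q k : ℤ) ^ 9 * h3
  obtain ⟨k, hk⟩ := exists_nat_gt (2 * |(a : ℝ)| + 2 * |(b : ℝ)|)
  have h3 := h2 k hk
  have h4 := h2 (k + 1) (by push_cast; linarith)
  have h5 : a * (J (k + 1) - J k) = 0 := by linear_combination h4 - h3
  have hA : a = 0 := (mul_eq_zero.mp h5).resolve_right (sub_pos.mpr (J_lt k)).ne'
  exact ⟨hA, by simpa [hA] using h3⟩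

/-- The basic error estimate. -/
theorem err {D P : ℝ} (hD : ∀ k, |D - d k| ≤ 2 * (1 / (q k : ℝ) ^ 7))
    (hP : ∀ k, |P - Pr k| ≤ 2 * (2 / (q k : ℝ) ^ 7)) (t n : ℕ) :
    |P / (q t * Pr t) * GG D * J (t + n) - N t n * B (t + n)| ≤ 2 / (q (t + n) : ℝ) ^ 4 := by
  set s := t + n with hs
  have hQ := Q_pos s
  have hQt := Q_ge t
  have h2 := Pr_lower t
  have hX : 15 ≤ (q t : ℝ) * Pr t := by nlinarith
  have hN := NN_pos (d s)
  have h1 : (N t n : ℝ) * B s = Pr s / (q t * Pr t) * GG (d s) * J s := by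
    rw [N_eq, ← hs, J_eq, w_eq]
    unfold B GG
    push_cast
    rw [e_eq]
    field_simp
  have h3 : P / (q t * Pr t) * GG D * J s - N t n * B s =
      ((P - Pr s) * GG D + Pr s * (GG D - GG (d s))) * J s / (q t * Pr t) := by
    rw [h1]; ring
  have h4 : |(P - Pr s) * GG D + Pr s * (GG D - GG (d s))| ≤ 20 / (q s : ℝ) ^ 7 := by
    refine (abs_add_le _ _).trans ?_
    rw [abs_mul, abs_mul, abs_of_nonneg (by linarith [Pr_lower s] : (0 : ℝ) ≤ Pr s)]
    calc _ ≤ 2 * (2 / (q s : ℝ) ^ 7) * 1 + 2 * (4 * (2 * (1 / (q s : ℝ) ^ 7))) := by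
          gcongr
          · exact hP s
          · exact abs_GG_le D
          · exact Pr_upper s
          · exact (GG_lip _ _).trans (by gcongr; exact hD s)
      _ = _ := by ring
  rw [h3, abs_div, abs_mul, abs_of_pos (J_pos s), abs_of_pos (by linarith : 0 < (q t : ℝ) * Pr t)]
  calc _ ≤ 20 / (q s : ℝ) ^ 7 * (q s : ℝ) ^ 3 / 15 := by
        have := (J_pos s).le
        gcongr
        exact J_le s
    _ = 4 / 3 / (q s : ℝ) ^ 4 := by field_simp; norm_num
    _ ≤ _ := by gcongr; norm_num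

end Pool.Agent.P.MP_23b0f8_an.LP
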