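import Mathlib
import Pool.Agent.P.MP_23b0f8_an.PP6

/-! Phase estimates for the limit periodic example. -/

open Filter Topology MeasureTheory

namespace Pool.Agent.P.MP_23b0f8_an.LP

attribute [local instance] probCircle

theorem tendsto_small {γ : ℝ} (hγ : ∀ k, |γ - g k| ≤ 2 * (1 / (q k : ℝ) ^ 10)) (t : ℕ)
    (v : ℕ → ℝ) (hv : ∀ n, |v n| ≤ (q (t + n) : ℝ) ^ 3) :
    Tendsto (fun n => v n * (γ - g (t + n))) atTop (𝓝 0) := by
  have hshift : Tendsto (fun n => t + n) atTop atTop := tendsto_atTop_mono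
    (fun n => Nat.le_add_left n t) tendsto_id
  have h1 : Tendsto (fun n => (q (t + n) : ℝ)⁻¹) atTop (𝓝 0) :=
    tendsto_inv_atTop_zero.comp (tendsto_Q.comp hshift)
  refine squeeze_zero_norm (fun n => ?_) h1
  have hQ0 := Q_pos (t + n)
  rw [Real.norm_eq_abs, abs_mul, ← one_div]
  calc |v n| * |γ - g (t + n)| ≤ (q (t + n) : ℝ) ^ 3 * (2 * (1 / (q (t + n) : ℝ) ^ 10)) := by
        gcongr
        · exact hv n
        · exact hγ _
    _ = 2 / (q (t + n) : ℝ) ^ (5 + 2) := by field_simp
    _ ≤ _ := small _ 5 (by norm_num)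

theorem tail {γ D P : ℝ} (hγ : ∀ k, |γ - g k| ≤ 2 * (1 / (q k : ℝ) ^ 10))
    (hDt : Tendsto d atTop (𝓝 D)) (hD : ∀ k, |D - d k| ≤ 2 * (1 / (q k : ℝ) ^ 7))
    (hPt : Tendsto (fun k => (Pr k : ℝ)) atTop (𝓝 P))
    (hP : ∀ k, |P - Pr k| ≤ 2 * (2 / (q k : ℝ) ^ 7)) (t : ℕ) :
    Good γ (D - (J t * γ - L t)) (P / (q t * Pr t) * GG D)
      (P / (q t * Pr t) * GG D * (D - (J t * γ - L t)) - (P / (q t * Pr t) - (A t + B t * γ)))
      (9 / (q t : ℝ) ^ 4) (2 / q t) := by
  set σ := P / (q t * Pr t) * GG D with hσ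
  have hshift : Tendsto (fun n => t + n) atTop atTop := tendsto_atTop_mono
    (fun n => Nat.le_add_left n t) tendsto_id
  have hQt := Q_ge t
  have hQt0 := Q_pos t
  have hPr := Pr_lower t
  set arc : ℕ → ℝ := fun n => J (t + n) * γ - L (t + n) - (J t * γ - L t) with harc
  set lam : ℕ → ℝ := fun n => σ * arc n -
    (N t n * A (t + n) + N t n * B (t + n) * γ - (A t + B t * γ)) with hlam
  have harc_lim : Tendsto arc atTop (𝓝 (D - (J t * γ - L t))) := by
    refine Tendsto.sub_const ?_ _
    have := (hDt.comp hshift).add (tendsto_small hγ t (fun n => J (t + n)) fun n => by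
      rw [abs_of_pos (J_pos _)]; exact J_le _)
    rw [add_zero] at this
    refine this.congr fun n => ?_
    have hQ0 := Q_pos (t + n)
    simp only [Function.comp, d, g, ← JL (t + n)]
    push_cast
    field_simp
    ring
  have hZ : Tendsto (fun n => (N t n : ℝ) * A (t + n) + N t n * B (t + n) * γ) atTop
      (𝓝 (P / (q t * Pr t))) := by
    have := ((hPt.comp hshift).div_const ((q t : ℝ) * Pr t)).add
      (tendsto_small hγ t (fun n => N t n * B (t + n)) fun n => by
        have hQ0 := Q_pos (t + n)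
        have h1 : |(N t n : ℝ)| ≤ q (t + n) := by
          have h2 := Pr_lower (t + n)
          rw [N_eq, abs_of_nonneg (by positivity)]
          refine mul_le_of_le_one_right hQ0.le ?_
          rw [div_le_one (by positivity)]
          nlinarith [Pr_upper (t + n)]
        rw [abs_mul, pow_succ' _ 2]
        exact mul_le_mul h1 (B_le _) (abs_nonneg _) hQ0.le)
    rw [add_zero] at this
    refine this.congr fun n => ?_
    have hQ0 := Q_pos (t + n)
    have h3 : (q (t + n) : ℝ) * A (t + n) + p (t + n) * B (t + n) = 1 := by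
      exact_mod_cast bez (t + n)
    have h4 : (A (t + n) : ℝ) = (1 - p (t + n) * B (t + n)) / q (t + n) := by
      rw [eq_div_iff hQ0.ne']; linarith
    simp only [Function.comp, g, N_eq, h4]
    field_simp
    ring
  have hlam_lim : Tendsto lam atTop
      (𝓝 (σ * (D - (J t * γ - L t)) - (P / (q t * Pr t) - (A t + B t * γ)))) :=
    (harc_lim.const_mul σ).sub (hZ.sub_const _)
  have hgood : ∀ n, Good γ (arc n) σ (lam n) (8 / (q t : ℝ) ^ 4 - 8 / (q (t + n) : ℝ) ^ 4)
      (1 / q t - 1 / q (t + n)) := by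
    intro n
    induction n with
    | zero =>
      have h3 := good_base γ σ 0 0 (δ := 0) (by simp)
      simpa [harc, hlam, N] using h3
    | succ n ih =>
      obtain ⟨v, hv1, hv2⟩ := exists_mult (t + n)
      obtain ⟨κ, hκ1, hκ2⟩ := exists_kappa t n
      have h1 := good_step ih (q (t + n + 1)) v (p (t + n + 1)) κ
      have hv1' : (J (t + n + 1) : ℝ) - J (t + n) = v * q (t + n + 1) := by exact_mod_cast hv1
      have hv2' : (L (t + n + 1) : ℝ) - L (t + n) = v * p (t + n + 1) := by exact_mod_cast hv2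
      have hκ1' : (N t (n + 1) : ℝ) * B (t + n + 1) - N t n * B (t + n) = κ * q (t + n + 1) := by
        exact_mod_cast hκ1
      have hκ2' : (N t (n + 1) : ℝ) * A (t + n + 1) - N t n * A (t + n) =
          -(κ * p (t + n + 1)) := by exact_mod_cast hκ2
      have h2 : arc (n + 1) = arc n + v * (q (t + n + 1) * γ - p (t + n + 1)) := by
        simp only [harc, ← add_assoc t]
        linear_combination γ * hv1' - hv2'
      have h3 : lam (n + 1) = lam n + (σ * v - κ) * (q (t + n + 1) * γ - p (t + n + 1)) := by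
        simp only [hlam, h2, ← add_assoc t]
        linear_combination -γ * hκ1' - hκ2'
      rw [h2, h3, ← add_assoc t]
      have hQ0 := Q_pos (t + n + 1)
      refine h1.mono ?_ ?_
      · have e1 := err hD hP t n
        have e2 := err hD hP t (n + 1)
        rw [← add_assoc t, ← hσ] at e2
        rw [← hσ] at e1
        have h4 : (σ * v - κ) * q (t + n + 1) =
            (σ * J (t + n + 1) - N t (n + 1) * B (t + n + 1)) -
              (σ * J (t + n) - N t n * B (t + n)) := by
          linear_combination -σ * hv1' + hκ1'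
        have h5 : |σ * v - κ| * q (t + n + 1) ≤
            2 / (q (t + n + 1) : ℝ) ^ 4 + 2 / (q (t + n) : ℝ) ^ 4 := by
          rw [← abs_of_pos hQ0, ← abs_mul, abs_of_pos hQ0, h4]
          exact (abs_sub _ _).trans (add_le_add e2 e1)
        have h6 := inv_pow_half (t + n) 4 (by norm_num) 2 zero_le_two
        have h9 : 0 ≤ 2 / (q (t + n + 1) : ℝ) ^ 4 := by positivity
        have h7 : 8 / (q (t + n + 1) : ℝ) ^ 4 = 4 * (2 / (q (t + n + 1) : ℝ) ^ 4) := by ring
        have h8 : 8 / (q (t + n) : ℝ) ^ 4 = 4 * (2 / (q (t + n) : ℝ) ^ 4) := by ring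
        linarith
      · set Q : ℝ := (q (t + n + 1) : ℝ) with hQdef
        have h4 : (v : ℝ) * Q ≤ Q ^ 3 := by
          linarith [J_pos (t + n), J_le (t + n + 1)]
        have h5 : Q * γ - p (t + n + 1) = Q * (γ - g (t + n + 1)) := by
          unfold g
          rw [← hQdef]
          field_simp
        have h6 : 4 * Q * (v * |Q * γ - p (t + n + 1)|) ≤ 1 / Q := by
          rw [h5, abs_mul, abs_of_pos hQ0]
          calc 4 * Q * (v * (Q * |γ - g (t + n + 1)|))
              = 4 * Q * (v * Q * |γ - g (t + n + 1)|) := by ring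
            _ ≤ 4 * Q * (Q ^ 3 * (2 * (1 / Q ^ 10))) := by
                gcongr
                exact hγ _
            _ = 8 / Q ^ (4 + 2) := by field_simp; ring
            _ ≤ _ := small _ 4 (by norm_num)
        linarith [inv_half (t + n)]
  refine good_limit (δ := 8 / (q t : ℝ) ^ 4) (ε := 1 / q t) harc_lim hlam_lim
    (.of_forall fun n => (hgood n).mono ?_ ?_) (by gcongr; norm_num) (by gcongr; norm_num)
  · have := Q_pos (t + n)
    have h1 : 0 < 8 / (q (t + n) : ℝ) ^ 4 := by positivity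
    linarith
  · have := Q_pos (t + n)
    have h1 : 0 < 1 / (q (t + n) : ℝ) := by positivity
    linarith

theorem cell {γ : ℝ} (Q m : ℕ) (hQ : 0 < Q) (a l n r : ℤ) (x ζ : ℝ)
    (hζ : m * |γ - a / Q| ≤ ζ)
    (h : ∀ c ∈ Finset.range Q, ζ + |n * γ - r| / 2 <
      ‖((x - (c / Q - (n * γ - r) / 2) : ℝ) : UnitAddCircle)‖) :
    Mn γ (m * γ - l) n (x : UnitAddCircle) = m * r - n * l := by
  have hQ' : (0 : ℝ) < Q := by exact_mod_cast hQ
  have hQz : (0 : ℤ) < Q := by exact_mod_cast hQ
  rw [Mn_kesten]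
  congr 1
  unfold Gq
  rw [← Finset.sum_sub_distrib, Finset.sum_congr rfl (g := fun _ => r)]
  · simp
  intro i hi
  have hi' : (i : ℝ) + 1 ≤ m := by exact_mod_cast Finset.mem_range.mp hi
  obtain ⟨c, hc⟩ := Int.eq_ofNat_of_zero_le (Int.emod_nonneg ((i + 1) * a) hQz.ne')
  have hc2 : c < Q := by
    have := Int.emod_lt_of_pos ((i + 1) * a) hQz
    omega
  have h1 := h c (Finset.mem_range.mpr hc2)
  set η := n * γ - r with hη
  set k := (i + 1) * a / (Q : ℤ) with hk
  have h2 : ((i : ℝ) + 1) * a = Q * k + c := by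
    have := Int.mul_ediv_add_emod ((i + 1) * a) Q
    rw [hc, ← hk] at this
    exact_mod_cast this.symm
  set M := x - (c / Q - η / 2) with hM
  have h3 : |((i : ℝ) + 1) * (γ - a / Q)| ≤ ζ := by
    rw [abs_mul, abs_of_pos (by positivity)]
    exact le_trans (by gcongr) hζ
  have h4 : ((i : ℝ) + 1) * (a / Q) = k + c / Q := by
    rw [← mul_div_assoc, h2]
    field_simp
  have h5 : x + n * γ - (i + 1) * γ =
      M + (η / 2 - (i + 1) * (γ - a / Q)) + ((r - k : ℤ) : ℝ) := by
    push_cast
    linear_combination -h4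
  have h6 : x - (i + 1) * γ = M + (-(η / 2) - (i + 1) * (γ - a / Q)) + ((-k : ℤ) : ℝ) := by
    push_cast
    linear_combination -h4
  have h7 : |η / 2| = |η| / 2 := by rw [abs_div, abs_two]
  rw [h5, h6, Int.floor_add_intCast, Int.floor_add_intCast,
    floor_add_of_lt (((abs_sub _ _).trans (by linarith)).trans_lt h1),
    floor_add_of_lt (((abs_sub _ _).trans (by rw [abs_neg]; linarith)).trans_lt h1)]
  ring

end Pool.Agent.P.MP_23b0f8_an.LP
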