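import Mathlib
import Pool.Agent.P.MP_23b0f8_an.PP4
import Pool.Agent.P.MP_23b0f8_an.PP7

/-! The limit periodic example. -/

open Filter Topology MeasureTheory

namespace Pool.Agent.P.MP_23b0f8_an.LP

attribute [local instance] probCircle

theorem integral_bt {D : ℝ} (h0 : 0 ≤ D) (h1 : D ≤ 1) : ∫ z, (bt D z : ℝ) = D := by
  rw [← UnitAddCircle.integral_preimage 0, zero_add, integral_Ioc_eq_integral_Ioo,
    setIntegral_congr_fun measurableSet_Ioo (g := (Set.Iio D).indicator fun _ => (1 : ℝ)),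
    setIntegral_indicator measurableSet_Iio]
  · have : Set.Ioo (0 : ℝ) 1 ∩ Set.Iio D = Set.Ioo 0 D := by
      ext x
      simp only [Set.mem_inter_iff, Set.mem_Ioo, Set.mem_Iio]
      exact ⟨fun h => ⟨h.1.1, h.2⟩, fun h => ⟨⟨h.1, h.2.trans_le h1⟩, h.2⟩⟩
    simp [this, h0]
  · intro x hx
    simp only [bt_eq_ite h0 h1, Int.fract_eq_self.mpr ⟨hx.1.le, hx.2⟩, Set.indicator,
      Set.mem_Iio]
    split_ifs <;> simp

theorem stair_F (γ : ℝ) {D : ℝ} (hD : D ∈ Set.Ioo (0 : ℝ) 1) (n : ℤ) (z : UnitAddCircle) :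
    (stair γ hD).F n z =
      ((1 - D) * n + (2 * D - 1) * Mn γ D n z) / √((1 - D) ^ 2 + D ^ 2) := by
  change ((1 - D) * ((n - Mn γ D n z : ℤ) : ℝ) + D * (Mn γ D n z : ℝ)) /
    √((1 - D) ^ 2 + D ^ 2) = _
  push_cast
  ring

theorem stair_mean (γ : ℝ) {D : ℝ} (hD : D ∈ Set.Ioo (0 : ℝ) 1) :
    (stair γ hD).mean = √((1 - D) ^ 2 + D ^ 2) := by
  have h1 : ∀ z, Mn γ D 1 z = bt D z := by
    intro z
    have := Mn_succ γ D 0 z
    simpa [Mn_zero] using this
  have hi : Integrable fun z => (bt D z : ℝ) := by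
    refine Integrable.of_bound
      ((measurable_of_countable (fun m : ℤ => (m : ℝ))).comp (measurable_bt D)).aestronglyMeasurable
      1 (.of_forall fun z => ?_)
    obtain ⟨x, rfl⟩ := QuotientAddGroup.mk_surjective z
    rw [bt_eq_ite hD.1.le hD.2.le]
    split_ifs <;> simp
  unfold Cocycle.mean
  simp only [stair_F, h1]
  rw [integral_div, integral_add (integrable_const _) (hi.const_mul _), integral_const_mul,
    integral_const_mul, integral_bt hD.1.le hD.2.le, div_eq_iff (sqrt_pos D).ne',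
    Real.mul_self_sqrt (by positivity)]
  simp
  ring

theorem phase {γ D P : ℝ} (hγ : ∀ k, |γ - g k| ≤ 2 * (1 / (q k : ℝ) ^ 10))
    (hDt : Tendsto d atTop (𝓝 D)) (hD : ∀ k, |D - d k| ≤ 2 * (1 / (q k : ℝ) ^ 7))
    (hPt : Tendsto (fun k => (Pr k : ℝ)) atTop (𝓝 P))
    (hP : ∀ k, |P - Pr k| ≤ 2 * (2 / (q k : ℝ) ^ 7)) (t : ℕ) (n : ℤ) :
    volume.real {z | 10 / (q t : ℝ) ^ 4 <
      ‖((P / (q t * Pr t) / (1 - 2 * D + 2 * D ^ 2) * ((1 - D) * n + (2 * D - 1) * Mn γ D n z) :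
        ℝ) : UnitAddCircle)‖} ≤ 3 / q t + q t * ‖((n * γ : ℝ) : UnitAddCircle)‖ := by
  have hQ := Q_ge t
  have hQ0 := Q_pos t
  have hN := NN_pos D
  have h1 := tail hγ hDt hD hPt hP t n
  have h2 := err hD hP t 0
  simp only [add_zero, N, Int.cast_one, one_mul] at h2
  set Z := P / (q t * Pr t) with hZ
  set σ := Z * GG D with hσ
  set arc : ℝ := J t * γ - L t with harc
  set lam := σ * (D - arc) - (Z - (A t + B t * γ)) with hlam
  set r := round (n * γ) with hr
  set η := n * γ - r with hη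
  set ζ : ℝ := 2 / (q t : ℝ) ^ 7 with hζ
  have hη2 : |η| ≤ 1 / 2 := abs_sub_round _
  have h3 := volume_biUnion_ball_le (Finset.range (q t))
    (fun c => ((c / q t - η / 2 : ℝ) : UnitAddCircle)) (δ := ζ + |η| / 2) (by positivity)
  rw [Finset.card_range] at h3
  set S := {z | 9 / (q t : ℝ) ^ 4 <
    ‖((σ * Mn γ (D - arc) n z - lam * n : ℝ) : UnitAddCircle)‖} with hS
  have h4 : volume.real ((fun z => z + -(arc : UnitAddCircle)) ⁻¹' S) = volume.real S := by
    unfold Measure.real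
    rw [measure_preimage_add_right]
  obtain ⟨m, hm⟩ := Int.eq_ofNat_of_zero_le (show 0 ≤ J t by exact_mod_cast (J_pos t).le)
  have hm' : (J t : ℝ) = m := by exact_mod_cast hm
  refine le_trans (measureReal_mono (s₂ := (fun z => z + -(arc : UnitAddCircle)) ⁻¹' S ∪
    ⋃ c ∈ Finset.range (q t), Metric.closedBall ((c / q t - η / 2 : ℝ) : UnitAddCircle)
      (ζ + |η| / 2)) ?_) ?_
  · intro z hz
    obtain ⟨x, rfl⟩ := QuotientAddGroup.mk_surjective z
    by_contra hcon
    simp only [Set.mem_union, Set.mem_preimage, hS, Set.mem_ofPred_eq, Set.mem_iUnion, not_or,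
      not_lt, not_exists, mem_closedBall_iff_norm, not_le, ← AddCircle.coe_sub] at hz hcon
    obtain ⟨h5, h6⟩ := hcon
    have h7 := cell (q t) m (by have := q_ge t; omega) (p t) (L t) n r x ζ (by
      rw [← hm']
      calc (J t : ℝ) * |γ - p t / q t| ≤ (q t : ℝ) ^ 3 * (2 * (1 / (q t : ℝ) ^ 10)) := by
            gcongr
            · exact J_le t
            · exact hγ t
        _ = ζ := by rw [hζ]; field_simp) h6
    rw [← hm', ← harc, ← hm] at h7
    have h8 := Mn_add_arc γ arc (D - arc) n (x : UnitAddCircle)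
    rw [add_sub_cancel, h7, sub_eq_add_neg (x : UnitAddCircle)] at h8
    set M := Mn γ (D - arc) n ((x : UnitAddCircle) + -(arc : UnitAddCircle)) with hM
    have h9 : Z / (1 - 2 * D + 2 * D ^ 2) * ((1 - D) * n + (2 * D - 1) * Mn γ D n x) =
        (σ * M - lam * n) + (-(σ * J t - B t) * η + ((n * A t + B t * r : ℤ) : ℝ)) := by
      rw [h8, hlam, hη, harc, hσ, GG]
      push_cast
      field_simp
      ring
    rw [h9, AddCircle.coe_add] at hz
    have h10 := norm_coe_le (-(σ * J t - B t) * η + ((n * A t + B t * r : ℤ) : ℝ))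
      (n * A t + B t * r)
    rw [add_sub_cancel_right, abs_mul, abs_neg] at h10
    have h11 : |σ * J t - B t| * |η| ≤ 2 / (q t : ℝ) ^ 4 * (1 / 2) := by gcongr
    have h12 := norm_add_le ((σ * M - lam * n : ℝ) : UnitAddCircle)
      ((-(σ * J t - B t) * η + ((n * A t + B t * r : ℤ) : ℝ) : ℝ) : UnitAddCircle)
    have h13 : 10 / (q t : ℝ) ^ 4 = 9 / (q t : ℝ) ^ 4 + 2 / (q t : ℝ) ^ 4 * (1 / 2) := by ring
    linarith
  · refine (measureReal_union_le _ _).trans ?_
    rw [h4, UnitAddCircle.norm_eq, ← hr, ← hη]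
    have h5 := small t 4 (C := 4) (by norm_num)
    have h6 : (q t : ℝ) * (2 * (ζ + |η| / 2)) = 4 / (q t : ℝ) ^ (4 + 2) + q t * |η| := by
      rw [hζ]; field_simp; ring
    have h7 : 3 / (q t : ℝ) = 2 / q t + 1 / q t := by ring
    linarith

theorem exists_purePoint : ∃ D γ c : ℝ, D ∈ Set.Ioo (0 : ℝ) 1 ∧ Irrational γ ∧
    (¬ ∃ a b : ℚ, D = a * γ + b) ∧
    ∀ x₀ : ℝ, DiffractionCondition (circleSeq D γ x₀) ∧
      ∀ η μ : Measure ℝ, IsAutocorrelation (circleSeq D γ x₀) η → IsFourierTransform η μ →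
        μ {s : ℝ | ¬ ∃ r : ℚ, s = r * c} = 0 := by
  obtain ⟨γ, -, hγ⟩ := exists_gamma
  obtain ⟨D, hDt, hD⟩ := exists_D
  obtain ⟨P, hPt, hP⟩ := exists_P
  have h1 : 1 / 3 ≤ D := ge_of_tendsto' hDt d_lower
  have h2 : D ≤ 1 / 2 := le_of_tendsto' hDt d_upper
  have hP1 : 1 / 2 ≤ P := ge_of_tendsto' hPt Pr_lower
  have hmem : D ∈ Set.Ioo (0 : ℝ) 1 := ⟨by linarith, by linarith⟩
  have hirr : Irrational γ := by
    rintro ⟨r, hr⟩
    have h3 := (independent hγ hD (a := 0) (b := r.den) (c := -r.num) (by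
      rw [← hr, Rat.cast_def]
      have : (r.den : ℝ) ≠ 0 := by exact_mod_cast r.den_nz
      push_cast
      field_simp
      ring)).2
    exact r.den_nz (by exact_mod_cast h3)
  have hs := sqrt_pos D
  set W := √((1 - D) ^ 2 + D ^ 2) with hW
  have hW2 : W * W = 1 - 2 * D + 2 * D ^ 2 := by
    rw [hW, Real.mul_self_sqrt (by positivity)]; ring
  have hW1 : W ≤ 1 := by nlinarith
  refine ⟨D, γ, P / W, hmem, hirr, ?_, fun x₀ => ?_⟩
  · rintro ⟨a, b, h⟩
    have ha : (a.den : ℝ) ≠ 0 := by exact_mod_cast a.den_nz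
    have hb : (b.den : ℝ) ≠ 0 := by exact_mod_cast b.den_nz
    have h6 := (independent hγ hD (a := a.den * b.den) (b := -(a.num * b.den))
      (c := -(b.num * a.den)) (by
      rw [h, Rat.cast_def a, Rat.cast_def b]
      push_cast
      field_simp
      ring)).1
    exact mul_ne_zero a.den_nz b.den_nz (by exact_mod_cast h6)
  rw [circleSeq_eq γ hmem]
  refine (stair γ hmem).pp_diffraction hirr _ (C := {s : ℝ | ∃ r : ℚ, s = r * (P / W)})
    ((Set.countable_range fun r : ℚ => (r : ℝ) * (P / W)).mono (by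
      rintro s ⟨r, hr⟩
      exact ⟨r, hr.symm⟩)) ?_
  intro ε hε
  obtain ⟨t, ht⟩ := exists_nat_ge (3 / ε)
  have hQ := Q_ge t
  have hQ0 := Q_pos t
  have hq : 3 / (q t : ℝ) ≤ ε := by
    rw [div_le_iff₀ hε] at ht
    rw [div_le_iff₀ hQ0]
    nlinarith [Q_ge_self t]
  have hq1 : 1 / (q t : ℝ) ≤ 3 / q t := by gcongr; norm_num
  have hl := Pr_lower t
  have hu := Pr_upper t
  have hl0 : (0 : ℝ) < Pr t := by linarith
  refine ⟨P / (q t * Pr t) / W, q t, by positivity, by linarith, ?_, fun k => ?_, fun n => ?_⟩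
  · rw [stair_mean, ← hW]
    have h3 : q t * (P / (q t * Pr t) / W) * W = P / Pr t := by field_simp
    rw [h3, div_le_iff₀ hl0]
    have h4 := (abs_le.mp (hP t)).2
    have h5 := small t 5 (C := 8) (by norm_num)
    have h6 : 8 / (q t : ℝ) ^ (5 + 2) = 2 * (2 * (2 / (q t : ℝ) ^ 7)) := by ring
    nlinarith
  · refine ⟨k / (q t * Pr t), ?_⟩
    push_cast
    ring
  · refine le_trans (measureReal_mono fun z hz => ?_)
      ((phase hγ hDt hD hPt hP t n).trans (by linarith))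
    simp only [Set.mem_ofPred_eq] at hz ⊢
    rw [stair_F, ← hW] at hz
    have h3 : P / (q t * Pr t) / W * (((1 - D) * n + (2 * D - 1) * Mn γ D n z) / W) =
        P / (q t * Pr t) / (1 - 2 * D + 2 * D ^ 2) *
          ((1 - D) * n + (2 * D - 1) * Mn γ D n z) := by
      rw [← hW2]
      field_simp
    rw [h3] at hz
    refine lt_of_le_of_lt ?_ hz
    have h4 : 1 / (4 * q t) ≤ P / (q t * Pr t) / W := by
      refine le_trans ?_ (le_div_self (by positivity) hs hW1)
      rw [div_le_div_iff₀ (by positivity) (by positivity)]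
      nlinarith
    calc 10 / (q t : ℝ) ^ 4 = 40 / (q t : ℝ) ^ 2 / 3 * (3 / q t * (1 / (4 * q t))) := by
          field_simp; norm_num
      _ ≤ 1 * (ε * (P / (q t * Pr t) / W)) := by
          gcongr
          rw [div_le_one (by norm_num), div_le_iff₀ (by positivity)]
          nlinarith
      _ = _ := one_mul _

end Pool.Agent.P.MP_23b0f8_an.LP
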