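import Mathlib
import Pool.Agent.P.MP_23b0f8_an.Construct

/-! The alignment step for well approximable rotation numbers. -/

open Filter Topology

namespace Pool.Agent.P.MP_23b0f8_an.LQ

theorem ivt_le (f : ℕ → ℝ) {δ y : ℝ} (hδ : 0 ≤ δ) (n : ℕ)
    (h : ∀ j < n, |f (j + 1) - f j| ≤ δ) (h0 : f 0 ≤ y) (h1 : y ≤ f n) :
    ∃ j ≤ n, |f j - y| ≤ δ := by
  induction n with
  | zero => exact ⟨0, le_rfl, by rw [le_antisymm h0 h1]; simpa using hδ⟩
  | succ n ih =>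
    by_cases h2 : y ≤ f n
    · obtain ⟨j, hj, hj'⟩ := ih (fun j hj => h j (by omega)) h2
      exact ⟨j, by omega, hj'⟩
    · have h3 := abs_le.mp (h n (by omega))
      exact ⟨n + 1, le_rfl, abs_le.mpr ⟨by linarith, by linarith⟩⟩

theorem ivt_two_le (f : ℕ → ℝ) {δ : ℝ} (hδ : 0 ≤ δ) (hδ1 : δ < 1 / 2) (n : ℕ)
    (h : ∀ j < n, |f (j + 1) - f j| ≤ δ) (h0 : f 0 + 2 ≤ f n) :
    ∃ j ≤ n, ∃ j' ≤ n, j ≠ j' ∧ (∃ κ : ℤ, |f j - κ| ≤ δ) ∧ ∃ κ : ℤ, |f j' - κ| ≤ δ := by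
  have h1 := Int.le_ceil (f 0)
  have h2 := Int.ceil_lt_add_one (f 0)
  obtain ⟨j, hj, a1⟩ := ivt_le f hδ n h h1 (by linarith)
  obtain ⟨j', hj', a2⟩ := ivt_le f (y := ((⌈f 0⌉ + 1 : ℤ) : ℝ)) hδ n h
    (by push_cast; linarith) (by push_cast; linarith)
  refine ⟨j, hj, j', hj', ?_, ⟨_, a1⟩, _, a2⟩
  rintro rfl
  push_cast at a2
  linarith [abs_le.mp a1, abs_le.mp a2]

theorem ivt_two (f : ℕ → ℝ) {δ : ℝ} (hδ : 0 ≤ δ) (hδ1 : δ < 1 / 2) (n : ℕ)
    (h : ∀ j < n, |f (j + 1) - f j| ≤ δ) (h0 : 2 ≤ |f n - f 0|) :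
    ∃ j ≤ n, ∃ j' ≤ n, j ≠ j' ∧ (∃ κ : ℤ, |f j - κ| ≤ δ) ∧ ∃ κ : ℤ, |f j' - κ| ≤ δ := by
  rcases le_abs.mp h0 with h1 | h1
  · exact ivt_two_le f hδ hδ1 n h (by linarith)
  · obtain ⟨j, hj, j', hj', hne, ⟨κ, a1⟩, κ', a2⟩ := ivt_two_le (fun j => -f j) hδ hδ1 n
      (fun j hj => by rw [← abs_neg]; convert h j hj using 2; ring) (by linarith)
    refine ⟨j, hj, j', hj', hne, ⟨-κ, ?_⟩, -κ', ?_⟩
    · rw [← abs_neg]; convert a1 using 2; push_cast; ring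
    · rw [← abs_neg]; convert a2 using 2; push_cast; ring

/-- The second order term. -/
noncomputable def hh (Q w e θ J : ℝ) : ℝ := Q * θ * J ^ 2 / (w * (w + e * (J * θ)))

section

variable {Q w e θ τ : ℝ} (hQ : 100 ≤ Q) (hw : Q ^ 2 / 2 ≤ w) (he : |e| ≤ Q) (hτ : τ ≤ 1)

include hQ hw he hτ

theorem den_bounds {T : ℝ} (hT : |T| ≤ τ) : w / 2 ≤ w + e * T ∧ w + e * T ≤ 3 / 2 * w := by
  have h1 : |e * T| ≤ Q * 1 := by
    rw [abs_mul]
    exact mul_le_mul he (hT.trans hτ) (abs_nonneg _) (by linarith)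
  have h2 := abs_le.mp h1
  constructor <;> nlinarith [h2.1, h2.2]

theorem hh_step {J J' : ℝ} (h1 : |J * θ| ≤ τ) (h2 : |J' * θ| ≤ τ) (hJ : J' = J + w * Q) :
    |hh Q w e θ J' - hh Q w e θ J| ≤ 24 * τ := by
  have hw0 : 0 < w := by nlinarith
  have hτ0 : 0 ≤ τ := (abs_nonneg _).trans h1
  have a1 := (den_bounds hQ hw he hτ h1).1
  have a2 := (den_bounds hQ hw he hτ h2).1
  have b1 : 0 < w + e * (J * θ) := by linarith
  have b2 : 0 < w + e * (J' * θ) := by linarith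
  have h3 : hh Q w e θ J' - hh Q w e θ J =
      Q ^ 2 * (w * (J * θ + J' * θ) + e * (J * θ * (J' * θ))) /
        ((w + e * (J * θ)) * (w + e * (J' * θ))) := by
    unfold hh
    rw [div_sub_div _ _ (by positivity) (by positivity),
      div_eq_div_iff (by positivity) (by positivity)]
    rw [hJ]
    ring
  have h4 : |w * (J * θ + J' * θ) + e * (J * θ * (J' * θ))| ≤ 3 * w * τ := by
    refine (abs_add_le _ _).trans ?_
    rw [abs_mul w, abs_mul e, abs_mul (J * θ), abs_of_pos hw0]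
    have c1 : |J * θ + J' * θ| ≤ 2 * τ := (abs_add_le _ _).trans (by linarith)
    have c2 : |e| * (|J * θ| * |J' * θ|) ≤ w * (τ * 1) := by
      gcongr
      · nlinarith
      · exact h2.trans hτ
    nlinarith
  rw [h3, abs_div, abs_mul, abs_of_pos (mul_pos b1 b2), abs_of_nonneg (sq_nonneg Q),
    div_le_iff₀ (mul_pos b1 b2)]
  calc Q ^ 2 * |w * (J * θ + J' * θ) + e * (J * θ * (J' * θ))| ≤ (2 * w) * (3 * w * τ) := by
        gcongr; linarith
    _ = 24 * τ * ((w / 2) * (w / 2)) := by ring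
    _ ≤ _ := by gcongr

theorem hh_large {J : ℝ} (h1 : |J * θ| ≤ τ) (h2 : w ^ 2 ≤ |θ| * J ^ 2) :
    3 ≤ |hh Q w e θ J| := by
  have hw0 : 0 < w := by nlinarith
  obtain ⟨a1, a2⟩ := den_bounds hQ hw he hτ h1
  have b1 : 0 < w + e * (J * θ) := by linarith
  unfold hh
  rw [abs_div, abs_of_pos (mul_pos hw0 b1), le_div_iff₀ (mul_pos hw0 b1), abs_mul, abs_mul,
    abs_of_nonneg (by linarith : 0 ≤ Q), abs_of_nonneg (sq_nonneg J), mul_assoc Q]
  calc 3 * (w * (w + e * (J * θ))) ≤ 3 * (w * (3 / 2 * w)) := by gcongr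
    _ = 9 / 2 * w ^ 2 := by ring
    _ ≤ _ := by gcongr; linarith

theorem hh_small {J : ℝ} (h1 : |J * θ| ≤ τ) (h2 : |J| ≤ Q) : |hh Q w e θ J| ≤ 1 := by
  have hw0 : 0 < w := by nlinarith
  obtain ⟨a1, a2⟩ := den_bounds hQ hw he hτ h1
  have b1 : 0 < w + e * (J * θ) := by linarith
  unfold hh
  have h3 : Q * θ * J ^ 2 = Q * J * (J * θ) := by ring
  rw [abs_div, abs_of_pos (mul_pos hw0 b1), div_le_one (mul_pos hw0 b1), h3, abs_mul, abs_mul,
    abs_of_nonneg (by linarith : 0 ≤ Q)]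
  calc Q * |J| * |J * θ| ≤ Q * Q * 1 := by
        gcongr
        exact h1.trans hτ
    _ ≤ w * (w / 2) := by
        have h4 : Q * Q ≤ 2 * w := by nlinarith
        have h5 : 4 ≤ w := by nlinarith
        nlinarith
    _ ≤ _ := by gcongr

end

/-- The alignment error in closed form. -/
theorem err_eq {Q u w e J θ B κ B₀ J₀ j : ℝ} (hQ : 0 < Q) (hwdef : w = (Q - u) ^ 2 + u ^ 2)
    (hedef : e = 2 * u - Q) (hw : 0 < w) (hd : w + e * (J * θ) ≠ 0)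
    (hJ : J = J₀ + w * j * Q) (hB : B = B₀ + (κ + e * j) * Q) :
    (1 + B * θ) / Q * GG ((u + J * θ) / Q) * J - B =
      (1 - GG ((u + J * θ) / Q) * (J * θ) / Q) * (Q *
        ((J₀ * e / w - B₀) / Q + hh Q w e θ J - κ)) := by
  have hN := NN_pos ((u + J * θ) / Q)
  have h4 : GG ((u + J * θ) / Q) * (w + e * (J * θ)) =
      (Q - GG ((u + J * θ) / Q) * (J * θ)) * (e + 2 * (J * θ)) := by
    have h5 : GG ((u + J * θ) / Q) * (1 - 2 * ((u + J * θ) / Q) + 2 * ((u + J * θ) / Q) ^ 2) =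
        2 * ((u + J * θ) / Q) - 1 := by
      unfold GG
      exact div_mul_cancel₀ _ hN.ne'
    generalize GG ((u + J * θ) / Q) = G at h5 ⊢
    field_simp at h5
    rw [hwdef, hedef]
    linear_combination h5
  have h2 : J₀ = J - w * j * Q := by linarith
  have h3 : Q ^ 2 = 2 * w - e ^ 2 := by rw [hwdef, hedef]; ring
  unfold hh
  generalize GG ((u + J * θ) / Q) = G at h4 ⊢
  generalize hX : w + e * (J * θ) = X at hd h4 ⊢
  have h1 : Q * ((J₀ * e / w - B₀) / Q + Q * θ * J ^ 2 / (w * X) - κ) =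
      J * (e + 2 * (J * θ)) / X - B := by
    rw [hB, h2]
    field_simp
    linear_combination (θ * J ^ 2) * h3 - (J * e) * hX
  rw [h1]
  field_simp
  linear_combination J * h4

end Pool.Agent.P.MP_23b0f8_an.LQ
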