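import Mathlib
import Pool.Agent.P.MP_23b0f8_an.PQ1

/-! One stage of the construction. -/

open Filter Topology

namespace Pool.Agent.P.MP_23b0f8_an.LQ

theorem approx {γ : ℝ} (hγ : LiouvilleWith 14 γ) (Q₀ : ℝ) :
    ∃ (q : ℕ) (p A B : ℤ), Q₀ ≤ q ∧ q * A + p * B = 1 ∧ |q * γ - p| ≤ 1 / (q : ℝ) ^ 12 := by
  have hirr := hγ.irrational (by norm_num)
  obtain ⟨n₀, hn₀⟩ := exists_nat_ge Q₀
  obtain ⟨ε, hε, hε0⟩ := (((hirr.eventually_forall_le_dist_cast_rat_of_den_le n₀).filter_mono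
    (nhdsWithin_le_nhds (s := Set.Ioi 0))).and self_mem_nhdsWithin).exists
  have hε1 : 0 < ε := hε0
  obtain ⟨n, ⟨m, -, hm⟩, hn1, hn2⟩ := ((hγ.frequently_lt_rpow_neg (q := 13) (by norm_num)).and_eventually
    ((eventually_ge_atTop 1).and
      ((tendsto_natCast_atTop_atTop (R := ℝ)).eventually_ge_atTop (1 / ε)))).exists
  have hn : (1 : ℝ) ≤ n := by exact_mod_cast hn1
  rw [Real.rpow_neg (by positivity), show (13 : ℝ) = ((13 : ℕ) : ℝ) by norm_num,
    Real.rpow_natCast] at hm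
  set r : ℚ := (m : ℚ) / (n : ℚ) with hr
  have hrc : (r : ℝ) = (m : ℝ) / n := by rw [hr]; push_cast; rfl
  have hden : r.den ≤ n := by
    have h1 : (r.den : ℤ) ∣ (n : ℤ) := by
      have := Rat.den_dvd m n
      rwa [Rat.divInt_eq_div, Int.cast_natCast] at this
    exact_mod_cast Int.le_of_dvd (by exact_mod_cast hn1) h1
  have hden' : (r.den : ℝ) ≤ n := by exact_mod_cast hden
  have hd0 : (0 : ℝ) < r.den := by exact_mod_cast r.pos
  have hbig : n₀ < r.den := by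
    by_contra h
    have h1 := hε r (not_lt.mp h)
    rw [Real.dist_eq, hrc] at h1
    have h2 : ((n : ℝ) ^ 13)⁻¹ ≤ (n : ℝ)⁻¹ := by
      gcongr
      exact le_self_pow₀ hn (by norm_num)
    rw [div_le_iff₀ hε1] at hn2
    have h3 : (n : ℝ)⁻¹ ≤ ε := by
      rw [inv_le_iff_one_le_mul₀ (by linarith)]
      linarith
    linarith
  obtain ⟨B, A, hAB⟩ := r.isCoprime_num_den
  refine ⟨r.den, r.num, A, B, hn₀.trans (by exact_mod_cast hbig.le), by linarith, ?_⟩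
  have h4 : (r.den : ℝ) * γ - r.num = r.den * (γ - m / n) := by
    rw [← hrc, Rat.cast_def]
    field_simp
  rw [h4, abs_mul, abs_of_pos hd0]
  calc (r.den : ℝ) * |γ - m / n| ≤ r.den * ((r.den : ℝ) ^ 13)⁻¹ := by
        gcongr
        exact hm.le.trans (by gcongr)
    _ = _ := by field_simp

/-- The integer data of one stage. -/
structure St where
  q : ℕ
  p : ℤ
  A : ℤ
  B : ℤ
  J : ℤ
  L : ℤ

/-- The properties of one stage. -/
structure Ok (γ : ℝ) (s : St) : Prop where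
  big : (100 : ℝ) ≤ s.q
  bez : s.q * s.A + s.p * s.B = 1
  pos : 0 ≤ s.J
  th : |s.q * γ - s.p| ≤ 1 / (s.q : ℝ) ^ 12
  jth : s.J * |s.q * γ - s.p| ≤ 3 / (s.q : ℝ) ^ 4
  bth : |(s.B : ℝ)| * |s.q * γ - s.p| ≤ 1 / (s.q : ℝ) ^ 4
  err : |(s.A + s.B * γ) * GG (s.J * γ - s.L) * s.J - s.B| ≤ 2 / (s.q : ℝ) ^ 2

theorem step {γ : ℝ} (hγ : LiouvilleWith 14 γ) {J₀ L₀ : ℤ} (hJ₀ : 0 ≤ J₀) {ρ : ℝ} (hρ : 0 < ρ)
    (h0 : ρ ≤ J₀ * γ - L₀) (h1 : J₀ * γ - L₀ ≤ 1 - ρ) (x Q₀ : ℝ) :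
    ∃ s : St, Q₀ ≤ s.q ∧ Ok γ s ∧ (∃ v : ℕ, s.J = J₀ + v * s.q ∧ s.L = L₀ + v * s.p) ∧
      s.J * γ - s.L ≠ x := by
  have hirr := hγ.irrational (by norm_num)
  obtain ⟨q, p, A₀, B₀, hq, hbez, hθ⟩ := approx hγ (max (max Q₀ 100) (max J₀ (1 / ρ)))
  simp only [max_le_iff] at hq
  obtain ⟨⟨hq0, hQ⟩, hqJ, hqρ⟩ := hq
  set Q : ℝ := (q : ℝ) with hQdef
  set θ : ℝ := Q * γ - p with hθdef
  have hQ0 : 0 < Q := by linarith
  have hJ₀' : (0 : ℝ) ≤ J₀ := by exact_mod_cast hJ₀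
  have hθ0 : θ ≠ 0 := by
    have hq1 : q ≠ 0 := by rintro rfl; simp [hQdef] at hQ0
    exact ((hirr.natCast_mul hq1).sub_intCast p).ne_zero
  set t := √|θ| with ht
  have ht0 : 0 < t := Real.sqrt_pos.mpr (abs_pos.mpr hθ0)
  have ht2 : |θ| = t ^ 2 := (Real.sq_sqrt (abs_nonneg _)).symm
  have ht6 : t ≤ 1 / Q ^ 6 := by
    refine Real.sqrt_le_iff.mpr ⟨by positivity, hθ.trans_eq ?_⟩
    field_simp
  have hQt : Q * t ≤ 1 := by
    calc Q * t ≤ Q * (1 / Q ^ 6) := by gcongr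
      _ = 1 / Q ^ 5 := by field_simp
      _ ≤ 1 := by
        rw [div_le_one (by positivity)]
        exact one_le_pow₀ (by linarith)
  set u : ℤ := J₀ * p - L₀ * q with hu
  have hu' : (u : ℝ) = Q * (J₀ * γ - L₀) - J₀ * θ := by
    rw [hu, hθdef, hQdef]; push_cast; ring
  have h2 : |J₀ * θ| ≤ 1 := by
    rw [abs_mul, abs_of_nonneg hJ₀', ht2]
    have : t ≤ 1 := by nlinarith
    nlinarith
  have h3 : 1 ≤ Q * ρ := by rwa [div_le_iff₀ hρ] at hqρ
  have hu0 : (0 : ℝ) ≤ u := by nlinarith [abs_le.mp h2]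
  have hu1 : (u : ℝ) ≤ Q := by nlinarith [abs_le.mp h2]
  set w : ℤ := (q - u) ^ 2 + u ^ 2 with hw
  set e : ℤ := 2 * u - q with he
  have hw' : (w : ℝ) = (Q - u) ^ 2 + u ^ 2 := by rw [hw]; push_cast; rfl
  have he' : (e : ℝ) = 2 * u - Q := by rw [he]; push_cast; rfl
  have hwl : Q ^ 2 / 2 ≤ w := by rw [hw']; nlinarith [sq_nonneg (Q - 2 * u)]
  have hwu : (w : ℝ) ≤ Q ^ 2 := by rw [hw']; nlinarith
  have hw0 : (0 : ℝ) < w := lt_of_lt_of_le (by positivity) hwl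
  have hea : |(e : ℝ)| ≤ Q := by rw [he', abs_le]; constructor <;> linarith
  set n := ⌈1 / (t * Q)⌉₊ with hn
  have hn1 : 1 / (t * Q) ≤ n := Nat.le_ceil _
  have hn2 : (n : ℝ) ≤ 1 / (t * Q) + 1 := (Nat.ceil_lt_add_one (by positivity)).le
  set JJ : ℕ → ℝ := fun j => J₀ + w * j * Q with hJJ
  have hJ0 : ∀ j, 0 ≤ JJ j := fun j => by positivity
  have hτ : 3 / Q ^ 4 ≤ 1 := by
    rw [div_le_one (by positivity)]
    have : (100 : ℝ) ^ 4 ≤ Q ^ 4 := by gcongr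
    linarith
  have hJθ : ∀ j ≤ n, |JJ j * θ| ≤ 3 / Q ^ 4 := by
    intro j hj
    have hj' : (j : ℝ) ≤ 1 / (t * Q) + 1 := le_trans (by exact_mod_cast hj) hn2
    rw [abs_mul, abs_of_nonneg (hJ0 j), ht2]
    calc JJ j * t ^ 2 ≤ (Q + Q ^ 2 * (1 / (t * Q) + 1) * Q) * t ^ 2 := by
          simp only [hJJ]
          gcongr
      _ = Q ^ 2 * t * (t / Q + 1 + Q * t) := by field_simp; ring
      _ ≤ Q ^ 2 * (1 / Q ^ 6) * (1 + 1 + 1) := by
          gcongr
          rw [div_le_one hQ0]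
          nlinarith
      _ = _ := by field_simp; norm_num
  set f : ℕ → ℝ := fun j => (J₀ * e / w - B₀) / Q + hh Q w e θ (JJ j) with hf
  have hδ : 24 * (3 / Q ^ 4) ≤ 1 / Q ^ 3 := by
    rw [← mul_div_assoc, div_le_div_iff₀ (by positivity) (by positivity)]
    have : Q ^ 4 = Q ^ 3 * Q := by ring
    have : 0 < Q ^ 3 := by positivity
    nlinarith
  obtain ⟨j, hj, j', hj', hne, ⟨κ, hκ⟩, κ', hκ'⟩ := ivt_two f (δ := 1 / Q ^ 3) (by positivity)
    (by
      rw [div_lt_div_iff₀ (by positivity) (by norm_num)]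
      have : (100 : ℝ) ^ 3 ≤ Q ^ 3 := by gcongr
      linarith) n
    (fun j hj => by
      simp only [hf, add_sub_add_left_eq_sub]
      exact (hh_step hQ hwl hea hτ (hJθ j hj.le) (hJθ (j + 1) hj)
        (by simp only [hJJ]; push_cast; ring)).trans hδ)
    (by
      simp only [hf, add_sub_add_left_eq_sub]
      have a1 := hh_large hQ hwl hea hτ (hJθ n le_rfl) (by
        have a2 : w / t ≤ JJ n := by
          calc w / t = w * (1 / (t * Q)) * Q := by field_simp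
            _ ≤ w * n * Q := by gcongr
            _ ≤ _ := by simp only [hJJ]; linarith
        rw [div_le_iff₀ ht0] at a2
        rw [ht2, ← mul_pow, mul_comm t]
        gcongr)
      have a3 := hh_small hQ hwl hea hτ (hJθ 0 (Nat.zero_le _)) (by
        simp only [hJJ]
        simpa [abs_of_nonneg hJ₀'] using hqJ)
      linarith [abs_sub_abs_le_abs_sub (hh Q w e θ (JJ n)) (hh Q w e θ (JJ 0))])
  have mk : ∀ j ≤ n, ∀ κ : ℤ, |f j - κ| ≤ 1 / Q ^ 3 → ∃ s : St, Q₀ ≤ s.q ∧ Ok γ s ∧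
      (∃ v : ℕ, s.J = J₀ + v * s.q ∧ s.L = L₀ + v * s.p) ∧
      s.J * γ - s.L = J₀ * γ - L₀ + w * j * θ := by
    intro j hj κ hκ
    obtain ⟨v, hv⟩ := Int.eq_ofNat_of_zero_le
      (show 0 ≤ w * j from mul_nonneg (by exact_mod_cast hw0.le) (Int.natCast_nonneg j))
    have b1 : ((J₀ + w * j * q : ℤ) : ℝ) = JJ j := by simp only [hJJ]; push_cast; rfl
    have b2 : JJ j * γ - ((L₀ + w * j * p : ℤ) : ℝ) = (u + JJ j * θ) / Q := by
      rw [hu', hθdef]
      simp only [hJJ]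
      push_cast
      field_simp
      ring
    set B : ℤ := B₀ + (κ + e * j) * q with hB
    set A : ℤ := A₀ - (κ + e * j) * p with hA
    have b3 : q * A + p * B = 1 := by rw [hA, hB]; linear_combination hbez
    have b4 : (A : ℝ) + B * γ = (1 + B * θ) / Q := by
      have : Q * A + p * B = 1 := by rw [hQdef]; exact_mod_cast b3
      rw [hθdef, eq_div_iff hQ0.ne']
      linear_combination this
    have b5 := err_eq (B := B) (κ := κ) (B₀ := B₀) (J₀ := J₀) (j := j) (J := JJ j) (θ := θ) hQ0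
      hw' he' hw0 (by linarith [(den_bounds hQ hwl hea hτ (hJθ j hj)).1]) rfl
      (by rw [hB]; push_cast; rfl)
    set G := GG ((u + JJ j * θ) / Q) with hG
    have b6 : |G * (JJ j * θ) / Q| ≤ 1 / 2 := by
      rw [abs_div, abs_mul, abs_of_pos hQ0, div_le_iff₀ hQ0]
      have := mul_le_mul (abs_GG_le ((u + JJ j * θ) / Q)) ((hJθ j hj).trans hτ) (abs_nonneg _)
        zero_le_one
      linarith
    have b7 : |(1 + B * θ) / Q * G * JJ j - B| ≤ 2 / Q ^ 2 := by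
      rw [b5, abs_mul, abs_mul, abs_of_pos hQ0]
      calc _ ≤ 2 * (Q * (1 / Q ^ 3)) := by
            gcongr
            exact (abs_sub _ _).trans (by rw [abs_one]; linarith)
        _ = _ := by field_simp
    have b8 : JJ j * |θ| ≤ 3 / Q ^ 4 := by
      have := hJθ j hj
      rwa [abs_mul, abs_of_nonneg (hJ0 j)] at this
    refine ⟨⟨q, p, A, B, J₀ + w * j * q, L₀ + w * j * p⟩, hq0, ⟨hQ, b3, ?_, hθ, ?_, ?_, ?_⟩,
      ⟨v, by rw [← hv], by rw [← hv]⟩, ?_⟩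
    · have := hJ0 j
      rw [← b1] at this
      exact_mod_cast this
    · simpa only [b1] using b8
    · have c1 : B * (1 - G * (JJ j * θ) / Q) =
          G * JJ j / Q - ((1 + B * θ) / Q * G * JJ j - B) := by
        field_simp
        ring
      have c2 : |(B : ℝ)| * (1 / 2) ≤ JJ j / Q + 2 / Q ^ 2 := by
        calc |(B : ℝ)| * (1 / 2) ≤ |(B : ℝ)| * |1 - G * (JJ j * θ) / Q| := by
              gcongr
              exact le_trans (by linarith [abs_le.mp b6]) (le_abs_self _)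
          _ ≤ |G * JJ j / Q| + 2 / Q ^ 2 := by
              rw [← abs_mul, c1]
              exact (abs_sub _ _).trans (by gcongr)
          _ ≤ _ := by
              gcongr
              rw [abs_div, abs_mul, abs_of_pos hQ0, abs_of_nonneg (hJ0 j)]
              gcongr
              exact mul_le_of_le_one_left (hJ0 j) (abs_GG_le _)
      change |(B : ℝ)| * |θ| ≤ 1 / Q ^ 4
      calc |(B : ℝ)| * |θ| ≤ 2 * (JJ j / Q + 2 / Q ^ 2) * |θ| := by gcongr; linarith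
        _ = 2 / Q * (JJ j * |θ|) + 4 / Q ^ 2 * |θ| := by ring
        _ ≤ 2 / Q * (3 / Q ^ 4) + 4 / Q ^ 2 * (1 / Q ^ 12) := by gcongr
        _ = (6 / Q + 4 / Q ^ 10) * (1 / Q ^ 4) := by field_simp; ring
        _ ≤ (1 / 2 + 1 / 2) * (1 / Q ^ 4) := by
            have : (100 : ℝ) ^ 10 ≤ Q ^ 10 := by gcongr
            have d1 : 6 / Q ≤ 1 / 2 := by rw [div_le_iff₀ hQ0]; linarith
            have d2 : 4 / Q ^ 10 ≤ 1 / 2 := by rw [div_le_iff₀ (by positivity)]; linarith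
            exact mul_le_mul_of_nonneg_right (add_le_add d1 d2) (by positivity)
        _ = _ := by ring
    · simpa only [b1, b2, b4] using b7
    · simp only [hθdef, hQdef]
      push_cast
      ring
  obtain ⟨s, a1, a2, a3, a4⟩ := mk j hj κ hκ
  obtain ⟨s', a1', a2', a3', a4'⟩ := mk j' hj' κ' hκ'
  by_cases hx : s.J * γ - s.L = x
  · refine ⟨s', a1', a2', a3', fun hx' => hne ?_⟩
    have : (w : ℝ) * θ * (j - j') = 0 := by linarith
    have h5 : (j : ℝ) - j' = 0 := (mul_eq_zero.mp this).resolve_left (mul_ne_zero hw0.ne' hθ0)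
    exact_mod_cast sub_eq_zero.mp h5
  · exact ⟨s, a1, a2, a3, hx⟩

end Pool.Agent.P.MP_23b0f8_an.LQ
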