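import Mathlib
import Pool.Agent.P.MP_23b0f8_an.PQ2

/-! Frequencies along a sequence of stages. -/

open Filter Topology

namespace Pool.Agent.P.MP_23b0f8_an.LQ

theorem small {Q C : ℝ} (hQ : 100 ≤ Q) (hC : C ≤ 100) (k : ℕ) : C / Q ^ (k + 2) ≤ 1 / Q := by
  have hQ0 : 0 < Q := by linarith
  have h1 : 1 ≤ Q ^ k := one_le_pow₀ (by linarith)
  rw [div_le_div_iff₀ (by positivity) hQ0, pow_add]
  nlinarith [mul_le_mul_of_nonneg_right h1 (sq_nonneg Q)]

/-- The frequency of a stage. -/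
noncomputable def zz (γ : ℝ) (s : St) : ℝ := s.A + s.B * γ

/-- The window length of a stage. -/
noncomputable def arc (γ : ℝ) (s : St) : ℝ := s.J * γ - s.L

namespace Ok

variable {γ : ℝ} {s : St} (h : Ok γ s)

include h

theorem qpos : (0 : ℝ) < s.q := by linarith [h.big]

theorem jpos : (0 : ℝ) ≤ s.J := by exact_mod_cast h.pos

theorem zq : zz γ s * s.q = 1 + s.B * (s.q * γ - s.p) := by
  have : (s.q : ℝ) * s.A + s.p * s.B = 1 := by exact_mod_cast h.bez
  unfold zz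
  linear_combination this

theorem zq_abs : |zz γ s * s.q - 1| ≤ 1 / s.q := by
  rw [h.zq, add_sub_cancel_left, abs_mul]
  exact h.bth.trans (small h.big (by norm_num) 2)

theorem inv_le : 1 / (s.q : ℝ) ≤ 1 / 100 := by
  have := h.big
  gcongr

theorem z_lower : 1 / (2 * s.q) ≤ zz γ s := by
  have := h.qpos
  rw [div_le_iff₀ (by positivity)]
  linarith [abs_le.mp h.zq_abs, h.inv_le]

theorem z_upper : zz γ s ≤ 2 / s.q := by
  rw [le_div_iff₀ h.qpos]
  linarith [abs_le.mp h.zq_abs, h.inv_le]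

theorem zpos : 0 < zz γ s := by
  have := h.qpos
  exact lt_of_lt_of_le (by positivity) h.z_lower

theorem kernel {a b : ℤ} (h0 : s.q * a + s.p * b = 0) :
    b = (s.A * b - s.B * a) * s.q ∧ a = -((s.A * b - s.B * a) * s.p) := by
  have h1 := h.bez
  constructor
  · linear_combination -b * h1 + s.B * h0
  · linear_combination -a * h1 + s.A * h0

end Ok

/-- A rapidly growing sequence of nested stages. -/
structure Sch (γ : ℝ) (S : ℕ → St) : Prop where
  ok : ∀ k, Ok γ (S k)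
  dbl : ∀ k, 2 * ((S k).q : ℝ) ≤ (S (k + 1)).q
  jq : ∀ k, ((S k).J : ℝ) * (S k).q ≤ (S (k + 1)).q
  bq : ∀ k, |((S k).B : ℝ)| ≤ (S (k + 1)).q
  rel : ∀ k, ∃ v : ℕ, (S (k + 1)).J = (S k).J + v * (S (k + 1)).q ∧
    (S (k + 1)).L = (S k).L + v * (S (k + 1)).p

/-- Ratio of consecutive periods. -/
def nn (S : ℕ → St) (k : ℕ) : ℤ := (S (k + 1)).q * (S k).A + (S (k + 1)).p * (S k).B

/-- Ratio of the periods of stage `t + n` and stage `t`. -/
def NN (S : ℕ → St) (t : ℕ) : ℕ → ℤ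
  | 0 => 1
  | n + 1 => NN S t n * nn S (t + n)

/-- Ratio of the periods of stage `k` and stage `0`. -/
def MM (S : ℕ → St) : ℕ → ℤ
  | 0 => 1
  | k + 1 => MM S k * nn S k

/-- Normalised frequencies. -/
noncomputable def Pr (γ : ℝ) (S : ℕ → St) (k : ℕ) : ℝ := MM S k * zz γ (S k) / zz γ (S 0)

theorem arc_step {γ : ℝ} {s : St} (h : Ok γ s) {J L : ℤ} (hJ : 0 ≤ J) {v : ℕ}
    (h1 : s.J = J + v * s.q) (h2 : s.L = L + v * s.p) :
    arc γ s = J * γ - L + v * (s.q * γ - s.p) ∧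
      4 * s.q * (v * |s.q * γ - s.p|) ≤ 1 / (s.q : ℝ) ∧ |arc γ s - (J * γ - L)| ≤ 1 / s.q := by
  have hq := h.qpos
  have hJ' : (0 : ℝ) ≤ J := by exact_mod_cast hJ
  have h1' : (s.J : ℝ) = J + v * s.q := by exact_mod_cast h1
  have h2' : (s.L : ℝ) = L + v * s.p := by exact_mod_cast h2
  have h3 : arc γ s = J * γ - L + v * (s.q * γ - s.p) := by
    unfold arc
    rw [h1', h2']
    ring
  have h4 : 4 * s.q * (v * |s.q * γ - s.p|) ≤ 1 / (s.q : ℝ) := by
    calc 4 * s.q * (v * |s.q * γ - s.p|) = 4 * (v * s.q * |s.q * γ - s.p|) := by ring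
      _ ≤ 4 * (s.J * |s.q * γ - s.p|) := by gcongr; linarith
      _ ≤ 4 * (3 / (s.q : ℝ) ^ 4) := by gcongr; exact h.jth
      _ = 12 / (s.q : ℝ) ^ (2 + 2) := by ring
      _ ≤ _ := small h.big (by norm_num) 2
  refine ⟨h3, h4, ?_⟩
  rw [h3, add_sub_cancel_left, abs_mul, Nat.abs_cast]
  refine le_trans ?_ h4
  exact le_mul_of_one_le_left (by positivity) (by linarith [h.big])

namespace Sch

variable {γ : ℝ} {S : ℕ → St} (H : Sch γ S)

include H

theorem inv_half (k : ℕ) : 1 / ((S (k + 1)).q : ℝ) ≤ 1 / (S k).q / 2 := by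
  have := (H.ok k).qpos
  rw [div_div]
  gcongr
  linarith [H.dbl k]

theorem q_ge (k : ℕ) : (k : ℝ) ≤ (S k).q := by
  induction k with
  | zero => simp
  | succ k ih => push_cast; linarith [H.dbl k, (H.ok k).big]

theorem Pr_succ (k : ℕ) :
    Pr γ S (k + 1) = Pr γ S k * (nn S k * zz γ (S (k + 1)) / zz γ (S k)) := by
  have := (H.ok k).zpos
  have := (H.ok 0).zpos
  simp only [Pr, MM]
  push_cast
  field_simp

theorem ratio (k : ℕ) :
    |nn S k * zz γ (S (k + 1)) / zz γ (S k) - 1| ≤ 1 / ((S (k + 1)).q : ℝ) / 2 := by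
  have a := H.ok k
  have b := H.ok (k + 1)
  have hz := a.zpos
  have hz' := b.zpos
  have hq := a.qpos
  have hq' := b.qpos
  set θ : ℝ := (S (k + 1)).q * γ - (S (k + 1)).p with hθ
  have h1 : (nn S k : ℝ) = (S (k + 1)).q * zz γ (S k) - (S k).B * θ := by
    rw [nn, hθ, zz]
    push_cast
    ring
  have h2 : nn S k * zz γ (S (k + 1)) / zz γ (S k) - 1 =
      (S (k + 1)).B * θ - (S k).B * θ * (zz γ (S (k + 1)) / zz γ (S k)) := by
    rw [h1]
    have := b.zq
    rw [← hθ] at this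
    field_simp
    linear_combination zz γ (S k) * this
  have h3 : zz γ (S (k + 1)) / zz γ (S k) ≤ 2 := by
    rw [div_le_iff₀ hz]
    have c1 := a.z_lower
    have c2 := b.z_upper
    have c3 := H.inv_half k
    have c4 : 1 / (2 * ((S k).q : ℝ)) = 1 / (S k).q / 2 := by field_simp
    have c5 : 2 / ((S (k + 1)).q : ℝ) = 2 * (1 / (S (k + 1)).q) := by ring
    linarith
  rw [h2]
  refine (abs_sub _ _).trans ?_
  rw [abs_mul, abs_mul, abs_mul, abs_of_pos (div_pos hz' hz)]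
  calc _ ≤ 1 / ((S (k + 1)).q : ℝ) ^ 4 + (S (k + 1)).q * (1 / ((S (k + 1)).q : ℝ) ^ 12) * 2 := by
        gcongr
        · exact b.bth
        · exact H.bq k
        · exact b.th
    _ = (4 / ((S (k + 1)).q : ℝ) ^ (2 + 2) + 8 / ((S (k + 1)).q : ℝ) ^ (9 + 2)) / 4 := by
        field_simp
        ring
    _ ≤ _ := by
        linarith [small (C := 4) b.big (by norm_num) 2, small (C := 8) b.big (by norm_num) 9]

theorem Pr_step_of (k : ℕ) (h : |Pr γ S k| ≤ 2) :
    |Pr γ S (k + 1) - Pr γ S k| ≤ 1 / (S (k + 1)).q := by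
  rw [H.Pr_succ, ← mul_sub_one, abs_mul]
  exact (mul_le_mul h (H.ratio k) (abs_nonneg _) zero_le_two).trans_eq (by ring)

theorem Pr_bounds (k : ℕ) :
    1 / 2 + 1 / ((S k).q : ℝ) ≤ Pr γ S k ∧ Pr γ S k ≤ 2 - 1 / (S k).q := by
  induction k with
  | zero =>
    have h1 : Pr γ S 0 = 1 := by simp [Pr, MM, (H.ok 0).zpos.ne']
    have h2 := (H.ok 0).inv_le
    rw [h1]
    constructor <;> linarith
  | succ k ih =>
    have hq := (H.ok k).qpos
    have h5 : 0 < 1 / ((S k).q : ℝ) := by positivity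
    have h1 := abs_le.mp (H.Pr_step_of k (abs_le.mpr ⟨by linarith [ih.1], by linarith [ih.2]⟩))
    have h4 := H.inv_half k
    constructor <;> linarith [ih.1, ih.2, h1.1, h1.2]

theorem Pr_lower (k : ℕ) : (1 / 2 : ℝ) ≤ Pr γ S k := by
  have : 0 < 1 / ((S k).q : ℝ) := by have := (H.ok k).qpos; positivity
  linarith [(H.Pr_bounds k).1]

theorem Pr_upper (k : ℕ) : Pr γ S k ≤ 2 := by
  have : 0 < 1 / ((S k).q : ℝ) := by have := (H.ok k).qpos; positivity
  linarith [(H.Pr_bounds k).2]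

theorem exists_P : ∃ P : ℝ, Tendsto (Pr γ S) atTop (𝓝 P) ∧
    ∀ k, |P - Pr γ S k| ≤ 2 * (1 / (S (k + 1)).q) :=
  fast (fun k => H.inv_half (k + 1)) fun k =>
    H.Pr_step_of k (abs_le.mpr ⟨by linarith [H.Pr_lower k], H.Pr_upper k⟩)

theorem exists_D : ∃ D : ℝ, Tendsto (fun k => arc γ (S k)) atTop (𝓝 D) ∧
    ∀ k, |D - arc γ (S k)| ≤ 2 * (1 / (S (k + 1)).q) :=
  fast (fun k => H.inv_half (k + 1)) fun k => by
    obtain ⟨v, h1, h2⟩ := H.rel k
    exact (arc_step (H.ok (k + 1)) (H.ok k).pos h1 h2).2.2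

theorem N_eq (t n : ℕ) :
    NN S t n * zz γ (S (t + n)) = zz γ (S t) / Pr γ S t * Pr γ S (t + n) := by
  have h2 : (0 : ℝ) < Pr γ S t := by linarith [H.Pr_lower t]
  induction n with
  | zero =>
    simp only [NN, add_zero, Int.cast_one]
    field_simp
  | succ n ih =>
    have h3 := (H.ok (t + n)).zpos
    rw [NN, ← add_assoc, H.Pr_succ, ← mul_assoc, ← ih]
    push_cast
    field_simp

theorem X_bounds (t : ℕ) : 1 / (4 * (S t).q) ≤ zz γ (S t) / Pr γ S t ∧
    zz γ (S t) / Pr γ S t ≤ 4 / (S t).q := by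
  have h1 := H.Pr_lower t
  have h2 := H.Pr_upper t
  have hq := (H.ok t).qpos
  have hz := (H.ok t).zpos
  constructor
  · calc 1 / (4 * ((S t).q : ℝ)) = 1 / (2 * (S t).q) / 2 := by field_simp; norm_num
      _ ≤ _ := by
        gcongr
        exact (H.ok t).z_lower
  · calc _ ≤ 2 / ((S t).q : ℝ) / (1 / 2) := by
          gcongr
          exact (H.ok t).z_upper
      _ = _ := by field_simp; norm_num

theorem exists_kappa (t n : ℕ) : ∃ κ : ℤ,
    NN S t (n + 1) * (S (t + n + 1)).B - NN S t n * (S (t + n)).B = κ * (S (t + n + 1)).q ∧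
      NN S t (n + 1) * (S (t + n + 1)).A - NN S t n * (S (t + n)).A =
        -(κ * (S (t + n + 1)).p) :=
  ⟨_, (H.ok (t + n + 1)).kernel (by
    have h1 := (H.ok (t + n + 1)).bez
    have h3 : NN S t (n + 1) = NN S t n * ((S (t + n + 1)).q * (S (t + n)).A +
      (S (t + n + 1)).p * (S (t + n)).B) := rfl
    linear_combination NN S t (n + 1) * h1 + h3)⟩

/-- The basic error estimate. -/
theorem err {D P : ℝ} (hD : ∀ k, |D - arc γ (S k)| ≤ 2 * (1 / (S (k + 1)).q))
    (hP : ∀ k, |P - Pr γ S k| ≤ 2 * (1 / (S (k + 1)).q)) (t n : ℕ) :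
    |zz γ (S t) / Pr γ S t * P * GG D * (S (t + n)).J - NN S t n * (S (t + n)).B| ≤
      104 / (S t).q * (1 / (S (t + n)).q) := by
  have h0 := H.N_eq t n
  set s := t + n with hs
  obtain ⟨x1, x2⟩ := H.X_bounds t
  set X := zz γ (S t) / Pr γ S t with hX
  have a := H.ok s
  have hq := a.qpos
  have hq' := (H.ok (s + 1)).qpos
  have hqt := (H.ok t).qpos
  have hz := a.zpos
  have hX0 : 0 < X := lt_of_lt_of_le (by positivity) x1
  have hl := H.Pr_lower s
  have hu := H.Pr_upper s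
  have h1 : X * P * GG D * (S s).J - NN S t n * (S s).B =
      NN S t n * (zz γ (S s) * GG (arc γ (S s)) * (S s).J - (S s).B) +
        X * ((P - Pr γ S s) * GG D + Pr γ S s * (GG D - GG (arc γ (S s)))) * (S s).J := by
    linear_combination -(GG (arc γ (S s)) * (S s).J) * h0
  have h2 : |(NN S t n : ℝ)| ≤ 16 * (S s).q / (S t).q := by
    rw [← eq_div_iff hz.ne'] at h0
    rw [h0, abs_of_pos (by positivity)]
    calc _ ≤ 4 / ((S t).q : ℝ) * 2 / (1 / (2 * (S s).q)) := by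
          gcongr
          exact a.z_lower
      _ = _ := by field_simp; norm_num
  have h4 : |(P - Pr γ S s) * GG D + Pr γ S s * (GG D - GG (arc γ (S s)))| ≤
      18 / (S (s + 1)).q := by
    refine (abs_add_le _ _).trans ?_
    rw [abs_mul, abs_mul, abs_of_nonneg (by linarith : (0 : ℝ) ≤ Pr γ S s)]
    calc _ ≤ 2 * (1 / ((S (s + 1)).q : ℝ)) * 1 + 2 * (4 * (2 * (1 / (S (s + 1)).q))) := by
          gcongr
          · exact hP s
          · exact abs_GG_le D
          · exact (GG_lip _ _).trans (by gcongr; exact hD s)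
      _ = _ := by ring
  have h5 : ((S s).J : ℝ) ≤ (S (s + 1)).q / (S s).q := by
    rw [le_div_iff₀ hq]
    exact H.jq s
  rw [h1]
  refine (abs_add_le _ _).trans ?_
  rw [abs_mul, abs_mul, abs_mul, abs_of_pos hX0, abs_of_nonneg a.jpos]
  calc _ ≤ 16 * (S s).q / (S t).q * (2 / ((S s).q : ℝ) ^ 2) +
        4 / (S t).q * (18 / (S (s + 1)).q) * ((S (s + 1)).q / (S s).q) := by
        have := a.jpos
        gcongr
        exact a.err
    _ = _ := by field_simp; norm_num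

end Sch

end Pool.Agent.P.MP_23b0f8_an.LQ
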