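import Mathlib
import Pool.Agent.P.MP_23b0f8_an.PP8
import Pool.Agent.P.MP_23b0f8_an.PQ3

/-! Pure point diffraction along a sequence of stages. -/

open Filter Topology MeasureTheory

namespace Pool.Agent.P.MP_23b0f8_an.LQ

attribute [local instance] probCircle

namespace Sch

variable {γ : ℝ} {S : ℕ → St} (H : Sch γ S)

include H

theorem tail {D P : ℝ} (hDt : Tendsto (fun k => arc γ (S k)) atTop (𝓝 D))
    (hD : ∀ k, |D - arc γ (S k)| ≤ 2 * (1 / (S (k + 1)).q))
    (hPt : Tendsto (Pr γ S) atTop (𝓝 P))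
    (hP : ∀ k, |P - Pr γ S k| ≤ 2 * (1 / (S (k + 1)).q)) (t : ℕ) :
    Good γ (D - arc γ (S t)) (zz γ (S t) / Pr γ S t * P * GG D)
      (zz γ (S t) / Pr γ S t * P * GG D * (D - arc γ (S t)) -
        (zz γ (S t) / Pr γ S t * P - zz γ (S t)))
      (313 / (S t).q * (1 / (S t).q)) (2 / (S t).q) := by
  set σ := zz γ (S t) / Pr γ S t * P * GG D with hσ
  have hshift : Tendsto (fun n => t + n) atTop atTop := tendsto_atTop_mono
    (fun n => Nat.le_add_left n t) tendsto_id
  have hQt0 := (H.ok t).qpos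
  set a : ℕ → ℝ := fun n => arc γ (S (t + n)) - arc γ (S t) with ha
  set lam : ℕ → ℝ := fun n => σ * a n - (NN S t n * zz γ (S (t + n)) - zz γ (S t)) with hlam
  have ha_lim : Tendsto a atTop (𝓝 (D - arc γ (S t))) := (hDt.comp hshift).sub_const _
  have hZ : Tendsto (fun n => (NN S t n : ℝ) * zz γ (S (t + n))) atTop
      (𝓝 (zz γ (S t) / Pr γ S t * P)) := by
    simp only [H.N_eq]
    exact (hPt.comp hshift).const_mul _
  have hlam_lim : Tendsto lam atTop
      (𝓝 (σ * (D - arc γ (S t)) - (zz γ (S t) / Pr γ S t * P - zz γ (S t)))) :=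
    (ha_lim.const_mul σ).sub (hZ.sub_const _)
  have hgood : ∀ n, Good γ (a n) σ (lam n)
      (312 / (S t).q * (1 / (S t).q - 1 / (S (t + n)).q)) (1 / (S t).q - 1 / (S (t + n)).q) := by
    intro n
    induction n with
    | zero =>
      have h3 := good_base γ σ 0 0 (δ := 0) (by simp)
      simpa [ha, hlam, NN] using h3
    | succ n ih =>
      obtain ⟨v, hv1, hv2⟩ := H.rel (t + n)
      obtain ⟨κ, hκ1, hκ2⟩ := H.exists_kappa t n
      obtain ⟨b1, b2, -⟩ := arc_step (H.ok (t + n + 1)) (H.ok (t + n)).pos hv1 hv2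
      have h1 := good_step ih (S (t + n + 1)).q v (S (t + n + 1)).p κ
      have hv1' : ((S (t + n + 1)).J : ℝ) = (S (t + n)).J + v * (S (t + n + 1)).q := by
        exact_mod_cast hv1
      have hκ1' : (NN S t (n + 1) : ℝ) * (S (t + n + 1)).B - NN S t n * (S (t + n)).B =
          κ * (S (t + n + 1)).q := by exact_mod_cast hκ1
      have hκ2' : (NN S t (n + 1) : ℝ) * (S (t + n + 1)).A - NN S t n * (S (t + n)).A =
          -(κ * (S (t + n + 1)).p) := by exact_mod_cast hκ2
      have h2 : a (n + 1) = a n + v * ((S (t + n + 1)).q * γ - (S (t + n + 1)).p) := by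
        simp only [ha, ← add_assoc t]
        rw [b1]
        simp only [arc]
        ring
      have h3 : lam (n + 1) =
          lam n + (σ * v - κ) * ((S (t + n + 1)).q * γ - (S (t + n + 1)).p) := by
        simp only [hlam, h2, ← add_assoc t, zz]
        linear_combination -γ * hκ1' - hκ2'
      rw [h2, h3, ← add_assoc t]
      have hQ0 := (H.ok (t + n + 1)).qpos
      have h6 := H.inv_half (t + n)
      refine h1.mono ?_ (by linarith)
      have e1 := H.err hD hP t n
      have e2 := H.err hD hP t (n + 1)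
      rw [← add_assoc t, ← hσ] at e2
      rw [← hσ] at e1
      have h4 : (σ * v - κ) * (S (t + n + 1)).q =
          (σ * (S (t + n + 1)).J - NN S t (n + 1) * (S (t + n + 1)).B) -
            (σ * (S (t + n)).J - NN S t n * (S (t + n)).B) := by
        linear_combination -σ * hv1' + hκ1'
      have h5 : |σ * v - κ| * (S (t + n + 1)).q ≤
          104 / (S t).q * (1 / (S (t + n + 1)).q) + 104 / (S t).q * (1 / (S (t + n)).q) := by
        rw [← abs_of_pos hQ0, ← abs_mul, abs_of_pos hQ0, h4]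
        exact (abs_sub _ _).trans (add_le_add e2 e1)
      have h7 : 312 / ((S t).q : ℝ) = 3 * (104 / (S t).q) := by ring
      have h8 := mul_le_mul_of_nonneg_left h6 (by positivity : 0 ≤ 104 / ((S t).q : ℝ))
      rw [h7]
      linarith
  refine good_limit (δ := 312 / (S t).q * (1 / (S t).q)) (ε := 1 / (S t).q) ha_lim hlam_lim
    (.of_forall fun n => (hgood n).mono ?_ ?_) (by gcongr; norm_num) (by gcongr; norm_num)
  · have := (H.ok (t + n)).qpos
    gcongr
    exact sub_le_self _ (by positivity)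
  · have := (H.ok (t + n)).qpos
    exact sub_le_self _ (by positivity)

omit H in
theorem phase {s : St} (h : Ok γ s) {D Z δ δ' ε : ℝ}
    (h1 : Good γ (D - arc γ s) (Z * GG D) (Z * GG D * (D - arc γ s) - (Z - zz γ s)) δ ε)
    (h2 : |Z * GG D * s.J - s.B| ≤ δ') (n : ℤ) :
    volume.real {z | δ + δ' <
      ‖((Z / (1 - 2 * D + 2 * D ^ 2) * ((1 - D) * n + (2 * D - 1) * Mn γ D n z) :
        ℝ) : UnitAddCircle)‖} ≤ ε + 1 / s.q + s.q * ‖((n * γ : ℝ) : UnitAddCircle)‖ := by
  have hQ := h.big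
  have hQ0 := h.qpos
  have hN := NN_pos D
  replace h1 := h1 n
  set σ := Z * GG D with hσ
  set lam := σ * (D - arc γ s) - (Z - zz γ s) with hlam
  set r := round (n * γ) with hr
  set η := n * γ - r with hη
  set ζ : ℝ := 3 / (s.q : ℝ) ^ 5 with hζ
  have hη2 : |η| ≤ 1 / 2 := abs_sub_round _
  have h3 := volume_biUnion_ball_le (Finset.range s.q)
    (fun c => ((c / s.q - η / 2 : ℝ) : UnitAddCircle)) (δ := ζ + |η| / 2) (by positivity)
  rw [Finset.card_range] at h3
  set T := {z | δ < ‖((σ * Mn γ (D - arc γ s) n z - lam * n : ℝ) : UnitAddCircle)‖} with hT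
  have h4 : volume.real ((fun z => z + -(arc γ s : UnitAddCircle)) ⁻¹' T) = volume.real T := by
    unfold Measure.real
    rw [measure_preimage_add_right]
  obtain ⟨m, hm⟩ := Int.eq_ofNat_of_zero_le h.pos
  have hm' : (s.J : ℝ) = m := by exact_mod_cast hm
  refine le_trans (measureReal_mono (s₂ := (fun z => z + -(arc γ s : UnitAddCircle)) ⁻¹' T ∪
    ⋃ c ∈ Finset.range s.q, Metric.closedBall ((c / s.q - η / 2 : ℝ) : UnitAddCircle)
      (ζ + |η| / 2)) ?_) ?_
  · intro z hz
    obtain ⟨x, rfl⟩ := QuotientAddGroup.mk_surjective z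
    by_contra hcon
    simp only [Set.mem_union, Set.mem_preimage, hT, Set.mem_ofPred_eq, Set.mem_iUnion, not_or,
      not_lt, not_exists, mem_closedBall_iff_norm, not_le, ← AddCircle.coe_sub] at hz hcon
    obtain ⟨h5, h6⟩ := hcon
    have h7 := LP.cell s.q m (by exact_mod_cast hQ0) s.p s.L n r x ζ (by
      have c1 : γ - s.p / s.q = (s.q * γ - s.p) / s.q := by field_simp
      rw [← hm', c1, abs_div, abs_of_pos hQ0, ← mul_div_assoc]
      calc _ ≤ 3 / (s.q : ℝ) ^ 4 / s.q := by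
            gcongr
            exact h.jth
        _ = ζ := by rw [hζ]; field_simp) h6
    rw [← hm', ← arc, ← hm] at h7
    have h8 := Mn_add_arc γ (arc γ s) (D - arc γ s) n (x : UnitAddCircle)
    rw [add_sub_cancel, h7, sub_eq_add_neg (x : UnitAddCircle)] at h8
    set M := Mn γ (D - arc γ s) n ((x : UnitAddCircle) + -(arc γ s : UnitAddCircle)) with hM
    have h9 : Z / (1 - 2 * D + 2 * D ^ 2) * ((1 - D) * n + (2 * D - 1) * Mn γ D n x) =
        (σ * M - lam * n) + (-(σ * s.J - s.B) * η + ((n * s.A + s.B * r : ℤ) : ℝ)) := by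
      rw [h8, hlam, hη, arc, zz, hσ, GG]
      push_cast
      field_simp
      ring
    rw [h9, AddCircle.coe_add] at hz
    have h10 := norm_coe_le (-(σ * s.J - s.B) * η + ((n * s.A + s.B * r : ℤ) : ℝ))
      (n * s.A + s.B * r)
    rw [add_sub_cancel_right, abs_mul, abs_neg] at h10
    have h11 : |σ * s.J - s.B| * |η| ≤ δ' * 1 :=
      mul_le_mul h2 (by linarith) (abs_nonneg _) ((abs_nonneg _).trans h2)
    have h12 := norm_add_le ((σ * M - lam * n : ℝ) : UnitAddCircle)
      ((-(σ * s.J - s.B) * η + ((n * s.A + s.B * r : ℤ) : ℝ) : ℝ) : UnitAddCircle)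
    linarith
  · refine (measureReal_union_le _ _).trans ?_
    rw [h4, UnitAddCircle.norm_eq, ← hr, ← hη]
    have h5 := small (C := 6) hQ (by norm_num) 2
    have h6 : (s.q : ℝ) * (2 * (ζ + |η| / 2)) = 6 / (s.q : ℝ) ^ (2 + 2) + s.q * |η| := by
      rw [hζ]; field_simp; ring
    linarith

theorem purePoint (hirr : Irrational γ) {D : ℝ} (hmem : D ∈ Set.Ioo (0 : ℝ) 1)
    (hDt : Tendsto (fun k => arc γ (S k)) atTop (𝓝 D))
    (hD : ∀ k, |D - arc γ (S k)| ≤ 2 * (1 / (S (k + 1)).q)) :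
    ∃ c : ℝ, ∀ x₀ : ℝ, DiffractionCondition (circleSeq D γ x₀) ∧
      ∀ η μ : Measure ℝ, IsAutocorrelation (circleSeq D γ x₀) η → IsFourierTransform η μ →
        μ {s : ℝ | ¬ ∃ r : ℚ, s = r * c} = 0 := by
  obtain ⟨P, hPt, hP⟩ := H.exists_P
  have hP1 : 1 / 2 ≤ P := ge_of_tendsto' hPt H.Pr_lower
  have hs := sqrt_pos D
  set W := √((1 - D) ^ 2 + D ^ 2) with hW
  have hW2 : W * W = 1 - 2 * D + 2 * D ^ 2 := by
    rw [hW, Real.mul_self_sqrt (by positivity)]; ring
  have hW1 : W ≤ 1 := by nlinarith [mul_pos hmem.1 (sub_pos.mpr hmem.2)]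
  refine ⟨zz γ (S 0) * P / W, fun x₀ => ?_⟩
  rw [circleSeq_eq γ hmem]
  refine (stair γ hmem).pp_diffraction hirr _
    (C := {s : ℝ | ∃ r : ℚ, s = r * (zz γ (S 0) * P / W)})
    ((Set.countable_range fun r : ℚ => (r : ℝ) * (zz γ (S 0) * P / W)).mono (by
      rintro s ⟨r, hr⟩
      exact ⟨r, hr.symm⟩)) ?_
  intro ε hε
  obtain ⟨t, ht⟩ := exists_nat_ge (4000 / ε)
  have hQ := (H.ok t).big
  have hQ0 := (H.ok t).qpos
  have hq : 4000 * (1 / ((S t).q : ℝ)) ≤ ε := by
    rw [div_le_iff₀ hε] at ht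
    rw [← mul_div_assoc, div_le_iff₀ hQ0]
    nlinarith [H.q_ge t]
  have hq1 : 0 < 1 / ((S t).q : ℝ) := by positivity
  have hl := H.Pr_lower t
  have hl0 : (0 : ℝ) < Pr γ S t := by linarith
  have hz := (H.ok t).zpos
  have hz0 := (H.ok 0).zpos
  obtain ⟨x1, x2⟩ := H.X_bounds t
  refine ⟨zz γ (S t) / Pr γ S t * P / W, (S t).q, by positivity, by linarith, ?_, fun k => ?_,
    fun n => ?_⟩
  · rw [LP.stair_mean, ← hW]
    have h3 : (S t).q * (zz γ (S t) / Pr γ S t * P / W) * W =
        zz γ (S t) * (S t).q * (P / Pr γ S t) := by field_simp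
    have h4 : P / Pr γ S t ≤ 1 + 2 * (1 / (S t).q) := by
      rw [div_le_iff₀ hl0]
      nlinarith [(abs_le.mp (hP t)).2, H.inv_half t]
    rw [h3]
    calc _ ≤ (1 + 1 / ((S t).q : ℝ)) * (1 + 2 * (1 / (S t).q)) := by
          gcongr
          linarith [(abs_le.mp (H.ok t).zq_abs).2]
      _ ≤ _ := by nlinarith [(H.ok t).inv_le]
  · refine ⟨k / MM S t, ?_⟩
    have h3 : (MM S t : ℝ) ≠ 0 := by
      intro h
      simp [Pr, h] at hl0
    rw [Pr]
    push_cast
    field_simp
  · have h2 := H.err hD hP t 0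
    simp only [add_zero, NN, Int.cast_one, one_mul] at h2
    have h5 : 2 / ((S t).q : ℝ) = 2 * (1 / (S t).q) := by ring
    refine le_trans (measureReal_mono fun z hz => ?_)
      ((phase (H.ok t) (H.tail hDt hD hPt hP t) h2 n).trans (by linarith))
    simp only [Set.mem_ofPred_eq] at hz ⊢
    rw [LP.stair_F, ← hW] at hz
    set X := zz γ (S t) / Pr γ S t with hX
    have h3 : X * P / W * (((1 - D) * n + (2 * D - 1) * Mn γ D n z) / W) =
        X * P / (1 - 2 * D + 2 * D ^ 2) * ((1 - D) * n + (2 * D - 1) * Mn γ D n z) := by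
      rw [← hW2]
      field_simp
    rw [h3] at hz
    refine lt_of_le_of_lt ?_ hz
    have hX0 : 0 < X := lt_of_lt_of_le (by positivity) x1
    calc _ = 3336 * (1 / (S t).q) * (1 / (4 * ((S t).q : ℝ)) * (1 / 2)) := by
          field_simp; norm_num
      _ ≤ ε * (X * P) := by
          gcongr
          linarith
      _ ≤ _ := by
          gcongr
          exact le_div_self (by positivity) hs hW1

end Sch

end Pool.Agent.P.MP_23b0f8_an.LQ
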