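import Mathlib
import Pool.Agent.P.MP_23b0f8_an.PQ4

/-! The recursion. -/

open Filter Topology MeasureTheory

namespace Pool.Agent.P.MP_23b0f8_an.LQ

theorem init {γ : ℝ} (hγ : LiouvilleWith 14 γ) {x ρ : ℝ} (hρ : 0 < ρ) (h0 : 0 ≤ x) (h1 : x ≤ 1) :
    ∃ J L : ℤ, 0 ≤ J ∧ |J * γ - L - x| ≤ ρ := by
  have hirr := hγ.irrational (by norm_num)
  obtain ⟨q, p, -, -, hq, -, hθ⟩ := approx hγ (max 100 (1 / ρ))
  simp only [max_le_iff] at hq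
  have hq0 : (0 : ℝ) < q := by linarith [hq.1]
  have hθ0 : (q : ℝ) * γ - p ≠ 0 := by
    have hq1 : q ≠ 0 := by rintro rfl; simp at hq0
    exact ((hirr.natCast_mul hq1).sub_intCast p).ne_zero
  have h2 : |q * γ - p| ≤ ρ := by
    refine (hθ.trans (small hq.1 (by norm_num) 10)).trans ?_
    have := hq.2
    rw [div_le_iff₀ hρ] at this
    rw [div_le_iff₀ hq0]
    linarith
  have key : ∀ θ y : ℝ, 0 < θ → 0 ≤ y → ∃ i : ℕ, |i * θ - y| ≤ θ := by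
    intro θ y hθ hy
    have a1 := Nat.le_ceil (y / θ)
    have a2 := (Nat.ceil_lt_add_one (div_nonneg hy hθ.le)).le
    rw [div_le_iff₀ hθ] at a1
    rw [← sub_le_iff_le_add, le_div_iff₀ hθ] at a2
    exact ⟨⌈y / θ⌉₊, abs_le.mpr ⟨by linarith, by linarith⟩⟩
  rcases lt_or_gt_of_ne hθ0 with h | h
  · obtain ⟨i, hi⟩ := key (-(q * γ - p)) (1 - x) (by linarith) (by linarith)
    refine ⟨i * q, i * p - 1, by positivity, ?_⟩
    rw [abs_of_neg h] at h2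
    refine le_trans (le_of_eq ?_) (hi.trans h2)
    rw [← abs_neg]
    push_cast
    ring_nf
  · obtain ⟨i, hi⟩ := key (q * γ - p) x h h0
    refine ⟨i * q, i * p, by positivity, ?_⟩
    rw [abs_of_pos h] at h2
    refine le_trans (le_of_eq ?_) (hi.trans h2)
    push_cast
    ring_nf

theorem exists_avoid {γ : ℝ} (hγ : LiouvilleWith 14 γ) {a b : ℝ} (ha : 0 ≤ a) (hab : a < b)
    (hb : b ≤ 1) (x : ℕ → ℝ) : ∃ D ∈ Set.Ioo a b, (∀ k, D ≠ x k) ∧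
      ∃ c : ℝ, ∀ x₀ : ℝ, DiffractionCondition (circleSeq D γ x₀) ∧
        ∀ η μ : Measure ℝ, IsAutocorrelation (circleSeq D γ x₀) η → IsFourierTransform η μ →
          μ {s : ℝ | ¬ ∃ r : ℚ, s = r * c} = 0 := by
  set ρ := (b - a) / 10 with hρ
  set c := (a + b) / 2 with hc
  have hρ0 : 0 < ρ := by linarith
  obtain ⟨J₀, L₀, hJ₀, h₀⟩ := init hγ (x := c) hρ0 (by linarith) (by linarith)
  obtain ⟨s₀, a1, a2, ⟨v₀, a3, a4⟩, a5⟩ := step hγ (L₀ := L₀) hJ₀ hρ0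
    (by linarith [abs_le.mp h₀]) (by linarith [abs_le.mp h₀]) (x 0) (1 / ρ)
  have a6 : |arc γ s₀ - c| ≤ 3 * ρ - 1 / s₀.q := by
    have b1 := (arc_step a2 hJ₀ a3 a4).2.2
    have b2 : 1 / (s₀.q : ℝ) ≤ ρ := by
      rw [div_le_iff₀ hρ0] at a1
      rw [div_le_iff₀ a2.qpos]
      linarith
    linarith [abs_sub_le (arc γ s₀) (J₀ * γ - L₀) c]
  have hstep : ∀ (k : ℕ) (s : {s : St // Ok γ s ∧ |arc γ s - c| ≤ 3 * ρ - 1 / s.q}),
      ∃ s' : {s : St // Ok γ s ∧ |arc γ s - c| ≤ 3 * ρ - 1 / s.q},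
        2 * (s.1.q : ℝ) ≤ s'.1.q ∧ (s.1.J : ℝ) * s.1.q ≤ s'.1.q ∧ |(s.1.B : ℝ)| ≤ s'.1.q ∧
          (∃ v : ℕ, s'.1.J = s.1.J + v * s'.1.q ∧ s'.1.L = s.1.L + v * s'.1.p) ∧
          4 / |arc γ s.1 - x k| ≤ s'.1.q ∧ arc γ s'.1 ≠ x (k + 1) := by
    rintro k ⟨s, h1, h2⟩
    have hq := h1.qpos
    have h3 : 0 < 1 / (s.q : ℝ) := by positivity
    have h4 := abs_le.mp h2
    rw [arc] at h4
    obtain ⟨s', b1, b2, ⟨v, b3, b4⟩, b5⟩ := step hγ (L₀ := s.L) h1.pos hρ0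
      (by linarith [h4.1]) (by linarith [h4.2]) (x (k + 1))
      (max (max (2 * (s.q : ℝ)) (s.J * s.q)) (max |(s.B : ℝ)| (4 / |arc γ s - x k|)))
    simp only [max_le_iff] at b1
    refine ⟨⟨s', b2, ?_⟩, b1.1.1, b1.1.2, b1.2.1, ⟨v, b3, b4⟩, b1.2.2, b5⟩
    have b6 := (arc_step b2 h1.pos b3 b4).2.2
    rw [← arc] at b6
    have b7 : 1 / (s'.q : ℝ) ≤ 1 / s.q / 2 := by
      rw [div_div]
      gcongr
      linarith [b1.1.1]
    linarith [abs_sub_le (arc γ s') (arc γ s) c]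
  choose f hf using hstep
  let T : ℕ → {s : St // Ok γ s ∧ |arc γ s - c| ≤ 3 * ρ - 1 / s.q} :=
    fun k => Nat.rec ⟨s₀, a2, a6⟩ f k
  have hT : ∀ k, T (k + 1) = f k (T k) := fun k => rfl
  have H : Sch γ fun k => (T k).1 :=
    ⟨fun k => (T k).2.1, fun k => (hf k (T k)).1, fun k => (hf k (T k)).2.1,
      fun k => (hf k (T k)).2.2.1, fun k => (hf k (T k)).2.2.2.1⟩
  obtain ⟨D, hDt, hD⟩ := H.exists_D
  have h5 : |D - c| ≤ 3 * ρ := le_of_tendsto' (hDt.sub_const c).abs fun k => by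
    have := (T k).2.1.qpos
    exact (T k).2.2.trans (sub_le_self _ (by positivity))
  have h6 := abs_le.mp h5
  refine ⟨D, ⟨by linarith, by linarith⟩, fun k hk => ?_,
    H.purePoint (hγ.irrational (by norm_num)) ⟨by linarith, by linarith⟩ hDt hD⟩
  have h7 : arc γ (T k).1 ≠ x k := by
    cases k with
    | zero => exact a5
    | succ k => exact (hf k (T k)).2.2.2.2.2
  have h8 : 4 / |arc γ (T k).1 - x k| ≤ (T (k + 1)).1.q := (hf k (T k)).2.2.2.2.1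
  have h9 := hD k
  simp only [hk] at h9
  have h10 := (T (k + 1)).2.1.qpos
  rw [div_le_iff₀ (abs_pos.mpr (sub_ne_zero.mpr h7))] at h8
  rw [abs_sub_comm, mul_one_div, le_div_iff₀ h10] at h9
  linarith

theorem uncountable {γ : ℝ} (hγ : LiouvilleWith 14 γ) {a b : ℝ} (ha : 0 ≤ a) (hab : a < b)
    (hb : b ≤ 1) : ¬ {D : ℝ | D ∈ Set.Ioo a b ∧ (¬ ∃ r s : ℚ, D = r * γ + s) ∧
      ∃ c : ℝ, ∀ x₀ : ℝ, DiffractionCondition (circleSeq D γ x₀) ∧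
        ∀ η μ : Measure ℝ, IsAutocorrelation (circleSeq D γ x₀) η → IsFourierTransform η μ →
          μ {s : ℝ | ¬ ∃ r : ℚ, s = r * c} = 0}.Countable := by
  intro h
  obtain ⟨x, hx⟩ := (h.union (Set.countable_range fun r : ℚ × ℚ =>
    (r.1 : ℝ) * γ + r.2)).exists_eq_range (Set.Nonempty.inr (Set.range_nonempty _))
  obtain ⟨D, h1, h2, h3⟩ := exists_avoid hγ ha hab hb x
  have h4 : D ∉ Set.range x := by
    rintro ⟨k, hk⟩
    exact h2 k hk.symm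
  rw [← hx] at h4
  refine h4 (Or.inl ⟨h1, ?_, h3⟩)
  rintro ⟨r, s, h5⟩
  exact h4 (Or.inr ⟨(r, s), h5.symm⟩)

end Pool.Agent.P.MP_23b0f8_an.LQ
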