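import Mathlib
import Pool.Agent.P.MP_23b0f8_an.PP4

/-! Wiener's lemma and a rigidity criterion for pure point diffraction. -/

open Filter Topology MeasureTheory
open scoped ENNReal NNReal FourierTransform Real

namespace Pool.Agent.P.MP_23b0f8_an

attribute [local instance] probCircle

theorem pr_cont (T : ℝ) : Continuous fun v : ℝ => ex T (-v) :=
  continuous_ex.comp (continuous_const.prodMk continuous_neg)

theorem pr_integrable {μ : Measure ℝ} {h : ℝ → ℝ} (hi : Integrable h μ) (T : ℝ) :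
    Integrable (fun v => (h v : ℂ) * ex T (-v)) μ :=
  hi.norm.mono' (hi.ofReal.aestronglyMeasurable.mul (pr_cont T).aestronglyMeasurable)
    (.of_forall fun v => by rw [norm_mul, norm_ex, mul_one, Complex.norm_real])

theorem pr_wiener {ν : Measure ℝ} [SFinite ν] (hν : ∀ x, ν {x} = 0) {h : ℝ → ℝ}
    (hi : Integrable h ν) (h0 : ∀ v, 0 ≤ h v) {s : ℝ} (hs : 0 < s) :
    Tendsto (fun M : ℕ => ((M : ℝ) + 1)⁻¹ *
      ∑ m ∈ Finset.range (M + 1), ‖∫ v, (h v : ℂ) * ex (m / s) (-v) ∂ν‖ ^ 2) atTop (𝓝 0) := by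
  set w : ℕ → ℝ → ℝ := fun M v =>
    ((M : ℝ) + 1)⁻¹ * ‖∑ m ∈ Finset.range (M + 1), ex (m / s) (-v)‖ with hw
  have hwc : ∀ M, Continuous (w M) := fun M =>
    continuous_const.mul (continuous_finsetSum _ fun m _ => pr_cont _).norm
  have hw0 : ∀ M v, 0 ≤ w M v := fun M v => by positivity
  have hw1 : ∀ M v, w M v ≤ 1 := by
    intro M v
    refine inv_mul_le_one_of_le₀ ((norm_sum_le _ _).trans ?_) (by positivity)
    simp [norm_ex]
  have hi2 : Integrable (fun p : ℝ × ℝ => h p.1 * h p.2) (ν.prod ν) := hi.mul_prod hi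
  have hsub : Continuous fun p : ℝ × ℝ => p.1 - p.2 := continuous_fst.sub continuous_snd
  have h1 : Tendsto (fun M => ∫ p, h p.1 * h p.2 * w M (p.1 - p.2) ∂ν.prod ν) atTop (𝓝 0) := by
    have := tendsto_integral_of_dominated_convergence (μ := ν.prod ν)
      (F := fun M p => h p.1 * h p.2 * w M (p.1 - p.2)) (f := fun _ => (0 : ℝ)) _
      (fun M => hi2.aestronglyMeasurable.mul ((hwc M).comp hsub).aestronglyMeasurable) hi2
      (fun M => .of_forall fun p => by
        have := mul_nonneg (h0 p.1) (h0 p.2)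
        rw [Real.norm_of_nonneg (mul_nonneg this (hw0 M _))]
        exact mul_le_of_le_one_right this (hw1 M _)) (by
        have h2 : ∀ᵐ p ∂ν.prod ν, ∀ k : ℤ, p.1 - p.2 ≠ k * s := by
          refine ae_all_iff.mpr fun k => ?_
          refine (Measure.ae_prod_iff_ae_ae
            (isOpen_ne_fun hsub continuous_const).measurableSet).mpr (.of_forall fun x => ?_)
          rw [ae_iff]
          refine measure_mono_null (fun y hy => ?_) (hν (x - k * s))
          simp only [ne_eq, not_not, Set.mem_ofPred_eq] at hy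
          rw [Set.mem_singleton_iff]
          linarith
        filter_upwards [h2] with p hp
        have := (pp_geom hs hp).const_mul (h p.1 * h p.2)
        rwa [mul_zero] at this)
    simpa using this
  refine squeeze_zero (fun M => by positivity) (fun M => ?_) h1
  have h3 : ∀ T : ℝ, ‖∫ v, (h v : ℂ) * ex T (-v) ∂ν‖ ^ 2 =
      (∫ p, ((h p.1 * h p.2 : ℝ) : ℂ) * ex T (-(p.1 - p.2)) ∂ν.prod ν).re := by
    intro T
    rw [← Complex.ofReal_re (_ ^ 2), Complex.ofReal_pow, ← Complex.mul_conj', ← integral_conj,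
      ← integral_prod_mul]
    congr 1
    refine integral_congr_ae (.of_forall fun p => ?_)
    simp only [map_mul, Complex.conj_ofReal]
    rw [mul_mul_mul_comm, ex_mul_conj, Complex.ofReal_mul]
    congr 2
    ring
  have h4 : ∀ T : ℝ, Integrable
      (fun p : ℝ × ℝ => ((h p.1 * h p.2 : ℝ) : ℂ) * ex T (-(p.1 - p.2))) (ν.prod ν) := fun T =>
    hi2.norm.mono' (hi2.ofReal.aestronglyMeasurable.mul
      ((pr_cont T).comp hsub).aestronglyMeasurable)
      (.of_forall fun v => by rw [norm_mul, norm_ex, mul_one, Complex.norm_real])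
  simp only [h3]
  rw [← Complex.re_sum, ← integral_finsetSum _ fun m _ => h4 _]
  have h5 : ∀ p : ℝ × ℝ, h p.1 * h p.2 * w M (p.1 - p.2) = ((M : ℝ) + 1)⁻¹ *
      ‖∑ m ∈ Finset.range (M + 1), ((h p.1 * h p.2 : ℝ) : ℂ) * ex (m / s) (-(p.1 - p.2))‖ := by
    intro p
    rw [← Finset.mul_sum, norm_mul, Complex.norm_real,
      Real.norm_of_nonneg (mul_nonneg (h0 _) (h0 _)), hw]
    ring
  simp only [h5]
  rw [integral_const_mul]
  gcongr
  exact (Complex.re_le_norm _).trans (norm_integral_le_integral_norm _)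

theorem pr_countable (μ : Measure ℝ) [μ.HasTemperateGrowth] : {s | μ {s} ≠ 0}.Countable := by
  have := locallyFinite_of_temperate μ
  have h3 := Measure.countable_meas_level_set_pos (μ := μ) (g := id) measurable_id
  refine h3.mono fun s hs => ?_
  simpa [pos_iff_ne_zero] using hs

theorem pr_null {μ : Measure ℝ} {C : Set ℝ} (hC : MeasurableSet C)
    (H : ∀ R : ℕ, ∃ h : ℝ → ℝ, Integrable h μ ∧ (∀ v, 0 ≤ h v) ∧
      (∀ v, |v| ≤ (R : ℝ) + 1 → 0 < h v) ∧ ∫ v in C, h v ∂μ ≤ 0) : μ C = 0 := by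
  have h1 : ∀ R : ℕ, μ (C ∩ {v | |v| ≤ (R : ℝ) + 1}) = 0 := by
    intro R
    obtain ⟨h, hi, h0, hp, h2⟩ := H R
    have h5 : ∫ v in C, h v ∂μ = 0 := le_antisymm h2 (integral_nonneg fun v => h0 v)
    rw [integral_eq_zero_iff_of_nonneg (fun v => h0 v) hi.restrict, EventuallyEq,
      ae_restrict_iff' hC, ae_iff] at h5
    refine measure_mono_null (fun v hv => ?_) h5
    intro h6
    exact (hp v hv.2).ne' (h6 hv.1)
  refine measure_mono_null (fun v hv => ?_) (measure_iUnion_null h1)
  obtain ⟨R, hR⟩ := exists_nat_ge |v|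
  exact Set.mem_iUnion.mpr ⟨R, hv, by simp only [Set.mem_ofPred_eq]; linarith⟩

namespace Cocycle

variable {γ : ℝ} (c : Cocycle γ)

theorem pr_rigid (hγ : Irrational γ) {μ : Measure ℝ} (hμ : IsFourierTransform c.eta μ)
    (H : ∀ ε : ℝ, 0 < ε → ∃ κ : ℝ, 0 < κ ∧ ∀ n : ℕ, ‖((n * γ : ℝ) : UnitAddCircle)‖ ≤ κ →
      volume.real {z | ε < |c.F n z - n * c.mean|} ≤ ε) : μ {s | μ {s} ≠ 0}ᶜ = 0 := by
  have := hμ.2.1
  have := locallyFinite_of_temperate μ
  have hC := (pr_countable μ).measurableSet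
  set C := {s | μ {s} ≠ 0} with hCdef
  have hmean := c.mean_pos
  obtain ⟨B, hB⟩ := pp_test
  refine pr_null hC.compl fun R => ?_
  obtain ⟨g, h, g0, gs, g1, h0, hp, -, hgh⟩ := hB c.α (R + 1) c.α_pos (by positivity)
  have hi := c.pp_hint hμ g hgh
  refine ⟨h, hi, h0, hp, not_lt.mp fun hM => ?_⟩
  set M := ∫ v in Cᶜ, h v ∂μ with hMdef
  have h3 := c.pp_zero hμ g hgh gs
  have h4 := integral_add_compl hC hi
  have hgc : Continuous fun x => (g x).re := Complex.continuous_re.comp g.continuous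
  have hg0 := g0 0
  obtain ⟨δ, hδ, hδ'⟩ := Metric.eventually_nhds_iff.mp (hgc.continuousAt.eventually
    (lt_mem_nhds (show (g 0).re - c.mean * M / 4 < (g 0).re by
      linarith [mul_pos hmean hM])))
  obtain ⟨κ, hκ, hκ'⟩ := H (min (δ / 2) (c.mean * M / 4 / ((g 0).re + 1))) (by positivity)
  set ε := min (δ / 2) (c.mean * M / 4 / ((g 0).re + 1)) with hε
  have hε1 : ε ≤ δ / 2 := min_le_left _ _
  have hε2 : ε * ((g 0).re + 1) ≤ c.mean * M / 4 :=
    (le_div_iff₀ (by positivity)).mp (min_le_right _ _)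
  have hε0 : 0 < ε := by positivity
  have key : ∀ n : ℕ, ‖((n * γ : ℝ) : UnitAddCircle)‖ ≤ κ →
      M / 2 ≤ ‖∫ v in Cᶜ, (h v : ℂ) * ex (n / c.mean⁻¹) (-v) ∂μ‖ := by
    intro n hn
    have a1 := c.pp_FT hμ g hgh (n / c.mean⁻¹)
    have a2 := integral_add_compl hC (pr_integrable hi (n / c.mean⁻¹))
    have a3 : ‖∫ v in C, (h v : ℂ) * ex (n / c.mean⁻¹) (-v) ∂μ‖ ≤ ∫ v in C, h v ∂μ :=
      norm_integral_le_of_norm_le hi.restrict (.of_forall fun v => by
        rw [norm_mul, norm_ex, mul_one, Complex.norm_real, Real.norm_of_nonneg (h0 v)])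
    have hsum : Summable fun k : ℤ => ∫ z, (g (c.F k z - n / c.mean⁻¹)).re := by
      refine (Complex.reCLM.summable (c.pp_summable g (n / c.mean⁻¹))).congr fun k => ?_
      exact (integral_re (c.pp_integrable g (n / c.mean⁻¹) k)).symm
    have a4 := hsum.le_tsum (n : ℤ) fun k _ => integral_nonneg fun z => g0 _
    set Bad := {z | ε < |c.F n z - n * c.mean|} with hBad
    have hBm : MeasurableSet Bad :=
      measurableSet_lt measurable_const ((c.meas n).sub_const _).abs
    have a5 : ∫ z, ((g 0).re - c.mean * M / 4 - Bad.indicator (fun _ => (g 0).re) z) ≤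
        ∫ z, (g (c.F n z - n / c.mean⁻¹)).re := by
      refine integral_mono ((integrable_const _).sub ((integrable_const _).indicator hBm))
        (c.pp_integrable g _ n).re fun z => ?_
      by_cases hz : z ∈ Bad
      · simp only [Set.indicator_of_mem hz]
        linarith [g0 (c.F n z - n / c.mean⁻¹), mul_pos hmean hM]
      · simp only [Set.indicator_of_notMem hz, sub_zero]
        refine (hδ' ?_).le
        rw [dist_zero_right, Real.norm_eq_abs, div_inv_eq_mul]
        have hz' : |c.F n z - n * c.mean| ≤ ε := not_lt.mp hz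
        linarith
    rw [integral_sub (integrable_const _) ((integrable_const _).indicator hBm),
      integral_indicator_const _ hBm, integral_const, probReal_univ, one_smul, smul_eq_mul] at a5
    have a6 := mul_le_mul_of_nonneg_right (hκ' n hn) hg0
    have a7 : c.mean⁻¹ * ((g 0).re - c.mean * M / 2) ≤
        (∫ v, (h v : ℂ) * ex (n / c.mean⁻¹) (-v) ∂μ).re := by
      rw [a1]
      gcongr
      linarith
    have a8 : c.mean⁻¹ * ((g 0).re - c.mean * M / 2) = c.mean⁻¹ * (g 0).re - M / 2 := by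
      field_simp
    rw [← a2, Complex.add_re] at a7
    linarith [Complex.re_le_norm (∫ v in C, (h v : ℂ) * ex (n / c.mean⁻¹) (-v) ∂μ),
      Complex.re_le_norm (∫ v in Cᶜ, (h v : ℂ) * ex (n / c.mean⁻¹) (-v) ∂μ)]
  have hW := pr_wiener (ν := μ.restrict Cᶜ) (fun x => by
    rw [Measure.restrict_apply (measurableSet_singleton x)]
    by_cases hx : x ∈ C
    · rw [Set.singleton_inter_of_notMem (not_not.mpr hx), measure_empty]
    · exact measure_mono_null Set.inter_subset_left (not_not.mp hx)) hi.restrict h0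
    (inv_pos.mpr hmean)
  set Q := max 2 (1 / κ) with hQ
  have hQ2 : 2 ≤ Q := le_max_left _ _
  have hQκ : 1 ≤ Q * κ := (div_le_iff₀ hκ).mp (le_max_right _ _)
  have hcont : Continuous fun z : UnitAddCircle => max 0 (1 - Q * ‖z‖) := by fun_prop
  have hle : ∀ z : UnitAddCircle, max 0 (1 - Q * ‖z‖) ≤ 1 := fun z => by
    have : 0 ≤ Q * ‖z‖ := by positivity
    exact max_le zero_le_one (by linarith)
  have h1 := equi hγ (l := (atTop : Filter ℕ)) (fun _ => 0) (fun K => K + 1)
    (tendsto_add_atTop_nat 1) hcont.measurable (C := 1) (fun z => by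
      rw [abs_of_nonneg (le_max_left _ _)]
      exact hle z) (.of_forall fun z => hcont.continuousAt)
  simp only [zero_add] at h1
  have h2 := le_of_tendsto_of_tendsto' (h1.const_mul ((M / 2) ^ 2)) hW fun K => by
    push_cast
    rw [mul_left_comm, Finset.mul_sum]
    gcongr with m hm
    by_cases hm' : ‖((m * γ : ℝ) : UnitAddCircle)‖ ≤ κ
    · exact (mul_le_of_le_one_right (sq_nonneg _) (hle _)).trans (by gcongr; exact key m hm')
    · rw [max_eq_left (by nlinarith [not_le.mp hm']), mul_zero]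
      positivity
  have h5 := pp_tent zero_le_one le_rfl hQ2
  have h6 : 0 < (M / 2) ^ 2 * (1 ^ 2 / Q) := by positivity
  nlinarith [sq_nonneg (M / 2)]

theorem pr_diffraction (hγ : Irrational γ) (z₀ : UnitAddCircle)
    (H : ∀ μ, IsFourierTransform c.eta μ → μ {s | μ {s} ≠ 0}ᶜ = 0) :
    DiffractionCondition (Set.range fun n => c.F n z₀) ∧
      ∀ η μ : Measure ℝ, IsAutocorrelation (Set.range fun n => c.F n z₀) η →
        IsFourierTransform η μ → μ {s | μ {s} = 0} = 0 := by
  obtain ⟨μ₀, hμ₀⟩ := c.exists_fourierTransform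
  have hη := c.isAutocorrelation hγ z₀
  have heq : ∀ η, IsAutocorrelation (Set.range fun n => c.F n z₀) η → η = c.eta := by
    intro η h1
    have := h1.1
    have := hη.1
    refine Measure.ext_of_integral_eq_on_compactlySupported fun f => ?_
    exact tendsto_nhds_unique (h1.2 f f.continuous f.hasCompactSupport)
      (hη.2 f f.continuous f.hasCompactSupport)
  refine ⟨⟨⟨c.eta, μ₀, hη, hμ₀⟩, fun η μ h1 h2 => ?_⟩, fun η μ h1 h2 => ?_⟩
  · obtain rfl := heq η h1
    have := h2.2.1
    have := locallyFinite_of_temperate μ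
    refine ⟨pr_countable μ, fun hfin => c.pp_infinite_mass h2 ⟨?_⟩⟩
    rw [← measure_add_measure_compl (pr_countable μ).measurableSet, H μ h2, add_zero]
    exact hfin.isCompact.measure_lt_top
  · obtain rfl := heq η h1
    simpa [Set.compl_ofPred] using H μ h2

end Cocycle

end Pool.Agent.P.MP_23b0f8_an
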