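import Mathlib
import Pool.Agent.P.MP_23b0f8_an.Kesten

/-!
An atom of the diffraction measure forces the multiplicative cocycle to be rigid.
-/

open Filter Topology MeasureTheory
open scoped ENNReal NNReal FourierTransform Real

namespace Pool.Agent.P.MP_23b0f8_an

attribute [local instance] probCircle

theorem ex_add (s a b : ℝ) : ex s (a + b) = ex s a * ex s b := by
  unfold ex
  rw [← Complex.exp_add]
  congr 1
  push_cast
  ring

theorem tendsto_test' (μ : Measure ℝ) [hμ : μ.HasTemperateGrowth] (s : ℝ) {b : ℝ} (hb : 0 < b) :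
    Tendsto (fun K : ℕ => ∫ v, (𝓕 bumpS : SchwartzMap ℝ ℂ) (b * (K + 1) * (s - v)) ∂μ)
      atTop (𝓝 (μ.real {s} • (𝓕 bumpS : SchwartzMap ℝ ℂ) 0)) := by
  have h1 : (μ.restrict {s}ᶜ).HasTemperateGrowth :=
    ⟨hμ.exists_integrable.imp fun n hn => hn.mono_measure Measure.restrict_le_self⟩
  have h2 := (tendsto_test (μ.restrict {s}ᶜ) s (by simp) hb).const_add
    (μ.real {s} • (𝓕 bumpS : SchwartzMap ℝ ℂ) 0)
  rw [add_zero] at h2
  refine h2.congr fun K => ?_
  have hL : 0 < b * (K + 1) := by positivity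
  have hi : Integrable (fun v => (𝓕 bumpS : SchwartzMap ℝ ℂ) (b * (K + 1) * (s - v))) μ := by
    simp only [← fourierInv_testH _ hL]
    exact SchwartzMap.integrable _
  rw [← integral_add_compl (measurableSet_singleton s) hi, integral_singleton]
  simp

theorem fourier_bump_ne : (𝓕 bumpS : SchwartzMap ℝ ℂ) 0 ≠ 0 := by
  rw [SchwartzMap.fourier_coe, fourier_eq_ex]
  simp only [ex, mul_zero, Complex.ofReal_zero, zero_mul, Complex.exp_zero, mul_one, bumpS_apply,
    integral_complex_ofReal]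
  exact_mod_cast (bump.integral_pos (μ := volume)).ne'

theorem l1_le (f : Lp ℂ 2 (volume : Measure UnitAddCircle)) : ∫ z, ‖f z‖ ≤ ‖f‖ := by
  rw [integral_norm_eq_lintegral_enorm (Lp.aestronglyMeasurable f),
    ← eLpNorm_one_eq_lintegral_enorm, Lp.norm_def]
  exact ENNReal.toReal_mono (Lp.eLpNorm_ne_top f)
    (eLpNorm_le_eLpNorm_of_exponent_le one_le_two (Lp.aestronglyMeasurable f))

theorem exists_op {φ : UnitAddCircle → ℂ} (hφ : Measurable φ) (h1 : ∀ z, ‖φ z‖ = 1)
    (a : UnitAddCircle) : ∃ U : Lp ℂ 2 (volume : Measure UnitAddCircle) →L[ℂ]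
      Lp ℂ 2 (volume : Measure UnitAddCircle),
      ‖U‖ ≤ 1 ∧ ∀ h, U h =ᵐ[volume] fun z => φ z * h (z + a) := by
  have hm : MemLp φ ∞ volume :=
    memLp_top_of_bound hφ.aestronglyMeasurable 1 (.of_forall fun z => (h1 z).le)
  have hp := measurePreserving_add_right (volume : Measure UnitAddCircle) a
  have key : ∀ h : Lp ℂ 2 (volume : Measure UnitAddCircle),
      (ContinuousLinearMap.mul ℂ ℂ).holder 2 hm.toLp (Lp.compMeasurePreserving _ hp h) =ᵐ[volume]
        fun z => φ z * h (z + a) := fun h => by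
    filter_upwards [(ContinuousLinearMap.mul ℂ ℂ).coeFn_holder (r := 2) hm.toLp
      (Lp.compMeasurePreserving _ hp h), hm.coeFn_toLp, Lp.coeFn_compMeasurePreserving h hp]
      with z e1 e2 e3
    rw [e1, e2, e3]
    rfl
  refine ⟨((ContinuousLinearMap.mul ℂ ℂ).holderL volume ∞ 2 2 hm.toLp).comp
    (Lp.compMeasurePreservingₗᵢ ℂ _ hp).toContinuousLinearMap,
    ContinuousLinearMap.opNorm_le_bound _ zero_le_one fun h => ?_, key⟩
  rw [one_mul, ← Lp.norm_compMeasurePreserving h hp]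
  refine Lp.norm_le_norm_of_ae_le ?_
  filter_upwards [key h, Lp.coeFn_compMeasurePreserving h hp] with z e1 e2
  exact (congrArg norm e1).trans_le (by rw [e2, norm_mul, h1, one_mul]; rfl)

theorem tendsto_shift (g : Lp ℂ 2 (volume : Measure UnitAddCircle)) :
    Tendsto (fun a : UnitAddCircle => ∫ z, ‖g (z + a) - g z‖) (𝓝 0) (𝓝 0) := by
  have hp := fun a => measurePreserving_add_right (volume : Measure UnitAddCircle) a
  have hc : Continuous fun a : UnitAddCircle => (⟨(· + a), by fun_prop⟩ : C(_, _)) :=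
    ContinuousMap.continuous_of_continuous_uncurry _ (continuous_snd.add continuous_fst)
  have h1 := ((continuous_const (y := g)).compMeasurePreservingLp hc hp (by simp)).sub
    (continuous_const (y := g))
  have h2 := h1.norm.tendsto 0
  have h3 : Lp.compMeasurePreserving (fun z : UnitAddCircle => z + 0) (hp 0) g = g := by
    refine Lp.ext ?_
    filter_upwards [Lp.coeFn_compMeasurePreserving g (hp 0)] with z e
    simpa using e
  simp only [ContinuousMap.coe_mk, Pi.sub_apply, h3, sub_self, norm_zero] at h2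
  refine squeeze_zero (fun a => integral_nonneg fun _ => norm_nonneg _) (fun a => ?_) h2
  refine le_trans (integral_congr_ae ?_).le (l1_le _)
  filter_upwards [Lp.coeFn_sub (Lp.compMeasurePreserving _ (hp a) g) g,
    Lp.coeFn_compMeasurePreserving g (hp a)] with z e1 e2
  rw [e1, Pi.sub_apply, e2]
  rfl

namespace Cocycle

variable {γ : ℝ} (c : Cocycle γ)

/-- The exponential sums. -/
noncomputable def PP (s : ℝ) (m : ℕ) (z : UnitAddCircle) : ℂ :=
  ∑ k ∈ Finset.range m, ex s (c.F k z)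

theorem integrable_PP (s : ℝ) (m : ℕ) : Integrable (c.PP s m) :=
  integrable_finsetSum _ fun k _ => c.integrable_ex s k

theorem no_atom {μ : Measure ℝ} (hμ : IsFourierTransform c.eta μ) (s : ℝ)
    (H : Tendsto (fun m : ℕ => (m : ℝ)⁻¹ * ∫ z, ‖c.PP s m z‖) atTop (𝓝 0)) : μ {s} = 0 := by
  have ha := c.α_pos
  have hb := c.β_pos
  have hmean := c.mean_pos
  obtain ⟨-, hμt, hμ⟩ := hμ
  obtain ⟨r, hr⟩ := exists_nat_ge (2 * c.β / c.α)
  rw [div_le_iff₀ ha] at hr
  have hr0 : 0 < r := Nat.pos_of_ne_zero fun h => by rw [h] at hr; simp at hr; linarith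
  obtain ⟨Λ, hΛ⟩ := ContDiff.lipschitzWith_of_hasCompactSupport bump.hasCompactSupport
    (bump.contDiff (n := 1)) one_ne_zero
  have hlim := tendsto_test' μ s hb
  have hces := ((H.comp (tendsto_add_atTop_nat 1)).cesaro).comp
    (f := fun K : ℕ => 2 * (r * (K + 1))) (tendsto_atTop_mono (fun K => by
      simp only [id]; nlinarith) tendsto_id)
  have hzero : Tendsto (fun K : ℕ =>
      ∫ v, (𝓕 bumpS : SchwartzMap ℝ ℂ) (c.β * (K + 1) * (s - v)) ∂μ) atTop (𝓝 0) := by
    have h1 := hces.const_mul (c.mean⁻¹ * (Λ * (4 * r ^ 2 / c.β)))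
    rw [mul_zero] at h1
    refine squeeze_zero_norm (fun K => ?_) h1
    set L : ℝ := c.β * (K + 1) with hLdef
    set R : ℕ := r * (K + 1) with hR
    have hL : 0 < L := by positivity
    simp only [← fourierInv_testH L hL]
    rw [hμ, ← SchwartzMap.fourier_coe, FourierInvPair.fourier_fourierInv_eq]
    obtain ⟨C, -, hC⟩ := schwartz_decay (testH L hL s) 2
    have hcont := (testH L hL s).continuous
    have hz : ∀ (k : ℤ) z, (R : ℤ) ≤ |k| → bump (c.F k z / L) = 0 := by
      intro k z hk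
      have hk' : (r : ℝ) * (K + 1) ≤ |(k : ℝ)| := by exact_mod_cast hk
      apply bump_zero
      rw [abs_div, abs_of_pos hL, le_div_iff₀ hL, hLdef]
      have h1 := (c.abs_bounds k z).1
      have h2 : (0 : ℝ) < K + 1 := by positivity
      nlinarith
    rw [c.integral_eta hcont hC, tsum_eq_sum (s := (Finset.range (2 * R + 1)).image
      fun i : ℕ => (i : ℤ) - R), Finset.sum_image fun i _ j _ h => by simpa using h,
      ← integral_finsetSum _ fun i _ => c.integrable_comp hcont hC _, norm_smul,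
      Real.norm_of_nonneg (by positivity), mul_assoc]
    swap
    · intro k hk
      have : (R : ℤ) ≤ |k| := by
        by_contra hcon
        rw [not_le, abs_lt] at hcon
        exact hk (Finset.mem_image.2 ⟨(k + R).toNat, Finset.mem_range.2 (by omega), by omega⟩)
      simp [testH_apply, hz k _ this]
    gcongr
    set w : UnitAddCircle := (((-R : ℤ) * γ : ℝ) : UnitAddCircle) with hw
    have hpt : ∀ z, ‖∑ i ∈ Finset.range (2 * R + 1), testH L hL s (c.F ((i : ℤ) - R) z)‖ ≤
        ∑ i ∈ Finset.range (2 * R), Λ * (c.β / L ^ 2) * ‖c.PP s (i + 1) (z + w)‖ := by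
      intro z
      have e1 : ∀ i : ℕ, testH L hL s (c.F ((i : ℤ) - R) z) = ex s (c.F (-R) z) *
          (L⁻¹ * bump (c.F ((i : ℤ) - R) z / L)) • ex s (c.F i (z + w)) := fun i => by
        rw [testH_apply, Complex.real_smul, mul_left_comm, ← ex_add, ← c.add, neg_add_eq_sub]
      simp only [e1]
      rw [← Finset.mul_sum, norm_mul, norm_ex, one_mul, Finset.sum_range_by_parts,
        Nat.add_sub_cancel, hz _ z (by rw [abs_of_nonneg] <;> omega), mul_zero, zero_smul, zero_sub,
        norm_neg]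
      refine (norm_sum_le _ _).trans (Finset.sum_le_sum fun i _ => ?_)
      rw [norm_smul]
      refine mul_le_mul_of_nonneg_right ?_ (norm_nonneg _)
      have h1 := hΛ.dist_le_mul (c.F (((i + 1 : ℕ) : ℤ) - R) z / L) (c.F ((i : ℤ) - R) z / L)
      have h2 := (c.abs_bounds 1 (z + ((((i : ℤ) - R : ℤ) * γ : ℝ) : UnitAddCircle))).2
      rw [Real.dist_eq, Real.dist_eq, ← sub_div, c.sub, abs_div, abs_of_pos hL,
        show ((i + 1 : ℕ) : ℤ) - R - ((i : ℤ) - R) = 1 by push_cast; ring] at h1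
      rw [← mul_sub, Real.norm_eq_abs, abs_mul, abs_of_pos (inv_pos.2 hL)]
      simp only [Int.cast_one, abs_one, mul_one] at h2
      calc _ ≤ L⁻¹ * (Λ * (c.β / L)) := by
            gcongr
            exact h1.trans (by gcongr)
        _ = _ := by field_simp
    have hint : ∀ i, Integrable fun z => Λ * (c.β / L ^ 2) * ‖c.PP s (i + 1) (z + w)‖ := fun i =>
      ((c.integrable_PP s (i + 1)).norm.comp_add_right w).const_mul _
    refine (norm_integral_le_of_norm_le (integrable_finsetSum _ fun i _ => hint i)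
      (.of_forall hpt)).trans ?_
    rw [integral_finsetSum _ fun i _ => hint i]
    simp only [integral_const_mul, Function.comp]
    rw [← Finset.mul_sum, mul_assoc, mul_assoc]
    refine mul_le_mul_of_nonneg_left ?_ Λ.2
    have hR0 : (0 : ℝ) < R := by rw [hR]; positivity
    have h3 : ∑ i ∈ Finset.range (2 * R), ∫ z, ‖c.PP s (i + 1) (z + w)‖ ≤ 2 * R *
        ∑ i ∈ Finset.range (2 * R), ((i + 1 : ℕ) : ℝ)⁻¹ * ∫ z, ‖c.PP s (i + 1) z‖ := by
      rw [Finset.mul_sum]
      refine Finset.sum_le_sum fun i hi => ?_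
      rw [integral_add_right_eq_self (fun z => ‖c.PP s (i + 1) z‖) w, ← mul_assoc]
      refine le_mul_of_one_le_left (integral_nonneg fun _ => norm_nonneg _) ?_
      rw [← div_eq_mul_inv, one_le_div (by positivity)]
      exact_mod_cast Finset.mem_range.1 hi
    refine (mul_le_mul_of_nonneg_left h3 (by positivity)).trans (le_of_eq ?_)
    generalize ∑ i ∈ Finset.range (2 * R), ((i + 1 : ℕ) : ℝ)⁻¹ * ∫ z, ‖c.PP s (i + 1) z‖ = X
    have : (R : ℝ) = r * (K + 1) := by rw [hR]; push_cast; ring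
    push_cast
    rw [this, hLdef]
    field_simp
    ring
  have h2 := tendsto_nhds_unique hlim hzero
  have := locallyFinite_of_temperate μ
  rw [smul_eq_zero, or_iff_left fourier_bump_ne, 
    measureReal_eq_zero_iff isCompact_singleton.measure_lt_top.ne] at h2
  exact h2

theorem rigid (hγ : Irrational γ) {μ : Measure ℝ} (hμ : IsFourierTransform c.eta μ) {s : ℝ}
    (hs : μ {s} ≠ 0) {ε : ℝ} (hε : 0 < ε) : ∃ δ > 0, ∀ k : ℕ,
      ‖((k * γ : ℝ) : UnitAddCircle)‖ < δ → ∫ z, ‖ex s (c.F k z) - 1‖ ≤ ε := by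
  obtain ⟨U, hU, hU'⟩ := exists_op (c.measurable_ex s 1) (fun _ => norm_ex _ _) (γ : ℝ)
  have hq := (measurePreserving_add_right (volume : Measure UnitAddCircle)
    (γ : ℝ)).quasiMeasurePreserving
  have hit : ∀ (k : ℕ) h, U^[k] h =ᵐ[volume]
      fun z => ex s (c.F k z) * h (z + ((k * γ : ℝ) : UnitAddCircle)) := by
    intro k h
    induction k with
    | zero => exact .of_forall fun z => by simp [c.F_zero, ex]
    | succ k ih =>
      rw [Function.iterate_succ_apply']
      filter_upwards [hU' (U^[k] h), hq.ae ih] with z e1 e2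
      have e3 := c.add 1 k z
      rw [Int.cast_one, one_mul, add_comm] at e3
      rw [e1, e2, ← mul_assoc, ← ex_add, ← e3, add_assoc, ← AddCircle.coe_add]
      push_cast
      rw [add_one_mul, add_comm γ]
  obtain ⟨o, ho⟩ : ∃ o : Lp ℂ 2 (volume : Measure UnitAddCircle), o =ᵐ[volume] fun _ => 1 :=
    ⟨_, (memLp_const 1).coeFn_toLp⟩
  have hlim := U.tendsto_birkhoffAverage_orthogonalProjection hU o
  obtain ⟨g, hg, hlim⟩ : ∃ g, U g = g ∧
      Tendsto (birkhoffAverage ℂ U id · o) atTop (𝓝 g) := by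
    refine ⟨_, ?_, hlim⟩
    exact LinearMap.mem_eqLocus.1 (Subtype.property _)
  have hg0 : g ≠ 0 := by
    rintro rfl
    refine hs (c.no_atom hμ s (squeeze_zero (fun m => mul_nonneg (by positivity)
      (integral_nonneg fun _ => norm_nonneg _)) (fun m => ?_) (by simpa using hlim.norm)))
    rw [birkhoffAverage, norm_smul, norm_inv, Complex.norm_natCast]
    refine mul_le_mul_of_nonneg_left (le_trans (integral_congr_ae ?_).le (l1_le _)) (by positivity)
    have e1 : ∀ᵐ z, ∀ k : ℕ, U^[k] o z = ex s (c.F k z) := ae_all_iff.2 fun k => by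
      filter_upwards [hit k o, (measurePreserving_add_right volume
        ((k * γ : ℝ) : UnitAddCircle)).quasiMeasurePreserving.ae ho] with z e1 e2
      rw [e1, e2, mul_one]
    filter_upwards [e1, Lp.coeFn_finsetSum (Finset.range m) fun k => U^[k] o] with z e1 e2
    rw [birkhoffSum]
    simp only [id]
    rw [e2, Finset.sum_apply, PP, Finset.sum_congr rfl fun k _ => e1 k]
  have herg : Ergodic fun z : UnitAddCircle => z + (γ : ℝ) := by
    rw [AddCircle.ergodic_add_right, ← AddCircle.denseRange_zsmul_iff,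
      AddCircle.denseRange_zsmul_coe_iff, div_one]
    exact hγ
  obtain ⟨κ, hκ⟩ := herg.ae_eq_const_of_ae_eq_comp_ae (g := fun z => ‖g z‖)
    (Lp.aestronglyMeasurable g).norm (by
      filter_upwards [hU' g] with z e
      rw [hg] at e
      rw [e, norm_mul, norm_ex, one_mul]
      rfl)
  have hκ0 : 0 < κ := by
    by_contra hcon
    refine hg0 (Lp.ext ?_)
    filter_upwards [hκ, Lp.coeFn_zero ℂ 2 (volume : Measure UnitAddCircle)] with z e1 e2
    rw [e2, Pi.zero_apply, ← norm_le_zero_iff, e1]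
    exact not_lt.1 hcon
  obtain ⟨δ, hδ, hδ'⟩ := Metric.tendsto_nhds_nhds.1 (tendsto_shift g) (κ * ε) (by positivity)
  refine ⟨δ, hδ, fun k hk => ?_⟩
  have h2 := hδ' (x := ((k * γ : ℝ) : UnitAddCircle)) (by simpa using hk)
  rw [Real.dist_eq, sub_zero] at h2
  refine le_of_mul_le_mul_left ?_ hκ0
  rw [← integral_const_mul]
  refine le_trans (integral_congr_ae ?_).le ((le_abs_self _).trans h2.le)
  filter_upwards [hit k g, (measurePreserving_add_right volume
    ((k * γ : ℝ) : UnitAddCircle)).quasiMeasurePreserving.ae hκ] with z e1 e2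
  rw [Function.iterate_fixed hg] at e1
  rw [e1, norm_sub_rev (g _), ← sub_one_mul, norm_mul, mul_comm]
  exact congrArg _ e2.symm

end Cocycle

theorem integral_bt (t : ℝ) : ∫ z, (bt t z : ℝ) = t := by
  let fr : UnitAddCircle → ℝ := (Int.fract_periodic ℝ).lift
  have hm : Measurable fr := QuotientAddGroup.measurable_from_quotient.mpr measurable_fract
  have hi : Integrable fr := Integrable.of_bound hm.aestronglyMeasurable 1 (.of_forall fun z => by
    obtain ⟨y, rfl⟩ := QuotientAddGroup.mk_surjective z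
    exact (abs_of_nonneg (Int.fract_nonneg y)).trans_le (Int.fract_lt_one y).le)
  have e : ∀ z, (bt t z : ℝ) = t + (fr (z - (t : UnitAddCircle)) - fr z) := fun z => by
    obtain ⟨y, rfl⟩ := QuotientAddGroup.mk_surjective z
    rw [← AddCircle.coe_sub, bt_coe]
    change _ = t + (Int.fract (y - t) - Int.fract y)
    unfold Int.fract
    push_cast
    ring
  simp only [e]
  rw [integral_add (g := fun z => fr (z - (t : UnitAddCircle)) - fr z) (integrable_const _)
    ((hi.comp_sub_right _).sub hi), integral_sub (hi.comp_sub_right _) hi,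
    integral_sub_right_eq_self]
  simp

theorem bt_cases {h : ℝ} (h0 : 0 ≤ h) (h1 : h ≤ 1) (z : UnitAddCircle) :
    bt h z = 0 ∨ bt h z = 1 := by
  obtain ⟨y, rfl⟩ := QuotientAddGroup.mk_surjective z
  rw [bt_eq_ite h0 h1]
  split_ifs <;> simp

theorem bt_close {h : ℝ} (h0 : 0 ≤ h) (h1 : h ≤ 1) {z w : UnitAddCircle} (hz : bt h z ≠ 0)
    (hw : bt h w ≠ 0) : ‖z - w‖ < h := by
  obtain ⟨y, rfl⟩ := QuotientAddGroup.mk_surjective z
  obtain ⟨x, rfl⟩ := QuotientAddGroup.mk_surjective w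
  simp only [bt_eq_ite h0 h1, ne_eq, ite_eq_right_iff, one_ne_zero, imp_false, not_not] at hz hw
  rw [← AddCircle.coe_sub]
  refine (norm_coe_le _ (⌊y⌋ - ⌊x⌋)).trans_lt ?_
  have := Int.fract_nonneg x
  have := Int.fract_nonneg y
  unfold Int.fract at *
  push_cast
  rw [abs_lt]
  constructor <;> linarith

theorem Mn_nat (γ t : ℝ) (q : ℕ) (z : UnitAddCircle) :
    Mn γ t q z = ∑ j ∈ Finset.range q, bt t (z + ((j * γ : ℝ) : UnitAddCircle)) := by
  induction q with
  | zero => simp [Mn_zero]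
  | succ q ih => rw [Nat.cast_succ, Mn_succ, ih, Finset.sum_range_succ, Int.cast_natCast]

theorem jump {γ D σ h : ℝ} {A : ℂ} (hA : ‖A‖ = 1) (q : ℕ) (h0 : 0 ≤ h) (h1 : h ≤ 1)
    (sep : ∀ k : ℤ, k ≠ 0 → |k| < q → h ≤ ‖((k * γ : ℝ) : UnitAddCircle)‖)
    (far : ∀ k : ℤ, |k| < q → h ≤ ‖((D - k * γ : ℝ) : UnitAddCircle)‖) :
    ‖ex σ 1 - 1‖ * (q * h) ≤ 2 * ∫ z, ‖A * ex σ (Mn γ D q z) - 1‖ := by
  have hb : ∀ w : UnitAddCircle, Integrable fun z => (bt h (z + w) : ℝ) := fun w =>
    Integrable.of_bound ((measurable_of_countable (Int.cast : ℤ → ℝ)).comp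
      ((measurable_bt h).comp (measurable_add_const w))).aestronglyMeasurable 1
      (.of_forall fun z => by rcases bt_cases h0 h1 (z + w) with e | e <;> simp [e])
  have hi : Integrable fun z => ‖A * ex σ (Mn γ D q z) - 1‖ :=
    Integrable.of_bound ((measurable_of_countable fun m : ℤ => ‖A * ex σ m - 1‖).comp
      (measurable_Mn γ D q)).aestronglyMeasurable 2 (.of_forall fun z => by
        rw [norm_norm]
        refine (norm_sub_le _ _).trans ?_
        rw [norm_mul, hA, norm_ex, norm_one]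
        norm_num)
  have e1 : ∫ z, ‖ex σ 1 - 1‖ * (Mn γ h q z : ℝ) = ‖ex σ 1 - 1‖ * (q * h) := by
    simp only [Mn_nat, Int.cast_sum]
    rw [integral_const_mul, integral_finsetSum _ fun j _ => hb _]
    simp only [integral_add_right_eq_self fun z => (bt h z : ℝ), integral_bt]
    simp
  have e0 := integral_add hi (hi.comp_sub_right (h : UnitAddCircle))
  rw [integral_sub_right_eq_self (fun z => ‖A * ex σ (Mn γ D q z) - 1‖), ← two_mul] at e0
  rw [← e1, ← e0]
  refine integral_mono ?_ (hi.add (hi.comp_sub_right _)) fun w => ?_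
  · simp only [Mn_nat, Int.cast_sum]
    exact (integrable_finsetSum _ fun j _ => hb _).const_mul _
  by_cases hj : ∃ j ∈ Finset.range q, bt h (w + ((j * γ : ℝ) : UnitAddCircle)) ≠ 0
  swap
  · push Not at hj
    simp only [Mn_nat γ h, Finset.sum_eq_zero hj, Int.cast_zero, mul_zero]
    positivity
  obtain ⟨j, hj, hj'⟩ := hj
  have hlt : ∀ i ∈ Finset.range q, |(i : ℤ) - j| < q := fun i hi => by
    rw [Finset.mem_range] at hi hj
    rw [abs_lt]
    omega
  have e2 : Mn γ h q w = 1 := by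
    rw [Mn_nat, Finset.sum_eq_single_of_mem j hj fun i hi hij => ?_]
    · exact (bt_cases h0 h1 _).resolve_left hj'
    · by_contra hcon
      have := bt_close h0 h1 hcon hj'
      rw [add_sub_add_left_eq_sub, ← AddCircle.coe_sub, ← sub_mul] at this
      exact this.not_ge (by exact_mod_cast sep _ (by omega) (hlt i hi))
  have e3 : Mn γ h q (w - (D : UnitAddCircle)) = 0 := by
    rw [Mn_nat]
    refine Finset.sum_eq_zero fun i hi => ?_
    by_contra hcon
    have := bt_close h0 h1 hj' hcon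
    rw [show w + ((j * γ : ℝ) : UnitAddCircle) - (w - (D : UnitAddCircle) + (i * γ : ℝ)) =
      ((D - (i - j) * γ : ℝ) : UnitAddCircle) by
        rw [sub_mul, AddCircle.coe_sub, AddCircle.coe_sub]; abel] at this
    exact this.not_ge (by exact_mod_cast far _ (hlt i hi))
  have e4 := Mn_add_arc γ h D q w
  rw [add_comm h, Mn_add_arc, e2, e3, add_zero] at e4
  simp only
  rw [e2, e4, Int.cast_add, Int.cast_one, ex_add, mul_one]
  refine le_trans (le_of_eq ?_) (norm_sub_le _ _)
  rw [sub_sub_sub_cancel_right, ← mul_sub, ← sub_one_mul, norm_mul, norm_mul, hA, norm_ex,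
    one_mul, mul_one]

theorem ex_eq_one {a : ℝ} (h : ex a 1 = 1) : ∃ n : ℤ, a = n := by
  obtain ⟨n, hn⟩ := Complex.exp_eq_one_iff.1 h
  have := congrArg Complex.im hn
  simp at this
  exact ⟨-n, by push_cast; nlinarith [Real.pi_pos]⟩

theorem ex_int (n m : ℤ) : ex n m = 1 :=
  Complex.exp_eq_one_iff.2 ⟨-(n * m), by push_cast; ring⟩

/-- The diffraction measure has an atom away from the origin. -/
def Peak (Λ : Set ℝ) : Prop :=
  ∃ η μ : Measure ℝ, IsAutocorrelation Λ η ∧ IsFourierTransform η μ ∧ ∃ s, s ≠ 0 ∧ μ {s} ≠ 0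

theorem DiffractionCondition.peak {Λ : Set ℝ} (h : DiffractionCondition Λ) : Peak Λ := by
  obtain ⟨η, μ, h1, h2⟩ := h.1
  obtain ⟨s, hs, hs0⟩ := (h.2 η μ h1 h2).2.exists_notMem_finset {0}
  exact ⟨η, μ, h1, h2, s, by simpa using hs0, hs⟩

/-- An atom away from the origin forces the arc to be close to a small multiple of `γ`. -/
theorem near {γ D : ℝ} (hγ : Irrational γ) (hD : D ∈ Set.Ioo (0 : ℝ) 1) (hD' : Irrational D)
    {x₀ : ℝ} (h : Peak (circleSeq D γ x₀)) {ε : ℝ} (h0 : 0 < ε) (h1 : ε ≤ 1) :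
    ∃ δ > 0, ∀ q : ℕ, 0 < q → ‖((q * γ : ℝ) : UnitAddCircle)‖ < δ →
      (∀ k : ℤ, k ≠ 0 → |k| < q → ε / q ≤ ‖((k * γ : ℝ) : UnitAddCircle)‖) →
      ∃ k : ℤ, |k| < q ∧ ‖((D - k * γ : ℝ) : UnitAddCircle)‖ < ε / q := by
  rw [circleSeq_eq γ hD] at h
  obtain ⟨η, μ, hη, hμ, s, hs0, hs⟩ := h
  have hη' := (stair γ hD).isAutocorrelation hγ (x₀ : UnitAddCircle)
  obtain rfl : η = (stair γ hD).eta := by
    have := hη.1
    have := hη'.1
    exact Measure.ext_of_integral_eq_on_compactlySupported fun f => tendsto_nhds_unique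
      (hη.2 f f.continuous f.hasCompactSupport) (hη'.2 f f.continuous f.hasCompactSupport)
  have hN := sqrt_pos D
  obtain ⟨u, rfl⟩ : ∃ u, s = u * √((1 - D) ^ 2 + D ^ 2) := ⟨_, (div_mul_cancel₀ s hN.ne').symm⟩
  have hu : u ≠ 0 := fun e => by simp [e] at hs0
  have e1 : ∀ k z, ex (u * √((1 - D) ^ 2 + D ^ 2)) ((stair γ hD).F k z) =
      ex (u * (1 - D)) k * ex (u * (2 * D - 1)) (Mn γ D k z) := fun k z => by
    unfold ex
    rw [← Complex.exp_add, ← add_mul, ← Complex.ofReal_add]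
    congr 3
    simp only [stair]
    push_cast
    field_simp
    ring
  have hκ : 0 < ‖ex (u * (2 * D - 1)) 1 - 1‖ := by
    rw [norm_pos_iff, sub_ne_zero]
    intro e
    obtain ⟨n, hn⟩ := ex_eq_one e
    have e2 : ex (u * (1 - D)) 1 ≠ 1 := fun e => by
      obtain ⟨m, hm⟩ := ex_eq_one e
      have e3 : u = (2 * m + n : ℤ) := by push_cast; linarith
      refine hD' ⟨1 - (m : ℚ) / (2 * m + n : ℤ), ?_⟩
      rw [Rat.cast_sub, Rat.cast_div, Rat.cast_intCast, Rat.cast_intCast, ← e3, ← hm]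
      field_simp
      simp
    refine hs ((stair γ hD).no_atom hμ _ (squeeze_zero (fun m => mul_nonneg (by positivity)
      (integral_nonneg fun _ => norm_nonneg _)) (fun m => ?_) (by
        simpa using (tendsto_inv_atTop_nhds_zero_nat (𝕜 := ℝ)).mul_const
          (2 / ‖ex (u * (1 - D)) 1 - 1‖))))
    have e3 : ∀ k : ℕ, ex (u * (1 - D)) (k : ℤ) = ex (u * (1 - D)) 1 ^ k := fun k => by
      unfold ex
      rw [← Complex.exp_nat_mul]
      congr 1
      push_cast
      ring
    simp only [Cocycle.PP, e1, hn, ex_int, mul_one, e3, geom_sum_eq e2, integral_const,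
      probReal_univ, one_smul, norm_div]
    gcongr
    refine (norm_sub_le _ _).trans ?_
    rw [norm_pow, norm_ex, norm_one]
    norm_num
  obtain ⟨δ, hδ, H⟩ := (stair γ hD).rigid hγ hμ hs (ε := ‖ex (u * (2 * D - 1)) 1 - 1‖ * ε / 4)
    (by positivity)
  refine ⟨δ, hδ, fun q hq h2 sep => ?_⟩
  by_contra hcon
  push Not at hcon
  have hq' : (1 : ℝ) ≤ q := by exact_mod_cast hq
  have h3 := jump (σ := u * (2 * D - 1)) (norm_ex (u * (1 - D)) (q : ℤ)) q (by positivity)
    (div_le_one_of_le₀ (h1.trans hq') (by positivity)) sep hcon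
  have h4 := H q h2
  simp only [e1] at h4
  rw [mul_div_cancel₀ _ (by positivity)] at h3
  nlinarith

theorem kesten_of_bad {γ D c : ℝ} (hγ : Irrational γ) (hc : 0 < c)
    (hb : ∀ (q : ℕ) (p : ℤ), 0 < q → c / q ≤ |q * γ - p|) (hD : D ∈ Set.Ioo (0 : ℝ) 1)
    (hD' : Irrational D) {x₀ : ℝ} (h : Peak (circleSeq D γ x₀)) :
    ∃ j k : ℤ, D = j * γ + k := by
  have hb' : ∀ k : ℤ, k ≠ 0 → c / |(k : ℝ)| ≤ ‖((k * γ : ℝ) : UnitAddCircle)‖ := fun k hk => by
    obtain ⟨q, rfl | rfl⟩ := Int.eq_nat_or_neg k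
    · rw [UnitAddCircle.norm_eq, Int.cast_natCast, Nat.abs_cast]
      exact hb q _ (by omega)
    · rw [Int.cast_neg, neg_mul, AddCircle.coe_neg, norm_neg, abs_neg, UnitAddCircle.norm_eq,
        Int.cast_natCast, Nat.abs_cast]
      exact hb q _ (by omega)
  have hc1 : c ≤ 1 := by
    have := (hb' 1 one_ne_zero).trans (AddCircle.norm_le_half_period 1 one_ne_zero)
    simp at this
    linarith
  obtain ⟨δ, hδ, H⟩ := near hγ hD hD' h (ε := c ^ 2 / 8) (by positivity) (by nlinarith)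
  obtain ⟨n₀, hn₀⟩ := exists_nat_one_div_lt hδ
  have key : ∀ n : ℕ, ∃ k : ℤ, |k| ≤ n₀ + n + 1 ∧
      ‖((D - k * γ : ℝ) : UnitAddCircle)‖ < c / (8 * (n₀ + n + 2)) := fun n => by
    obtain ⟨p, q, h1, h2, h3⟩ := Real.exists_int_int_abs_mul_sub_le γ (n := n₀ + n + 1) (by omega)
    lift q to ℕ using h1.le
    have hq : 0 < q := by exact_mod_cast h1
    have hq' : (0 : ℝ) < q := by exact_mod_cast h1
    push_cast at h2 h3
    obtain ⟨k, h4, h5⟩ := H q hq ((norm_coe_le _ p).trans_lt (h3.trans_lt (lt_of_le_of_lt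
      (by gcongr; linarith [(n.cast_nonneg : (0 : ℝ) ≤ n)]) hn₀))) fun k h4 h5 => by
        refine le_trans ?_ (hb' k h4)
        have : (0 : ℝ) < |(k : ℝ)| := by positivity
        gcongr
        · nlinarith
        · exact_mod_cast h5.le
    refine ⟨k, by omega, h5.trans_le ?_⟩
    have h6 := (hb q p hq).trans h3
    rw [div_le_div_iff₀ hq' (by positivity)] at h6 ⊢
    nlinarith
  choose k hk hk' using key
  have h1 : ∀ n, k (n + 1) = k n := fun n => by
    by_contra hcon
    have h2 := hb' _ (sub_ne_zero.2 hcon)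
    have h3 : |((k (n + 1) - k n : ℤ) : ℝ)| ≤ 2 * (n₀ + n + 2) := by
      have := (abs_sub _ _).trans (add_le_add (hk (n + 1)) (hk n))
      exact_mod_cast this.trans (by push_cast; omega)
    have h4 := norm_sub_le ((D - k n * γ : ℝ) : UnitAddCircle) (D - k (n + 1) * γ : ℝ)
    rw [← AddCircle.coe_sub, sub_sub_sub_cancel_left, ← sub_mul, ← Int.cast_sub] at h4
    have h5 : c / (2 * (n₀ + n + 2)) ≤ c / |((k (n + 1) - k n : ℤ) : ℝ)| := by
      have := sub_ne_zero.2 hcon
      gcongr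
    have h6 : c / (8 * (n₀ + (n + 1 : ℕ) + 2)) ≤ c / (8 * (n₀ + n + 2)) := by gcongr; omega
    have h7 : c / (2 * (n₀ + n + 2)) = 4 * (c / (8 * (n₀ + n + 2))) := by field_simp; norm_num
    have h8 : 0 < c / (8 * (n₀ + n + 2)) := by positivity
    linarith [hk' n, hk' (n + 1)]
  have h2 : ((D - k 0 * γ : ℝ) : UnitAddCircle) = 0 := by
    by_contra hcon
    obtain ⟨n, hn⟩ := exists_nat_one_div_lt (norm_pos_iff.2 hcon)
    have h3 := hk' n
    rw [show k n = k 0 from Nat.rec rfl (fun n ih => (h1 n).trans ih) n] at h3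
    refine (hn.trans h3).not_ge ?_
    gcongr
    linarith [(n.cast_nonneg : (0 : ℝ) ≤ n), (n₀.cast_nonneg : (0 : ℝ) ≤ n₀)]
  obtain ⟨l, hl⟩ := (AddCircle.coe_eq_zero_iff _).1 h2
  exact ⟨k 0, l, by rw [zsmul_eq_mul, mul_one] at hl; linarith⟩

end Pool.Agent.P.MP_23b0f8_an
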