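import Mathlib
import Pool.Agent.P.MP_23b0f8_an.PR1
import Pool.Agent.P.MP_23b0f8_an.Rigid

/-! A formula for the atoms of the diffraction measure, and their stability. -/

open Filter Topology MeasureTheory
open scoped ENNReal NNReal FourierTransform Real

namespace Pool.Agent.P.MP_23b0f8_an

attribute [local instance] probCircle

theorem pr_ex_sub (s a t b : ℝ) :
    ‖ex s a - ex t b‖ ≤ 7 * ‖((s * a - t * b : ℝ) : UnitAddCircle)‖ := by
  rw [UnitAddCircle.norm_eq]
  set n := round (s * a - t * b) with hn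
  have h1 : ex s a - ex t b =
      ex t b * (Complex.exp (Complex.I * (-(2 * π) * (s * a - t * b - n) : ℝ)) - 1) := by
    rw [mul_sub, mul_one, ex, ex, ← Complex.exp_add]
    congr 1
    rw [Complex.exp_eq_exp_iff_exists_int]
    refine ⟨-n, ?_⟩
    push_cast
    ring
  rw [h1, norm_mul, norm_ex, one_mul]
  refine Real.norm_exp_I_mul_ofReal_sub_one_le.trans ?_
  rw [Real.norm_eq_abs, abs_mul, abs_neg, abs_of_pos (by positivity : 0 < 2 * π)]
  gcongr
  linarith [Real.pi_lt_d2]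

namespace Cocycle

variable {γ : ℝ} (c : Cocycle γ)

theorem pr_unif (hγ : Irrational γ) {ε : ℝ} (hε : 0 < ε) :
    ∃ A : ℝ, 0 ≤ A ∧ ∀ (k : ℤ) z, |c.F k z - k * c.mean| ≤ ε * |(k : ℝ)| + A := by
  have hmean := c.mean_pos
  have hb := c.β_pos
  have h1 := equi hγ (l := (atTop : Filter ℕ) ×ˢ (⊤ : Filter UnitAddCircle)) (fun p => p.2)
    (fun p => p.1) tendsto_fst (c.meas 1) (C := c.β)
    (fun z => by simpa using (c.abs_bounds 1 z).2) (c.cont 1)
  obtain ⟨K₀, hK₀⟩ := eventually_atTop.mp (Metric.tendsto_nhds.mp h1 ε hε).curry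
  have h2 : ∀ (K : ℕ) z, |c.F K z - K * c.mean| ≤ ε * K + (c.β + c.mean) * (K₀ + 1) := by
    intro K z
    by_cases hK : K₀ + 1 ≤ K
    · have h3 := eventually_top.mp (hK₀ K (by omega)) z
      have hK' : (0 : ℝ) < K := by exact_mod_cast (by omega : 0 < K)
      rw [← c.F_nat_eq_sum, Real.dist_eq] at h3
      have h4 : c.F K z - K * c.mean = K * ((K : ℝ)⁻¹ * c.F K z - ∫ z, c.F 1 z) := by
        unfold mean
        field_simp
      rw [h4, abs_mul, abs_of_pos hK', mul_comm]
      refine le_add_of_le_of_nonneg (by gcongr) (by positivity)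
    · have hK' : (K : ℝ) ≤ K₀ + 1 := by exact_mod_cast (by omega : K ≤ K₀ + 1)
      have h3 := (c.abs_bounds K z).2
      rw [Int.cast_natCast, Nat.abs_cast] at h3
      refine le_add_of_nonneg_of_le (by positivity) ((abs_sub _ _).trans ?_)
      rw [abs_of_nonneg (by positivity : (0 : ℝ) ≤ K * c.mean)]
      nlinarith
  refine ⟨(c.β + c.mean) * (K₀ + 1), by positivity, fun k z => ?_⟩
  obtain ⟨K, rfl | rfl⟩ := Int.eq_nat_or_neg k
  · simpa using h2 K z
  · have h3 := c.add (-K) K z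
    rw [neg_add_cancel, c.F_zero] at h3
    have h4 := h2 K (z + (((-K : ℤ) * γ : ℝ) : UnitAddCircle))
    rw [eq_neg_of_add_eq_zero_left h3.symm, ← abs_neg]
    push_cast at h4 ⊢
    rw [abs_neg (K : ℝ), Nat.abs_cast]
    convert h4 using 2
    ring

theorem pr_atom (hγ : Irrational γ) {μ : Measure ℝ} (hμ : IsFourierTransform c.eta μ) (s : ℝ) :
    Tendsto (fun K : ℕ => ((K : ℝ) + 1)⁻¹ • ∑ k ∈ Finset.Icc (-(2 * (K + 1)) : ℤ) (2 * (K + 1)),
      bump (k / (K + 1)) • ∫ z, ex s (c.F k z)) atTop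
      (𝓝 ((c.mean ^ 2 * μ.real {s}) • (𝓕 bumpS : SchwartzMap ℝ ℂ) 0)) := by
  have ha := c.α_pos
  have hmean := c.mean_pos
  obtain ⟨-, hμt, hμ⟩ := hμ
  obtain ⟨r, hr⟩ := exists_nat_ge (2 * c.mean / c.α)
  rw [div_le_iff₀ ha] at hr
  have hr2 : (2 : ℝ) ≤ r := by
    by_contra h
    nlinarith [c.α_le_mean]
  have hr2' : (2 : ℤ) ≤ r := by exact_mod_cast hr2
  obtain ⟨Λ, hΛ⟩ := ContDiff.lipschitzWith_of_hasCompactSupport bump.hasCompactSupport
    (bump.contDiff (n := 1)) one_ne_zero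
  have hlim := (tendsto_test' μ s hmean).const_smul (c.mean ^ 2)
  rw [smul_smul] at hlim
  refine hlim.congr_dist (Metric.tendsto_nhds.mpr fun ε' hε' => ?_)
  set Cst : ℝ := (2 * r + 1) * (Λ * ((r + 1) / c.mean)) with hCst
  have hC0 : 0 ≤ Cst := by positivity
  set ε := ε' / (Cst + 1) with hε
  have hε0 : 0 < ε := by positivity
  obtain ⟨A, hA0, hA⟩ := c.pr_unif hγ hε0
  filter_upwards [(tendsto_natCast_atTop_atTop (R := ℝ)).eventually_ge_atTop (A / ε)] with K hK
  rw [div_le_iff₀ hε0] at hK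
  set L : ℝ := c.mean * (K + 1) with hLdef
  set R : ℤ := r * (K + 1) with hR
  have hK0 : (0 : ℝ) < K + 1 := by positivity
  have hL : 0 < L := by positivity
  have hR' : (R : ℝ) = r * (K + 1) := by rw [hR]; push_cast; ring
  simp only [← fourierInv_testH L hL]
  rw [hμ, ← SchwartzMap.fourier_coe, FourierInvPair.fourier_fourierInv_eq]
  obtain ⟨C, -, hC⟩ := schwartz_decay (testH L hL s) 2
  have hcont := (testH L hL s).continuous
  have hz : ∀ k ∉ Finset.Icc (-R) R, ∀ z, bump (c.F k z / L) = 0 := by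
    intro k hk z
    have hk1 : R ≤ |k| := by
      rw [Finset.mem_Icc, ← abs_le] at hk
      exact (not_le.mp hk).le
    have hk' : (r : ℝ) * (K + 1) ≤ |(k : ℝ)| := by rw [← hR']; exact_mod_cast hk1
    apply bump_zero
    rw [abs_div, abs_of_pos hL, le_div_iff₀ hL, hLdef]
    have h1 := (c.abs_bounds k z).1
    nlinarith
  have e1 : ∀ k : ℤ, ∫ z, testH L hL s (c.F k z) =
      L⁻¹ • ∫ z, bump (c.F k z / L) • ex s (c.F k z) := fun k => by
    simp only [testH_apply, ← Complex.real_smul, mul_smul, integral_smul]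
  rw [c.integral_eta hcont hC, tsum_eq_sum (s := Finset.Icc (-R) R) fun k hk => by
    simp [testH_apply, hz k hk]]
  rw [Finset.sum_subset (s₁ := Finset.Icc (-(2 * (K + 1)) : ℤ) (2 * (K + 1)))
    (s₂ := Finset.Icc (-R) R) (Finset.Icc_subset_Icc (by nlinarith) (by nlinarith))
    fun k _ hk => by
      rw [Finset.mem_Icc, ← abs_le, not_le] at hk
      have hk' : 2 * ((K : ℝ) + 1) ≤ |(k : ℝ)| := by exact_mod_cast hk.le
      rw [bump_zero (by rwa [abs_div, abs_of_pos hK0, le_div_iff₀ hK0]), zero_smul]]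
  simp only [e1]
  rw [← Finset.smul_sum, smul_smul, smul_smul,
    show c.mean ^ 2 * c.mean⁻¹ * L⁻¹ = ((K : ℝ) + 1)⁻¹ by rw [hLdef]; field_simp,
    Real.dist_eq, sub_zero, abs_of_nonneg dist_nonneg, dist_eq_norm, ← smul_sub,
    ← Finset.sum_sub_distrib, norm_smul, Real.norm_of_nonneg (by positivity)]
  have e2 : ∀ k ∈ Finset.Icc (-R) R, ‖(∫ z, bump (c.F k z / L) • ex s (c.F k z)) -
      bump (k / (K + 1)) • ∫ z, ex s (c.F k z)‖ ≤ Λ * ((r + 1) / c.mean) * ε := by
    intro k hk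
    have hk' : |(k : ℝ)| ≤ r * (K + 1) := by
      rw [← hR']
      exact_mod_cast abs_le.mpr (Finset.mem_Icc.mp hk)
    have hi : Integrable fun z => bump (c.F k z / L) • ex s (c.F k z) :=
      Integrable.of_bound (((bump.continuous.measurable.comp ((c.meas k).div_const L)).smul
        (c.measurable_ex s k)).aestronglyMeasurable) 1 (.of_forall fun z => by
          rw [norm_smul, norm_ex, mul_one, Real.norm_of_nonneg bump.nonneg]
          exact bump.le_one)
    have hi2 : Integrable fun z => bump (k / (K + 1)) • ex s (c.F k z) := by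
      generalize bump ((k : ℝ) / (K + 1)) = x
      exact (c.integrable_ex s k).smul x
    rw [← integral_smul, ← integral_sub hi hi2]
    refine (norm_integral_le_of_norm_le_const (C := Λ * ((r + 1) / c.mean) * ε)
      (.of_forall fun z => ?_)).trans (by simp)
    rw [← sub_smul, norm_smul, norm_ex, mul_one, ← dist_eq_norm, mul_assoc]
    refine (hΛ.dist_le_mul _ _).trans ?_
    gcongr
    have h3 : c.F k z / L - k / (K + 1) = (c.F k z - k * c.mean) / L := by
      rw [hLdef]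
      field_simp
    rw [Real.dist_eq, h3, abs_div, abs_of_pos hL, div_le_iff₀ hL]
    refine (hA k z).trans ?_
    have h4 : (r + 1) / c.mean * ε * L = ε * (r * (K + 1)) + (K + 1) * ε := by
      rw [hLdef]
      field_simp
    rw [h4]
    gcongr
    linarith
  have e3 := (norm_sum_le _ _).trans (Finset.sum_le_card_nsmul _ _ _ e2)
  have e4 : ((Finset.Icc (-R) R).card : ℝ) ≤ (2 * r + 1) * (K + 1) := by
    have h5 : (((Finset.Icc (-R) R).card : ℤ) : ℝ) = ((R + 1 - -R : ℤ) : ℝ) := by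
      rw [Int.card_Icc_of_le _ _ (by nlinarith)]
    push_cast at h5
    rw [h5, hR']
    linarith [(Nat.cast_nonneg K : (0 : ℝ) ≤ K)]
  rw [nsmul_eq_mul] at e3
  calc _ ≤ ((K : ℝ) + 1)⁻¹ * ((2 * r + 1) * (K + 1) * (Λ * ((r + 1) / c.mean) * ε)) := by
        gcongr
        exact e3.trans (by gcongr)
    _ = Cst * ε := by rw [hCst]; field_simp
    _ < (Cst + 1) * ε := by gcongr; linarith
    _ = ε' := by rw [hε]; field_simp

end Cocycle

theorem pr_cmp : ∃ C₀ : ℝ, ∀ {γ : ℝ}, Irrational γ → ∀ (c c₀ : Cocycle γ) {μ μ₀ : Measure ℝ},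
    IsFourierTransform c.eta μ → IsFourierTransform c₀.eta μ₀ → ∀ {s s₀ τ : ℝ}, 0 ≤ τ →
    (∀ k : ℤ, volume.real
      {z | τ < ‖((s * c.F k z - s₀ * c₀.F k z : ℝ) : UnitAddCircle)‖} ≤ τ) →
    c₀.mean ^ 2 * μ₀.real {s₀} - C₀ * τ ≤ c.mean ^ 2 * μ.real {s} := by
  have hβ := norm_pos_iff.mpr fourier_bump_ne
  refine ⟨45 / ‖(𝓕 bumpS : SchwartzMap ℝ ℂ) 0‖, fun hγ c c₀ μ μ₀ hμ hμ₀ s s₀ τ hτ H => ?_⟩
  have h1 := ((c₀.pr_atom hγ hμ₀ s₀).sub (c.pr_atom hγ hμ s)).norm
  have h2 : ∀ k : ℤ, ‖(∫ z, ex s₀ (c₀.F k z)) - ∫ z, ex s (c.F k z)‖ ≤ 9 * τ := by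
    intro k
    set Bad := {z | τ < ‖((s * c.F k z - s₀ * c₀.F k z : ℝ) : UnitAddCircle)‖} with hBad
    have hBm : MeasurableSet Bad := by
      refine measurableSet_lt measurable_const ?_
      have h3 : Continuous fun x : ℝ => ‖(x : UnitAddCircle)‖ := by fun_prop
      exact h3.measurable.comp (((c.meas k).const_mul s).sub ((c₀.meas k).const_mul s₀))
    rw [norm_sub_rev, ← integral_sub (c.integrable_ex s k) (c₀.integrable_ex s₀ k)]
    refine (norm_integral_le_of_norm_le (g := fun z => 7 * τ + Bad.indicator (fun _ => 2) z)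
      ((integrable_const _).add ((integrable_const _).indicator hBm))
      (.of_forall fun z => ?_)).trans ?_
    · by_cases hz : z ∈ Bad
      · rw [Set.indicator_of_mem hz]
        refine (norm_sub_le _ _).trans ?_
        rw [norm_ex, norm_ex]
        linarith
      · rw [Set.indicator_of_notMem hz, add_zero]
        refine (pr_ex_sub _ _ _ _).trans ?_
        gcongr
        exact not_lt.mp hz
    · rw [integral_add (integrable_const _) ((integrable_const _).indicator hBm),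
        integral_indicator_const _ hBm, integral_const, probReal_univ, one_smul, smul_eq_mul]
      linarith [H k]
  have h3 := le_of_tendsto' h1 (b := 45 * τ) fun K => by
    have hK0 : (0 : ℝ) < K + 1 := by positivity
    rw [← smul_sub, ← Finset.sum_sub_distrib, norm_smul, Real.norm_of_nonneg (by positivity),
      inv_mul_le_iff₀ hK0]
    refine (norm_sum_le _ _).trans ((Finset.sum_le_card_nsmul _ _ (9 * τ) fun k _ => ?_).trans ?_)
    · rw [← smul_sub, norm_smul, Real.norm_of_nonneg bump.nonneg]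
      exact (mul_le_of_le_one_left (norm_nonneg _) bump.le_one).trans (h2 k)
    · have h5 : (((Finset.Icc (-(2 * (K + 1)) : ℤ) (2 * (K + 1))).card : ℤ) : ℝ) =
          ((2 * (K + 1) + 1 - -(2 * (K + 1)) : ℤ) : ℝ) := by
        rw [Int.card_Icc_of_le _ _ (by omega)]
      push_cast at h5
      rw [nsmul_eq_mul, h5]
      nlinarith [(Nat.cast_nonneg K : (0 : ℝ) ≤ K)]
  rw [← sub_smul, norm_smul, ← le_div_iff₀ hβ] at h3
  have h4 := (le_abs_self _).trans h3
  rw [div_mul_eq_mul_div]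
  linarith

end Pool.Agent.P.MP_23b0f8_an
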