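import Mathlib
import Pool.Agent.P.MP_23b0f8_an.Seqs
import Pool.Agent.P.MP_23b0f8_an.Rigid

/-!
Arcs with infinitely many Bragg peaks for a rotation number that is not badly approximable.
-/

open Filter Topology MeasureTheory
open scoped ENNReal Real

namespace Pool.Agent.P.MP_23b0f8_an

attribute [local instance] probCircle

theorem sum_ediv {q : ℕ} {p : ℤ} (hq : 0 < q) (cop : IsCoprime (q : ℤ) p) (m m' : ℤ) :
    ∑ i ∈ Finset.range q, (m - (i + 1) * p) / q - ∑ i ∈ Finset.range q, (m' - (i + 1) * p) / q =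
      m - m' := by
  have hq' : (0 : ℤ) < q := by exact_mod_cast hq
  have key : ∀ m : ℤ, ∑ i ∈ Finset.range q, (m - (i + 1) * p) % q = ∑ x ∈ Finset.Ico (0 : ℤ) q, x :=
    fun m => by
    have inj : Set.InjOn (fun i : ℕ => (m - (i + 1) * p) % q) (Finset.range q) := fun i hi j hj e => by
      have h1 : (q : ℤ) ∣ (i - j) * p := by
        have := Int.ModEq.dvd e
        convert this using 1
        ring
      have h2 := Int.eq_zero_of_abs_lt_dvd (cop.dvd_of_dvd_mul_right h1) (by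
        simp only [Finset.coe_range, Set.mem_Iio] at hi hj
        rw [abs_lt]
        omega)
      omega
    rw [← Finset.sum_image (f := fun x : ℤ => x) inj]
    congr 1
    refine Finset.eq_of_subset_of_card_le (fun x hx => ?_) ?_
    · obtain ⟨i, -, rfl⟩ := Finset.mem_image.1 hx
      exact Finset.mem_Ico.2 ⟨Int.emod_nonneg _ hq'.ne', Int.emod_lt_of_pos _ hq'⟩
    · rw [Finset.card_image_of_injOn inj]
      simp
  refine mul_left_cancel₀ hq'.ne' ?_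
  have e : ∀ x : ℤ, q * (x / q) = x - x % q := fun x => by rw [Int.emod_def]; ring
  simp only [mul_sub, Finset.mul_sum, e, Finset.sum_sub_distrib, key]
  simp

theorem Gq_le {γ : ℝ} {q : ℕ} {p : ℤ} (hq : 0 < q) (cop : IsCoprime (q : ℤ) p)
    (h : q * |q * γ - p| ≤ 1) (w y : ℝ) : (Gq γ q w : ℝ) - Gq γ q y ≤ q * (w - y) + 3 := by
  have hq' : (0 : ℤ) < q := by exact_mod_cast hq
  have hq'' : (0 : ℝ) < q := by exact_mod_cast hq
  have hi : ∀ i ∈ Finset.range q, |((i : ℝ) + 1) * (q * γ - p)| ≤ 1 := fun i hi => by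
    rw [abs_mul, abs_of_pos (by positivity)]
    refine le_trans (mul_le_mul_of_nonneg_right ?_ (abs_nonneg _)) h
    exact_mod_cast Finset.mem_range.1 hi
  have h1 : Gq γ q w ≤ ∑ i ∈ Finset.range q, (⌊q * w⌋ + 1 - (i + 1) * p) / q :=
    Finset.sum_le_sum fun i hi' => (Int.le_ediv_iff_mul_le hq').2 (by
      have : ⌊w - (i + 1) * γ⌋ * q + (i + 1) * p - 1 ≤ ⌊q * w⌋ := Int.le_floor.2 (by
        push_cast
        nlinarith [abs_le.1 (hi i hi'), Int.floor_le (w - (i + 1) * γ)])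
      omega)
  have h2 : ∑ i ∈ Finset.range q, (⌊q * y⌋ - 1 - (i + 1) * p) / q ≤ Gq γ q y :=
    Finset.sum_le_sum fun i hi' => Int.le_floor.2 (le_of_mul_le_mul_right (by
      have : (((⌊q * y⌋ - 1 - (i + 1) * p) / q * q : ℤ) : ℝ) ≤ (⌊q * y⌋ - 1 - (i + 1) * p : ℤ) := by
        exact_mod_cast Int.ediv_mul_le _ hq'.ne'
      rw [Int.cast_mul, Int.cast_natCast] at this
      refine this.trans ?_
      push_cast
      nlinarith [abs_le.1 (hi i hi'), Int.floor_le (q * y)]) hq'')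
  have h3 := sum_ediv hq cop (⌊q * w⌋ + 1) (⌊q * y⌋ - 1)
  have h4 : ((Gq γ q w - Gq γ q y : ℤ) : ℝ) ≤ (⌊q * w⌋ - ⌊q * y⌋ + 2 : ℤ) := by
    exact_mod_cast (by omega : Gq γ q w - Gq γ q y ≤ ⌊q * w⌋ - ⌊q * y⌋ + 2)
  push_cast at h4
  linarith [Int.floor_le (q * w), Int.lt_floor_add_one (q * y)]

theorem Mn_bound_three {γ : ℝ} {q : ℕ} {p : ℤ} (hq : 0 < q) (cop : IsCoprime (q : ℤ) p)
    (h : q * |q * γ - p| ≤ 1) (n : ℤ) (z : UnitAddCircle) :
    |(Mn γ (q * γ - p) n z : ℝ) - n * (q * γ - p)| ≤ 3 := by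
  obtain ⟨y, rfl⟩ := QuotientAddGroup.mk_surjective z
  rw [Mn_kesten, abs_le]
  push_cast
  constructor <;> linarith [Gq_le hq cop h (y + n * γ) y, Gq_le hq cop h y (y + n * γ)]

theorem good_step' {γ t σ lam δ ε C : ℝ} (hg : Good γ t σ lam δ ε) (q b : ℕ) (p κ : ℤ)
    (hC : ∀ n z, |(Mn γ (q * γ - p) n z : ℝ) - n * (q * γ - p)| ≤ C) :
    Good γ (t + b * (q * γ - p)) σ (lam + (σ * b - κ) * (q * γ - p)) (δ + |σ * b - κ| * C)
      (ε + 4 * q * (b * |q * γ - p|)) := by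
  intro n
  set θ : ℝ := q * γ - p with hθ
  have h0 : 0 ≤ b * |θ| := by positivity
  have h1 := volume_biUnion_ball_le (Finset.range q)
    (fun i => ((t + (i + 1) * γ : ℝ) : UnitAddCircle)) h0
  have h2 := volume_biUnion_ball_le (Finset.range q)
    (fun i => ((t + (i + 1) * γ - n * γ : ℝ) : UnitAddCircle)) h0
  rw [Finset.card_range] at h1 h2
  refine le_trans (measureReal_mono (s₂ := {z | δ < ‖((σ * Mn γ t n z - lam * n : ℝ) :
    UnitAddCircle)‖} ∪ ((⋃ i ∈ Finset.range q,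
      Metric.closedBall ((t + (i + 1) * γ : ℝ) : UnitAddCircle) (b * |θ|)) ∪
      ⋃ i ∈ Finset.range q,
        Metric.closedBall ((t + (i + 1) * γ - n * γ : ℝ) : UnitAddCircle) (b * |θ|))) ?_) ?_
  · intro z hz
    obtain ⟨y, rfl⟩ := QuotientAddGroup.mk_surjective z
    by_contra hcon
    simp only [Set.mem_union, Set.mem_ofPred_eq, Set.mem_iUnion, not_or, not_lt, not_exists,
      mem_closedBall_iff_norm, not_le, ← AddCircle.coe_sub] at hz hcon
    obtain ⟨h3, h4, h5⟩ := hcon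
    have h6 := Mn_mul γ q b p n (y - t) fun i hi => ⟨by
      rw [sub_sub]; exact h4 i hi, by
      rw [show y - t + n * γ - (i + 1) * γ = y - (t + (i + 1) * γ - n * γ) by ring]
      exact h5 i hi⟩
    rw [Mn_add_arc, ← AddCircle.coe_sub, h6] at hz
    set m1 := Mn γ t n (y : UnitAddCircle)
    set m2 := Mn γ θ n ((y - t : ℝ) : UnitAddCircle) with hm2
    have h7 : |(m2 : ℝ) - n * θ| ≤ C := hC n _
    have h8 : σ * ((m1 + b * m2 : ℤ) : ℝ) - (lam + (σ * b - κ) * θ) * n =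
        (σ * m1 - lam * n) + ((σ * b - κ) * (m2 - n * θ) + ((κ * m2 : ℤ) : ℝ)) := by
      push_cast; ring
    rw [h8, AddCircle.coe_add] at hz
    have h9 := norm_coe_le ((σ * b - κ) * (m2 - n * θ) + ((κ * m2 : ℤ) : ℝ)) (κ * m2)
    rw [add_sub_cancel_right, abs_mul] at h9
    have h10 : |σ * b - κ| * |(m2 : ℝ) - n * θ| ≤ |σ * b - κ| * C := by gcongr
    have h11 := norm_add_le ((σ * m1 - lam * n : ℝ) : UnitAddCircle)
      (((σ * b - κ) * (m2 - n * θ) + ((κ * m2 : ℤ) : ℝ) : ℝ) : UnitAddCircle)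
    linarith
  · refine (measureReal_union_le _ _).trans (add_le_add (hg n) ?_)
    refine (measureReal_union_le _ _).trans ?_
    linarith

theorem Good.le {γ t σ lam δ δ' ε ε' : ℝ} (h : Good γ t σ lam δ ε) (hδ : δ ≤ δ') (hε : ε ≤ ε') :
    Good γ t σ lam δ' ε' :=
  fun n => le_trans (measureReal_mono fun _ hz => hδ.trans_lt hz) ((h n).trans hε)

theorem Good.shift {γ t σ lam δ ε C : ℝ} (h : Good γ t σ lam δ ε) (σ' : ℝ)
    (hC : ∀ n z, |(Mn γ t n z : ℝ) - n * t| ≤ C) :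
    Good γ t σ' (lam + (σ' - σ) * t) (δ + |σ' - σ| * C) ε := by
  refine fun n => le_trans (measureReal_mono fun z hz => ?_) (h n)
  simp only [Set.mem_ofPred_eq] at hz ⊢
  rw [show σ' * Mn γ t n z - (lam + (σ' - σ) * t) * n = σ * Mn γ t n z - lam * n +
    (σ' - σ) * (Mn γ t n z - n * t) by ring, AddCircle.coe_add] at hz
  have h1 := norm_coe_le_abs ((σ' - σ) * (Mn γ t n z - n * t))
  rw [abs_mul] at h1
  have h2 := mul_le_mul_of_nonneg_left (hC n z) (abs_nonneg (σ' - σ))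
  linarith [hz.trans_le (norm_add_le _ _)]

theorem Good.int {γ t σ lam δ ε : ℝ} (h : Good γ t σ lam δ ε) (e a : ℤ) :
    Good γ t (σ + e) (lam - a) δ ε := by
  refine fun n => le_trans (le_of_eq (congrArg _ (Set.ext fun z => ?_))) (h n)
  simp only [Set.mem_ofPred_eq]
  rw [show (σ + e) * Mn γ t n z - (lam - a) * n = σ * Mn γ t n z - lam * n +
    ((e * Mn γ t n z + a * n : ℤ) : ℝ) by push_cast; ring, AddCircle.coe_add,
    (AddCircle.coe_eq_zero_iff (x := ((e * Mn γ t n z + a * n : ℤ) : ℝ)) _).2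
      ⟨_, by rw [zsmul_eq_mul, mul_one]⟩, add_zero]

theorem abs_Mn_le (γ : ℝ) {t : ℝ} (h0 : 0 ≤ t) (h1 : t ≤ 1) (n : ℤ) (z : UnitAddCircle) :
    |Mn γ t n z| ≤ |n| := by
  induction n using Int.induction_on with
  | zero => simp [Mn_zero]
  | succ n ih =>
    rw [Mn_succ]
    rw [abs_le, abs_of_nonneg (by omega)] at ih ⊢
    rcases bt_cases h0 h1 (z + (((n : ℤ) * γ : ℝ) : UnitAddCircle)) with e | e <;> omega
  | pred n ih =>
    have := Mn_succ γ t (-(n : ℤ) - 1) z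
    rw [sub_add_cancel] at this
    rw [abs_le, abs_of_nonpos (by omega)] at ih ⊢
    rcases bt_cases h0 h1 (z + (((-(n : ℤ) - 1 : ℤ) * γ : ℝ) : UnitAddCircle)) with e | e <;> omega

/-- The frequency `S` is an approximate eigenvalue of the staircase. -/
def Gd (γ D S δ ε : ℝ) : Prop := Good γ D (S * (2 * D - 1)) (-(S * (1 - D))) δ ε

theorem gd_limit {γ D S δ δ' ε ε' : ℝ} {t s : ℕ → ℝ} (h0 : 0 ≤ D) (h1 : D ≤ 1)
    (ht : Tendsto t atTop (𝓝 D)) (hs : Tendsto s atTop (𝓝 S))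
    (hg : ∀ K, Gd γ (t K) (s K) δ ε) (hδ : δ < δ') (hε : ε < ε') : Gd γ D S δ' ε' := by
  intro n
  have a1 : Tendsto (fun K => δ + (|S * (2 * D - 1) - s K * (2 * t K - 1)| +
      |S * (1 - D) - s K * (1 - t K)|) * |(n : ℝ)|) atTop (𝓝 δ) := by
    simpa using ((((hs.mul ((ht.const_mul 2).sub_const 1)).const_sub (S * (2 * D - 1))).abs.add
      ((hs.mul (ht.const_sub 1)).const_sub (S * (1 - D))).abs).mul_const |(n : ℝ)|).const_add δ
  have a2 : Tendsto (fun K => ε + (Finset.Ico (-|n|) |n|).card * (2 * |D - t K|)) atTop (𝓝 ε) := by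
    simpa using ((((ht.const_sub D).abs).const_mul 2).const_mul
      ((Finset.Ico (-|n|) |n|).card : ℝ)).const_add ε
  obtain ⟨K, hK1, hK2⟩ := ((a1.eventually_lt_const hδ).and (a2.eventually_lt_const hε)).exists
  have h3 := volume_biUnion_ball_le (Finset.Ico (-|n|) |n|)
    (fun i => ((t K - i * γ : ℝ) : UnitAddCircle)) (abs_nonneg (D - t K))
  refine le_trans (measureReal_mono (s₂ := {z | δ < ‖((s K * (2 * t K - 1) * Mn γ (t K) n z -
    -(s K * (1 - t K)) * n : ℝ) : UnitAddCircle)‖} ∪ ⋃ i ∈ Finset.Ico (-|n|) |n|,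
      Metric.closedBall ((t K - i * γ : ℝ) : UnitAddCircle) |D - t K|) ?_) ?_
  · intro z hz
    by_contra hcon
    simp only [Set.mem_union, Set.mem_ofPred_eq, Set.mem_iUnion, not_or, not_lt, not_exists,
      mem_closedBall_iff_norm, not_le] at hz hcon
    obtain ⟨h4, h5⟩ := hcon
    have h6 : Mn γ D n z = Mn γ (t K) n z := by
      have h7 := Mn_add_arc γ (t K) (D - t K) n z
      rw [add_sub_cancel, Mn_small γ (D - t K) n _ fun i hi => ?_, add_zero] at h7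
      · exact h7
      · have h10 := h5 i hi
        rwa [AddCircle.coe_sub, ← sub_add] at h10
    rw [← h6] at h4
    have h7 : |(Mn γ D n z : ℝ)| ≤ |(n : ℝ)| := by exact_mod_cast abs_Mn_le γ h0 h1 n z
    generalize (Mn γ D n z : ℝ) = m at *
    rw [show S * (2 * D - 1) * m - -(S * (1 - D)) * n = (s K * (2 * t K - 1) * m -
      -(s K * (1 - t K)) * n) + ((S * (2 * D - 1) - s K * (2 * t K - 1)) * m +
        (S * (1 - D) - s K * (1 - t K)) * n) by ring, AddCircle.coe_add] at hz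
    have h9 := (norm_coe_le_abs _).trans (abs_add_le ((S * (2 * D - 1) - s K * (2 * t K - 1)) * m)
      ((S * (1 - D) - s K * (1 - t K)) * n))
    rw [abs_mul, abs_mul] at h9
    have h8 := mul_le_mul_of_nonneg_left h7 (abs_nonneg (S * (2 * D - 1) - s K * (2 * t K - 1)))
    linarith [hz.trans_le (norm_add_le _ _)]
  · refine (measureReal_union_le _ _).trans ?_
    linarith [hg K n]

theorem recur (n : ℕ) (σ : ℕ → ℝ) {τ : ℝ} (hτ : 0 < τ) (m : ℕ) :
    ∃ b : ℕ, m ≤ b ∧ ∀ t < n, |σ t * b - round (σ t * b)| < τ := by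
  obtain ⟨b, h1, h2⟩ := frequently_atTop.1 ((mapClusterPt_zero_atTop_nsmul
    fun t : Fin n => (σ t : UnitAddCircle)).frequently (Metric.ball_mem_nhds 0 hτ)) m
  refine ⟨b, h1, fun t ht => ?_⟩
  have := (norm_le_pi_norm _ (⟨t, ht⟩ : Fin n)).trans_lt (mem_ball_zero_iff.1 h2)
  rwa [Pi.smul_apply, ← AddCircle.coe_nsmul, nsmul_eq_mul, mul_comm, UnitAddCircle.norm_eq] at this

theorem gd_base (γ : ℝ) (j k : ℤ) {δ : ℝ} (hδ : 0 < δ) (m : ℕ) :
    ∃ S : ℝ, m ≤ S ∧ Gd γ (j * γ + k) S δ 0 := by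
  set D := j * γ + k with hD
  set w : ℝ := 1 - 2 * D + 2 * D ^ 2 with hw
  have hw2 : 1 / 2 ≤ w := by nlinarith [sq_nonneg (2 * D - 1)]
  have hj : 0 < |(j : ℝ)| + 1 := by positivity
  obtain ⟨q, h1, h2⟩ := recur 1 (fun _ => D) (τ := min 1 (δ / (2 * (|(j : ℝ)| + 1))))
    (by positivity) (m + 1)
  obtain ⟨h3, h4⟩ := lt_min_iff.1 (h2 0 one_pos)
  generalize round (D * q) = B at h3 h4
  obtain ⟨σ, hσ⟩ : ∃ σ, σ * w = D * q - B := ⟨_, div_mul_cancel₀ _ (by positivity)⟩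
  rw [← hσ, abs_mul, abs_of_nonneg (by positivity : 0 ≤ w)] at h3 h4
  rw [lt_div_iff₀ (by positivity)] at h4
  refine ⟨q - σ * (2 * D - 1), ?_, ?_⟩
  · have h5 : ((m + 1 : ℕ) : ℝ) ≤ q := by exact_mod_cast h1
    have h6 : |2 * D - 1| ≤ w := by
      rw [abs_le]
      constructor <;> nlinarith [sq_nonneg (D - 1), sq_nonneg D]
    have h7 := (le_abs_self _).trans ((abs_mul σ _).trans_le
      (mul_le_mul_of_nonneg_left h6 (abs_nonneg σ)))
    push_cast at h5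
    linarith
  · have := (good_base γ σ j k (δ := δ) (by
      nlinarith [abs_nonneg σ, mul_nonneg (abs_nonneg σ) hj.le])).int (2 * B - q) (q - B)
    unfold Gd
    convert this using 1 <;> push_cast
    · linear_combination (-2) * hσ
    · linear_combination (-1) * hσ

theorem gd_step {γ S A : ℝ} {j k p κ : ℤ} {q b : ℕ} (hq : 0 < q) (cop : IsCoprime (q : ℤ) p)
    (h0 : 0 ≤ j * γ + k) (h1 : j * γ + k ≤ 1) (hA : 1 ≤ A) (hS : |S| ≤ A)
    (hκ : |(κ : ℝ)| ≤ A * b) (hb : q * (b * |q * γ - p|) ≤ 1) (hθ : q * |q * γ - p| ≤ 1) :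
    ∃ S', |S' - S| ≤ 10 * A * (b * |q * γ - p|) ∧ ∀ δ ε, Gd γ (j * γ + k) S δ ε →
      Gd γ (j * γ + k + b * (q * γ - p)) S'
      (δ + |S * (2 * (j * γ + k) - 1) * b - κ| * 3 +
        32 * A * (b * |q * γ - p|) * (|(j : ℝ)| + b * q)) (ε + 4 * q * (b * |q * γ - p|)) := by
  have hq' : (1 : ℝ) ≤ q := by exact_mod_cast hq
  have a1 := fun δ ε (h : Gd γ (j * γ + k) S δ ε) =>
    good_step' h q b p κ (Mn_bound_three hq cop hθ)
  have a2 : ∀ n z, |(Mn γ (j * γ + k + b * (q * γ - p)) n z : ℝ) -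
      n * (j * γ + k + b * (q * γ - p))| ≤ |(j : ℝ)| + b * q := fun n z => by
    have := Mn_bound_int γ (j + b * q) (k - b * p) n z
    push_cast at this
    rw [show (j + b * q) * γ + (k - b * p) = j * γ + k + b * (q * γ - p) by ring] at this
    exact this.trans ((abs_add_le _ _).trans_eq (by
      rw [abs_of_nonneg (by positivity : (0 : ℝ) ≤ b * q)]))
  generalize j * γ + k = D at *
  generalize q * γ - p = θ at *
  have b1 : |b * θ| = b * |θ| := by rw [abs_mul, Nat.abs_cast]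
  have b2 : |κ * θ| ≤ A * (b * |θ|) := by
    rw [abs_mul, ← mul_assoc]
    gcongr
  have b3 : b * |θ| ≤ 1 := (le_mul_of_one_le_left (by positivity) hq').trans hb
  rw [← b1] at a1 b2 b3 ⊢
  rw [sub_mul, mul_assoc _ (b : ℝ) θ] at a1
  generalize b * θ = x at *
  set w : ℝ := 1 - 2 * (D + x) + 2 * (D + x) ^ 2 with hw
  have hw2 : 1 / 2 ≤ w := by nlinarith [sq_nonneg (2 * (D + x) - 1)]
  obtain ⟨u, hu⟩ : ∃ u, u * w = κ * θ - S * (x * (4 * D + 2 * x - 2)) :=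
    ⟨_, div_mul_cancel₀ _ (by positivity)⟩
  have hx := abs_le.1 b3
  have c1 : |u| ≤ 10 * A * |x| := by
    have c2 : |S * (x * (4 * D + 2 * x - 2))| ≤ A * (|x| * 4) := by
      rw [abs_mul, abs_mul]
      gcongr
      rw [abs_le]
      constructor <;> linarith
    have c3 := (abs_sub _ _).trans (add_le_add b2 c2)
    rw [← hu, abs_mul, abs_of_nonneg (by positivity : 0 ≤ w)] at c3
    nlinarith [abs_nonneg u]
  refine ⟨S + u, by rwa [add_sub_cancel_left], fun δ ε h => ?_⟩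
  have a3 := ((a1 δ ε h).shift ((S + u) * (2 * (D + x) - 1)) a2).le (δ' := δ +
    |S * (2 * D - 1) * b - κ| * 3 + 32 * A * |x| * (|(j : ℝ)| + b * q)) (by
      gcongr
      rw [show (S + u) * (2 * (D + x) - 1) - S * (2 * D - 1) = u * (2 * (D + x) - 1) + 2 * S * x by
        ring]
      refine (abs_add_le _ _).trans ?_
      rw [abs_mul, abs_mul, abs_mul, abs_two]
      have c2 : |u| * |2 * (D + x) - 1| ≤ 10 * A * |x| * 3 := by
        gcongr
        rw [abs_le]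
        constructor <;> linarith
      nlinarith [abs_nonneg x]) le_rfl
  unfold Gd
  convert a3 using 1
  linear_combination -hu

theorem move {γ : ℝ} (hγ : Irrational γ)
    (hU : ∀ ω > 0, ∃ (q : ℕ) (p : ℤ), 0 < q ∧ IsCoprime (q : ℤ) p ∧ q * |q * γ - p| < ω)
    {j k : ℤ} (h0 : 0 ≤ j * γ + k) (h1 : j * γ + k ≤ 1) (n : ℕ) (S : ℕ → ℝ) {τ : ℝ} (hτ : 0 < τ)
    (hτ1 : τ ≤ 1) : ∃ (j' k' : ℤ) (S' : ℕ → ℝ), j' * γ + k' ≠ j * γ + k ∧
      |j' * γ + k' - (j * γ + k)| ≤ τ ∧ ∀ t < n, |S' t - S t| ≤ τ ∧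
        ∀ δ ε, Gd γ (j * γ + k) (S t) δ ε → Gd γ (j' * γ + k') (S' t) (δ + τ) (ε + τ) := by
  obtain ⟨b, hb1, hb⟩ := recur n (fun t => S t * (2 * (j * γ + k) - 1)) (τ := τ / 6)
    (by positivity) 1
  have hb1' : (1 : ℝ) ≤ b := by exact_mod_cast hb1
  obtain ⟨A, hA1, hA2, hA3, hA⟩ : ∃ A : ℝ, 1 ≤ A ∧ b ≤ A ∧ |(j : ℝ)| ≤ A ∧ ∀ t < n, |S t| + 1 ≤ A := by
    have := Finset.sum_nonneg fun t (_ : t ∈ Finset.range n) => abs_nonneg (S t)
    refine ⟨∑ t ∈ Finset.range n, |S t| + b + |(j : ℝ)|, by linarith [abs_nonneg (j : ℝ)],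
      by linarith [abs_nonneg (j : ℝ)], by linarith, fun t ht => ?_⟩
    linarith [abs_nonneg (j : ℝ), Finset.single_le_sum (f := fun t => |S t|)
      (fun t _ => abs_nonneg _) (Finset.mem_range.2 ht)]
  obtain ⟨q, p, hq, cop, hθ⟩ := hU (τ / (128 * A ^ 3)) (by positivity)
  have hq' : (1 : ℝ) ≤ q := by exact_mod_cast hq
  have hθ0 : q * γ - p ≠ 0 := sub_ne_zero.2 ((hγ.natCast_mul hq.ne').ne_int p)
  rw [lt_div_iff₀ (by positivity)] at hθ
  have e : (j + b * q : ℤ) * γ + (k - b * p : ℤ) = j * γ + k + b * (q * γ - p) := by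
    push_cast
    ring
  have a0 := abs_nonneg (q * γ - p)
  have a1 : b * |q * γ - p| ≤ A * (q * |q * γ - p|) := by
    gcongr
    exact le_mul_of_one_le_left a0 hq'
  have a2 : q * (b * |q * γ - p|) ≤ A * (q * |q * γ - p|) := by
    rw [mul_left_comm]
    gcongr
  have a3 : A * A * (q * |q * γ - p|) ≤ A ^ 3 * (q * |q * γ - p|) := by
    gcongr
    nlinarith [mul_self_nonneg A]
  have a4 : A * (q * |q * γ - p|) ≤ A * A * (q * |q * γ - p|) := by
    gcongr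
    nlinarith
  have a5 : q * |q * γ - p| ≤ A * (q * |q * γ - p|) := le_mul_of_one_le_left (by positivity) hA1
  have a6 : 0 ≤ q * |q * γ - p| := by positivity
  have key : ∀ t, ∃ S', t < n → |S' - S t| ≤ τ ∧ ∀ δ ε, Gd γ (j * γ + k) (S t) δ ε →
      Gd γ (j * γ + k + b * (q * γ - p)) S' (δ + τ) (ε + τ) := fun t => by
    by_cases ht : t < n
    swap
    · exact ⟨0, fun h => absurd h ht⟩
    have b1 := hb t ht
    have b2 := hA t ht
    generalize round (S t * (2 * (j * γ + k) - 1) * b) = κ at b1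
    have b3 : |(κ : ℝ)| ≤ A * b := by
      have b4 : |S t * (2 * (j * γ + k) - 1) * b| ≤ |S t| * 1 * b := by
        rw [abs_mul, abs_mul, Nat.abs_cast]
        gcongr
        rw [abs_le]
        constructor <;> linarith
      have b5 := abs_sub_abs_le_abs_sub (κ : ℝ) (S t * (2 * (j * γ + k) - 1) * b)
      rw [abs_sub_comm] at b5
      nlinarith
    obtain ⟨S', c1, c2⟩ := gd_step hq cop h0 h1 hA1 (by linarith : |S t| ≤ A) b3 (by linarith)
      (by linarith)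
    refine ⟨S', fun _ => ⟨c1.trans ?_, fun δ ε h => (c2 δ ε h).le ?_ (by linarith)⟩⟩
    · nlinarith [mul_le_mul_of_nonneg_left a1 (by linarith : 0 ≤ A)]
    · have c3 : |(j : ℝ)| + b * q ≤ 2 * A * q := by nlinarith
      have c4 : 32 * A * (b * |q * γ - p|) * (|(j : ℝ)| + b * q) ≤
          32 * A * (A * |q * γ - p|) * (2 * A * q) := by gcongr
      linarith
  choose S' hS' using key
  refine ⟨j + b * q, k - b * p, S', ?_, ?_, ?_⟩ <;> rw [e]
  · exact fun h => mul_ne_zero (by positivity) hθ0 (add_eq_left.1 h)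
  · rw [add_sub_cancel_left, abs_mul, Nat.abs_cast]
    linarith
  · exact hS'

theorem cantor {γ : ℝ} (hγ : Irrational γ)
    (hU : ∀ ω > 0, ∃ (q : ℕ) (p : ℤ), 0 < q ∧ IsCoprime (q : ℤ) p ∧ q * |q * γ - p| < ω)
    {a b : ℝ} (ha : 0 ≤ a) (hab : a < b) (hb : b ≤ 1) : ∃ Φ : (ℕ → Bool) → ℝ, Φ.Injective ∧
      ∀ ω, Φ ω ∈ Set.Ioo a b ∧ ∀ x₀, DiffractionCondition (circleSeq (Φ ω) γ x₀) := by
  obtain ⟨D₀, hK, hD₀⟩ := (dense_addSubgroupClosure_pair_iff (a := γ) (b := 1)).2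
    (by simpa using hγ) |>.exists_mem_open isOpen_Ioo (Set.nonempty_Ioo.2 hab)
  obtain ⟨ρ₀, p0, p1, p2⟩ : ∃ ρ₀, 0 < ρ₀ ∧ 2 * ρ₀ ≤ D₀ - a ∧ 2 * ρ₀ ≤ b - D₀ :=
    ⟨min (D₀ - a) (b - D₀) / 2, half_pos (lt_min (sub_pos.2 hD₀.1) (sub_pos.2 hD₀.2)),
      by linarith [min_le_left (D₀ - a) (b - D₀)], by linarith [min_le_right (D₀ - a) (b - D₀)]⟩
  obtain ⟨r, hr⟩ := exists_nat_ge (2 / ρ₀)
  have hr0 : (0 : ℝ) < r := lt_of_lt_of_le (by positivity) hr
  rw [div_le_iff₀ p0] at hr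
  obtain ⟨ρ₁, p3, p4, p5, p6⟩ : ∃ ρ₁, 0 < ρ₁ ∧ ρ₁ ≤ ρ₀ ∧ ρ₁ ≤ 1 / 14 ∧ ρ₁ ≤ 1 / (5 * r) :=
    ⟨min ρ₀ (min (1 / 14) (1 / (5 * r))), by positivity, min_le_left _ _,
      (min_le_right _ _).trans (min_le_left _ _), (min_le_right _ _).trans (min_le_right _ _)⟩
  let P : ℕ → ℝ × (ℕ → ℝ) × ℝ → Prop := fun n x => (∃ j k : ℤ, x.1 = j * γ + k) ∧ 0 < x.2.2 ∧
    |x.1 - D₀| + x.2.2 ≤ ρ₁ ∧ ∀ t < n, t + x.2.2 ≤ x.2.1 t ∧
      Gd γ x.1 (x.2.1 t) (1 / 7 - x.2.2) (1 / (5 * r) - x.2.2)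
  have step : ∀ n x, P n x → ∃ y : Bool → ℝ × (ℕ → ℝ) × ℝ, (∀ β, P (n + 1) (y β) ∧
      |(y β).1 - x.1| ≤ x.2.2 / 2 ∧ (y β).2.2 ≤ x.2.2 / 2 ∧
        ∀ t < n, |(y β).2.1 t - x.2.1 t| ≤ x.2.2 / 2) ∧
      ∀ β β', β ≠ β' → (y β).2.2 + (y β').2.2 < |(y β).1 - (y β').1| := by
    rintro n ⟨D, S, ρ⟩ ⟨⟨j, k, rfl⟩, h1, h2, h3⟩
    simp only at h1 h2 h3 ⊢
    have h5 := abs_le.1 (by linarith : |j * γ + k - D₀| ≤ ρ₀)
    have h6 := abs_nonneg (j * γ + k - D₀)
    have fin : ∀ (j' k' : ℤ) (S' : ℕ → ℝ) (ρ' : ℝ), 0 < ρ' → ρ' ≤ ρ / 2 →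
        |j' * γ + k' - (j * γ + k)| ≤ ρ / 2 → (∀ t < n, |S' t - S t| ≤ ρ / 2 ∧ ∀ δ ε,
          Gd γ (j * γ + k) (S t) δ ε → Gd γ (j' * γ + k') (S' t) (δ + ρ / 2) (ε + ρ / 2)) →
        ∃ T, P (n + 1) (j' * γ + k', T, ρ') ∧ ∀ t < n, |T t - S t| ≤ ρ / 2 := by
      intro j' k' S' ρ' a7 a5 a2 a3
      obtain ⟨s, b1, b2⟩ := gd_base γ j' k' (δ := 1 / 14) (by norm_num) (n + 1)
      refine ⟨Function.update S' n s, ⟨⟨j', k', rfl⟩, a7, ?_, fun t ht => ?_⟩, fun t ht => ?_⟩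
      · linarith [abs_sub_le (j' * γ + k') (j * γ + k) D₀]
      · rcases Nat.lt_succ_iff_lt_or_eq.1 ht with ht | rfl
        · simp only [Function.update_of_ne ht.ne]
          exact ⟨by linarith [(h3 t ht).1, abs_le.1 (a3 t ht).1],
            Good.le ((a3 t ht).2 _ _ (h3 t ht).2) (by linarith) (by linarith)⟩
        · simp only [Function.update_self]
          push_cast at b1
          exact ⟨by linarith, Good.le b2 (by linarith) (by linarith)⟩
      · rw [Function.update_of_ne ht.ne]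
        exact (a3 t ht).1
    obtain ⟨j', k', S', a1, a2, a3⟩ :=
      move hγ hU (j := j) (k := k) (by linarith) (by linarith) n S (half_pos h1) (by linarith)
    have a4 := abs_pos.2 (sub_ne_zero.2 a1)
    have a0 : |j * γ + k - (j * γ + k)| ≤ ρ / 2 := by simpa using (half_pos h1).le
    obtain ⟨T, b1, b2⟩ := fin j' k' S' (|j' * γ + k' - (j * γ + k)| / 3) (by positivity)
      (by linarith) a2 a3
    obtain ⟨T', b3, b4⟩ := fin j k S (|j' * γ + k' - (j * γ + k)| / 3) (by positivity)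
      (by linarith) a0 fun t _ =>
        ⟨by simpa using (half_pos h1).le, fun δ ε h => Good.le h (by linarith) (by linarith)⟩
    refine ⟨fun β => cond β _ _, fun β => Bool.rec ⟨b3, a0, by simp only [cond]; linarith, b4⟩
      ⟨b1, a2, by simp only [cond]; linarith, b2⟩ β, ?_⟩
    rintro (_ | _) (_ | _) h <;> simp only [cond, ne_eq, not_true] at h ⊢
    · rw [abs_sub_comm (j * γ + k)]
      linarith
    · linarith
  choose! f hf hf' using step
  obtain ⟨x, hx0, hx⟩ : ∃ x : (ℕ → Bool) → ℕ → ℝ × (ℕ → ℝ) × ℝ, (∀ ω, x ω 0 = (D₀, 0, ρ₁)) ∧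
      ∀ ω n, x ω (n + 1) = f n (x ω n) (ω n) :=
    ⟨fun ω n => Nat.rec (D₀, 0, ρ₁) (fun n y => f n y (ω n)) n, fun _ => rfl, fun _ _ => rfl⟩
  have hP : ∀ ω n, P n (x ω n) := fun ω n => by
    induction n with
    | zero =>
      obtain ⟨j, k, h⟩ := AddSubgroup.mem_closure_pair.1 hK
      rw [hx0]
      exact ⟨⟨j, k, by simp [← h]⟩, p3, by simp, by simp⟩
    | succ n ih => exact hx ω n ▸ (hf n _ ih _).1
  have hR := fun ω n => (hf n _ (hP ω n) (ω n)).2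
  simp only [← hx] at hR
  have hρ : ∀ ω n, (x ω (n + 1)).2.2 / 2 ≤ (x ω n).2.2 / 2 / 2 := fun ω n => by
    linarith [(hR ω n).2.1]
  choose Φ hD hD' using fun ω => fast (a := fun n => (x ω n).1) (hρ ω) fun n => (hR ω n).1
  refine ⟨Φ, fun ω ω' e => ?_, fun ω => ?_⟩
  · have key : ∀ n, x ω n = x ω' n → ω n = ω' n := fun n h => by
      by_contra hcon
      have h1 := hf' n _ (hP ω n) _ _ hcon
      rw [← hx, h, ← hx] at h1
      have h2 := hD' ω (n + 1)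
      rw [e, abs_sub_comm] at h2
      linarith [hD' ω' (n + 1), abs_sub_le (x ω (n + 1)).1 (Φ ω') (x ω' (n + 1)).1]
    refine funext fun n => key n ?_
    induction n with
    | zero => rw [hx0, hx0]
    | succ n ih => rw [hx, hx, key n ih, ih]
  have h0 : |Φ ω - D₀| ≤ ρ₀ := by
    have := hD' ω 0
    simp only [hx0] at this
    linarith
  have h1 := abs_le.1 h0
  have hI : Φ ω ∈ Set.Ioo (0 : ℝ) 1 := ⟨by linarith, by linarith⟩
  refine ⟨⟨by linarith, by linarith⟩, diffraction_of_good (ε := 1 / (4 * r)) hγ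
    hI r (hr.trans (by gcongr; exact le_min (by linarith) (by linarith))) (by
      field_simp; norm_num) fun m => ?_⟩
  obtain ⟨t, ht⟩ := exists_nat_gt m
  obtain ⟨S, hS, hS'⟩ := fast (a := fun n => (x ω (n + (t + 1))).2.1 t)
    (c := fun n => (x ω (n + (t + 1))).2.2 / 2) (fun n => by
      rw [add_right_comm]; exact hρ ω _) fun n => by
      rw [add_right_comm]; exact (hR ω _).2.2 t (by omega)
  refine ⟨S, _, _, 0, 0, ?_, by simp, by simp, gd_limit (δ := 1 / 7) (ε := 1 / (5 * r))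
    hI.1.le hI.2.le ((tendsto_add_atTop_iff_nat (t + 1)).2 (hD ω)) hS (fun K => Good.le
      ((hP ω (K + (t + 1))).2.2.2 t (by omega)).2 (by linarith [(hP ω (K + (t + 1))).2.1])
      (by linarith [(hP ω (K + (t + 1))).2.1])) (by norm_num) (by gcongr; norm_num)⟩
  linarith [((hP ω (0 + (t + 1))).2.2.2 t (by omega)).1, abs_le.1 (hS' 0)]

open Classical in
theorem dichotomy {γ a b : ℝ} {X : Set ℝ} (hγ : Irrational γ) (ha : 0 ≤ a) (hab : a < b)
    (hb : b ≤ 1) (hX : X.Nonempty) : Cardinal.mk {D : ℝ | D ∈ Set.Ioo a b ∧ Irrational D ∧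
      (¬ ∃ j k : ℤ, D = j * γ + k) ∧ ∀ x₀ ∈ X, DiffractionCondition (circleSeq D γ x₀)} =
    if ∃ c : ℝ, 0 < c ∧ ∀ (q : ℕ) (p : ℤ), 0 < q → c / q ≤ |q * γ - p| then 0
      else Cardinal.continuum := by
  split_ifs with hcon
  · obtain ⟨c, hc, h⟩ := hcon
    exact Cardinal.mk_set_eq_zero_iff.2 (Set.eq_empty_of_forall_notMem fun D ⟨h1, h2, h3, h4⟩ =>
      h3 (kesten_of_bad hγ hc h ⟨ha.trans_lt h1.1, h1.2.trans_le hb⟩ h2 (h4 _ hX.some_mem).peak))
  push Not at hcon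
  obtain ⟨Φ, h1, h2⟩ := cantor hγ (fun ω hω => by
    obtain ⟨q, p, hq, h⟩ := hcon ω hω
    obtain ⟨g, q', p', hg, cop, e1, e2⟩ := Int.exists_gcd_one' (m := q) (n := p)
      (Int.gcd_pos_of_ne_zero_left _ (by omega))
    have hq' : 0 < q' := pos_of_mul_pos_left (by omega : 0 < q' * g) (by omega)
    lift q' to ℕ using hq'.le
    refine ⟨q', p', by exact_mod_cast hq', Int.isCoprime_iff_gcd_eq_one.2 cop, ?_⟩
    have e3 : (q : ℝ) = q' * g := by exact_mod_cast e1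
    have hg' : (1 : ℝ) ≤ g := by exact_mod_cast hg
    rw [lt_div_iff₀ (by exact_mod_cast hq), e3, e2, Int.cast_mul, Int.cast_natCast,
      mul_right_comm, ← sub_mul, abs_mul, Nat.abs_cast] at h
    have : 0 ≤ q' * |q' * γ - p'| := by positivity
    nlinarith [mul_le_mul_of_nonneg_left (one_le_mul_of_one_le_of_one_le hg' hg') this])
    ha hab hb
  refine le_antisymm ((Cardinal.mk_set_le _).trans_eq Cardinal.mk_real) (not_lt.1 fun hlt => ?_)
  have h3 := ((Set.countable_range fun x : ℤ × ℤ => x.1 * γ + x.2).union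
    (Set.countable_range ((↑) : ℚ → ℝ))).le_aleph0.trans_lt Cardinal.aleph0_lt_continuum
  refine (Cardinal.add_lt_of_lt Cardinal.aleph0_le_continuum hlt h3).not_ge
    (le_trans (le_trans ?_ (Cardinal.mk_le_mk_of_subset (s := Set.range Φ) ?_))
      (Cardinal.mk_union_le _ _))
  · rw [Cardinal.mk_range_eq Φ h1]
    simp
  · rintro _ ⟨ω, rfl⟩
    by_cases e1 : Irrational (Φ ω)
    · by_cases e2 : ∃ j k : ℤ, Φ ω = j * γ + k
      · obtain ⟨j, k, e⟩ := e2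
        exact Or.inr (Or.inl ⟨(j, k), e.symm⟩)
      · exact Or.inl ⟨(h2 ω).1, e1, e2, fun x₀ _ => (h2 ω).2 x₀⟩
    · exact Or.inr (Or.inr (not_not.1 e1))

end Pool.Agent.P.MP_23b0f8_an
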