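import Mathlib
import Pool.Agent.P.MP_23b0f8_an.PP8
import Pool.Agent.P.MP_23b0f8_an.PR2
import Pool.Agent.P.MP_23b0f8_an.Unb

/-! Moving the arc while keeping finitely many frequencies. -/

open Filter Topology MeasureTheory

namespace Pool.Agent.P.MP_23b0f8_an.LR

attribute [local instance] probCircle

/-- The phase of the normalised frequency `Z`. -/
noncomputable def Psi (γ D Z : ℝ) (n : ℤ) (z : UnitAddCircle) : ℝ :=
  Z * n + Z * GG D * (Mn γ D n z - n * D)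

/-- Two phases agree modulo one up to `τ` outside a set of measure `τ`. -/
def RelN (γ D Z D' Z' τ : ℝ) (n : ℤ) : Prop :=
  volume.real {z | τ < ‖((Psi γ D' Z' n z - Psi γ D Z n z : ℝ) : UnitAddCircle)‖} ≤ τ

theorem RelN.mono {γ D Z D' Z' τ τ' : ℝ} {n : ℤ} (h : RelN γ D Z D' Z' τ n) (hτ : τ ≤ τ') :
    RelN γ D Z D' Z' τ' n :=
  le_trans (measureReal_mono fun _ hz => hτ.trans_lt hz) (le_trans h hτ)

theorem RelN.refl (γ D Z : ℝ) {τ : ℝ} (hτ : 0 ≤ τ) (n : ℤ) : RelN γ D Z D Z τ n := by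
  simp [RelN, hτ, not_lt.mpr hτ]

theorem RelN.trans {γ D Z D' Z' D'' Z'' τ τ' : ℝ} {n : ℤ} (h : RelN γ D Z D' Z' τ n)
    (h' : RelN γ D' Z' D'' Z'' τ' n) : RelN γ D Z D'' Z'' (τ + τ') n := by
  refine le_trans (measureReal_mono fun z hz => ?_)
    ((measureReal_union_le _ _).trans (add_le_add h h'))
  by_contra hcon
  simp only [Set.mem_union, Set.mem_ofPred_eq, not_or, not_lt] at hz hcon
  rw [← sub_add_sub_cancel _ (Psi γ D' Z' n z), AddCircle.coe_add] at hz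
  linarith [hz.trans_le (norm_add_le _ _), hcon.1, hcon.2]

theorem near {γ D Z τ : ℝ} {t s : ℕ → ℝ} (h0 : 0 ≤ D) (h1 : D ≤ 1)
    (ht : Tendsto t atTop (𝓝 D)) (hs : Tendsto s atTop (𝓝 Z)) (hτ : 0 < τ) (n : ℤ) :
    ∀ᶠ K in atTop, RelN γ (t K) (s K) D Z τ n := by
  have hG := hs.mul ((continuous_GG.tendsto D).comp ht)
  have a1 : Tendsto (fun K => (|Z - s K| + |Z * GG D - s K * GG (t K)| +
      |Z * GG D * D - s K * GG (t K) * t K|) * |(n : ℝ)|) atTop (𝓝 0) := by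
    simpa using (((hs.const_sub Z).abs.add (hG.const_sub (Z * GG D)).abs).add
      ((hG.mul ht).const_sub (Z * GG D * D)).abs).mul_const |(n : ℝ)|
  have a2 : Tendsto (fun K => (Finset.Ico (-|n|) |n|).card * (2 * |D - t K|)) atTop (𝓝 0) := by
    simpa using (((ht.const_sub D).abs).const_mul 2).const_mul ((Finset.Ico (-|n|) |n|).card : ℝ)
  filter_upwards [a1.eventually_lt_const hτ, a2.eventually_lt_const hτ] with K hK1 hK2
  have h3 := volume_biUnion_ball_le (Finset.Ico (-|n|) |n|)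
    (fun i => ((t K - i * γ : ℝ) : UnitAddCircle)) (abs_nonneg (D - t K))
  refine le_trans (measureReal_mono (fun z hz => ?_) (measure_ne_top _ _)) (h3.trans hK2.le)
  by_contra hcon
  simp only [Set.mem_ofPred_eq, Set.mem_iUnion, not_exists, mem_closedBall_iff_norm,
    not_le] at hz hcon
  have h6 : Mn γ D n z = Mn γ (t K) n z := by
    have h7 := Mn_add_arc γ (t K) (D - t K) n z
    rw [add_sub_cancel, Mn_small γ (D - t K) n _ fun i hi => ?_, add_zero] at h7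
    · exact h7
    · have h10 := hcon i hi
      rwa [AddCircle.coe_sub, ← sub_add] at h10
  have h7 : |(Mn γ D n z : ℝ)| ≤ |(n : ℝ)| := by exact_mod_cast abs_Mn_le γ h0 h1 n z
  unfold Psi at hz
  rw [← h6] at hz
  generalize (Mn γ D n z : ℝ) = m at *
  rw [show Z * n + Z * GG D * (m - n * D) - (s K * n + s K * GG (t K) * (m - n * t K)) =
    (Z - s K) * n + (Z * GG D - s K * GG (t K)) * m -
      (Z * GG D * D - s K * GG (t K) * t K) * n by ring] at hz
  have h9 := (hz.trans_le (norm_coe_le_abs _)).trans_le ((abs_sub _ _).trans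
    (add_le_add_left (abs_add_le _ _) _))
  rw [abs_mul, abs_mul, abs_mul] at h9
  have h8 := mul_le_mul_of_nonneg_left h7 (abs_nonneg (Z * GG D - s K * GG (t K)))
  linarith

theorem recur (E : Finset ℝ) (σ : ℝ → ℝ) {τ : ℝ} (hτ : 0 < τ) :
    ∃ b : ℕ, 1 ≤ b ∧ ∀ t ∈ E, |σ t * b - round (σ t * b)| < τ := by
  obtain ⟨b, h1, h2⟩ := frequently_atTop.1 ((mapClusterPt_zero_atTop_nsmul
    fun t : E => (σ t : UnitAddCircle)).frequently (Metric.ball_mem_nhds 0 hτ)) 1
  refine ⟨b, h1, fun t ht => ?_⟩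
  have := (norm_le_pi_norm _ (⟨t, ht⟩ : E)).trans_lt (mem_ball_zero_iff.1 h2)
  rwa [Pi.smul_apply, ← AddCircle.coe_nsmul, nsmul_eq_mul, mul_comm, UnitAddCircle.norm_eq] at this

theorem move {γ : ℝ} (hγ : Irrational γ)
    (hU : ∀ ω > 0, ∃ (q : ℕ) (p : ℤ), 0 < q ∧ IsCoprime (q : ℤ) p ∧ q * |q * γ - p| < ω)
    (J : ℕ) (L : ℤ) (E : Finset ℝ) {τ : ℝ} (hτ : 0 < τ) (hτ1 : τ ≤ 1) :
    ∃ (J' : ℕ) (L' : ℤ) (T : ℝ → ℝ), J' * γ - L' ≠ J * γ - L ∧
      |J' * γ - L' - (J * γ - L)| ≤ τ ∧ ∀ Z ∈ E, |T Z - Z| ≤ τ ∧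
        ∀ n, RelN γ (J * γ - L) Z (J' * γ - L') (T Z) τ n := by
  set D := J * γ - L with hD
  obtain ⟨b, hb1, hb⟩ := recur E (fun Z => Z * GG D) (τ := τ / 6) (by positivity)
  have hb1' : (1 : ℝ) ≤ b := by exact_mod_cast hb1
  obtain ⟨A, hA1, hA2, hA3, hA⟩ : ∃ A : ℝ, 1 ≤ A ∧ b ≤ A ∧ J ≤ A ∧ ∀ t ∈ E, |t| + 1 ≤ A := by
    have := Finset.sum_nonneg fun t (_ : t ∈ E) => abs_nonneg t
    have hJ : (0 : ℝ) ≤ J := Nat.cast_nonneg J
    refine ⟨∑ t ∈ E, |t| + b + J, by linarith, by linarith, by linarith, fun t ht => ?_⟩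
    linarith [Finset.single_le_sum (f := fun t : ℝ => |t|) (fun t _ => abs_nonneg _) ht]
  obtain ⟨q, p, hq, cop, hθ⟩ := hU (τ / (20 * A ^ 3)) (by positivity)
  have hq' : (1 : ℝ) ≤ q := by exact_mod_cast hq
  have hθ0 : q * γ - p ≠ 0 := sub_ne_zero.2 ((hγ.natCast_mul hq.ne').ne_int p)
  rw [lt_div_iff₀ (by positivity)] at hθ
  have e : (J + b * q : ℕ) * γ - (L + b * p : ℤ) = D + b * (q * γ - p) := by
    rw [hD]
    push_cast
    ring
  have a2 := Mn_bound_nat γ (J + b * q) (L + b * p)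
  have a0 := abs_nonneg (q * γ - p)
  have a3 : |q * γ - p| ≤ q * |q * γ - p| := le_mul_of_one_le_left a0 hq'
  have a4 : A ≤ A ^ 2 := by nlinarith
  have a5 : A ^ 2 ≤ A ^ 3 := by nlinarith
  have a6 : q * |q * γ - p| ≤ 1 := by nlinarith
  have a1 := fun (σ : ℝ) (κ : ℤ) => good_step' (good_base γ σ 0 0 (δ := 0) (by simp)) q b p κ
    (Mn_bound_three hq cop a6)
  simp only [Int.cast_zero, zero_mul, add_zero, mul_zero, zero_add] at a1
  refine ⟨J + b * q, L + b * p, fun Z => Z + round (Z * GG D * b) * (q * γ - p), ?_⟩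
  rw [e] at a2 ⊢
  set θ := q * γ - p with hθdef
  have a7 : |b * θ| ≤ A * |θ| := by
    rw [abs_mul, Nat.abs_cast]
    gcongr
  refine ⟨fun h => mul_ne_zero (by positivity) hθ0 (add_eq_left.1 h), ?_, fun Z hZ => ?_⟩
  · rw [add_sub_cancel_left]
    nlinarith
  have b1 := hb Z hZ
  have b2 := hA Z hZ
  simp only
  generalize round (Z * GG D * b) = κ at b1
  have b3 : |κ * θ| ≤ A ^ 2 * |θ| := by
    have b4 : |Z * GG D * b| ≤ |Z| * 1 * b := by
      rw [abs_mul, abs_mul, Nat.abs_cast]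
      gcongr
      exact abs_GG_le D
    have b5 := abs_sub_abs_le_abs_sub (κ : ℝ) (Z * GG D * b)
    rw [abs_sub_comm] at b5
    rw [abs_mul]
    gcongr
    nlinarith [abs_nonneg Z]
  refine ⟨by rw [add_sub_cancel_left]; nlinarith, fun n => ?_⟩
  have b6 := a1 (Z * GG D) κ n
  set S := {z | |Z * GG D * b - κ| * 3 <
    ‖((Z * GG D * Mn γ (b * θ) n z - (Z * GG D * b - κ) * θ * n : ℝ) : UnitAddCircle)‖} with hS
  have h4 : volume.real ((fun z => z + -(D : UnitAddCircle)) ⁻¹' S) = volume.real S := by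
    unfold Measure.real
    rw [measure_preimage_add_right]
  refine le_trans (measureReal_mono (s₂ := (fun z => z + -(D : UnitAddCircle)) ⁻¹' S)
    fun z hz => ?_) (h4.trans_le (b6.trans ?_))
  · by_contra hcon
    simp only [Set.mem_preimage, hS, Set.mem_ofPred_eq, not_lt] at hz hcon
    have c1 := Mn_add_arc γ D (b * θ) n z
    have c2 := a2 n z
    rw [sub_eq_add_neg z] at c1
    have c3 : Psi γ (D + b * θ) (Z + κ * θ) n z - Psi γ D Z n z =
        (Z * GG D * Mn γ (b * θ) n (z + -(D : UnitAddCircle)) - (Z * GG D * b - κ) * θ * n) +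
          ((Z + κ * θ) * GG (D + b * θ) - Z * GG D) *
            (Mn γ (D + b * θ) n z - n * (D + b * θ)) := by
      unfold Psi
      rw [c1]
      push_cast
      ring
    rw [c3, AddCircle.coe_add] at hz
    have c4 : |(Z + κ * θ) * GG (D + b * θ) - Z * GG D| ≤ 5 * A ^ 2 * |θ| := by
      rw [show (Z + κ * θ) * GG (D + b * θ) - Z * GG D =
        κ * θ * GG (D + b * θ) + Z * (GG (D + b * θ) - GG D) by ring]
      refine (abs_add_le _ _).trans ?_
      rw [abs_mul (κ * θ), abs_mul Z]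
      calc _ ≤ A ^ 2 * |θ| * 1 + A * (4 * (A * |θ|)) := by
            gcongr
            · exact abs_GG_le _
            · linarith
            · exact (GG_lip _ _).trans (by rw [add_sub_cancel_left]; gcongr)
        _ = _ := by ring
    have c5 := norm_coe_le_abs (((Z + κ * θ) * GG (D + b * θ) - Z * GG D) *
      (Mn γ (D + b * θ) n z - n * (D + b * θ)))
    have c6 : ((J + b * q : ℕ) : ℝ) ≤ 2 * A * q := by
      push_cast
      nlinarith
    rw [abs_mul] at c5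
    have c7 := mul_le_mul c4 (c2.trans c6) (abs_nonneg _) (by positivity)
    linarith [hz.trans_le (norm_add_le _ _)]
  · have : b * (q * |θ|) ≤ A ^ 3 * (q * |θ|) := by
      gcongr
      linarith
    linarith [mul_nonneg (Nat.cast_nonneg b) (mul_nonneg (Nat.cast_nonneg q) a0)]

theorem sq_W (D : ℝ) :
    √((1 - D) ^ 2 + D ^ 2) * √((1 - D) ^ 2 + D ^ 2) = 1 - 2 * D + 2 * D ^ 2 := by
  rw [Real.mul_self_sqrt (by positivity)]
  ring

theorem phase_eq (γ : ℝ) {D : ℝ} (hD : D ∈ Set.Ioo (0 : ℝ) 1) (Z : ℝ) (n : ℤ)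
    (z : UnitAddCircle) :
    Z / √((1 - D) ^ 2 + D ^ 2) * (stair γ hD).F n z = Psi γ D Z n z := by
  have hN := NN_pos D
  have h := div_mul_cancel₀ (2 * D - 1) hN.ne'
  rw [LP.stair_F, div_mul_div_comm, sq_W, Psi, GG, div_eq_iff hN.ne']
  linear_combination (-(Z * (Mn γ D n z - n * D))) * h

theorem rigid_nat (γ : ℝ) (J : ℕ) (L n : ℤ) {κ : ℝ} (hn : ‖((n * γ : ℝ) : UnitAddCircle)‖ ≤ κ) :
    volume.real {z | J * κ < |Mn γ (J * γ - L) n z - n * (J * γ - L)|} ≤ J * (2 * κ) := by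
  have h3 := volume_biUnion_ball_le (Finset.range J)
    (fun i => (((i + 1) * γ : ℝ) : UnitAddCircle)) ((norm_nonneg _).trans hn)
  rw [Finset.card_range] at h3
  refine le_trans (measureReal_mono (fun z hz => ?_) (measure_ne_top _ _)) h3
  obtain ⟨y, rfl⟩ := QuotientAddGroup.mk_surjective z
  by_contra hcon
  simp only [Set.mem_ofPred_eq, Set.mem_iUnion, not_exists, mem_closedBall_iff_norm,
    not_le, ← AddCircle.coe_sub] at hz hcon
  rw [UnitAddCircle.norm_eq] at hn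
  set r := round ((n : ℝ) * γ) with hr
  have h4 : Mn γ (J * γ - L) n (y : UnitAddCircle) = J * r - n * L := by
    rw [Mn_kesten]
    congr 1
    unfold Gq
    rw [← Finset.sum_sub_distrib, Finset.sum_congr rfl (g := fun _ => r)]
    · simp
    intro i hi
    rw [show y + n * γ - (i + 1) * γ = y - (i + 1) * γ + (n * γ - r) + r by ring,
      Int.floor_add_intCast, floor_add_of_lt (hn.trans_lt (hcon i hi))]
    ring
  rw [h4, show ((J * r - n * L : ℤ) : ℝ) - n * (J * γ - L) = -(J * (n * γ - r)) by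
    push_cast; ring, abs_neg, abs_mul, Nat.abs_cast] at hz
  exact hz.not_ge (by gcongr)

theorem rigid_int (γ : ℝ) (j k n : ℤ) {κ : ℝ} (hn : ‖((n * γ : ℝ) : UnitAddCircle)‖ ≤ κ) :
    volume.real {z | |(j : ℝ)| * κ < |Mn γ (j * γ + k) n z - n * (j * γ + k)|} ≤
      |(j : ℝ)| * (2 * κ) := by
  obtain ⟨q, rfl | rfl⟩ := Int.eq_nat_or_neg j
  · simpa using rigid_nat γ q (-k) n hn
  · have h1 := rigid_nat γ q k n hn
    set D : ℝ := ((-(q : ℤ) : ℤ) : ℝ) * γ + k with hD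
    unfold Measure.real at h1 ⊢
    rw [← measure_preimage_add_right volume (-(D : UnitAddCircle))] at h1
    have h2 : |((-(q : ℤ) : ℤ) : ℝ)| = q := by simp
    rw [h2]
    refine le_trans (le_of_eq (congrArg (fun s => (volume s).toReal) (Set.ext fun z => ?_))) h1
    have h3 := Mn_add_arc γ D (q * γ - k) n z
    rw [show D + (q * γ - k) = 0 by rw [hD]; push_cast; ring, Mn_arc_zero,
      sub_eq_add_neg z] at h3
    simp only [Set.mem_ofPred_eq, Set.mem_preimage]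
    rw [eq_neg_of_add_eq_zero_left h3.symm, ← abs_neg,
      show (q : ℝ) * γ - k = -D by rw [hD]; push_cast; ring]
    push_cast
    ring_nf

theorem kesten_pure {γ D : ℝ} (hγ : Irrational γ) (hD : D ∈ Set.Ioo (0 : ℝ) 1) {j k : ℤ}
    (hjk : D = j * γ + k) {μ : Measure ℝ} (hμ : IsFourierTransform (stair γ hD).eta μ) :
    μ {s | μ {s} ≠ 0}ᶜ = 0 := by
  refine (stair γ hD).pr_rigid hγ hμ fun ε hε =>
    ⟨ε / (2 * (|(j : ℝ)| + 1)), by positivity, fun n hn => ?_⟩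
  set κ := ε / (2 * (|(j : ℝ)| + 1)) with hκ
  have hκ1 : |(j : ℝ)| * (2 * κ) ≤ ε := by
    rw [hκ, ← mul_div_assoc, ← mul_div_assoc, div_le_iff₀ (by positivity)]
    nlinarith
  have h3 := rigid_int γ j k n (κ := κ) (by exact_mod_cast hn)
  rw [← hjk] at h3
  refine le_trans (measureReal_mono fun z hz => ?_) (h3.trans hκ1)
  simp only [Set.mem_ofPred_eq] at hz ⊢
  have hs := sqrt_pos D
  have h5 := sq_W D
  rw [LP.stair_F, LP.stair_mean] at hz
  generalize √((1 - D) ^ 2 + D ^ 2) = W at *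
  generalize (Mn γ D n z : ℝ) = M at *
  have h8 : 1 / 2 ≤ W := by nlinarith [sq_nonneg (2 * D - 1)]
  have h9 : ((1 - D) * ((n : ℤ) : ℝ) + (2 * D - 1) * M) / W - n * W =
      (2 * D - 1) * (M - ((n : ℤ) : ℝ) * D) / W := by
    push_cast
    field_simp
    linear_combination (-(n : ℝ)) * h5
  rw [h9, abs_div, abs_mul, abs_of_pos hs, lt_div_iff₀ hs] at hz
  have h10 : |2 * D - 1| * |M - ((n : ℤ) : ℝ) * D| ≤ |M - ((n : ℤ) : ℝ) * D| :=
    mul_le_of_le_one_left (abs_nonneg _) (abs_le.mpr ⟨by linarith [hD.1], by linarith [hD.2]⟩)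
  nlinarith

end Pool.Agent.P.MP_23b0f8_an.LR
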