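import Mathlib
import Pool.Agent.P.MP_23b0f8_an.PR3

/-! Stability of the mass carried by finitely many atoms. -/

open Filter Topology MeasureTheory
open scoped FourierTransform

namespace Pool.Agent.P.MP_23b0f8_an.LR

attribute [local instance] probCircle

theorem finite_mass {μ : Measure ℝ} {C : Set ℝ} (hC : C.Countable) (h0 : μ Cᶜ = 0) {h : ℝ → ℝ}
    (hi : Integrable h μ) {y : ℝ} (hy : y < ∫ v, h v ∂μ) :
    ∃ F : Finset ℝ, y < ∑ s ∈ F, μ.real {s} * h s := by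
  obtain ⟨x, hx⟩ := (hC.insert 0).exists_eq_range (Set.insert_nonempty _ _)
  have h1 := tendsto_setIntegral_of_monotone (μ := μ) (f := h)
    (s := fun n : ℕ => (((Finset.range n).image x : Finset ℝ) : Set ℝ))
    (fun n => Finset.measurableSet _)
    (fun m n hmn => Finset.coe_subset.mpr (Finset.image_subset_image (Finset.range_mono hmn)))
    hi.integrableOn
  rw [Measure.restrict_eq_self_of_ae_mem (by
    rw [ae_iff]
    refine measure_mono_null (t := Cᶜ) (fun v hv hv' => hv ?_) h0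
    obtain ⟨n, rfl⟩ : v ∈ Set.range x := hx ▸ Set.mem_insert_of_mem 0 hv'
    exact Set.mem_iUnion.mpr ⟨n + 1, by
      simpa using ⟨n, le_rfl, rfl⟩⟩)] at h1
  obtain ⟨n, hn⟩ := (h1.eventually_const_lt hy).exists
  rw [setIntegral_finset _ hi.integrableOn] at hn
  exact ⟨_, hn⟩

theorem sum_le_mass {μ : Measure ℝ} {h : ℝ → ℝ} (hi : Integrable h μ) (h0 : ∀ v, 0 ≤ h v)
    (F : Finset ℝ) : ∑ s ∈ F, μ.real {s} * h s ≤ ∫ v in {s | μ {s} ≠ 0}, h v ∂μ := by
  refine (setIntegral_finset F hi.integrableOn).symm.trans_le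
    (setIntegral_mono_set hi.integrableOn (.of_forall h0) (ae_le_set.mpr ?_))
  rw [← Set.biUnion_of_singleton ((F : Set ℝ) \ {s | μ {s} ≠ 0}),
    measure_biUnion_null_iff (F.countable_toSet.mono Set.sdiff_subset)]
  intro s hs
  simpa using hs.2

theorem stable {γ : ℝ} (hγ : Irrational γ) (J : ℕ) (L : ℤ) (hD : J * γ - L ∈ Set.Ioo (0 : ℝ) 1)
    (g : SchwartzMap ℝ ℂ) {h : ℝ → ℝ} (hgh : ∀ v, (𝓕⁻ g : SchwartzMap ℝ ℂ) v = (h v : ℂ))
    (h0 : ∀ v, 0 ≤ h v) (gs : ∀ x, (stair γ hD).α ≤ |x| → g x = 0) {ε : ℝ} (hε : 0 < ε) :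
    ∃ (F : Finset ℝ) (τ : ℝ), 0 < τ ∧ ∀ (D' : ℝ) (hD' : D' ∈ Set.Ioo (0 : ℝ) 1),
      |D' - (J * γ - L)| ≤ τ →
      (∀ Z ∈ F, ∃ Z', |Z' - Z| ≤ τ ∧ ∀ n, RelN γ (J * γ - L) Z D' Z' τ n) →
      ∀ μ, IsFourierTransform (stair γ hD').eta μ →
        (stair γ hD').mean⁻¹ * (g 0).re - ε ≤ ∫ v in {s | μ {s} ≠ 0}, h v ∂μ := by
  obtain ⟨C₀, hC₀⟩ := pr_cmp
  obtain ⟨μ₀, hμ₀⟩ := (stair γ hD).exists_fourierTransform
  have := hμ₀.2.1
  obtain ⟨F, hF⟩ := finite_mass (pr_countable μ₀)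
    (kesten_pure hγ hD (j := J) (k := -L) (by push_cast; ring) hμ₀)
    ((stair γ hD).pp_hint hμ₀ g hgh) (y := (stair γ hD).mean⁻¹ * (g 0).re - ε) (by
      rw [(stair γ hD).pp_zero hμ₀ g hgh gs]
      linarith)
  have hc : Continuous h := by
    have h1 : h = fun v => ((𝓕⁻ g : SchwartzMap ℝ ℂ) v).re := funext fun v => by simp [hgh]
    rw [h1]
    exact Complex.continuous_re.comp (𝓕⁻ g : SchwartzMap ℝ ℂ).continuous
  generalize J * γ - L = D at *
  set W : ℝ → ℝ := fun D => √((1 - D) ^ 2 + D ^ 2) with hW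
  have hW0 : ∀ D, 0 < W D := sqrt_pos
  have hWc : Continuous W := by fun_prop
  have hm : ∀ {D} (hD : D ∈ Set.Ioo (0 : ℝ) 1), (stair γ hD).mean = W D := LP.stair_mean γ
  rw [hm] at hF
  set η := (∑ s ∈ F, μ₀.real {s} * h s - ((W D)⁻¹ * (g 0).re - ε)) / (F.card + 1) with hη
  have hη0 : 0 < η := div_pos (by linarith) (by positivity)
  have a1 : ∀ᶠ r in 𝓝 (0 : ℝ), ∀ s ∈ F, Metric.closedBall (D, s * W D, (0 : ℝ)) r ⊆
      {p | μ₀.real {s} * h s - η <
        (W D ^ 2 * μ₀.real {s} - C₀ * p.2.2) / W p.1 ^ 2 * h (p.2.1 / W p.1)} := by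
    refine (eventually_all_finset F).mpr fun s _ => eventually_closedBall_subset ?_
    refine IsOpen.mem_nhds (isOpen_lt continuous_const (Continuous.mul
      (Continuous.div (by fun_prop) (by fun_prop) fun p => (pow_pos (hW0 _) 2).ne')
      (hc.comp (Continuous.div (by fun_prop) (by fun_prop) fun p => (hW0 _).ne')))) ?_
    have := hW0 D
    simp only [Set.mem_ofPred_eq, mul_zero, sub_zero, mul_div_cancel_right₀ _ this.ne',
      mul_div_cancel_left₀ _ (pow_pos this 2).ne']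
    linarith
  have a2 : ∀ᶠ r in 𝓝 (0 : ℝ), Metric.closedBall D r ⊆
      {x | (W x)⁻¹ * (g 0).re < (W D)⁻¹ * (g 0).re + η} :=
    eventually_closedBall_subset (IsOpen.mem_nhds (isOpen_lt
      ((hWc.inv₀ fun x => (hW0 x).ne').mul continuous_const) continuous_const) (by
        simp only [Set.mem_ofPred_eq]
        linarith))
  have a3 : ∀ᶠ r in 𝓝 (0 : ℝ), ∀ s ∈ F, ∀ s' ∈ F, s ≠ s' → r < |s * W D - s' * W D| / 2 := by
    refine (eventually_all_finset F).mpr fun s _ => (eventually_all_finset F).mpr fun s' _ => ?_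
    by_cases hs : s = s'
    · simp [hs]
    · have : 0 < |s * W D - s' * W D| / 2 := half_pos (abs_pos.mpr (sub_ne_zero.mpr
        fun e => hs (mul_right_cancel₀ (hW0 D).ne' e)))
      filter_upwards [eventually_lt_nhds this] with r hr _ using hr
  obtain ⟨τ, ⟨b1, b2, b3⟩, hτ⟩ := (((a1.and (a2.and a3)).filter_mono
    (nhdsWithin_le_nhds (s := Set.Ioi 0))).and self_mem_nhdsWithin).exists
  have hτ0 : 0 < τ := hτ
  refine ⟨F.image (· * W D), τ, hτ0, fun D' hD' h1 h2 μ hμ => ?_⟩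
  choose! T hT using h2
  replace hT := fun s (hs : s ∈ F) => hT _ (Finset.mem_image_of_mem (· * W D) hs)
  refine le_trans ?_ (sum_le_mass ((stair γ hD').pp_hint hμ g hgh) h0
    (F.image fun s => T (s * W D) / W D'))
  rw [Finset.sum_image fun s hs s' hs' e => by
    by_contra hne
    have c1 := b3 s hs s' hs' hne
    have c2 : T (s * W D) = T (s' * W D) := (div_left_inj' (hW0 D').ne').mp e
    have c3 := abs_sub_le (s * W D) (T (s * W D)) (s' * W D)
    rw [abs_sub_comm _ (T (s * W D))] at c3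
    have c4 := (hT s' hs').1
    rw [← c2] at c4
    linarith [(hT s hs).1]]
  have c5 : ∀ s ∈ F, μ₀.real {s} * h s - η ≤
      μ.real {T (s * W D) / W D'} * h (T (s * W D) / W D') := by
    intro s hs
    have d1 : μ₀.real {s} * h s - η <
        (W D ^ 2 * μ₀.real {s} - C₀ * τ) / W D' ^ 2 * h (T (s * W D) / W D') :=
      b1 s hs (a := (D', T (s * W D), τ)) (by
        simp only [Metric.mem_closedBall, Prod.dist_eq, Real.dist_eq, sub_zero, max_le_iff]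
        exact ⟨h1, (hT s hs).1, (abs_of_pos hτ0).le⟩)
    refine d1.le.trans (mul_le_mul_of_nonneg_right ?_ (h0 _))
    have d2 := hC₀ hγ (stair γ hD') (stair γ hD) hμ hμ₀ (s := T (s * W D) / W D')
      (s₀ := s * W D / W D) hτ0.le fun k => by
        simp only [hW, phase_eq]
        exact (hT s hs).2 k
    rw [hm, hm, mul_div_cancel_right₀ _ (hW0 D).ne'] at d2
    rw [div_le_iff₀ (pow_pos (hW0 D') 2)]
    linarith
  have c6 := Finset.sum_le_sum c5
  have c7 : (W D')⁻¹ * (g 0).re < (W D)⁻¹ * (g 0).re + η := b2 (by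
    rw [Metric.mem_closedBall, Real.dist_eq]; exact h1)
  have c8 : η * (F.card + 1) = ∑ s ∈ F, μ₀.real {s} * h s - ((W D)⁻¹ * (g 0).re - ε) :=
    div_mul_cancel₀ _ (by positivity)
  rw [Finset.sum_sub_distrib, Finset.sum_const, nsmul_eq_mul] at c6
  rw [hm]
  linarith

theorem track {γ D₁ : ℝ} {D ρ : ℕ → ℝ} {E : ℕ → Finset ℝ} (h0 : 0 ≤ D₁) (h1 : D₁ ≤ 1)
    (hD : Tendsto D atTop (𝓝 D₁)) (hρ0 : ∀ m, 0 < ρ m) (hρ : ∀ m, ρ (m + 1) ≤ ρ m / 2)
    (hE : ∀ m, ∀ Z ∈ E m, ∃ Z' ∈ E (m + 1), |Z' - Z| ≤ ρ m / 2 ∧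
      ∀ n, RelN γ (D m) Z (D (m + 1)) Z' (ρ m / 2) n) (m : ℕ) :
    ∀ Z ∈ E m, ∃ Z', |Z' - Z| ≤ 2 * ρ m ∧ ∀ n, RelN γ (D m) Z D₁ Z' (2 * ρ m) n := by
  intro Z hZ
  choose! T hT using hE
  obtain ⟨y, hy0, hy⟩ : ∃ y : ℕ → ℝ, y 0 = Z ∧ ∀ i, y (i + 1) = T (m + i) (y i) :=
    ⟨fun i => Nat.rec Z (fun i w => T (m + i) w) i, rfl, fun _ => rfl⟩
  have a1 : ∀ i, y i ∈ E (m + i) := fun i => by
    induction i with
    | zero => rwa [hy0]
    | succ i ih => exact hy i ▸ (hT _ _ ih).1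
  have a2 : ∀ i n, RelN γ (D m) Z (D (m + i)) (y i) (ρ m - ρ (m + i)) n := fun i n => by
    induction i with
    | zero => simpa [hy0] using RelN.refl γ (D m) Z le_rfl n
    | succ i ih =>
      rw [hy, ← add_assoc]
      exact (ih.trans ((hT _ _ (a1 i)).2.2 n)).mono (by linarith [hρ (m + i)])
  obtain ⟨Z', b1, b2⟩ := fast (a := y) (c := fun i => ρ (m + i) / 2)
    (fun i => by have := hρ (m + i); simp only [← add_assoc]; linarith)
    fun i => hy i ▸ (hT _ _ (a1 i)).2.1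
  refine ⟨Z', ?_, fun n => ?_⟩
  · have := b2 0
    rw [hy0, add_zero] at this
    linarith [hρ0 m]
  · obtain ⟨K, hK⟩ := (near (γ := γ) h0 h1 (hD.comp (tendsto_atTop_mono
      (fun i => Nat.le_add_left i m) tendsto_id)) b1 (hρ0 m) n).exists
    exact ((a2 K n).trans hK).mono (by linarith [hρ0 (m + K)])

end Pool.Agent.P.MP_23b0f8_an.LR
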