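import Mathlib
import Pool.Agent.P.MP_23b0f8_an.PR4

/-! A continuum of arcs with pure point diffraction. -/

open Filter Topology MeasureTheory
open scoped FourierTransform

namespace Pool.Agent.P.MP_23b0f8_an.LR

attribute [local instance] probCircle

theorem init {γ : ℝ} (hγ : Irrational γ)
    (hU : ∀ ω > 0, ∃ (q : ℕ) (p : ℤ), 0 < q ∧ IsCoprime (q : ℤ) p ∧ q * |q * γ - p| < ω)
    {x ρ : ℝ} (hρ : 0 < ρ) (h0 : 0 ≤ x) (h1 : x ≤ 1) :
    ∃ (J : ℕ) (L : ℤ), |J * γ - L - x| ≤ ρ := by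
  obtain ⟨q, p, hq, -, hθ⟩ := hU ρ hρ
  have hq' : (1 : ℝ) ≤ q := by exact_mod_cast hq
  have hθ0 : q * γ - p ≠ 0 := sub_ne_zero.2 ((hγ.natCast_mul hq.ne').ne_int p)
  have h2 : |q * γ - p| ≤ ρ := (le_mul_of_one_le_left (abs_nonneg _) hq').trans hθ.le
  have key : ∀ θ y : ℝ, 0 < θ → 0 ≤ y → ∃ i : ℕ, |i * θ - y| ≤ θ := by
    intro θ y hθ hy
    have a1 := Nat.le_ceil (y / θ)
    have a2 := (Nat.ceil_lt_add_one (div_nonneg hy hθ.le)).le
    rw [div_le_iff₀ hθ] at a1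
    rw [← sub_le_iff_le_add, le_div_iff₀ hθ] at a2
    exact ⟨⌈y / θ⌉₊, abs_le.mpr ⟨by linarith, by linarith⟩⟩
  rcases lt_or_gt_of_ne hθ0 with h | h
  · obtain ⟨i, hi⟩ := key (-(q * γ - p)) (1 - x) (by linarith) (by linarith)
    refine ⟨i * q, i * p - 1, ?_⟩
    rw [abs_of_neg h] at h2
    refine le_trans (le_of_eq ?_) (hi.trans h2)
    rw [← abs_neg]
    push_cast
    ring_nf
  · obtain ⟨i, hi⟩ := key (q * γ - p) x h h0
    refine ⟨i * q, i * p, ?_⟩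
    rw [abs_of_pos h] at h2
    refine le_trans (le_of_eq ?_) (hi.trans h2)
    push_cast
    ring_nf

theorem alpha_ge (γ : ℝ) {D ρ : ℝ} (hD : D ∈ Set.Ioo (0 : ℝ) 1) (h0 : ρ ≤ D) (h1 : ρ ≤ 1 - D) :
    ρ ≤ (stair γ hD).α := by
  have hs := sqrt_pos D
  have h2 := sq_W D
  have h3 : √((1 - D) ^ 2 + D ^ 2) ≤ 1 := by nlinarith [mul_pos hD.1 (sub_pos.mpr hD.2)]
  exact (le_min h0 h1).trans (le_div_self (le_min hD.1.le (sub_pos.mpr hD.2).le) hs h3)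

theorem cantor {γ : ℝ} (hγ : Irrational γ)
    (hU : ∀ ω > 0, ∃ (q : ℕ) (p : ℤ), 0 < q ∧ IsCoprime (q : ℤ) p ∧ q * |q * γ - p| < ω)
    {a b : ℝ} (ha : 0 ≤ a) (hab : a < b) (hb : b ≤ 1) : ∃ Φ : (ℕ → Bool) → ℝ, Φ.Injective ∧
      ∀ ω, Φ ω ∈ Set.Ioo a b ∧ ∀ x₀, DiffractionCondition (circleSeq (Φ ω) γ x₀) ∧
        ∀ η μ : Measure ℝ, IsAutocorrelation (circleSeq (Φ ω) γ x₀) η → IsFourierTransform η μ →
          μ {s : ℝ | μ {s} = 0} = 0 := by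
  set ρ₀ := (b - a) / 8 with hρ₀
  have p0 : 0 < ρ₀ := by linarith
  obtain ⟨J₀, L₀, hD₀⟩ := init hγ hU (x := (a + b) / 2) p0 (by linarith) (by linarith)
  have hD₁ := abs_le.mp hD₀
  set D₀ := J₀ * γ - L₀ with hD₀def
  obtain ⟨B, hB⟩ := pp_test
  choose g h g0 gs g1 h0 hp hb' hgh using fun R : ℕ => hB ρ₀ (R + 1) p0 (by positivity)
  let P : ℝ × Finset ℝ × ℝ → Prop := fun x => (∃ (J : ℕ) (L : ℤ), x.1 = J * γ - L) ∧ 0 < x.2.2 ∧
    |x.1 - D₀| + x.2.2 ≤ ρ₀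
  let Q : ℕ → ℝ × Finset ℝ × ℝ → Prop := fun k y => ∀ (D' : ℝ) (hD' : D' ∈ Set.Ioo (0 : ℝ) 1),
    |D' - y.1| ≤ 2 * y.2.2 →
    (∀ Z ∈ y.2.1, ∃ Z', |Z' - Z| ≤ 2 * y.2.2 ∧ ∀ n, RelN γ y.1 Z D' Z' (2 * y.2.2) n) →
    ∀ μ, IsFourierTransform (stair γ hD').eta μ →
      (stair γ hD').mean⁻¹ * (g k.unpair.1 0).re - 1 / (k.unpair.2 + 1) ≤
        ∫ v in {s | μ {s} ≠ 0}, h k.unpair.1 v ∂μ
  have step : ∀ k x, P x → ∃ y : Bool → ℝ × Finset ℝ × ℝ, (∀ β, P (y β) ∧ Q k (y β) ∧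
      |(y β).1 - x.1| ≤ x.2.2 / 2 ∧ (y β).2.2 ≤ x.2.2 / 2 ∧
        ∀ Z ∈ x.2.1, ∃ Z' ∈ (y β).2.1, |Z' - Z| ≤ x.2.2 / 2 ∧
          ∀ n, RelN γ x.1 Z (y β).1 Z' (x.2.2 / 2) n) ∧
      ∀ β β', β ≠ β' → (y β).2.2 + (y β').2.2 < |(y β).1 - (y β').1| := by
    rintro k ⟨D, E, ρ⟩ ⟨⟨J, L, rfl⟩, h1, h2⟩
    simp only at h1 h2 ⊢
    have h6 := abs_nonneg (J * γ - L - D₀)
    have fin : ∀ (J' : ℕ) (L' : ℤ) (E' : Finset ℝ) (ρ' : ℝ), 0 < ρ' → ρ' ≤ ρ / 2 →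
        |J' * γ - L' - (J * γ - L)| ≤ ρ / 2 → ∃ (E'' : Finset ℝ) (ρ'' : ℝ), E' ⊆ E'' ∧ ρ'' ≤ ρ' ∧
          P (J' * γ - L', E'', ρ'') ∧ Q k (J' * γ - L', E'', ρ'') := by
      intro J' L' E' ρ' a7 a5 a2
      have a3 := abs_sub_le (J' * γ - L') (J * γ - L) D₀
      have a4 := abs_le.mp (by linarith : |J' * γ - L' - D₀| ≤ ρ₀)
      have hI : J' * γ - L' ∈ Set.Ioo (0 : ℝ) 1 := ⟨by linarith, by linarith⟩
      obtain ⟨F, τ, hτ, H⟩ := stable hγ J' L' hI (g k.unpair.1) (hgh _) (h0 _)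
        (fun x hx => gs _ x ((alpha_ge γ hI (by linarith) (by linarith)).trans hx))
        (ε := 1 / (k.unpair.2 + 1)) (by positivity)
      have a6 := min_le_left ρ' (τ / 2)
      have a8 := min_le_right ρ' (τ / 2)
      refine ⟨E' ∪ F, min ρ' (τ / 2), Finset.subset_union_left, a6,
        ⟨⟨J', L', rfl⟩, lt_min a7 (half_pos hτ), by simp only; linarith⟩,
        fun D' hD' c1 c2 => H D' hD' (c1.trans (by simp only; linarith)) fun Z hZ => ?_⟩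
      obtain ⟨Z', c3, c4⟩ := c2 Z (Finset.mem_union_right _ hZ)
      exact ⟨Z', c3.trans (by simp only; linarith), fun n => (c4 n).mono (by simp only; linarith)⟩
    obtain ⟨J', L', T, a1, a2, a3⟩ := move hγ hU J L E (half_pos h1) (by linarith)
    have a4 := abs_pos.2 (sub_ne_zero.2 a1)
    have a0 : |J * γ - L - (J * γ - L)| ≤ ρ / 2 := by simpa using (half_pos h1).le
    obtain ⟨E₁, ρ₁, b1, b2, b3, b4⟩ := fin J' L' (E.image T) (|J' * γ - L' - (J * γ - L)| / 3)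
      (by positivity) (by linarith) a2
    obtain ⟨E₂, ρ₂, c1, c2, c3, c4⟩ := fin J L E (|J' * γ - L' - (J * γ - L)| / 3)
      (by positivity) (by linarith) a0
    refine ⟨fun β => cond β _ _, fun β => Bool.rec
      ⟨c3, c4, a0, by simp only [cond]; linarith, fun Z hZ => ⟨Z, c1 hZ,
        by simpa using (half_pos h1).le, RelN.refl _ _ _ (half_pos h1).le⟩⟩
      ⟨b3, b4, a2, by simp only [cond]; linarith, fun Z hZ =>
        ⟨T Z, b1 (Finset.mem_image_of_mem T hZ), a3 Z hZ⟩⟩ β, ?_⟩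
    rintro (_ | _) (_ | _) h <;> simp only [cond, ne_eq, not_true] at h ⊢
    · rw [abs_sub_comm (J * γ - L)]
      linarith
    · linarith
  choose! f hf hf' using step
  obtain ⟨x, hx0, hx⟩ : ∃ x : (ℕ → Bool) → ℕ → ℝ × Finset ℝ × ℝ, (∀ ω, x ω 0 = (D₀, ∅, ρ₀)) ∧
      ∀ ω n, x ω (n + 1) = f n (x ω n) (ω n) :=
    ⟨fun ω n => Nat.rec (D₀, ∅, ρ₀) (fun n y => f n y (ω n)) n, fun _ => rfl, fun _ _ => rfl⟩
  have hP : ∀ ω n, P (x ω n) := fun ω n => by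
    induction n with
    | zero =>
      rw [hx0]
      exact ⟨⟨J₀, L₀, rfl⟩, p0, by simp⟩
    | succ n ih => exact hx ω n ▸ (hf n _ ih _).1
  have hR := fun ω n => (hf n _ (hP ω n) (ω n)).2
  simp only [← hx] at hR
  have hρ : ∀ ω n, (x ω (n + 1)).2.2 / 2 ≤ (x ω n).2.2 / 2 / 2 := fun ω n => by
    linarith [(hR ω n).2.2.1]
  choose Φ hD hD' using fun ω => fast (a := fun n => (x ω n).1) (hρ ω) fun n => (hR ω n).2.1
  refine ⟨Φ, fun ω ω' e => ?_, fun ω => ?_⟩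
  · have key : ∀ n, x ω n = x ω' n → ω n = ω' n := fun n h => by
      by_contra hcon
      have h1 := hf' n _ (hP ω n) _ _ hcon
      rw [← hx, h, ← hx] at h1
      have h2 := hD' ω (n + 1)
      rw [e, abs_sub_comm] at h2
      linarith [hD' ω' (n + 1), abs_sub_le (x ω (n + 1)).1 (Φ ω') (x ω' (n + 1)).1]
    refine funext fun n => key n ?_
    induction n with
    | zero => rw [hx0, hx0]
    | succ n ih => rw [hx, hx, key n ih, ih]
  have h2 : |Φ ω - D₀| ≤ ρ₀ := by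
    have := hD' ω 0
    simp only [hx0] at this
    linarith
  have h1 := abs_le.1 h2
  have hI : Φ ω ∈ Set.Ioo (0 : ℝ) 1 := ⟨by linarith, by linarith⟩
  refine ⟨⟨by linarith, by linarith⟩, fun x₀ => ?_⟩
  rw [circleSeq_eq γ hI]
  refine (stair γ hI).pr_diffraction hγ _ fun μ hμ => ?_
  have := hμ.2.1
  have hC := (pr_countable μ).measurableSet
  refine pr_null hC.compl fun R => ?_
  have hi := (stair γ hI).pp_hint hμ (g R) (hgh R)
  refine ⟨h R, hi, h0 R, hp R, le_of_forall_pos_le_add fun ε hε => ?_⟩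
  obtain ⟨j, hj⟩ := exists_nat_one_div_lt hε
  have h3 := (hR ω (Nat.pair R j)).1 (Φ ω) hI
    (by linarith [hD' ω (Nat.pair R j + 1), (hP ω (Nat.pair R j + 1)).2.1])
    (track (D := fun n => (x ω n).1) (ρ := fun n => (x ω n).2.2) (E := fun n => (x ω n).2.1)
      hI.1.le hI.2.le (hD ω) (fun n => (hP ω n).2.1) (fun n => (hR ω n).2.2.1)
      (fun n => (hR ω n).2.2.2) _) μ hμ
  rw [Nat.unpair_pair] at h3
  have h4 := (stair γ hI).pp_zero hμ (g R) (hgh R)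
    fun x hx => gs _ x ((alpha_ge γ hI (by linarith) (by linarith)).trans hx)
  have h5 := integral_add_compl hC hi
  simp only at h3
  linarith

theorem continuum {γ a b : ℝ} (hγ : Irrational γ)
    (hcon : ¬ ∃ c : ℝ, 0 < c ∧ ∀ (q : ℕ) (p : ℤ), 0 < q → c / q ≤ |q * γ - p|)
    (ha : 0 ≤ a) (hab : a < b) (hb : b ≤ 1) :
    Cardinal.mk {D : ℝ | D ∈ Set.Ioo a b ∧ (¬ ∃ r s : ℚ, D = r * γ + s) ∧
      ∀ x₀ : ℝ, DiffractionCondition (circleSeq D γ x₀) ∧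
        ∀ η μ : Measure ℝ, IsAutocorrelation (circleSeq D γ x₀) η → IsFourierTransform η μ →
          μ {s : ℝ | μ {s} = 0} = 0} = Cardinal.continuum := by
  push Not at hcon
  obtain ⟨Φ, h1, h2⟩ := cantor hγ (fun ω hω => by
    obtain ⟨q, p, hq, h⟩ := hcon ω hω
    obtain ⟨g, q', p', hg, cop, e1, e2⟩ := Int.exists_gcd_one' (m := q) (n := p)
      (Int.gcd_pos_of_ne_zero_left _ (by omega))
    have hq' : 0 < q' := pos_of_mul_pos_left (by omega : 0 < q' * g) (by omega)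
    lift q' to ℕ using hq'.le
    refine ⟨q', p', by exact_mod_cast hq', Int.isCoprime_iff_gcd_eq_one.2 cop, ?_⟩
    have e3 : (q : ℝ) = q' * g := by exact_mod_cast e1
    have hg' : (1 : ℝ) ≤ g := by exact_mod_cast hg
    rw [lt_div_iff₀ (by exact_mod_cast hq), e3, e2, Int.cast_mul, Int.cast_natCast,
      mul_right_comm, ← sub_mul, abs_mul, Nat.abs_cast] at h
    have : 0 ≤ q' * |q' * γ - p'| := by positivity
    nlinarith [mul_le_mul_of_nonneg_left (one_le_mul_of_one_le_of_one_le hg' hg') this])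
    ha hab hb
  refine le_antisymm ((Cardinal.mk_set_le _).trans_eq Cardinal.mk_real) (not_lt.1 fun hlt => ?_)
  have h3 := (Set.countable_range fun x : ℚ × ℚ => (x.1 : ℝ) * γ + x.2).le_aleph0.trans_lt
    Cardinal.aleph0_lt_continuum
  refine (Cardinal.add_lt_of_lt Cardinal.aleph0_le_continuum hlt h3).not_ge
    (le_trans (le_trans ?_ (Cardinal.mk_le_mk_of_subset (s := Set.range Φ) ?_))
      (Cardinal.mk_union_le _ _))
  · rw [Cardinal.mk_range_eq Φ h1]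
    simp
  · rintro _ ⟨ω, rfl⟩
    by_cases e2 : ∃ r s : ℚ, Φ ω = r * γ + s
    · obtain ⟨r, s, e⟩ := e2
      exact Or.inr ⟨(r, s), e.symm⟩
    · exact Or.inl ⟨(h2 ω).1, e2, (h2 ω).2⟩

theorem sufficient {γ D : ℝ} (hγ : Irrational γ) (hD : D ∈ Set.Ioo (0 : ℝ) 1)
    (h : ∃ j k : ℤ, D = j * γ + k) (x₀ : ℝ) : DiffractionCondition (circleSeq D γ x₀) ∧
      ∀ η μ : Measure ℝ, IsAutocorrelation (circleSeq D γ x₀) η → IsFourierTransform η μ →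
        μ {s : ℝ | μ {s} = 0} = 0 := by
  obtain ⟨j, k, h⟩ := h
  rw [circleSeq_eq γ hD]
  exact (stair γ hD).pr_diffraction hγ _ fun μ hμ => kesten_pure hγ hD h hμ

end Pool.Agent.P.MP_23b0f8_an.LR
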